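import Pool.Agent.Lib.RG.Base

/-! Block AREA: the area inequality with multiplicity. -/

set_option autoImplicit false

open Set Filter Topology Metric MeasureTheory Matrix
open scoped ContDiff ENNReal

namespace Pool.Agent.Lib.RG

open Pool.Agent.Lib.MP_3eff7f_gt
open Pool.Agent.Lib.MP_3eff7f_gt_h14 (pd Chr chartVec GeodEq MF bil bil_apply bil_symm bil_single
  bil_eq_sum)

namespace AREA

theorem meas_inter {X Y : Type} [TopologicalSpace X] [MeasurableSpace X] [OpensMeasurableSpace X]
    [TopologicalSpace Y] [MeasurableSpace Y] [BorelSpace Y] {g : X → Y} {U : Set X}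
    (hU : MeasurableSet U) (hg : ContinuousOn g U) {T : Set Y} (hT : MeasurableSet T) :
    MeasurableSet (U ∩ g ⁻¹' T) := by
  have := (MeasurableEmbedding.subtype_coe hU).measurableSet_image' (hg.domRestrict.measurable hT)
  have e : U ∩ g ⁻¹' T = Subtype.val '' (U.domRestrict g ⁻¹' T) := by
    ext x
    simp only [mem_inter_iff, mem_preimage, mem_image, Subtype.exists,
      exists_and_right, exists_eq_right]
    tauto
  rwa [e]

theorem wimage {n : ℕ} {g : V n → V n} {P : Set (V n)} (hP : MeasurableSet P)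
    (hd : ∀ x ∈ P, DifferentiableAt ℝ g x) {ρ : V n → ℝ≥0∞} (hρ : Measurable ρ) :
    ∫⁻ y in g '' P, ρ y ≤ ∫⁻ x in P, ENNReal.ofReal |(fderiv ℝ g x).det| * ρ (g x) := by
  have hc : ContinuousOn g P := fun x hx => (hd x hx).continuousAt.continuousWithinAt
  have hm : Measurable fun x => ENNReal.ofReal |(fderiv ℝ g x).det| :=
    ENNReal.measurable_ofReal.comp (continuous_abs.measurable.comp
      (ContinuousLinearMap.continuous_det.measurable.comp (measurable_fderiv ℝ g)))
  have ha : AEMeasurable g ((volume.restrict P).withDensity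
      fun x => ENNReal.ofReal |(fderiv ℝ g x).det|) :=
    (hc.aemeasurable hP).mono_ac (withDensity_absolutelyContinuous _ _)
  have hle : volume.restrict (g '' P) ≤ Measure.map g ((volume.restrict P).withDensity
      fun x => ENNReal.ofReal |(fderiv ℝ g x).det|) := by
    refine Measure.le_iff.2 fun T hT => ?_
    rw [Measure.restrict_apply hT, Measure.map_apply_of_aemeasurable ha hT, withDensity_apply',
      Measure.restrict_restrict' hP, inter_comm T, ← image_inter_preimage, inter_comm _ P]
    exact addHaar_image_le_lintegral_abs_det_fderiv volume (meas_inter hP hc hT)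
      fun x hx => (hd x hx.1).hasFDerivAt.hasFDerivWithinAt
  refine (lintegral_mono' hle le_rfl).trans ?_
  rw [lintegral_map' hρ.aemeasurable ha]
  exact lintegral_withDensity_le_lintegral_mul _ hm _

theorem mult {X M : Type} [MetricSpace X] [SecondCountableTopology X] [MeasurableSpace X]
    [BorelSpace X] [Inhabited X] [MeasurableSpace M] (ν : Measure X) (μ : Measure M) (f : X → M)
    {W : Set X} (hW : MeasurableSet W) (K : ℝ≥0∞) (N : ℕ)
    (hloc : ∀ v ∈ W, ∃ U, IsOpen U ∧ v ∈ U ∧
      ∀ P, MeasurableSet P → P ⊆ W ∩ U → μ (f '' P) ≤ K * ν P)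
    (hN : ∀ y, ∃ v : Fin N → X, Function.Injective v ∧ ∀ i, v i ∈ W ∧ f (v i) = y) :
    N * μ univ ≤ K * ν W := by
  let Y : ℕ → Set M := fun k => {y | ∃ v : Fin N → X,
    (∀ i j, i ≠ j → 1 / ((k : ℝ) + 1) < dist (v i) (v j)) ∧ ∀ i, v i ∈ W ∧ f (v i) = y}
  have hmono : Monotone Y := fun k l hkl y ⟨v, h1, h2⟩ =>
    ⟨v, fun i j hij => (Nat.one_div_le_one_div hkl).trans_lt (h1 i j hij), h2⟩
  have hU : ⋃ k, Y k = univ := by
    refine eq_univ_of_forall fun y => ?_
    obtain ⟨v, h1, h2⟩ := hN y
    have : ∀ᶠ k : ℕ in atTop, ∀ i j, i ≠ j → 1 / ((k : ℝ) + 1) < dist (v i) (v j) := by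
      refine eventually_all.2 fun i => eventually_all.2 fun j => ?_
      by_cases hij : i = j
      · exact Eventually.of_forall fun _ h => absurd hij h
      · filter_upwards [(tendsto_one_div_add_atTop_nhds_zero_nat (𝕜 := ℝ)).eventually
          (gt_mem_nhds (dist_pos.2 (h1.ne hij)))] with k hk _ using hk
    obtain ⟨k, hk⟩ := this.exists
    exact mem_iUnion.2 ⟨k, v, hk, h2⟩
  rw [← hU, hmono.measure_iUnion, ENNReal.mul_iSup]
  refine iSup_le fun k => ?_
  have hδ : (0 : ℝ) < 1 / ((k : ℝ) + 1) / 2 := by positivity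
  have h : ∀ x, ∃ U : Set X, IsOpen U ∧ U ⊆ ball x (1 / ((k : ℝ) + 1) / 2) ∧ (x ∈ W → x ∈ U) ∧
      ∀ P, MeasurableSet P → P ⊆ W ∩ U → μ (f '' P) ≤ K * ν P := by
    intro x
    by_cases hx : x ∈ W
    · obtain ⟨U, h1, h2, h3⟩ := hloc x hx
      exact ⟨U ∩ ball x _, h1.inter isOpen_ball, inter_subset_right,
        fun _ => ⟨h2, mem_ball_self hδ⟩,
        fun P hP hs => h3 P hP (hs.trans (inter_subset_inter_right _ inter_subset_left))⟩
    · refine ⟨∅, isOpen_empty, empty_subset _, fun h => absurd h hx, fun P _ hs => ?_⟩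
      rw [inter_empty, subset_empty_iff] at hs
      simp [hs]
  choose U hUo hUb hUm hUP using h
  obtain ⟨t, -, htc, ht⟩ := TopologicalSpace.countable_cover_nhdsWithin (s := W) (f := U)
    (fun x hx => mem_nhdsWithin_of_mem_nhds ((hUo x).mem_nhds (hUm x hx)))
  let B : ℕ → Set X := fun i => U (enumerateCountable htc default i)
  let P : ℕ → Set X := fun i => W ∩ disjointed B i
  have hPm : ∀ i, MeasurableSet (P i) := fun i =>
    hW.inter (MeasurableSet.disjointed (fun i => (hUo _).measurableSet) i)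
  have hPd : Pairwise (Function.onFun Disjoint P) := fun i j hij =>
    (disjoint_disjointed B hij).mono inter_subset_right inter_subset_right
  have hPU : ⋃ i, P i = W := by
    simp only [P, ← inter_iUnion, iUnion_disjointed]
    refine inter_eq_left.2 fun x hx => ?_
    obtain ⟨a, ha, hxa⟩ := mem_iUnion₂.1 (ht hx)
    obtain ⟨i, rfl⟩ := subset_range_enumerate htc default ha
    exact mem_iUnion.2 ⟨i, hxa⟩
  have hPs : ∀ i, P i ⊆ W ∩ B i := fun i => inter_subset_inter_right _ (disjointed_subset B i)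
  let Q : ℕ → Set M := fun i => toMeasurable μ (f '' P i)
  have hQ : ∀ i, Measurable ((Q i).indicator (1 : M → ℝ≥0∞)) := fun i =>
    measurable_one.indicator (measurableSet_toMeasurable _ _)
  calc (N : ℝ≥0∞) * μ (Y k)
      ≤ N * μ {y | (N : ℝ≥0∞) ≤ ∑' i, (Q i).indicator (1 : M → ℝ≥0∞) y} := by
        refine mul_le_mul_right (measure_mono ?_) _
        rintro y ⟨v, h1, h2⟩
        have : ∀ i, ∃ a, v i ∈ P a := fun i => mem_iUnion.1 (hPU ▸ (h2 i).1)
        choose a ha using this
        have hinj : Function.Injective a := fun i j hij => by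
          by_contra hne
          have e1 := hUb _ (hPs _ (ha i)).2
          have e2 := hUb _ (hPs _ (hij ▸ ha j)).2
          have e3 := dist_triangle_right (v i) (v j) (enumerateCountable htc default (a i))
          have e4 := h1 i j hne
          rw [mem_ball] at e1 e2
          linarith
        refine le_trans ?_ (ENNReal.tsum_comp_le_tsum_of_injective hinj
          fun i => (Q i).indicator (1 : M → ℝ≥0∞) y)
        have hy : ∀ i, y ∈ Q (a i) := fun i =>
          subset_toMeasurable μ (f '' P (a i)) ⟨v i, ha i, (h2 i).2⟩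
        simp [tsum_fintype, indicator_of_mem (hy _)]
    _ ≤ ∫⁻ y, ∑' i, (Q i).indicator (1 : M → ℝ≥0∞) y ∂μ :=
        mul_meas_ge_le_lintegral₀ (Measurable.tsum hQ).aemeasurable _
    _ = ∑' i, μ (f '' P i) := by
        rw [lintegral_tsum fun i => (hQ i).aemeasurable]
        exact tsum_congr fun i => by
          rw [lintegral_indicator_one (measurableSet_toMeasurable _ _), measure_toMeasurable]
    _ ≤ ∑' i, K * ν (P i) := ENNReal.tsum_le_tsum fun i => hUP _ _ (hPm i) (hPs i)
    _ = K * ν W := by rw [ENNReal.tsum_mul_left, ← measure_iUnion hPd hPm, hPU]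

theorem gram_det {n : ℕ} (G : MF n) {y : V n × ℝ → V n} {v : V n}
    (hy : DifferentiableAt ℝ y (v, 1)) :
    (gramc G y (v, 1)).det = (fderiv ℝ (fun w => y (w, 1)) v).det ^ 2 * (G (y (v, 1))).det := by
  have hd : fderiv ℝ (fun w => y (w, 1)) v =
      (fderiv ℝ y (v, 1)).comp (ContinuousLinearMap.inl ℝ (V n) ℝ) :=
    (hy.hasFDerivAt.comp v (hasFDerivAt_prodMk_left v (1 : ℝ))).fderiv
  set J := LinearMap.toMatrix' (fderiv ℝ (fun w => y (w, 1)) v : V n →ₗ[ℝ] V n) with hJ
  have e : gramc G y (v, 1) = Jᵀ * G (y (v, 1)) * J := by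
    ext i j
    simp only [gramc, pbc, Matrix.of_apply, bil_eq_sum, Matrix.mul_apply, Matrix.transpose_apply,
      hJ, LinearMap.toMatrix'_apply, hd, Finset.sum_mul]
    rw [Finset.sum_comm]
    refine Finset.sum_congr rfl fun a _ => Finset.sum_congr rfl fun b _ => ?_
    simp only [ContinuousLinearMap.coe_coe, ContinuousLinearMap.comp_apply,
      ContinuousLinearMap.inl_apply]
    ring
  rw [e, Matrix.det_mul, Matrix.det_mul, Matrix.det_transpose, hJ, LinearMap.det_toMatrix',
    ContinuousLinearMap.det]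
  ring

end AREA

open AREA in
theorem stAREA : St_AREA := by
  intro n M _ _ _ _ μ A x S R B c N hvol hc hRS hB hN
  have h1 : (1 : ℝ) ∈ Icc (0 : ℝ) 1 := ⟨zero_le_one, le_rfl⟩
  have hg : ContinuousOn (fun v => (gram A c (v, 1)).det) {v | nrm (A.G0 x) v < S} := by
    intro v hv
    obtain ⟨p, O, hu, hV⟩ := hc.val v 1 hv h1
    refine ContinuousAt.continuousWithinAt ?_
    refine (Continuous.matrix_det continuous_id).continuousAt.comp
      (continuousAt_pi.2 fun i => continuousAt_pi.2 fun j => ?_)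
    exact ContinuousAt.comp (f := fun v : V n => (v, (1 : ℝ)))
      (hV.contDiffAt_pb hu _ _).continuousAt (by fun_prop)
  have hW : MeasurableSet ({v | nrm (A.G0 x) v ≤ R} ∩ ({v | nrm (A.G0 x) v < S} ∩
      (fun v => (gram A c (v, 1)).det) ⁻¹' Iic ((A.G0 x).det * B ^ 2))) :=
    (isClosed_le (continuous_nrm _) continuous_const).measurableSet.inter
      (meas_inter (isOpen_nrm_lt _ _).measurableSet hg measurableSet_Iic)
  refine (mult volume μ (fun v => c (v, 1)) hW (ENNReal.ofReal (B * √(A.G0 x).det)) N ?_ ?_).trans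
    (mul_le_mul_right (measure_mono inter_subset_left) _)
  · rintro v ⟨-, hv, -⟩
    obtain ⟨p, O, hu, hV⟩ := hc.val v 1 hv h1
    refine ⟨(fun w : V n => (w, (1 : ℝ))) ⁻¹' O, hV.2.op.preimage (by fun_prop), hu,
      fun P hP hs => ?_⟩
    have hdy : ∀ w ∈ P, DifferentiableAt ℝ (fun z => A.e p (c z)) (w, 1) := fun w hw =>
      (hV.2.contDiffAt (hs hw).2).differentiableAt (by simp)
    have hd : ∀ w ∈ P, DifferentiableAt ℝ (fun w => A.e p (c (w, 1))) w := fun w hw =>
      (hdy w hw).comp w (f := fun w : V n => (w, (1 : ℝ))) (by fun_prop)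
    have hρ : Measurable fun y => ENNReal.ofReal √(A.G p y).det :=
      ENNReal.measurable_ofReal.comp (Continuous.matrix_det (continuous_pi fun i =>
        continuous_pi fun j => ((A.met p).sm i j).continuous)).sqrt.measurable
    set T := toMeasurable volume ((fun w => A.e p (c (w, 1))) '' P)
    have hT : MeasurableSet ((A.e p).source ∩ A.e p ⁻¹' T) :=
      meas_inter (A.e p).open_source.measurableSet (A.e p).continuousOn
        (measurableSet_toMeasurable _ _)
    calc μ ((fun v => c (v, 1)) '' P) ≤ μ ((A.e p).source ∩ A.e p ⁻¹' T) := by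
          refine measure_mono ?_
          rintro _ ⟨w, hw, rfl⟩
          exact ⟨hV.1 (hs hw).2, subset_toMeasurable _ _ ⟨w, hw, rfl⟩⟩
      _ ≤ ∫⁻ y in T, ENNReal.ofReal √(A.G p y).det := by
          rw [hvol p _ hT inter_subset_left]
          exact lintegral_mono_set ((image_mono inter_subset_right).trans
            (image_preimage_subset _ _))
      _ ≤ ∫⁻ w in P, ENNReal.ofReal |(fderiv ℝ (fun w => A.e p (c (w, 1))) w).det| *
            ENNReal.ofReal √(A.G p (A.e p (c (w, 1)))).det := by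
          rw [Measure.restrict_toMeasurable_of_sFinite]
          exact wimage hP hd hρ
      _ ≤ ∫⁻ _ in P, ENNReal.ofReal (B * √(A.G0 x).det) := by
          refine setLIntegral_mono' hP fun w hw => ?_
          rw [← ENNReal.ofReal_mul (abs_nonneg _)]
          refine ENNReal.ofReal_le_ofReal ?_
          have e : (gram A c (w, 1)).det ≤ (A.G0 x).det * B ^ 2 := (hs hw).1.2.2
          rw [hV.gram_eq (hs hw).2, gram_det _ (hdy w hw)] at e
          rw [← Real.sqrt_sq_eq_abs, ← Real.sqrt_mul (sq_nonneg _), ← Real.sqrt_sq hB,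
            ← Real.sqrt_mul (sq_nonneg _), mul_comm (B ^ 2)]
          exact Real.sqrt_le_sqrt e
      _ = _ := by rw [setLIntegral_const]
  · intro y
    obtain ⟨v, h2, h3⟩ := hN y
    exact ⟨v, h2, fun i => ⟨⟨(h3 i).1, (h3 i).1.trans_lt hRS, (h3 i).2.2⟩, (h3 i).2.1⟩⟩

end Pool.Agent.Lib.RG
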