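import Pool.Agent.Lib.RG.Base
import Pool.Agent.Lib.MP_3eff7f_gt.Unique
import Pool.Agent.Lib.MP_3eff7f_gt.Cover

/-! Assembly of the RG blocks. -/

set_option autoImplicit false

open Set Filter Topology Metric MeasureTheory Bundle
open scoped ContDiff ENNReal Manifold

namespace Pool.Agent.Lib.RG

open Pool.Agent.Lib.MP_3eff7f_gt
open Pool.Agent.Lib.MP_3eff7f_gt_h14 (bil)

/-- The curvature-free part. -/
theorem many (hWIN : St_WIN) (hCNT : St_CNT) (hMIN : St_MIN) (hLIFT : St_LIFT)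
    (hSHORT : St_SHORT) (hNUL : St_NUL) (hGLUE : St_GLUE)
    {X : Type} [MetricSpace X] [CompactSpace X] {r : ℝ} (G : GeoData X r) {d : ℝ} (hd : 0 ≤ d)
    (hcov : SmallCover X d) {x p : X} (hp : p ≠ x) (hch : ChainSurj X p) {D : ℝ}
    (hD : ∀ a b : X, dist a b ≤ D) (k m : ℕ) (hd1 : 1 ≤ d)
    (hno : ¬ HasShortGeodesic X (10 * d * 2 ^ m * (k + m + 3) * D)) (y : X) :
    ∃ (γ : Fin (k ^ 2 ^ m) → ℝ → X) (l : Fin (k ^ 2 ^ m) → ℝ), Function.Injective γ ∧
      ∀ i, l i ≤ (5 * 2 ^ m + 1) * D ∧ LocMin x y (l i) (γ i) := by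
  have hD0 : 0 < D := (dist_pos.2 hp).trans_le (hD p x)
  set j : ℝ := 2 ^ m with hj
  have hj1 : 1 ≤ j := one_le_pow₀ one_le_two
  have hk : (0 : ℝ) ≤ k := Nat.cast_nonneg k
  have hm : (0 : ℝ) ≤ m := Nat.cast_nonneg m
  have hjD : D ≤ j * D := le_mul_of_one_le_left hD0.le hj1
  have hjk : 0 ≤ j * k * D := by positivity
  have hjm : 0 ≤ j * m * D := by positivity
  set lam : ℝ := 5 * j * (k + m + 1) * D + 5 * D with hlam
  have hlam' : lam = 5 * (j * k * D) + 5 * (j * m * D) + 5 * (j * D) + 5 * D := by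
    rw [hlam]; ring
  have hT : 2 * (lam + (D + D / 4) + D / 4) ≤ 10 * j * (k + m + 3) * D := by
    have : 10 * j * (k + m + 3) * D = 10 * (j * k * D) + 10 * (j * m * D) + 30 * (j * D) := by ring
    rw [this, hlam']
    linarith
  have hH : ¬ ∀ b p q, MP x b (D + D / 4) p → MP x b (D + D / 4) q →
      Eqv x b (lam + (D + D / 4)) p q := fun H => by
    have hL := hLIFT X r G x D (D / 4) _ hD (by positivity) (by linarith) H
    refine hp (hGLUE X r G x (fun W hW φ hφ hb => ?_) p hch)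
    obtain ⟨ψ, h1, h2⟩ := hSHORT X r G d hcov x _ (D / 4) (by linarith) (by positivity) hL W hW φ
      hφ hb
    have : CompactSpace W := isCompact_iff_compactSpace.1 hW.isCompact
    refine h1.trans (hNUL X r G _ (by positivity) (fun h => hno (h.mono ?_)) W x ψ
      h1.continuous_right h1.prop_right h2)
    have := mul_le_mul_of_nonneg_left hT hd
    linarith
  push Not at hH
  obtain ⟨b, p, q, hp, hq, hpq⟩ := hH
  have hg := hp.cat hq.rev
  have hng : ¬ Nul x lam (cat (D + D / 4) p (rev (D + D / 4) q)) := fun h =>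
    hpq (Eqv.of_nul hp hq h (by linarith))
  have hno' : ¬ HasShortGeodesic X (D + D / 4 + (D + D / 4)) := fun h => hno (h.mono (by
    have h1 := mul_le_mul_of_nonneg_right hd1 (show 0 ≤ 10 * j * (k + m + 3) * D by positivity)
    linarith))
  obtain ⟨S, hS, hinj⟩ := hCNT X x (5 * D) (5 * D) (D + D / 4 + (D + D / 4) + 2 * D) (lam - 2 * D)
    (by positivity) (by positivity) (fun L h0 h1 => by
      obtain ⟨h, a1, a2, a3⟩ := hWIN X r G D _ D lam L x _ hD hD0 hno' hg hng h0 (by linarith)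
      exact ⟨h, a1.mono (by linarith), a2, a3.mono (by linarith)⟩) k m (5 * (j * D) + 3 * D)
    (by linarith) (by rw [← hj]; linarith) (by rw [← hj]; linarith)
  rw [← hj] at hS
  have hσ := MP.of_seg G (hD x y)
  exact hMIN X r G x y ((5 * j + 1) * D) ((5 * j + 1) * D + D) _
    (fun i => cat (j * (5 * D)) (S i) (seg x y)) (by linarith)
    (fun i => ((hS i).cat hσ).mono (by linarith)) fun i i' h =>
      hinj i i' ((Eqv.cancel_right (hS i) (hS i') hσ h (by linarith)).mono (by linarith))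

/-- The volume estimate. -/
theorem vol_bound (hEXP : St_EXP) (hLOC : St_LOC) (hLM : St_LM) (hBISH : St_BISH)
    (hAREA : St_AREA) (hBALL : St_BALL) {n : ℕ} (hn : 0 < n) {M : Type} [MetricSpace M]
    [CompactSpace M] [MeasurableSpace M] [BorelSpace M] {r : ℝ} (G : GeoData M r)
    (μ : Measure M) (A : Atl n M) {K : ℝ} (hK : 0 ≤ K) (hR : PRic A.e A.G K)
    (hV : PVol A.e A.G μ) (x : M) {R : ℝ} (hR0 : 0 ≤ R) (N : ℕ)
    (h : ∀ y, ∃ (γ : Fin N → ℝ → M) (l : Fin N → ℝ), Function.Injective γ ∧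
      ∀ i, l i ≤ R ∧ LocMin x y (l i) (γ i)) :
    N * μ univ ≤ ENNReal.ofReal (Real.exp (√(n * K) * R) * (2 * R) ^ n) := by
  obtain ⟨c, hc⟩ := hEXP n M r G A (hLOC n M A) x (R + 1)
  have h1 := hAREA n M μ A x (R + 1) R (Real.exp (√(n * K) * R)) c N hV hc (by linarith)
    (Real.exp_pos _).le fun y => by
      obtain ⟨γ, l, hinj, hl⟩ := h y
      choose v hv1 hv2 hv3 using fun i =>
        hLM n M r G A x (R + 1) c hc y (l i) (γ i) (hl i).2 (by linarith [(hl i).1])
      refine ⟨v, fun i i' e => hinj ?_, fun i => ⟨(hv1 i).trans_le (hl i).1, ?_, ?_⟩⟩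
      · have hll : l i = l i' := by rw [← hv1, e, hv1]
        have m1 := (hl i).2.1
        have m2 := (hl i').2.1
        funext t
        rcases le_total t 0 with h0 | h0
        · rw [m1.left t h0, m2.left t h0]
        rcases le_total (l i) t with h1 | h1
        · rw [m1.right t h1, m2.right t (hll ▸ h1)]
        rcases m1.nn.eq_or_lt with h2 | h2
        · rw [m1.left t (by linarith), m2.left t (by linarith)]
        have ht : t / l i ∈ Icc (0 : ℝ) 1 := ⟨div_nonneg h0 h2.le, (div_le_one h2).2 h1⟩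
        have a1 := hv2 i _ ht
        have a2 := hv2 i' _ ht
        rw [← hll, div_mul_cancel₀ _ h2.ne'] at a2
        rw [div_mul_cancel₀ _ h2.ne', e] at a1
        rw [← a1, a2]
      · rw [hv2 i 1 ⟨zero_le_one, le_rfl⟩, one_mul, (hl i).2.1.last]
      · refine (hBISH n M A x (R + 1) K c hn hK hR hc (v i)
          (by rw [hv1]; linarith [(hl i).1]) (hv3 i)).trans ?_
        have := (A.G0_pos x).det_pos.le
        have := (hl i).1
        rw [hv1]
        gcongr
  refine h1.trans ?_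
  rw [ENNReal.ofReal_mul (Real.exp_pos _).le, ENNReal.ofReal_mul (Real.exp_pos _).le, mul_assoc]
  gcongr
  exact hBALL n _ R (A.G0_pos x) hR0

theorem numerics (n : ℕ) : ∃ c : ℝ, ∀ κ v D : ℝ, 0 ≤ κ → 0 < v → 0 < D → ∃ k m : ℕ,
    Real.exp (n * √κ * ((5 * 2 ^ m + 1) * D)) * (2 * ((5 * 2 ^ m + 1) * D)) ^ n <
      (k ^ 2 ^ m : ℕ) * v ∧
    10 * (n + 1) * 2 ^ m * (k + m + 3) * D ≤ c * Real.exp (c * √κ * D) * D *
      ((2 + max 0 (Real.log (D ^ n / v))) * Real.log (2 + max 0 (Real.log (D ^ n / v)))) := by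
  obtain ⟨a, ha3, ha⟩ : ∃ a : ℝ, 3 ≤ a ∧ ∀ j : ℝ, a ≤ j → (12 * j) ^ n ≤ Real.exp (j / 4) := by
    have h := (isLittleO_pow_exp_pos_mul_atTop n (show (0 : ℝ) < 1 / 4 by norm_num)).bound
      (show (0 : ℝ) < 1 / 12 ^ n by positivity)
    obtain ⟨a, ha⟩ := eventually_atTop.1 h
    refine ⟨max 3 a, le_max_left _ _, fun j hj => ?_⟩
    have h1 := ha j ((le_max_right _ _).trans hj)
    have hj0 : 0 ≤ j := by linarith [le_max_left 3 a]
    rw [Real.norm_of_nonneg (by positivity), Real.norm_of_nonneg (Real.exp_pos _).le,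
      one_div_mul_eq_div, le_div_iff₀ (by positivity), one_div_mul_eq_div] at h1
    rw [mul_pow]
    linarith
  have hl2 : (0.69 : ℝ) < Real.log 2 := by linarith [Real.log_two_gt_d9]
  have hla : 0 ≤ Real.log (3 * a) := Real.log_nonneg (by linarith)
  set C : ℝ := 12 + 4 * Real.log (3 * a) with hC
  refine ⟨max (6 * (n : ℝ)) (30 * (n + 1) * a * C), fun κ v D hκ hv hD => ?_⟩
  set Z := max 0 (Real.log (D ^ n / v)) with hZ
  have hZ0 : 0 ≤ Z := le_max_left _ _
  set Y := 2 + Z with hY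
  have hlY : Real.log 2 ≤ Real.log Y := Real.log_le_log two_pos (by linarith)
  set E := Real.exp (6 * n * √κ * D) with hE
  have hE1 : 1 ≤ E := Real.one_le_exp (by positivity)
  have haY : 6 ≤ a * Y := by nlinarith
  set m := Nat.clog 2 ⌈a * Y⌉₊ with hm
  have hc1 : 1 < ⌈a * Y⌉₊ := Nat.lt_ceil.2 (by push_cast; linarith)
  have hj1 : a * Y ≤ 2 ^ m := (Nat.le_ceil _).trans (by exact_mod_cast Nat.le_pow_clog one_lt_two _)
  have hj2 : (2 : ℝ) ^ m ≤ 3 * a * Y := by
    have h1 := Nat.pow_pred_clog_lt_self one_lt_two hc1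
    have h2 : 0 < m := Nat.clog_pos one_lt_two hc1
    have h3 : (2 : ℝ) ^ m = 2 * 2 ^ m.pred := by
      conv_lhs => rw [← Nat.succ_pred_eq_of_pos h2, pow_succ']
    have h4 : ((2 ^ m.pred : ℕ) : ℝ) < a * Y := Nat.lt_ceil.1 h1
    push_cast at h4
    linarith
  set j : ℝ := 2 ^ m with hj
  have hj0 : 0 < j := by positivity
  have hj3 : 1 ≤ j := by linarith
  refine ⟨⌈2 * E⌉₊, m, ?_, ?_⟩
  · have h1 : Real.exp (n * √κ * ((5 * j + 1) * D)) ≤ E ^ 2 ^ m := by
      rw [hE, ← Real.exp_nat_mul]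
      push_cast
      rw [← hj]
      apply Real.exp_le_exp.2
      have : 0 ≤ n * √κ * D := by positivity
      nlinarith
    have h2 : (2 * ((5 * j + 1) * D)) ^ n ≤ (12 * j) ^ n * D ^ n := by
      rw [← mul_pow]
      exact pow_le_pow_left₀ (by positivity) (by nlinarith) n
    have h3 := ha j (by nlinarith)
    have h4 : D ^ n ≤ Real.exp (j / 3) * v := by
      rw [← div_le_iff₀ hv, ← Real.log_le_iff_le_exp (by positivity)]
      have : Real.log (D ^ n / v) ≤ Z := le_max_right _ _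
      nlinarith
    have h5 : Real.exp (j / 4) * Real.exp (j / 3) < 2 ^ 2 ^ m := by
      rw [← Real.exp_add, ← Real.exp_log two_pos, ← Real.exp_nat_mul]
      push_cast
      rw [← hj]
      apply Real.exp_lt_exp.2
      nlinarith
    have h6 : (2 * E) ^ 2 ^ m ≤ ((⌈2 * E⌉₊ ^ 2 ^ m : ℕ) : ℝ) := by
      push_cast
      gcongr
      exact Nat.le_ceil _
    calc _ ≤ E ^ 2 ^ m * (Real.exp (j / 4) * (Real.exp (j / 3) * v)) := by
          refine mul_le_mul h1 (h2.trans ?_) (by positivity) (by positivity)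
          gcongr
      _ = E ^ 2 ^ m * (Real.exp (j / 4) * Real.exp (j / 3)) * v := by ring
      _ < E ^ 2 ^ m * 2 ^ 2 ^ m * v := by gcongr
      _ = (2 * E) ^ 2 ^ m * v := by rw [mul_pow]; ring
      _ ≤ _ := by gcongr
  · have h1 : (⌈2 * E⌉₊ : ℝ) ≤ 3 * E := by
      have := Nat.ceil_lt_add_one (show 0 ≤ 2 * E by linarith)
      linarith
    have h2 : (m : ℝ) * Real.log 2 ≤ Real.log (3 * a) + Real.log Y := by
      rw [← Real.log_pow, ← Real.log_mul (by linarith) (by linarith)]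
      exact Real.log_le_log hj0 hj2
    have hm0 : (0 : ℝ) ≤ m := Nat.cast_nonneg m
    have h3 : (m : ℝ) + 6 ≤ C * Real.log Y := by
      have : Real.log (3 * a) * 0.69 ≤ Real.log (3 * a) * Real.log Y := by gcongr; linarith
      have : (m : ℝ) * 0.69 ≤ m * Real.log 2 := by gcongr
      rw [hC]
      nlinarith
    have h4 : (⌈2 * E⌉₊ : ℝ) + m + 3 ≤ E * (C * Real.log Y) := by nlinarith
    have h5 : E ≤ Real.exp (max (6 * (n : ℝ)) (30 * (n + 1) * a * C) * √κ * D) := by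
      apply Real.exp_le_exp.2
      gcongr
      exact le_max_left _ _
    have hlY0 : 0 ≤ Real.log Y := by linarith
    have hC0 : 0 ≤ C := by positivity
    have ha0 : 0 ≤ a := by linarith
    have hY0 : 0 ≤ Y := by linarith
    calc _ ≤ 10 * (n + 1) * (3 * a * Y) * (E * (C * Real.log Y)) * D := by gcongr
      _ = 30 * (n + 1) * a * C * E * D * (Y * Real.log Y) := by ring
      _ ≤ _ := by
          gcongr
          exact le_max_right _ _

theorem main (hWIN : St_WIN) (hCNT : St_CNT) (hMIN : St_MIN) (hLIFT : St_LIFT)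
    (hSHORT : St_SHORT) (hNUL : St_NUL) (hGLUE : St_GLUE) (hRAW1 : St_RAW1) (hRAW2 : St_RAW2)
    (hCUT : St_CUT) (hEXP : St_EXP) (hLOC : St_LOC) (hLM : St_LM) (hBISH : St_BISH)
    (hAREA : St_AREA) (hBALL : St_BALL) (n : ℕ) (hn : 0 < n) :
    ∃ c : ℝ, ∀ (M : Type) [MetricSpace M] [CompactSpace M] [ChartedSpace (V n) M]
      [IsManifold 𝓘(ℝ, V n) ∞ M] [RiemannianBundle (fun x : M => TangentSpace 𝓘(ℝ, V n) x)]
      [IsContMDiffRiemannianBundle 𝓘(ℝ, V n) ∞ (V n) (fun x : M => TangentSpace 𝓘(ℝ, V n) x)]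
      [IsRiemannianManifold 𝓘(ℝ, V n) M] [MeasurableSpace M] [BorelSpace M]
      (μ : Measure M) (κ v D : ℝ), IsVolume n M μ → 0 ≤ κ → RicciGe n M (-((n - 1) * κ)) →
      0 < v → ENNReal.ofReal v ≤ μ univ → (∀ a b : M, dist a b ≤ D) →
      HasShortGeodesic M (c * Real.exp (c * √κ * D) * D *
        ((2 + max 0 (Real.log (D ^ n / v))) * Real.log (2 + max 0 (Real.log (D ^ n / v))))) := by
  obtain ⟨c, hc⟩ := numerics n
  refine ⟨c, fun M _ _ _ _ _ _ _ _ _ μ κ v D hμ hκ hRic hv hvμ hD => ?_⟩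
  have hne : Nonempty M := by
    by_contra h
    rw [not_nonempty_iff] at h
    rw [Set.univ_eq_empty_iff.2 h, measure_empty] at hvμ
    exact (ENNReal.ofReal_pos.2 hv).not_ge hvμ
  obtain ⟨x⟩ := hne
  obtain ⟨p, hp⟩ : ∃ p : M, p ≠ x := by
    have : Nonempty (Fin n) := ⟨⟨0, hn⟩⟩
    have h1 := (chartAt (V n) x).open_target.mem_nhds (mem_chart_target (V n) x)
    obtain ⟨z, hz, hz'⟩ := (infinite_of_mem_nhds _ h1).exists_notMem_finite
      (finite_singleton (chartAt (V n) x x))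
    refine ⟨(chartAt (V n) x).symm z, fun h => hz' ?_⟩
    rw [mem_singleton_iff, ← (chartAt (V n) x).right_inv hz, h]
  have hD0 : 0 < D := (dist_pos.2 hp).trans_le (hD p x)
  obtain ⟨k, m, h1, h2⟩ := hc κ v D hκ hv hD0
  refine HasShortGeodesic.mono ?_ h2
  by_contra hno
  obtain ⟨r, G⟩ := exists_geoData (E := V n) (M := M)
  have hcov := smallCover (E := V n) (M := M)
  rw [Module.finrank_fin_fun] at hcov
  obtain ⟨A, hA1, hA2⟩ := hCUT n M _ _ (hRAW1 n M) (hRAW2 n M).1 (hRAW2 n M).2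
  have hn1 : (1 : ℝ) ≤ n := by exact_mod_cast hn
  have hK : 0 ≤ ((n : ℝ) - 1) * κ := mul_nonneg (by linarith) hκ
  have h3 := vol_bound hEXP hLOC hLM hBISH hAREA hBALL hn G μ A hK
    (hA1 _ fun q z hz w => by
      rw [← quad_eq_bil]
      exact hRic _ (chart_mem_atlas (V n) q) z hz w)
    (hA2 _ μ fun q B hB hBs => hμ _ (chart_mem_atlas (V n) q) B hB hBs) x
    (show 0 ≤ (5 * 2 ^ m + 1) * D by positivity) _
    (many hWIN hCNT hMIN hLIFT hSHORT hNUL hGLUE G (by positivity) hcov hp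
      (helper13.chain_surj (V n) p) hD k m (by linarith) hno)
  have h4 : √(n * ((n - 1) * κ)) ≤ n * √κ := by
    rw [Real.sqrt_le_left (by positivity), mul_pow, Real.sq_sqrt hκ]
    nlinarith
  have h5 : ENNReal.ofReal ((k ^ 2 ^ m : ℕ) * v) ≤ (k ^ 2 ^ m : ℕ) * μ univ := by
    rw [ENNReal.ofReal_mul (Nat.cast_nonneg _), ENNReal.ofReal_natCast]
    gcongr
  have h6 := (ENNReal.ofReal_le_ofReal_iff (by positivity)).1 (h5.trans h3)
  refine (h1.trans_le h6).not_ge ?_
  gcongr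

end Pool.Agent.Lib.RG
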