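import Pool.Agent.Lib.RG.Base

set_option autoImplicit false

namespace Pool.Agent.Lib.RG

open Pool.Agent.Lib.MP_3eff7f_gt

/-- Lemma B (multiplication), linear form. -/
def St_CNT2 : Prop :=
  ∀ (X : Type) [MetricSpace X] (x : X) (s w L0 L1 : ℝ), 0 ≤ s → 0 ≤ w →
    (∀ L, L0 ≤ L → L ≤ L1 → ∃ h, MP x x s h ∧ ¬ Nul x L h ∧ Nul x (L + w) h) →
    ∀ (k j : ℕ) (L : ℝ), L0 ≤ L → j * s ≤ L → L + j * (k * w + 2 * s) ≤ L1 →
      ∃ S : Fin (k ^ j) → ℝ → X, (∀ i, MP x x (j * s) (S i)) ∧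
        ∀ i i', Eqv x x L (S i) (S i') → i = i'

namespace CNT2

variable {X : Type} [MetricSpace X] {x : X} {s w L0 L1 : ℝ}

/-- One loop from each of `k` consecutive windows. -/
theorem base (hw : 0 ≤ w)
    (H : ∀ L, L0 ≤ L → L ≤ L1 → ∃ h, MP x x s h ∧ ¬ Nul x L h ∧ Nul x (L + w) h)
    (k : ℕ) (L : ℝ) (h0 : L0 ≤ L) (h1 : L + k * w ≤ L1) :
    ∃ S : Fin k → ℝ → X, (∀ i, MP x x s (S i)) ∧ (∀ i, Nul x (L + k * w) (S i)) ∧
      ∀ i i', Eqv x x L (S i) (S i') → i = i' := by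
  have hi : ∀ i : Fin k, (i : ℝ) + 1 ≤ k := fun i => by exact_mod_cast i.2
  have hi0 : ∀ i : Fin k, (0 : ℝ) ≤ (i : ℝ) * w := fun i => by positivity
  choose S h1S h2S h3S using fun i : Fin k => H (L + i * w) (by linarith [hi0 i])
    (by nlinarith [hi i])
  have key : ∀ i i' : Fin k, i < i' → ¬ Eqv x x L (S i) (S i') := by
    intro i i' hlt he
    have hc : (i : ℝ) + 1 ≤ i' := by exact_mod_cast hlt
    apply h2S i'
    exact Eqv.trans (he.symm.mono (by linarith [hi0 i'])) ((h3S i).mono (by nlinarith))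
  refine ⟨S, h1S, fun i => (h3S i).mono (by nlinarith [hi i]), fun i i' he => ?_⟩
  rcases lt_trichotomy i i' with h | h | h
  · exact absurd he (key _ _ h)
  · exact h
  · exact absurd he.symm (key _ _ h)

theorem main (hs : 0 ≤ s) (hw : 0 ≤ w)
    (H : ∀ L, L0 ≤ L → L ≤ L1 → ∃ h, MP x x s h ∧ ¬ Nul x L h ∧ Nul x (L + w) h) (k j : ℕ) :
    ∀ L : ℝ, L0 ≤ L → j * s ≤ L → L + j * (k * w + 2 * s) ≤ L1 →
      ∃ S : Fin (k ^ j) → ℝ → X, (∀ i, MP x x (j * s) (S i)) ∧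
        (∀ i, Nul x (L + j * (k * w + 2 * s)) (S i)) ∧
        ∀ i i', Eqv x x L (S i) (S i') → i = i' := by
  have hT : 0 ≤ k * w + 2 * s := by positivity
  induction j with
  | zero =>
    intro L _ hL _
    refine ⟨fun _ _ => x, fun _ => MP.const x (by simp), fun _ => Nul.const x (by simpa using hL),
      fun i i' _ => ?_⟩
    have : Subsingleton (Fin (k ^ 0)) := by rw [pow_zero]; infer_instance
    exact Subsingleton.elim _ _
  | succ j ih =>
    intro L h0 hL h1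
    push_cast at hL h1 ⊢
    have hjT : 0 ≤ (j : ℝ) * (k * w + 2 * s) := by positivity
    have hkw : 0 ≤ (k : ℝ) * w := by positivity
    obtain ⟨Q, hQ1, hQ2, hQ3⟩ := ih (L + s) (by linarith) (by nlinarith) (by nlinarith)
    obtain ⟨P, hP1, hP2, hP3⟩ := base hw H k (L + 2 * s + j * (k * w + 2 * s)) (by linarith)
      (by nlinarith)
    have e : Fin (k ^ (j + 1)) ≃ Fin k × Fin (k ^ j) :=
      (finCongr (by rw [pow_succ, mul_comm])).trans finProdFinEquiv.symm
    have kill : ∀ a b, Eqv x x (L + 2 * s + j * (k * w + 2 * s)) (cat s (P a) (Q b)) (P a) :=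
      fun a b => (Eqv.cat_nul (hP1 a) (hQ2 b)).mono (by linarith)
    refine ⟨fun i => cat s (P (e i).1) (Q (e i).2), fun i => ?_, fun i => ?_, fun i i' he => ?_⟩
    · exact ((hP1 _).cat (hQ1 _)).mono (by linarith)
    · exact Eqv.trans ((kill _ _).mono (by linarith)) ((hP2 _).mono (by linarith))
    · have ha : (e i).1 = (e i').1 :=
        hP3 _ _ (((kill _ _).symm.trans (he.mono (by linarith))).trans (kill _ _))
      have he' := he
      simp only [← ha] at he'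
      have hb : (e i).2 = (e i').2 :=
        hQ3 _ _ ((Eqv.cancel_left (hP1 _) (hQ1 _) (hQ1 _) he' (by linarith)).mono (by linarith))
      exact e.injective (Prod.ext ha hb)

end CNT2

theorem stCNT2 : St_CNT2 := by
  intro X _ x s w L0 L1 hs hw H k j L h0 hL h1
  obtain ⟨S, hS, -, hS'⟩ := CNT2.main hs hw H k j L h0 hL h1
  exact ⟨S, hS, hS'⟩

end Pool.Agent.Lib.RG
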