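import Pool.Agent.Lib.RG.ASM
import Pool.Agent.Lib.RG.CNT2

/-! Assembly of the RG blocks with the linear counting lemma. -/

set_option autoImplicit false

open Set Filter Topology Metric MeasureTheory Bundle
open scoped ContDiff ENNReal Manifold

namespace Pool.Agent.Lib.RG

open Pool.Agent.Lib.MP_3eff7f_gt
open Pool.Agent.Lib.MP_3eff7f_gt_h14 (bil)

/-- The curvature-free part, linear form. -/
theorem many2 (hWIN : St_WIN) (hMIN : St_MIN) (hLIFT : St_LIFT)
    (hSHORT : St_SHORT) (hNUL : St_NUL) (hGLUE : St_GLUE)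
    {X : Type} [MetricSpace X] [CompactSpace X] {r : ℝ} (G : GeoData X r) {d : ℝ} (hd : 0 ≤ d)
    (hcov : SmallCover X d) {x p : X} (hp : p ≠ x) (hch : ChainSurj X p) {D : ℝ}
    (hD : ∀ a b : X, dist a b ≤ D) (k m : ℕ) (hm : 1 ≤ m) (hd1 : 1 ≤ d)
    (hno : ¬ HasShortGeodesic X (10 * d * m * (k + 5) * D)) (y : X) :
    ∃ (γ : Fin (k ^ m) → ℝ → X) (l : Fin (k ^ m) → ℝ), Function.Injective γ ∧
      ∀ i, l i ≤ (5 * m + 1) * D ∧ LocMin x y (l i) (γ i) := by
  have hD0 : 0 < D := (dist_pos.2 hp).trans_le (hD p x)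
  set j : ℝ := (m : ℝ) with hj
  have hj1 : 1 ≤ j := by rw [hj]; exact_mod_cast hm
  have hk : (0 : ℝ) ≤ k := Nat.cast_nonneg k
  have hjD : D ≤ j * D := le_mul_of_one_le_left hD0.le hj1
  have hjk : 0 ≤ j * k * D := by positivity
  set lam : ℝ := 5 * j * (k + 3) * D + 5 * D with hlam
  have hlam' : lam = 5 * (j * k * D) + 15 * (j * D) + 5 * D := by
    rw [hlam]; ring
  have hT : 2 * (lam + (D + D / 4) + D / 4) ≤ 10 * j * (k + 5) * D := by
    have : 10 * j * (k + 5) * D = 10 * (j * k * D) + 50 * (j * D) := by ring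
    rw [this, hlam']
    linarith
  have hH : ¬ ∀ b p q, MP x b (D + D / 4) p → MP x b (D + D / 4) q →
      Eqv x b (lam + (D + D / 4)) p q := fun H => by
    have hL := hLIFT X r G x D (D / 4) _ hD (by positivity) (by linarith) H
    refine hp (hGLUE X r G x (fun W hW φ hφ hb => ?_) p hch)
    obtain ⟨ψ, h1, h2⟩ := hSHORT X r G d hcov x _ (D / 4) (by linarith) (by positivity) hL W hW φ
      hφ hb
    have : CompactSpace W := isCompact_iff_compactSpace.1 hW.isCompact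
    refine h1.trans (hNUL X r G _ (by positivity) (fun h => hno (h.mono ?_)) W x ψ
      h1.continuous_right h1.prop_right h2)
    have := mul_le_mul_of_nonneg_left hT hd
    linarith
  push Not at hH
  obtain ⟨b, p, q, hp, hq, hpq⟩ := hH
  have hg := hp.cat hq.rev
  have hng : ¬ Nul x lam (cat (D + D / 4) p (rev (D + D / 4) q)) := fun h =>
    hpq (Eqv.of_nul hp hq h (by linarith))
  have hno' : ¬ HasShortGeodesic X (D + D / 4 + (D + D / 4)) := fun h => hno (h.mono (by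
    have h1 := mul_le_mul_of_nonneg_right hd1 (show 0 ≤ 10 * j * (k + 5) * D by positivity)
    linarith))
  have hexp : j * (k * (5 * D) + 2 * (5 * D)) = 5 * (j * k * D) + 10 * (j * D) := by ring
  obtain ⟨S, hS, hinj⟩ := stCNT2 X x (5 * D) (5 * D) (D + D / 4 + (D + D / 4) + 2 * D)
    (lam - 2 * D) (by positivity) (by positivity) (fun L h0 h1 => by
      obtain ⟨h, a1, a2, a3⟩ := hWIN X r G D _ D lam L x _ hD hD0 hno' hg hng h0 (by linarith)
      exact ⟨h, a1.mono (by linarith), a2, a3.mono (by linarith)⟩) k m (5 * (j * D) + 3 * D)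
    (by linarith) (by rw [← hj]; linarith) (by rw [← hj, hexp]; linarith)
  rw [← hj] at hS
  have hσ := MP.of_seg G (hD x y)
  exact hMIN X r G x y ((5 * j + 1) * D) ((5 * j + 1) * D + D) _
    (fun i => cat (j * (5 * D)) (S i) (seg x y)) (by linarith)
    (fun i => ((hS i).cat hσ).mono (by linarith)) fun i i' h =>
      hinj i i' ((Eqv.cancel_right (hS i) (hS i') hσ h (by linarith)).mono (by linarith))

theorem numerics2 (n : ℕ) : ∃ c : ℝ, ∀ κ v D : ℝ, 0 ≤ κ → 0 < v → 0 < D → ∃ k m : ℕ, 1 ≤ m ∧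
    Real.exp (n * √κ * ((5 * m + 1) * D)) * (2 * ((5 * m + 1) * D)) ^ n < (k ^ m : ℕ) * v ∧
    10 * (n + 1) * m * (k + 5) * D ≤ c * Real.exp (c * √κ * D) * D *
      (1 + max 0 (Real.log (D ^ n / v))) := by
  obtain ⟨a, ha3, ha⟩ : ∃ a : ℝ, 3 ≤ a ∧ ∀ j : ℝ, a ≤ j → (12 * j) ^ n ≤ Real.exp (j / 4) := by
    have h := (isLittleO_pow_exp_pos_mul_atTop n (show (0 : ℝ) < 1 / 4 by norm_num)).bound
      (show (0 : ℝ) < 1 / 12 ^ n by positivity)
    obtain ⟨a, ha⟩ := eventually_atTop.1 h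
    refine ⟨max 3 a, le_max_left _ _, fun j hj => ?_⟩
    have h1 := ha j ((le_max_right _ _).trans hj)
    have hj0 : 0 ≤ j := by linarith [le_max_left 3 a]
    rw [Real.norm_of_nonneg (by positivity), Real.norm_of_nonneg (Real.exp_pos _).le,
      one_div_mul_eq_div, le_div_iff₀ (by positivity), one_div_mul_eq_div] at h1
    rw [mul_pow]
    linarith
  have hl2 : (0.69 : ℝ) < Real.log 2 := by linarith [Real.log_two_gt_d9]
  refine ⟨max (6 * (n : ℝ)) (160 * (n + 1) * a), fun κ v D hκ hv hD => ?_⟩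
  set Z := max 0 (Real.log (D ^ n / v)) with hZ
  have hZ0 : 0 ≤ Z := le_max_left _ _
  set Y := 1 + Z with hY
  set E := Real.exp (6 * n * √κ * D) with hE
  have hE1 : 1 ≤ E := Real.one_le_exp (by positivity)
  have haY : 3 ≤ a * Y := by nlinarith
  set m := ⌈a * Y⌉₊ with hm
  have hj1 : a * Y ≤ m := Nat.le_ceil _
  have hj2 : (m : ℝ) ≤ 2 * a * Y := by
    have := Nat.ceil_lt_add_one (show 0 ≤ a * Y by linarith)
    linarith
  set j : ℝ := (m : ℝ) with hj
  have hj3 : 1 ≤ j := by linarith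
  have hj0 : 0 < j := by linarith
  refine ⟨⌈2 * E⌉₊, m, by rw [hj] at hj3; exact_mod_cast hj3, ?_, ?_⟩
  · have h1 : Real.exp (n * √κ * ((5 * j + 1) * D)) ≤ E ^ m := by
      rw [hE, ← Real.exp_nat_mul, ← hj]
      apply Real.exp_le_exp.2
      have : 0 ≤ n * √κ * D := by positivity
      nlinarith
    have h2 : (2 * ((5 * j + 1) * D)) ^ n ≤ (12 * j) ^ n * D ^ n := by
      rw [← mul_pow]
      exact pow_le_pow_left₀ (by positivity) (by nlinarith) n
    have h3 := ha j (by nlinarith)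
    have h4 : D ^ n ≤ Real.exp (j / 3) * v := by
      rw [← div_le_iff₀ hv, ← Real.log_le_iff_le_exp (by positivity)]
      have : Real.log (D ^ n / v) ≤ Z := le_max_right _ _
      nlinarith
    have h5 : Real.exp (j / 4) * Real.exp (j / 3) < 2 ^ m := by
      rw [← Real.exp_add, ← Real.exp_log two_pos, ← Real.exp_nat_mul, ← hj]
      apply Real.exp_lt_exp.2
      nlinarith
    have h6 : (2 * E) ^ m ≤ ((⌈2 * E⌉₊ ^ m : ℕ) : ℝ) := by
      push_cast
      gcongr
      exact Nat.le_ceil _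
    calc _ ≤ E ^ m * (Real.exp (j / 4) * (Real.exp (j / 3) * v)) := by
          refine mul_le_mul h1 (h2.trans ?_) (by positivity) (by positivity)
          gcongr
      _ = E ^ m * (Real.exp (j / 4) * Real.exp (j / 3)) * v := by ring
      _ < E ^ m * 2 ^ m * v := by gcongr
      _ = (2 * E) ^ m * v := by rw [mul_pow]; ring
      _ ≤ _ := by gcongr
  · have h1 : (⌈2 * E⌉₊ : ℝ) ≤ 3 * E := by
      have := Nat.ceil_lt_add_one (show 0 ≤ 2 * E by linarith)
      linarith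
    have h4 : (⌈2 * E⌉₊ : ℝ) + 5 ≤ 8 * E := by linarith
    have h5 : E ≤ Real.exp (max (6 * (n : ℝ)) (160 * (n + 1) * a) * √κ * D) := by
      apply Real.exp_le_exp.2
      gcongr
      exact le_max_left _ _
    have ha0 : 0 ≤ a := by linarith
    have hY0 : 0 ≤ Y := by linarith
    calc _ ≤ 10 * (n + 1) * (2 * a * Y) * (8 * E) * D := by gcongr
      _ = 160 * (n + 1) * a * E * D * Y := by ring
      _ ≤ _ := by
          gcongr
          exact le_max_right _ _

theorem main2 (hWIN : St_WIN) (hMIN : St_MIN) (hLIFT : St_LIFT)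
    (hSHORT : St_SHORT) (hNUL : St_NUL) (hGLUE : St_GLUE) (hRAW1 : St_RAW1) (hRAW2 : St_RAW2)
    (hCUT : St_CUT) (hEXP : St_EXP) (hLOC : St_LOC) (hLM : St_LM) (hBISH : St_BISH)
    (hAREA : St_AREA) (hBALL : St_BALL) (n : ℕ) (hn : 0 < n) :
    ∃ c : ℝ, ∀ (M : Type) [MetricSpace M] [CompactSpace M] [ChartedSpace (V n) M]
      [IsManifold 𝓘(ℝ, V n) ∞ M] [RiemannianBundle (fun x : M => TangentSpace 𝓘(ℝ, V n) x)]
      [IsContMDiffRiemannianBundle 𝓘(ℝ, V n) ∞ (V n) (fun x : M => TangentSpace 𝓘(ℝ, V n) x)]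
      [IsRiemannianManifold 𝓘(ℝ, V n) M] [MeasurableSpace M] [BorelSpace M]
      (μ : Measure M) (κ v D : ℝ), IsVolume n M μ → 0 ≤ κ → RicciGe n M (-((n - 1) * κ)) →
      0 < v → ENNReal.ofReal v ≤ μ univ → (∀ a b : M, dist a b ≤ D) →
      HasShortGeodesic M (c * Real.exp (c * √κ * D) * D * (1 + max 0 (Real.log (D ^ n / v)))) := by
  obtain ⟨c, hc⟩ := numerics2 n
  refine ⟨c, fun M _ _ _ _ _ _ _ _ _ μ κ v D hμ hκ hRic hv hvμ hD => ?_⟩
  have hne : Nonempty M := by
    by_contra h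
    rw [not_nonempty_iff] at h
    rw [Set.univ_eq_empty_iff.2 h, measure_empty] at hvμ
    exact (ENNReal.ofReal_pos.2 hv).not_ge hvμ
  obtain ⟨x⟩ := hne
  obtain ⟨p, hp⟩ : ∃ p : M, p ≠ x := by
    have : Nonempty (Fin n) := ⟨⟨0, hn⟩⟩
    have h1 := (chartAt (V n) x).open_target.mem_nhds (mem_chart_target (V n) x)
    obtain ⟨z, hz, hz'⟩ := (infinite_of_mem_nhds _ h1).exists_notMem_finite
      (finite_singleton (chartAt (V n) x x))
    refine ⟨(chartAt (V n) x).symm z, fun h => hz' ?_⟩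
    rw [mem_singleton_iff, ← (chartAt (V n) x).right_inv hz, h]
  have hD0 : 0 < D := (dist_pos.2 hp).trans_le (hD p x)
  obtain ⟨k, m, hm, h1, h2⟩ := hc κ v D hκ hv hD0
  refine HasShortGeodesic.mono ?_ h2
  by_contra hno
  obtain ⟨r, G⟩ := exists_geoData (E := V n) (M := M)
  have hcov := smallCover (E := V n) (M := M)
  rw [Module.finrank_fin_fun] at hcov
  obtain ⟨A, hA1, hA2⟩ := hCUT n M _ _ (hRAW1 n M) (hRAW2 n M).1 (hRAW2 n M).2
  have hn1 : (1 : ℝ) ≤ n := by exact_mod_cast hn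
  have hK : 0 ≤ ((n : ℝ) - 1) * κ := mul_nonneg (by linarith) hκ
  have h3 := vol_bound hEXP hLOC hLM hBISH hAREA hBALL hn G μ A hK
    (hA1 _ fun q z hz w => by
      rw [← quad_eq_bil]
      exact hRic _ (chart_mem_atlas (V n) q) z hz w)
    (hA2 _ μ fun q B hB hBs => hμ _ (chart_mem_atlas (V n) q) B hB hBs) x
    (show 0 ≤ (5 * m + 1) * D by positivity) _
    (many2 hWIN hMIN hLIFT hSHORT hNUL hGLUE G (by positivity) hcov hp
      (helper13.chain_surj (V n) p) hD k m hm (by linarith) hno)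
  have h4 : √(n * ((n - 1) * κ)) ≤ n * √κ := by
    rw [Real.sqrt_le_left (by positivity), mul_pow, Real.sq_sqrt hκ]
    nlinarith
  have h5 : ENNReal.ofReal ((k ^ m : ℕ) * v) ≤ (k ^ m : ℕ) * μ univ := by
    rw [ENNReal.ofReal_mul (Nat.cast_nonneg _), ENNReal.ofReal_natCast]
    gcongr
  have h6 := (ENNReal.ofReal_le_ofReal_iff (by positivity)).1 (h5.trans h3)
  refine (h1.trans_le h6).not_ge ?_
  gcongr

end Pool.Agent.Lib.RG
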