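import Pool.Agent.Lib.RG.Base

set_option autoImplicit false

open Set MeasureTheory Matrix
open scoped ENNReal MatrixOrder

namespace Pool.Agent.Lib.RG

open Pool.Agent.Lib.MP_3eff7f_gt_h14 (bil bil_apply)

theorem stBALL : St_BALL := by
  intro n G0 R hG hR
  obtain ⟨B, hB⟩ := CStarAlgebra.nonneg_iff_eq_star_mul_self.1 hG.posSemidef.nonneg
  have hB' : G0 = Bᵀ * B := by simpa [star_eq_conjTranspose] using hB
  have h1 : √G0.det = |LinearMap.det (toLin' B)| := by
    rw [LinearMap.det_toLin', hB', det_mul, det_transpose, Real.sqrt_mul_self_eq_abs]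
  rw [h1, ← Measure.addHaar_image_linearMap]
  have h2 : toLin' B '' {v | nrm G0 v ≤ R} ⊆ Icc (fun _ => -R) (fun _ => R) := by
    rintro _ ⟨v, hv, rfl⟩
    have h3 : bil G0 v v = ∑ i, (B *ᵥ v) i ^ 2 := by
      rw [bil_apply, hB', ← mulVec_mulVec, dotProduct_mulVec, vecMul_transpose]
      simp only [dotProduct, sq]
    have h4 : ∀ i, |(B *ᵥ v) i| ≤ R := fun i => by
      refine le_trans ?_ hv
      rw [← Real.sqrt_sq_eq_abs, nrm, h3]
      exact Real.sqrt_le_sqrt
        (Finset.single_le_sum (fun j _ => sq_nonneg ((B *ᵥ v) j)) (Finset.mem_univ i))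
    exact ⟨fun i => (abs_le.1 (h4 i)).1, fun i => (abs_le.1 (h4 i)).2⟩
  refine (measure_mono h2).trans (le_of_eq ?_)
  rw [Real.volume_Icc_pi, Finset.prod_const, Finset.card_univ, Fintype.card_fin,
    ENNReal.ofReal_pow (by positivity)]
  congr 2
  ring

end Pool.Agent.Lib.RG
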