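import Pool.Agent.Lib.RG.Base

/-! Block BISH: Bishop's estimate along a locally minimizing geodesic. -/

set_option autoImplicit false

open Set Filter Topology Metric MeasureTheory Matrix
open scoped ContDiff ENNReal

namespace Pool.Agent.Lib.RG

open Pool.Agent.Lib.MP_3eff7f_gt
open Pool.Agent.Lib.MP_3eff7f_gt_h14 (pd Chr chartVec GeodEq MF bil bil_apply bil_symm bil_single
  bil_eq_sum)

namespace BISH

variable {n : ℕ}

theorem pair_eq_sum (a : V n) :
    ((a, 0) : V n × ℝ) = ∑ i, a i • ((Pi.single i 1 : V n), (0 : ℝ)) := by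
  ext j
  · simp [Prod.fst_sum, Finset.sum_apply, Pi.single_apply]
  · simp [Prod.snd_sum]

theorem pbc_eq_bil (G : MF n) (y : V n × ℝ → V n) (u : V n × ℝ) (a b : V n) :
    pbc G y u (a, 0) (b, 0) = bil (gramc G y u) a b := by
  rw [bil_eq_sum]
  unfold gramc
  simp only [Matrix.of_apply]
  unfold pbc
  conv_lhs => rw [pair_eq_sum a, pair_eq_sum b]
  simp only [map_sum, map_smul, _root_.sum_apply, _root_.smul_apply,
    smul_eq_mul, Finset.mul_sum]
  rw [Finset.sum_comm]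
  exact Finset.sum_congr rfl fun i _ => Finset.sum_congr rfl fun j _ => by ring

/-- A function with `f' ≥ -C f` locally, positive near `0`, stays positive. -/
theorem stay_pos (f : ℝ → ℝ) (h0 : ∀ᶠ t in 𝓝[>] (0 : ℝ), 0 < f t)
    (h : ∀ t ∈ Ioo (0 : ℝ) 1, ∃ ε > 0, ∃ C : ℝ, ∀ s, |s - t| < ε → ∃ d,
      HasDerivAt f d s ∧ -C * f s ≤ d) : ∀ t ∈ Ioo (0 : ℝ) 1, 0 < f t := by
  have mono : ∀ t ∈ Ioo (0 : ℝ) 1, ∃ ε > 0, ∀ s, t - ε < s → s ≤ t → 0 < f s → 0 < f t := by
    intro t ht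
    obtain ⟨ε, hε, C, hC⟩ := h t ht
    refine ⟨ε, hε, fun s h1 h2 hs => ?_⟩
    have hd : ∀ r ∈ Icc s t, ∃ d, HasDerivAt (fun r => Real.exp (C * r) * f r) d r ∧ 0 ≤ d := by
      intro r hr
      obtain ⟨d, hd, hle⟩ := hC r (by rw [abs_lt]; constructor <;> linarith [hr.1, hr.2])
      have he : HasDerivAt (fun r => Real.exp (C * r)) (Real.exp (C * r) * C) r := by
        simpa using ((hasDerivAt_id r).const_mul C).exp
      refine ⟨_, he.mul hd, ?_⟩
      have := Real.exp_pos (C * r)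
      nlinarith
    have hm : MonotoneOn (fun r => Real.exp (C * r) * f r) (Icc s t) := by
      refine monotoneOn_of_deriv_nonneg (convex_Icc s t) (fun r hr => ?_) (fun r hr => ?_)
        (fun r hr => ?_)
      · obtain ⟨d, hd, -⟩ := hd r hr
        exact hd.continuousAt.continuousWithinAt
      · obtain ⟨d, hd, -⟩ := hd r (interior_subset hr)
        exact hd.differentiableAt.differentiableWithinAt
      · obtain ⟨d, hd, h0⟩ := hd r (interior_subset hr)
        rwa [hd.deriv]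
    have := hm (left_mem_Icc.2 h2) (right_mem_Icc.2 h2) h2
    have h3 : 0 < Real.exp (C * s) * f s := mul_pos (Real.exp_pos _) hs
    exact (mul_pos_iff_of_pos_left (Real.exp_pos _)).1 (lt_of_lt_of_le h3 this)
  have cont : ∀ t ∈ Ioo (0 : ℝ) 1, ContinuousAt f t := fun t ht => by
    obtain ⟨ε, hε, C, hC⟩ := h t ht
    obtain ⟨d, hd, -⟩ := hC t (by simpa using hε)
    exact hd.continuousAt
  intro t ht
  by_contra hn
  obtain ⟨δ, hδ, hpos⟩ : ∃ δ > 0, ∀ s, 0 < s → s ≤ δ → 0 < f s := by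
    obtain ⟨u, hu, hs⟩ := mem_nhdsGT_iff_exists_Ioc_subset.1 h0
    exact ⟨u, hu, fun s h1 h2 => hs ⟨h1, h2⟩⟩
  have hδt : δ < t := by
    by_contra hh
    exact hn (hpos t ht.1 (not_lt.1 hh))
  have hcl : IsClosed {s | s ∈ Icc δ t ∧ f s ≤ 0} := by
    refine isClosed_Icc.isClosed_le (fun s hs => ?_) continuousOn_const
    exact (cont s ⟨lt_of_lt_of_le hδ hs.1, lt_of_le_of_lt hs.2 ht.2⟩).continuousWithinAt
  have hne : {s | s ∈ Icc δ t ∧ f s ≤ 0}.Nonempty := ⟨t, ⟨hδt.le, le_rfl⟩, not_lt.1 hn⟩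
  have hbd : BddBelow {s | s ∈ Icc δ t ∧ f s ≤ 0} := ⟨δ, fun s hs => hs.1.1⟩
  obtain ⟨⟨h1, h2⟩, h3⟩ := hcl.csInf_mem hne hbd
  set t0 := sInf {s | s ∈ Icc δ t ∧ f s ≤ 0} with ht0
  have h4 : δ < t0 := lt_of_le_of_ne h1 fun e => by
    have := hpos δ hδ le_rfl
    rw [e] at this
    linarith
  obtain ⟨ε, hε, hm⟩ := mono t0 ⟨hδ.trans h4, lt_of_le_of_lt h2 ht.2⟩
  have h5 : max δ (t0 - ε / 2) < t0 := max_lt h4 (by linarith)
  have h6 : 0 < f (max δ (t0 - ε / 2)) := by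
    by_contra hh
    have := csInf_le hbd (a := max δ (t0 - ε / 2))
      ⟨⟨le_max_left _ _, h5.le.trans h2⟩, not_lt.1 hh⟩
    linarith
  have := hm _ (lt_of_lt_of_le (by linarith) (le_max_right δ (t0 - ε / 2))) h5.le h6
  linarith

variable {M : Type} [MetricSpace M] {A : Atl n M} {x : M} {S : ℝ} {c : V n × ℝ → M} {v : V n}

theorem pb_eq_bil (u : V n × ℝ) (a b : V n) :
    pb A c u (a, 0) (b, 0) = bil (gram A c u) a b := pbc_eq_bil _ _ _ _ _

theorem det_ne (hI : St_INI) (hC : St_CONJ) (h : IsExp A x S c) (hv : nrm (A.G0 x) v < S)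
    (hl : LM (A.G0 x) c v) : ∀ t ∈ Ioo (0 : ℝ) 1, (gram A c (v, t)).det ≠ 0 := by
  intro t ht hd
  obtain ⟨a, ha, h0⟩ := Matrix.exists_mulVec_eq_zero_iff.2 hd
  have := stay_pos (fun s => pb A c (v, s) (a, 0) (a, 0)) ?_ (fun t ht => ?_) t ht
  · simp only [pb_eq_bil, bil_apply, h0, dotProduct_zero, lt_self_iff_false] at this
  · have h1 := (hI n M A x S c h v hv a a).eventually
      (lt_mem_nhds (bil_pos (A.G0_pos x) ha))
    filter_upwards [h1, self_mem_nhdsWithin] with s h2 h3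
    have h4 : (0 : ℝ) < s ^ 2 := pow_pos h3 2
    exact (div_pos_iff_of_pos_right h4).1 h2
  · obtain ⟨ε, hε, C, hh⟩ := hC n M A x S c h v hv hl t ht
    exact ⟨ε, hε, C, fun s hs => hh s hs a⟩

theorem riccati (hG : St_GAU) (hJ : St_JAC) (hM : St_MAT) {K : ℝ} (hR : PRic A.e A.G K)
    (h : IsExp A x S c) (hv : nrm (A.G0 x) v < S) {t : ℝ} (ht : t ∈ Ioo (0 : ℝ) 1)
    (hd : (gram A c (v, t)).det ≠ 0) : ∃ (k : ℝ → ℝ) (k' : ℝ),
      (∀ᶠ s in 𝓝 t, HasDerivAt (fun s => Real.log (gram A c (v, s)).det / 2) (k s) s) ∧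
      HasDerivAt k k' t ∧ k' + k t ^ 2 / n ≤ K * bil (A.G0 x) v v := by
  obtain ⟨p, O, hu, hV⟩ := h.val v t hv (Ioo_subset_Icc_self ht)
  have ho : IsOpen (O ∩ {w | nrm (A.G0 x) w < S} ×ˢ Ioo (0 : ℝ) 1) :=
    hV.2.op.inter ((isOpen_nrm_lt _ _).prod isOpen_Ioo)
  have hV' := hV.mono ho inter_subset_left
  have hu' : (v, t) ∈ O ∩ {w | nrm (A.G0 x) w < S} ×ˢ Ioo (0 : ℝ) 1 := ⟨hu, hv, ht⟩
  have hg : Gauss (A.G p) (A.G0 x) (fun z => A.e p (c z))
      (O ∩ {w | nrm (A.G0 x) w < S} ×ˢ Ioo (0 : ℝ) 1) := fun u hu a => by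
    rw [← hV'.pb_eq hu]
    exact hG n M A x S c h u.1 hu.2.1 u.2 (Ioo_subset_Icc_self hu.2.2) a
  obtain ⟨A', B, R, T, e1, e2, e3, e4, e5, e6⟩ :=
    hJ n (A.G p) (A.G0 x) _ _ (A.met p) (A.G0_pos x) hV'.2 hg (v, t) hu'
  rw [hV.gram_eq hu] at hd
  obtain ⟨k, k', f1, f2, f3⟩ := hM n (fun s => gramc (A.G p) (fun z => A.e p (c z)) (v, s)) T
    _ A' B R t ((A.met p).pos _) hd e1 e2 e3 e5 e6
  refine ⟨k, k', ?_, f2, f3.trans ?_⟩
  · have he : (fun s => Real.log (gram A c (v, s)).det / 2) =ᶠ[𝓝 t]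
        fun s => Real.log (gramc (A.G p) (fun z => A.e p (c z)) (v, s)).det / 2 := by
      have hc : ContinuousAt (fun s : ℝ => (v, s)) t := by fun_prop
      filter_upwards [hc.eventually (hV.2.op.mem_nhds hu)] with s hs
      rw [hV.gram_eq hs]
    filter_upwards [f1, he.eventuallyEq_nhds] with s h1 h2
    exact h1.congr_of_eventuallyEq h2
  · have h1 := hR p _ ((A.e p).map_source (hV.1 hu))
      (fderiv ℝ (fun z => A.e p (c z)) (v, t) (0, 1))
    have h2 := hV.2.spd _ hu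
    unfold pbc at h2
    rw [e4]
    simp only at h1 h2 ⊢
    rw [h2] at h1
    linarith

theorem lim_zero (hI : St_INI) (h : IsExp A x S c) (hv : nrm (A.G0 x) v < S) :
    Tendsto (fun t => (gram A c (v, t)).det / (t ^ 2) ^ n) (𝓝[>] 0) (𝓝 (A.G0 x).det) := by
  have h1 : Tendsto (fun t : ℝ => (t ^ 2)⁻¹ • gram A c (v, t)) (𝓝[>] 0) (𝓝 (A.G0 x)) := by
    refine tendsto_pi_nhds.2 fun i => tendsto_pi_nhds.2 fun j => ?_
    have := hI n M A x S c h v hv (Pi.single i 1) (Pi.single j 1)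
    rw [bil_single] at this
    refine this.congr fun t => ?_
    rw [Matrix.smul_apply, gram_apply, smul_eq_mul, div_eq_inv_mul]
  have h2 := ((continuous_id (X := Mat n)).matrix_det.tendsto _).comp h1
  refine h2.congr fun t => ?_
  simp only [Function.comp, id, Matrix.det_smul, Fintype.card_fin, inv_pow, div_eq_inv_mul]

theorem cont_one (h : IsExp A x S c) (hv : nrm (A.G0 x) v < S) :
    ContinuousAt (fun t => (gram A c (v, t)).det) 1 := by
  obtain ⟨p, O, hu, hV⟩ := h.val v 1 hv ⟨zero_le_one, le_rfl⟩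
  have h1 : ContinuousAt (fun t : ℝ => gram A c (v, t)) 1 := by
    refine continuousAt_pi.2 fun i => continuousAt_pi.2 fun j => ?_
    exact ContinuousAt.comp (f := fun t : ℝ => (v, t))
      (hV.contDiffAt_pb hu (Pi.single i 1, 0) (Pi.single j 1, 0)).continuousAt (by fun_prop)
  exact ((continuous_id (X := Mat n)).matrix_det.continuousAt).comp h1

end BISH

open BISH in
theorem stBISH (hG : St_GAU) (hI : St_INI) (hC : St_CONJ) (hJ : St_JAC) (hM : St_MAT)
    (hP : St_CMP) : St_BISH := by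
  intro n M _ A x S K c hn hK hR h v hv hl
  set b := √(n * K) * nrm (A.G0 x) v with hb
  have hb0 : 0 ≤ b := mul_nonneg (Real.sqrt_nonneg _) (nrm_nonneg _ _)
  have hn' : (0 : ℝ) < n := by exact_mod_cast hn
  have hb2 : b ^ 2 / n = K * bil (A.G0 x) v v := by
    rw [hb, mul_pow, Real.sq_sqrt (by positivity), nrm_sq (A.G0_pos x)]
    field_simp
  have hd := det_ne hI hC h hv hl
  have hD : 0 < (A.G0 x).det := (A.G0_pos x).det_pos
  have anti := hP n b (fun s => Real.log (gram A c (v, s)).det / 2) hn hb0 fun t ht => by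
    rw [hb2]
    exact riccati hG hJ hM hR h hv ht (hd t ht)
  have lim : Tendsto (fun s => Real.log (gram A c (v, s)).det / 2 - n * Real.log s - b * s)
      (𝓝[>] 0) (𝓝 (Real.log (A.G0 x).det / 2)) := by
    have h1 := ((lim_zero hI h hv).log hD.ne').div_const 2
    have h2 : Tendsto (fun s : ℝ => b * s) (𝓝[>] 0) (𝓝 0) := by
      have : Tendsto (fun s : ℝ => b * s) (𝓝 0) (𝓝 (b * 0)) :=
        (continuous_const.mul continuous_id).tendsto 0
      rw [mul_zero] at this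
      exact this.mono_left nhdsWithin_le_nhds
    have h3 := h1.sub h2
    rw [sub_zero] at h3
    refine h3.congr' ?_
    filter_upwards [Ioo_mem_nhdsGT (zero_lt_one' ℝ)] with s hs
    rw [Real.log_div (hd s hs) (pow_pos (pow_pos hs.1 2) n).ne', Real.log_pow, Real.log_pow]
    push_cast
    ring
  have bd : ∀ t ∈ Ioo (0 : ℝ) 1, (gram A c (v, t)).det ≤ (A.G0 x).det * Real.exp b ^ 2 := by
    intro t ht
    have h1 : Real.log (gram A c (v, t)).det / 2 - n * Real.log t - b * t ≤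
        Real.log (A.G0 x).det / 2 := by
      refine ge_of_tendsto lim ?_
      filter_upwards [Ioo_mem_nhdsGT ht.1] with s hs
      exact anti ⟨hs.1, hs.2.trans ht.2⟩ ht hs.2.le
    have h2 : Real.log t ≤ 0 := Real.log_nonpos ht.1.le ht.2.le
    have h3 : Real.log (gram A c (v, t)).det ≤ Real.log (A.G0 x).det + 2 * b := by
      have := mul_nonneg hn'.le (neg_nonneg.2 h2)
      have := mul_nonneg hb0 (sub_nonneg.2 ht.2.le)
      nlinarith
    calc (gram A c (v, t)).det ≤ |(gram A c (v, t)).det| := le_abs_self _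
      _ = Real.exp (Real.log (gram A c (v, t)).det) := (Real.exp_log_eq_abs (hd t ht)).symm
      _ ≤ Real.exp (Real.log (A.G0 x).det + 2 * b) := Real.exp_le_exp.2 h3
      _ = _ := by
        rw [Real.exp_add, Real.exp_log hD, ← Real.exp_nat_mul]
        norm_num
  refine le_of_tendsto ((cont_one h hv).tendsto.mono_left (nhdsWithin_le_nhds (s := Iio 1))) ?_
  filter_upwards [Ioo_mem_nhdsLT (zero_lt_one' ℝ)] with t ht using bd t ht

end Pool.Agent.Lib.RG
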