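import Pool.Agent.Lib.RG.Base

/-! Block NUL: free contractions give based contractions. -/

set_option autoImplicit false

open Set

namespace Pool.Agent.Lib.RG

open Pool.Agent.Lib.MP_3eff7f_gt

theorem stNUL : St_NUL := by
  intro X _ _ r G l hl hno H _ _ x ψ hc hb hlen
  obtain ⟨g, Λ, hΛ, h0, h1, hP⟩ := G.loop_contract hl hno hc
    (fun h t ht => by rw [hb h t ht, hb h 0 (Or.inl le_rfl)]) hlen
  let σ : ℝ → ℝ := fun t => max 0 (min 1 (3 * min t (1 - t)))
  have hσc : Continuous σ := by fun_prop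
  have hσ0 : ∀ t, t ≤ 0 ∨ 1 ≤ t → σ t = 0 := fun t ht => max_eq_left ((min_le_right _ _).trans (by
    rcases ht with ht | ht
    · linarith [min_le_left t (1 - t)]
    · linarith [min_le_right t (1 - t)]))
  have hσm : ∀ t, σ t ∈ Icc (0 : ℝ) 1 := fun t =>
    ⟨le_max_left _ _, max_le zero_le_one (min_le_left _ _)⟩
  have e : (fun z : H × ℝ => Λ (1 * σ z.2) (z.1, (1 + 2 * 1) * z.2 - 1)) =
      fun z : H × ℝ => Λ ((1 - 0) * σ z.2) (z.1, 0) := by
    funext z
    rw [sub_zero, one_mul]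
    by_cases h : (1 + 2 * 1) * z.2 - 1 ≤ 0 ∨ 1 ≤ (1 + 2 * 1) * z.2 - 1
    · exact (hP _ (hσm _)).1 _ _ h
    · push Not at h
      have h2 : σ z.2 = 1 := by
        have : 1 / 3 ≤ min z.2 (1 - z.2) := le_min (by linarith [h.1]) (by linarith [h.2])
        simp only [σ]
        rw [min_eq_left (by linarith), max_eq_right zero_le_one]
      rw [h2, h1]
  refine Htp.trans (g := fun z : H × ℝ => Λ ((1 - 0) * σ z.2) (z.1, 0))
    ⟨fun u z => Λ (u * σ z.2) (z.1, (1 + 2 * u) * z.2 - u), hΛ.comp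
      (f := fun p : ℝ × H × ℝ => (p.1 * σ p.2.2, p.2.1, (1 + 2 * p.1) * p.2.2 - p.1))
      (by fun_prop), by simp [h0], e, fun u hu w t ht => ?_⟩
    ⟨fun u z => Λ ((1 - u) * σ z.2) (z.1, 0), hΛ.comp
      (f := fun p : ℝ × H × ℝ => ((1 - p.1) * σ p.2.2, p.2.1, (0 : ℝ))) (by fun_prop), rfl, ?_,
      fun u hu w t ht => ?_⟩
  · simp only [hσ0 t ht, mul_zero, h0]
    refine hb _ _ (ht.imp (fun h => ?_) fun h => ?_) <;> nlinarith [hu.1]
  · funext z
    simp only [sub_self, zero_mul, h0]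
    exact hb _ _ (Or.inl le_rfl)
  · simp only [hσ0 t ht, mul_zero, h0]
    exact hb _ _ (Or.inl le_rfl)

end Pool.Agent.Lib.RG
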