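import Pool.Agent.Lib.RG.Blue

/-! Basic lemmas for the RG blocks. -/

set_option autoImplicit false

open Set Filter Topology Metric MeasureTheory Matrix
open scoped ContDiff ENNReal

namespace Pool.Agent.Lib.RG

open Pool.Agent.Lib.MP_3eff7f_gt
open Pool.Agent.Lib.MP_3eff7f_gt_h14 (pd Chr chartVec GeodEq MF bil bil_apply bil_symm bil_single
  bil_eq_sum)

variable {n : ℕ}

theorem quad_eq_bil (A : Mat n) (v : V n) : quad A v = bil A v v := (bil_eq_sum A v v).symm

theorem bil_nonneg {A : Mat n} (hA : A.PosDef) (v : V n) : 0 ≤ bil A v v := by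
  rw [bil_apply]
  simpa using hA.posSemidef.dotProduct_mulVec_nonneg v

theorem bil_pos {A : Mat n} (hA : A.PosDef) {v : V n} (hv : v ≠ 0) : 0 < bil A v v := by
  rw [bil_apply]
  simpa using hA.dotProduct_mulVec_pos hv

theorem nrm_nonneg (A : Mat n) (v : V n) : 0 ≤ nrm A v := Real.sqrt_nonneg _

theorem nrm_sq {A : Mat n} (hA : A.PosDef) (v : V n) : nrm A v ^ 2 = bil A v v :=
  Real.sq_sqrt (bil_nonneg hA v)

theorem nrm_zero (A : Mat n) : nrm A 0 = 0 := by simp [nrm]

theorem nrm_pos {A : Mat n} (hA : A.PosDef) {v : V n} (hv : v ≠ 0) : 0 < nrm A v :=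
  Real.sqrt_pos.2 (bil_pos hA hv)

theorem nrm_eq_zero {A : Mat n} (hA : A.PosDef) {v : V n} (hv : nrm A v = 0) : v = 0 := by
  by_contra h
  exact (nrm_pos hA h).ne' hv

theorem nrm_smul (A : Mat n) (c : ℝ) (v : V n) : nrm A (c • v) = |c| * nrm A v := by
  unfold nrm
  rw [map_smul, map_smul, _root_.smul_apply, smul_eq_mul, smul_eq_mul, ← mul_assoc,
    Real.sqrt_mul (mul_self_nonneg c), Real.sqrt_mul_self_eq_abs]

/-- Cauchy-Schwarz. -/
theorem abs_bil_le {A : Mat n} (hA : A.PosDef) (v w : V n) : |bil A v w| ≤ nrm A v * nrm A w := by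
  have h : ∀ t : ℝ, 0 ≤ bil A v v * (t * t) + 2 * bil A v w * t + bil A w w := fun t => by
    have := bil_nonneg hA (t • v + w)
    simp only [map_add, map_smul, _root_.add_apply, _root_.smul_apply,
      smul_eq_mul, bil_symm hA w v] at this
    linarith
  have h2 := discrim_le_zero h
  unfold discrim at h2
  apply abs_le_of_sq_le_sq' _ (mul_nonneg (nrm_nonneg _ _) (nrm_nonneg _ _)) |> abs_le.2
  rw [mul_pow, nrm_sq hA, nrm_sq hA]
  nlinarith

theorem continuous_nrm (A : Mat n) : Continuous (nrm A) :=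
  ((bil A).continuous.clm_apply continuous_id).sqrt

theorem isOpen_nrm_lt (A : Mat n) (S : ℝ) : IsOpen {v | nrm A v < S} :=
  isOpen_lt (continuous_nrm A) continuous_const

/-- Smoothness of `bil (G x) v w` in all variables. -/
theorem Met.contDiffAt_bil {G : MF n} (hG : Met G) {F : Type} [NormedAddCommGroup F]
    [NormedSpace ℝ F] {m : ℕ∞} {y v w : F → V n} {u : F} (hy : ContDiffAt ℝ m y u)
    (hv : ContDiffAt ℝ m v u) (hw : ContDiffAt ℝ m w u) :
    ContDiffAt ℝ m (fun z => bil (G (y z)) (v z) (w z)) u := by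
  simp only [bil_eq_sum]
  refine ContDiffAt.sum fun i _ => ContDiffAt.sum fun j _ => ?_
  exact ((((hG.sm i j).of_le (by exact_mod_cast le_top)).contDiffAt.comp u hy).mul
    (contDiffAt_pi.1 hv i)).mul (contDiffAt_pi.1 hw j)

theorem Met.continuous_bil {G : MF n} (hG : Met G) :
    Continuous fun z : V n × V n × V n => bil (G z.1) z.2.1 z.2.2 := by
  simp only [bil_eq_sum]
  refine continuous_finsetSum _ fun i _ => continuous_finsetSum _ fun j _ => ?_
  have := (hG.sm i j).continuous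
  fun_prop

/-- Uniform comparison with the sup norm on compact sets. -/
theorem Met.exists_bounds {G : MF n} (hG : Met G) {K : Set (V n)} (hK : IsCompact K) :
    ∃ c > 0, ∃ C > 0, ∀ y ∈ K, ∀ v, c * ‖v‖ ≤ nrm (G y) v ∧ nrm (G y) v ≤ C * ‖v‖ := by
  have hc : Continuous fun z : V n × V n => nrm (G z.1) z.2 :=
    (hG.continuous_bil.comp (f := fun z : V n × V n => (z.1, z.2, z.2)) (by fun_prop)).sqrt
  have hKS := hK.prod (isCompact_sphere (0 : V n) 1)
  have red : ∀ y v, v ≠ 0 → nrm (G y) v = nrm (G y) (‖v‖⁻¹ • v) * ‖v‖ ∧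
      ‖v‖⁻¹ • v ∈ sphere (0 : V n) 1 := fun y v hv => by
    have := norm_pos_iff.2 hv
    refine ⟨?_, by simp [norm_smul, this.ne']⟩
    rw [nrm_smul, abs_of_pos (inv_pos.2 this)]
    field_simp
  rcases (K ×ˢ sphere (0 : V n) 1).eq_empty_or_nonempty with h | h
  · refine ⟨1, one_pos, 1, one_pos, fun y hy v => ?_⟩
    by_cases hv : v = 0
    · simp [hv, nrm_zero]
    · exact absurd (mk_mem_prod hy (red y v hv).2) (by rw [h]; exact notMem_empty _)
  obtain ⟨a, ha, hmin⟩ := hKS.exists_isMinOn h hc.continuousOn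
  obtain ⟨b, hb, hmax⟩ := hKS.exists_isMaxOn h hc.continuousOn
  have hne : ∀ z ∈ K ×ˢ sphere (0 : V n) 1, 0 < nrm (G z.1) z.2 := fun z hz =>
    nrm_pos (hG.pos _) (ne_zero_of_mem_unit_sphere ⟨z.2, hz.2⟩)
  refine ⟨_, hne a ha, _, hne b hb, fun y hy v => ?_⟩
  by_cases hv : v = 0
  · simp [hv, nrm_zero]
  · obtain ⟨e, hm⟩ := red y v hv
    rw [e]
    have h1 : nrm (G a.1) a.2 ≤ nrm (G y) (‖v‖⁻¹ • v) :=
      isMinOn_iff.1 hmin (y, ‖v‖⁻¹ • v) (mk_mem_prod hy hm)
    have h2 : nrm (G y) (‖v‖⁻¹ • v) ≤ nrm (G b.1) b.2 :=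
      isMaxOn_iff.1 hmax (y, ‖v‖⁻¹ • v) (mk_mem_prod hy hm)
    exact ⟨mul_le_mul_of_nonneg_right h1 (norm_nonneg _),
      mul_le_mul_of_nonneg_right h2 (norm_nonneg _)⟩

/-- Partial derivative in time. -/
theorem hasDerivAt_time {F : Type} [NormedAddCommGroup F] [NormedSpace ℝ F] {y : V n × ℝ → F}
    {v : V n} {t : ℝ} (hy : DifferentiableAt ℝ y (v, t)) :
    HasDerivAt (fun s => y (v, s)) (fderiv ℝ y (v, t) (0, 1)) t :=
  hy.hasFDerivAt.comp_hasDerivAt t ((hasDerivAt_const t v).prodMk (hasDerivAt_id t))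

/-- Partial derivative along `a`. -/
theorem hasDerivAt_dir {F : Type} [NormedAddCommGroup F] [NormedSpace ℝ F] {y : V n × ℝ → F}
    {v : V n} {t : ℝ} (hy : DifferentiableAt ℝ y (v, t)) (a : V n) :
    HasDerivAt (fun s : ℝ => y (v + s • a, t)) (fderiv ℝ y (v, t) (a, 0)) 0 := by
  have h : HasDerivAt (fun s : ℝ => (v + s • a, t)) (a, 0) 0 := by
    simpa using (((hasDerivAt_id (0 : ℝ)).smul_const a).const_add v).prodMk (hasDerivAt_const 0 t)
  exact (show HasFDerivAt y _ (v + (0 : ℝ) • a, t) by simpa using hy.hasFDerivAt).comp_hasDerivAt 0 h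

/-- Affine reparametrisation of a geodesic. -/
theorem geodEq_affine {G : MF n} {x : ℝ → V n} {s c t : ℝ} (hx : ContDiffAt ℝ 2 x (s + c * t))
    (h : GeodEq G x (s + c * t)) : GeodEq G (fun τ => x (s + c * τ)) t := by
  intro k
  have hl : ∀ τ, HasDerivAt (fun τ => s + c * τ) c τ := fun τ => by
    simpa using ((hasDerivAt_id τ).const_mul c).const_add s
  have hi : ∀ i, ContDiffAt ℝ 2 (fun τ => x τ i) (s + c * t) := fun i => contDiffAt_pi.1 hx i
  have e1 : ∀ i, (deriv fun τ => x (s + c * τ) i) =ᶠ[𝓝 t]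
      fun τ => deriv (fun τ => x τ i) (s + c * τ) * c := fun i => by
    filter_upwards [(hl t).continuousAt.eventually
      (MP_3eff7f_gt_h14.eventually_diff (hi i))] with τ hτ
    exact (hτ.hasDerivAt.comp τ (hl τ)).deriv
  have e2 : deriv (deriv fun τ => x (s + c * τ) k) t =
      deriv (deriv fun τ => x τ k) (s + c * t) * c * c := by
    rw [(e1 k).deriv_eq]
    exact (((MP_3eff7f_gt_h14.hasDerivAt_deriv_of_two (hi k)).comp t (hl t)).mul_const c).deriv
  have h0 := h k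
  rw [e2]
  simp only [(e1 _).eq_of_nhds]
  rw [← mul_zero (c * c), ← h0, mul_add, Finset.mul_sum]
  congr 1
  · ring
  · refine Finset.sum_congr rfl fun i _ => ?_
    rw [Finset.mul_sum]
    exact Finset.sum_congr rfl fun j _ => by ring

theorem GF.contDiffAt {G : MF n} {G0 : Mat n} {y : V n × ℝ → V n} {O : Set (V n × ℝ)}
    (h : GF G G0 y O) {u : V n × ℝ} (hu : u ∈ O) : ContDiffAt ℝ ∞ y u :=
  h.sm.contDiffAt (h.op.mem_nhds hu)

theorem GF.mono {G : MF n} {G0 : Mat n} {y : V n × ℝ → V n} {O O' : Set (V n × ℝ)}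
    (h : GF G G0 y O) (ho : IsOpen O') (hs : O' ⊆ O) : GF G G0 y O' :=
  ⟨ho, h.sm.mono hs, fun u hu => h.geo u (hs hu), fun u hu => h.spd u (hs hu)⟩

variable {M : Type} [MetricSpace M] {A : Atl n M} {G0 : Mat n} {c : V n × ℝ → M} {p : M}
  {O : Set (V n × ℝ)} {u : V n × ℝ}

theorem Atl.G0_pos (A : Atl n M) (x : M) : (A.G0 x).PosDef := (A.met x).pos _

theorem Valid.mono (h : Valid A G0 c p O) {O' : Set (V n × ℝ)} (ho : IsOpen O') (hs : O' ⊆ O) :
    Valid A G0 c p O' :=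
  ⟨h.1.mono_left hs, h.2.mono ho hs⟩

theorem Valid.eventually_eq (h : Valid A G0 c p O) (hu : u ∈ O) :
    c =ᶠ[𝓝 u] fun z => (A.e p).symm (A.e p (c z)) := by
  filter_upwards [h.2.op.mem_nhds hu] with z hz
  rw [(A.e p).left_inv (h.1 hz)]

theorem Valid.continuousAt (h : Valid A G0 c p O) (hu : u ∈ O) : ContinuousAt c u := by
  refine ContinuousAt.congr ?_ (h.eventually_eq hu).symm
  exact ContinuousAt.comp (f := fun z => A.e p (c z))
    ((A.e p).continuousAt_symm ((A.e p).map_source (h.1 hu))) (h.2.contDiffAt hu).continuousAt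

theorem Valid.eventually_mem (h : Valid A G0 c p O) (hu : u ∈ O) {q : M}
    (hq : c u ∈ (A.e q).source) : ∀ᶠ z in 𝓝 u, c z ∈ (A.e q).source :=
  (h.continuousAt hu).eventually ((A.e q).open_source.mem_nhds hq)

/-- Smoothness in any chart. -/
theorem Valid.contDiffAt (h : Valid A G0 c p O) (hu : u ∈ O) {q : M}
    (hq : c u ∈ (A.e q).source) : ContDiffAt ℝ ∞ (fun z => A.e q (c z)) u := by
  have hx := (A.e p).map_source (h.1 hu)
  have h1 := A.psm.trs p q _ hx (by rwa [(A.e p).left_inv (h.1 hu)])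
  refine (ContDiffAt.comp u (f := fun z => A.e p (c z)) h1 (h.2.contDiffAt hu)).congr_of_eventuallyEq ?_
  filter_upwards [h.eventually_eq hu] with z hz
  exact congrArg (A.e q) hz

/-- The pulled back metric does not depend on the chart. -/
theorem Valid.pbc_eq (h : Valid A G0 c p O) (hu : u ∈ O) {q : M} (hq : c u ∈ (A.e q).source)
    (a b : V n × ℝ) :
    pbc (A.G q) (fun z => A.e q (c z)) u a b = pbc (A.G p) (fun z => A.e p (c z)) u a b := by
  have hx := (A.e p).map_source (h.1 hu)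
  have hl := (A.e p).left_inv (h.1 hu)
  have h1 := (A.psm.trs p q _ hx (by rwa [hl])).differentiableAt (by simp)
  have h2 := (h.2.contDiffAt hu).differentiableAt (by simp)
  have e : (fun z => A.e q (c z)) =ᶠ[𝓝 u]
      (fun y => A.e q ((A.e p).symm y)) ∘ fun z => A.e p (c z) := by
    filter_upwards [h.eventually_eq hu] with z hz
    exact congrArg (A.e q) hz
  have h3 := A.psm.trp p q _ hx (by rwa [hl])
  unfold pbc
  rw [e.fderiv_eq, fderiv_comp u h1 h2, ← h3, hl]
  rfl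

theorem Valid.pb_eq (h : Valid A G0 c p O) (hu : u ∈ O) (a b : V n × ℝ) :
    pb A c u a b = pbc (A.G p) (fun z => A.e p (c z)) u a b :=
  h.pbc_eq hu (A.psm.mem _) a b

theorem Valid.gram_eq (h : Valid A G0 c p O) (hu : u ∈ O) :
    gram A c u = gramc (A.G p) (fun z => A.e p (c z)) u := by
  ext i j
  exact h.pb_eq hu _ _

theorem gram_apply (i j : Fin n) :
    gram A c u i j = pb A c u (Pi.single i 1, 0) (Pi.single j 1, 0) := rfl

theorem GF.contDiffAt_pbc {G : MF n} (hG : Met G) {y : V n × ℝ → V n} (h : GF G G0 y O)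
    (hu : u ∈ O) (a b : V n × ℝ) : ContDiffAt ℝ ∞ (fun z => pbc G y z a b) u := by
  have hy := h.contDiffAt hu
  have hd : ContDiffAt ℝ ∞ (fderiv ℝ y) u := hy.fderiv_right (by simp)
  exact hG.contDiffAt_bil (m := ⊤) hy (hd.clm_apply contDiffAt_const)
    (hd.clm_apply contDiffAt_const)

theorem Valid.contDiffAt_pb (h : Valid A G0 c p O) (hu : u ∈ O) (a b : V n × ℝ) :
    ContDiffAt ℝ ∞ (fun z => pb A c z a b) u := by
  refine (h.2.contDiffAt_pbc (A.met p) hu a b).congr_of_eventuallyEq ?_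
  filter_upwards [h.2.op.mem_nhds hu] with z hz using h.pb_eq hz a b

theorem IsExp.continuousAt {x : M} {S : ℝ} (h : IsExp A x S c) {v : V n} {t : ℝ}
    (hv : nrm (A.G0 x) v < S) (ht : t ∈ Icc (0 : ℝ) 1) : ContinuousAt c (v, t) := by
  obtain ⟨p, O, hu, hV⟩ := h.val v t hv ht
  exact hV.continuousAt hu

end Pool.Agent.Lib.RG
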