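import Pool.Agent.Lib.MP_3eff7f_gt.LoopFlow
import Pool.Agent.Lib.MP_3eff7f_gt.Abstract

/-! Path algebra: 1-Lipschitz paths with a duration, homotopies with a bound on the duration. -/

set_option autoImplicit false
set_option linter.unusedSectionVars false

open Set Filter Topology Metric

namespace Pool.Agent.Lib.RG

open Pool.Agent.Lib.MP_3eff7f_gt

variable {X : Type} [MetricSpace X]

/-- A path of duration `l` from `a` to `b`. -/
structure MP (a b : X) (l : ℝ) (p : ℝ → X) : Prop where
  nn : 0 ≤ l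
  lip : ∀ s t, dist (p s) (p t) ≤ |s - t|
  left : ∀ t, t ≤ 0 → p t = a
  right : ∀ t, l ≤ t → p t = b

/-- Homotopic through paths of duration `L`. -/
def Eqv (a b : X) (L : ℝ) (p q : ℝ → X) : Prop := Htp (MP a b L) p q

/-- Null-homotopic through loops of duration `L`. -/
def Nul (x : X) (L : ℝ) (h : ℝ → X) : Prop := Eqv x x L h fun _ => x

/-- Concatenation at time `l`. -/
noncomputable def cat (l : ℝ) (p q : ℝ → X) : ℝ → X := fun t => if t ≤ l then p t else q (t - l)

/-- Reversal. -/
def rev (l : ℝ) (p : ℝ → X) : ℝ → X := fun t => p (l - t)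

variable {a b c d : X} {l m k L L' : ℝ} {p p' q q' u : ℝ → X}

theorem cat_of_le {t : ℝ} (h : t ≤ l) : cat l p q t = p t := if_pos h

theorem cat_of_ge {t : ℝ} (hj : p l = q 0) (h : l ≤ t) : cat l p q t = q (t - l) := by
  rcases h.eq_or_lt with rfl | h
  · rw [cat_of_le le_rfl, sub_self, hj]
  · exact if_neg (not_le.2 h)

theorem continuous_cat {Z : Type*} [TopologicalSpace Z] {l : Z → ℝ} {p q : Z → ℝ → X} {t : Z → ℝ}
    (hl : Continuous l) (hp : Continuous fun z : Z × ℝ => p z.1 z.2)
    (hq : Continuous fun z : Z × ℝ => q z.1 z.2) (ht : Continuous t)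
    (hj : ∀ z, p z (l z) = q z 0) : Continuous fun z => cat (l z) (p z) (q z) (t z) := by
  refine Continuous.if_le (f := t) (g := l) ?_ ?_ ht hl ?_
  · exact hp.comp (f := fun z => (z, t z)) (by fun_prop)
  · exact hq.comp (f := fun z => (z, t z - l z)) (by fun_prop)
  · intro z hz
    rw [hz, sub_self, hj]

namespace MP

theorem continuous (h : MP a b l p) : Continuous p := by
  have : LipschitzWith 1 p := LipschitzWith.of_dist_le_mul fun s t => by
    simpa [Real.dist_eq] using h.lip s t
  exact this.continuous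

theorem mono (h : MP a b l p) (hl : l ≤ m) : MP a b m p :=
  ⟨h.nn.trans hl, h.lip, h.left, fun t ht => h.right t (hl.trans ht)⟩

theorem const (a : X) (hl : 0 ≤ l) : MP a a l fun _ => a :=
  ⟨hl, fun s t => by simp, fun _ _ => rfl, fun _ _ => rfl⟩

theorem zero (h : MP a b l p) : p 0 = a := h.left 0 le_rfl

theorem last (h : MP a b l p) : p l = b := h.right l le_rfl

theorem dist_le (h : MP a b l p) : dist a b ≤ l := by
  have := h.lip 0 l
  rwa [h.zero, h.last, zero_sub, abs_neg, abs_of_nonneg h.nn] at this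

theorem join (hp : MP a b l p) (hq : MP b c m q) : p l = q 0 := hp.last.trans hq.zero.symm

theorem cat (hp : MP a b l p) (hq : MP b c m q) : MP a c (l + m) (cat l p q) := by
  refine ⟨add_nonneg hp.nn hq.nn, fun s t => ?_, fun t ht => ?_, fun t ht => ?_⟩
  · exact lip_concat (c₂ := fun t => q (t - l)) hp.lip
      (fun s t => by simpa using hq.lip (s - l) (t - l)) (by simpa using hp.join hq) s t
  · rw [cat_of_le (ht.trans hp.nn), hp.left t ht]
  · rw [cat_of_ge (hp.join hq) (by linarith [hq.nn]), hq.right _ (by linarith)]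

theorem rev (hp : MP a b l p) : MP b a l (rev l p) := by
  refine ⟨hp.nn, fun s t => ?_, fun t ht => hp.right _ (by linarith),
    fun t ht => hp.left _ (by linarith)⟩
  have := hp.lip (l - s) (l - t)
  rwa [show l - s - (l - t) = -(s - t) by ring, abs_neg] at this

theorem of_seg {r : ℝ} (G : GeoData X r) (h : dist a b ≤ l) : MP a b l (seg a b) :=
  ⟨dist_nonneg.trans h, (G.seg_spec a b).1, (G.seg_spec a b).2.1,
    fun t ht => (G.seg_spec a b).2.2 t (h.trans ht)⟩

/-- Initial piece. -/
theorem init (hp : MP a b l p) {s : ℝ} (hs : 0 ≤ s) : MP a (p s) s fun t => p (min t s) := by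
  refine ⟨hs, fun t t' => (hp.lip _ _).trans ?_, fun t ht => hp.left _ ((min_le_left _ _).trans ht),
    fun t ht => by rw [min_eq_right ht]⟩
  simpa using abs_min_sub_min_le_max t s t' s

/-- Final piece. -/
theorem tail (hp : MP a b l p) {s : ℝ} (hs : s ≤ l) :
    MP (p s) b (l - s) fun t => p (s + max t 0) := by
  refine ⟨by linarith, fun t t' => (hp.lip _ _).trans ?_, fun t ht => by rw [max_eq_right ht, add_zero],
    fun t ht => hp.right _ (by linarith [le_max_left t 0])⟩
  simpa using abs_max_sub_max_le_abs t t' 0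

end MP

theorem cat_assoc (hm : 0 ≤ m) : cat (l + m) (cat l p q) u = cat l p (cat m q u) := by
  funext t
  unfold cat
  by_cases h1 : t ≤ l
  · simp [h1, show t ≤ l + m by linarith]
  · by_cases h2 : t ≤ l + m
    · simp [h1, h2, show t - l ≤ m by linarith]
    · simp [h1, h2, show ¬ t - l ≤ m by intro h; apply h2; linarith, sub_sub]

theorem cat_const (hp : MP a b l p) : cat l p (fun _ => b) = p := by
  funext t
  rcases le_total t l with h | h
  · exact cat_of_le h
  · rw [cat_of_ge hp.last h, hp.right t h]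

theorem cat_zero (hq : MP a b m q) : cat 0 (fun _ => a) q = q := by
  funext t
  rcases le_total t 0 with h | h
  · rw [cat_of_le h, hq.left t h]
  · rw [cat_of_ge hq.zero.symm h, sub_zero]

namespace Eqv

theorem refl (hp : MP a b L p) : Eqv a b L p p := Htp.refl hp.continuous hp

theorem symm (h : Eqv a b L p q) : Eqv a b L q p := Htp.symm h

theorem trans (h : Eqv a b L p q) (h' : Eqv a b L q u) : Eqv a b L p u := Htp.trans h h'

theorem mono (h : Eqv a b L p q) (hL : L ≤ L') : Eqv a b L' p q :=
  Htp.mono h fun _ hφ => hφ.mono hL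

theorem left (h : Eqv a b L p q) : MP a b L p := Htp.prop_left h

theorem right (h : Eqv a b L p q) : MP a b L q := Htp.prop_right h

/-- To build a homotopy it is enough to give it on `[0, T]`. -/
theorem of_fam {T : ℝ} (hT : 0 ≤ T) (H : ℝ → ℝ → X) (hc : Continuous fun z : ℝ × ℝ => H z.1 z.2)
    (hP : ∀ s ∈ Icc 0 T, MP a b L (H s)) : Eqv a b L (H 0) (H T) :=
  ⟨fun s => H (s * T), hc.comp (f := fun z : ℝ × ℝ => (z.1 * T, z.2)) (by fun_prop), by simp,
    by simp, fun s hs => hP _ ⟨mul_nonneg hs.1 hT, by nlinarith [hs.2]⟩⟩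

/-- A homotopy defined for all real parameters. -/
theorem exists_fam (h : Eqv a b L p q) : ∃ H : ℝ → ℝ → X,
    Continuous (fun z : ℝ × ℝ => H z.1 z.2) ∧ (∀ s, s ≤ 0 → H s = p) ∧ (∀ s, 1 ≤ s → H s = q) ∧
      ∀ s, MP a b L (H s) := by
  obtain ⟨H, hc, h0, h1, hP⟩ := h
  refine ⟨fun s => H (max 0 (min s 1)),
    hc.comp (f := fun z : ℝ × ℝ => (max 0 (min z.1 1), z.2)) (by fun_prop), fun s hs => ?_,
    fun s hs => ?_, fun s => hP _ ⟨le_max_left _ _, max_le zero_le_one (min_le_right _ _)⟩⟩
  · simp only [max_eq_left ((min_le_left s 1).trans hs), h0]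
  · simp only [min_eq_right hs, max_eq_right zero_le_one, h1]

theorem cat_left (hp : MP a b l p) (h : Eqv b c L q q') :
    Eqv a c (l + L) (cat l p q) (cat l p q') := by
  obtain ⟨H, hc, h0, h1, hP⟩ := h.exists_fam
  have := of_fam zero_le_one (fun s => cat l p (H s)) (continuous_cat (Z := ℝ × ℝ)
    (p := fun _ => p) (q := fun z => H z.1) continuous_const (hp.continuous.comp continuous_snd)
    (hc.comp (f := fun z : (ℝ × ℝ) × ℝ => (z.1.1, z.2)) (by fun_prop)) continuous_snd
    fun z => hp.join (hP _)) fun s _ => hp.cat (hP s)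
  simpa only [h0 0 le_rfl, h1 1 le_rfl] using this

theorem cat_right0 (h : Eqv a b L p p') (hq : MP b c m q) :
    Eqv a c (L + m) (cat L p q) (cat L p' q) := by
  obtain ⟨H, hc, h0, h1, hP⟩ := h.exists_fam
  have := of_fam zero_le_one (fun s => cat L (H s) q) (continuous_cat (Z := ℝ × ℝ)
    (p := fun z => H z.1) (q := fun _ => q) continuous_const
    (hc.comp (f := fun z : (ℝ × ℝ) × ℝ => (z.1.1, z.2)) (by fun_prop))
    (hq.continuous.comp continuous_snd) continuous_snd
    fun z => (hP _).join hq) fun s _ => (hP s).cat hq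
  simpa only [h0 0 le_rfl, h1 1 le_rfl] using this

/-- The time of concatenation does not matter. -/
theorem slide (hp : MP a b l p) (hq : MP b c m q) (hl : l ≤ k) :
    Eqv a c (k + m) (cat l p q) (cat k p q) := by
  have := of_fam (a := a) (b := c) (L := k + m) (sub_nonneg.2 hl)
    (fun s => cat (l + max s 0) p q) (continuous_cat (Z := ℝ × ℝ)
    (p := fun _ => p) (q := fun _ => q) (by fun_prop) (hp.continuous.comp continuous_snd)
    (hq.continuous.comp continuous_snd) continuous_snd
    fun z => (hp.mono (by linarith [le_max_right z.1 0])).join hq) fun s hs =>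
      ((hp.mono (by linarith [le_max_right s 0])).cat hq).mono
        (by rw [max_eq_left hs.1]; linarith [hs.2])
  simpa only [max_self, add_zero, max_eq_left (sub_nonneg.2 hl), add_sub_cancel] using this

/-- Homotopy of the first factor. -/
theorem cat_right {l' : ℝ} (hp : MP a b l p) (hp' : MP a b l' p') (h : Eqv a b L p p')
    (hl : l ≤ L) (hl' : l' ≤ L) (hq : MP b c m q) :
    Eqv a c (L + m) (cat l p q) (cat l' p' q) :=
  ((slide hp hq hl).trans (h.cat_right0 hq)).trans (slide hp' hq hl').symm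

theorem const_cat (hl : 0 ≤ l) (hq : MP a b m q) : Eqv a b (l + m) (cat l (fun _ => a) q) q := by
  have := (slide (MP.const a le_rfl) hq hl).symm
  rwa [cat_zero hq] at this

theorem rev (h : Eqv a b L p q) : Eqv b a L (rev L p) (rev L q) := by
  obtain ⟨H, hc, h0, h1, hP⟩ := h.exists_fam
  have := of_fam zero_le_one (fun s => RG.rev L (H s))
    (hc.comp (f := fun z : ℝ × ℝ => (z.1, L - z.2)) (by fun_prop)) fun s _ => (hP s).rev
  simpa only [h0 0 le_rfl, h1 1 le_rfl] using this

end Eqv

theorem Nul.mono {x : X} (h : Nul x L p) (hL : L ≤ L') : Nul x L' p := Eqv.mono h hL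

theorem Nul.const (x : X) (hL : 0 ≤ L) : Nul x L fun _ => x := Eqv.refl (MP.const x hL)

/-- A path followed by its reverse. -/
theorem MP.nul_cat_rev (hp : MP a b l p) : Nul a (l + l) (RG.cat l p (RG.rev l p)) := by
  have hc := hp.continuous
  have := Eqv.of_fam (a := a) (b := a) (L := l + l) hp.nn
    (fun s => RG.cat l (fun t => p (min t s)) (RG.rev l fun t => p (min t s)))
    (continuous_cat (Z := ℝ × ℝ) (p := fun z t => p (min t z.1))
      (q := fun z => RG.rev l fun t => p (min t z.1)) continuous_const (by fun_prop)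
      (by unfold RG.rev; fun_prop) continuous_snd fun z => by simp [RG.rev])
    fun s hs => ((hp.init hs.1).mono hs.2).cat ((hp.init hs.1).mono hs.2).rev
  have e0 : (fun t => p (min t 0)) = fun _ => a := funext fun t => hp.left _ (min_le_right _ _)
  have e1 : (fun t => p (min t l)) = p := funext fun t => by
    rcases le_total t l with h | h
    · rw [min_eq_left h]
    · rw [min_eq_right h, hp.last, hp.right t h]
  simp only [e0, e1] at this
  have e2 : RG.cat l (fun _ => a) (RG.rev l fun _ => a) = fun _ => a := by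
    funext t
    simp [RG.cat, RG.rev]
  rw [e2] at this
  exact this.symm

theorem rev_rev : rev l (rev l p) = p := by
  funext t
  simp [rev]

theorem MP.nul_rev_cat (hp : MP a b l p) : Nul b (l + l) (RG.cat l (RG.rev l p) p) := by
  have := hp.rev.nul_cat_rev
  rwa [rev_rev] at this

/-- Removing a null-homotopic second factor. -/
theorem Eqv.cat_nul (hp : MP a b l p) (h : Nul b L q) : Eqv a b (l + L) (cat l p q) p := by
  have := Eqv.cat_left hp h
  rwa [cat_const hp] at this

/-- Removing a null-homotopic first factor. -/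
theorem Eqv.nul_cat (hp : MP a a l p) (h : Nul a L p) (hl : l ≤ L) (hq : MP a b m q) :
    Eqv a b (L + m) (cat l p q) q := by
  have := Eqv.cat_right hp (MP.const a le_rfl) h hl (hp.nn.trans hl) hq
  rwa [cat_zero hq] at this

/-- `p⁻¹ p q ~ q`. -/
theorem Eqv.rev_cat_cat (hp : MP a b l p) (hq : MP b c m q) :
    Eqv b c (l + l + m) (cat l (RG.rev l p) (cat l p q)) q := by
  rw [← cat_assoc hp.nn]
  exact Eqv.nul_cat (hp.rev.cat hp) hp.nul_rev_cat le_rfl hq

/-- `p q q⁻¹ ~ p`. -/
theorem Eqv.cat_cat_rev (hp : MP a b l p) (hq : MP b c m q) :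
    Eqv a b (l + (m + m)) (cat (l + m) (cat l p q) (RG.rev m q)) p := by
  rw [cat_assoc hq.nn]
  exact Eqv.cat_nul hp hq.nul_cat_rev

/-- Cancelling a first factor. -/
theorem Eqv.cancel_left (hp : MP a b l p) (hq : MP b c m q) (hq' : MP b c m q')
    (h : Eqv a c L (cat l p q) (cat l p q')) (hL : l + m ≤ L) : Eqv b c (l + L) q q' :=
  (((Eqv.rev_cat_cat hp hq).mono (by linarith)).symm.trans (Eqv.cat_left hp.rev h)).trans
    ((Eqv.rev_cat_cat hp hq').mono (by linarith))

/-- Cancelling a second factor. -/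
theorem Eqv.cancel_right (hp : MP a b l p) (hp' : MP a b l p') (hq : MP b c m q)
    (h : Eqv a c L (cat l p q) (cat l p' q)) (hL : l + m ≤ L) : Eqv a b (L + m) p p' :=
  (((Eqv.cat_cat_rev hp hq).mono (by linarith)).symm.trans
    (Eqv.cat_right (hp.cat hq) (hp'.cat hq) h hL hL hq.rev)).trans
    ((Eqv.cat_cat_rev hp' hq).mono (by linarith))

/-- Conjugating a null-homotopic loop. -/
theorem Nul.conj {h : ℝ → X} (hp : MP a b l p) (hh : MP b b m h) (hN : Nul b L h) (hL : m ≤ L) :
    Nul a (l + L + l) (cat l p (cat m h (rev l p))) := by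
  have h1 := Eqv.cat_left hp (Eqv.nul_cat hh hN hL hp.rev)
  exact (h1.mono (by linarith)).trans (hp.nul_cat_rev.mono (by linarith [hh.nn]))

/-- If a conjugate is null-homotopic then so is the loop. -/
theorem Nul.of_conj {h : ℝ → X} (hp : MP a b l p) (hh : MP b b m h)
    (hN : Nul a L (cat l p (cat m h (rev l p)))) (hL : l + m + l ≤ L) : Nul b (l + L + l) h := by
  have hc := hp.cat (hh.cat hp.rev)
  have h1 := Nul.conj hp.rev hc hN (by linarith)
  rw [rev_rev] at h1
  refine Eqv.trans (Eqv.symm ?_) h1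
  have e : cat (l + (m + l)) (cat l p (cat m h (rev l p))) p =
      cat l p (cat (m + l) (cat m h (rev l p)) p) := cat_assoc (by linarith [hp.nn, hh.nn])
  rw [e]
  have h2 := Eqv.cat_cat_rev hh hp.rev
  rw [rev_rev] at h2
  exact ((Eqv.rev_cat_cat hp ((hh.cat hp.rev).cat hp)).mono (by linarith)).trans
    (h2.mono (by linarith [hp.nn]))

/-- A loop `p q⁻¹` that is null-homotopic gives a homotopy from `p` to `q`. -/
theorem Eqv.of_nul (hp : MP a b l p) (hq : MP a b m q) (hN : Nul a L (cat l p (RG.rev m q)))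
    (hL : l + m ≤ L) : Eqv a b (L + m) p q := by
  have h1 := Eqv.cat_cat_rev hp hq.rev
  rw [rev_rev] at h1
  exact (h1.mono (by linarith)).symm.trans (Eqv.nul_cat (hp.cat hq.rev) hN hL hq)

/-- The zipper: uniformly close paths are homotopic. -/
theorem Eqv.zip [CompactSpace X] {r ε : ℝ} (G : GeoData X r) (hp : MP a b l p) (hq : MP c d l q)
    (hε : ε < r) (hd : ∀ t, dist (p t) (q t) ≤ ε) :
    Eqv a b (l + 2 * ε) p (cat ε (seg a c) (cat l q (RG.rev ε (seg b d)))) := by
  have hε0 : 0 ≤ ε := dist_nonneg.trans (hd 0)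
  have hbd : dist b d ≤ ε := by
    have := hd l
    rwa [hp.last, hq.last] at this
  have hac : dist a c ≤ ε := by
    have := hd 0
    rwa [hp.zero, hq.zero] at this
  have hσ := (MP.of_seg G hbd).rev
  have hqσ := hq.cat hσ
  set w := cat l q (RG.rev ε (seg b d)) with hw
  have hcp := hp.continuous
  have hcq := hq.continuous
  have hcw := hqσ.continuous
  have hwq : ∀ s, s ≤ l → w s = q s := fun s hs => cat_of_le hs
  -- the family
  let cl : ℝ → ℝ := fun s => max 0 (min s l)
  have cl0 : ∀ s, 0 ≤ cl s := fun s => le_max_left _ _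
  have cll : ∀ s, cl s ≤ l := fun s => max_le hp.nn (min_le_right _ _)
  have hM : ∀ s, MP a b (cl s + (ε + (l + ε - cl s))) (cat (cl s) (fun t => p (min t (cl s)))
      (cat ε (seg (p (cl s)) (q (cl s))) fun t => w (cl s + max t 0))) := fun s => by
    have h3 := hqσ.tail (s := cl s) (by linarith [cll s])
    rw [hwq _ (cll s)] at h3
    exact (hp.init (cl0 s)).cat ((MP.of_seg G (hd _)).cat h3)
  have hseg : Continuous fun z : ℝ × ℝ => seg (p (cl z.1)) (q (cl z.1)) z.2 :=
    G.continuousOn_seg.comp_continuous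
      (f := fun z : ℝ × ℝ => (p (cl z.1), q (cl z.1), z.2)) (by fun_prop)
      fun z => (hd _).trans_lt hε
  have hin : Continuous fun z : ℝ × ℝ =>
      cat ε (seg (p (cl z.1)) (q (cl z.1))) (fun t => w (cl z.1 + max t 0)) z.2 :=
    continuous_cat (Z := ℝ × ℝ) (p := fun z => seg (p (cl z.1)) (q (cl z.1)))
      (q := fun z t => w (cl z.1 + max t 0)) continuous_const
      (hseg.comp (f := fun z : (ℝ × ℝ) × ℝ => (z.1.1, z.2)) (by fun_prop)) (by fun_prop)
      continuous_snd fun z => by
        rw [(MP.of_seg G (hd _)).last]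
        simp [hwq _ (cll _)]
  have h1 := Eqv.of_fam (a := a) (b := b) (L := l + 2 * ε) hp.nn
    (fun s => cat (cl s) (fun t => p (min t (cl s)))
      (cat ε (seg (p (cl s)) (q (cl s))) fun t => w (cl s + max t 0)))
    (continuous_cat (Z := ℝ × ℝ) (p := fun z t => p (min t (cl z.1)))
      (q := fun z => cat ε (seg (p (cl z.1)) (q (cl z.1))) fun t => w (cl z.1 + max t 0))
      (by fun_prop) (by fun_prop)
      (hin.comp (f := fun z : (ℝ × ℝ) × ℝ => (z.1.1, z.2)) (by fun_prop)) continuous_snd
      fun z => by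
        rw [cat_of_le hε0, (MP.of_seg G (hd _)).zero, min_self])
    fun s _ => (hM s).mono (by linarith)
  have c0 : cl 0 = 0 := by simp [cl, hp.nn]
  have c1 : cl l = l := by simp [cl, hp.nn]
  simp only [c0, c1, hp.zero, hq.zero, hp.last, hq.last] at h1
  have e0 : (fun t => p (min t 0)) = fun _ => a := funext fun t => hp.left _ (min_le_right _ _)
  have e1 : (fun t => p (min t l)) = p := funext fun t => by
    rcases le_total t l with h | h
    · rw [min_eq_left h]
    · rw [min_eq_right h, hp.last, hp.right t h]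
  have e2 : (fun t => w (0 + max t 0)) = w := funext fun t => by
    rcases le_total t 0 with h | h
    · rw [max_eq_right h, add_zero, hqσ.zero, hqσ.left t h]
    · rw [max_eq_left h, zero_add]
  have e3 : (fun t => w (l + max t 0)) = RG.rev ε (seg b d) := funext fun t => by
    rw [hw, cat_of_ge (hq.join hσ) (by linarith [le_max_right t 0]), add_sub_cancel_left]
    rcases le_total t 0 with h | h
    · rw [max_eq_right h, hσ.zero, hσ.left t h]
    · rw [max_eq_left h]
  rw [e0, e1, e2, e3, cat_zero ((MP.of_seg G hac).cat hqσ)] at h1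
  exact ((Eqv.cat_nul hp (MP.of_seg G hbd).nul_cat_rev).mono (by linarith)).symm.trans h1.symm

theorem seg_self {r : ℝ} (G : GeoData X r) (a : X) : seg a a = fun _ => a := by
  funext t
  have h := MP.of_seg G (a := a) (b := a) (l := 0) (by simp)
  rcases le_total t 0 with ht | ht
  · exact h.left t ht
  · exact h.right t ht

/-- Uniformly close paths with the same ends are homotopic. -/
theorem Eqv.of_close [CompactSpace X] {r ε : ℝ} (G : GeoData X r) (hp : MP a b l p)
    (hq : MP a b l q) (hε : ε < r) (hd : ∀ t, dist (p t) (q t) ≤ ε) :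
    Eqv a b (l + 2 * ε) p q := by
  have hε0 : 0 ≤ ε := dist_nonneg.trans (hd 0)
  have h := Eqv.zip G hp hq hε hd
  have e : RG.rev ε (fun _ => b) = fun _ => b := rfl
  rw [seg_self G, seg_self G, e, cat_const hq] at h
  exact h.trans ((Eqv.const_cat hε0 hq).mono (by linarith))

/-- Null-homotopy passes to a uniformly close loop. -/
theorem Nul.of_close [CompactSpace X] {r ε : ℝ} (G : GeoData X r) (hp : MP a a l p)
    (hq : MP c c l q) (hε : ε < r) (hd : ∀ t, dist (p t) (q t) ≤ ε) (hN : Nul c L q)
    (hL : l ≤ L) : Nul a (L + 2 * ε) p := by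
  have hac : dist a c ≤ ε := by
    have := hd 0
    rwa [hp.zero, hq.zero] at this
  exact ((Eqv.zip G hp hq hε hd).mono (by linarith)).trans
    ((Nul.conj (MP.of_seg G hac) hq hN hL).mono (by linarith))

end Pool.Agent.Lib.RG
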