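import Pool.Agent.Lib.RG.Defs
import Pool.Agent.Lib.RG.PA
import Pool.Agent.Lib.MP_3eff7f_gt_h14.EL

/-! Blueprint RG: short periodic geodesics under a lower Ricci bound (paper: rg72_paper.md). -/

set_option autoImplicit false

open Set Filter Topology Metric MeasureTheory Bundle Matrix
open scoped ContDiff Manifold ENNReal

namespace Pool.Agent.Lib.RG

open Pool.Agent.Lib.MP_3eff7f_gt
open Pool.Agent.Lib.MP_3eff7f_gt_h14 (pd Chr chartVec GeodEq MF bil)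

/-! ## Part A: metric topology -/

section A

variable {X : Type} [MetricSpace X]

/-- Shortest among uniformly close paths with the same ends. -/
def LocMin (a b : X) (l : ℝ) (γ : ℝ → X) : Prop :=
  MP a b l γ ∧ ∃ ε > 0, ∀ l' q, MP a b l' q → (∀ t, dist (q t) (γ t) < ε) → l ≤ l'

/-- A family of loops at `x`, parametrised by `[0, 1]`. -/
def Based {W : Type} (x : X) (φ : W × ℝ → X) : Prop := ∀ w t, t ≤ 0 ∨ 1 ≤ t → φ (w, t) = x

/-- Every curve is approximately the end point curve of a family of paths of duration `L`. -/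
def Lifts (x : X) (L : ℝ) : Prop :=
  ∀ f : ℝ → X, Continuous f → ∀ ε > 0, ∃ A : ℝ → ℝ → X,
    Continuous (fun z : ℝ × ℝ => A z.1 z.2) ∧
      ∀ τ ∈ Icc (0 : ℝ) 1, MP x (A τ L) L (A τ) ∧ dist (A τ L) (f τ) < ε

end A

/-- Lemma A (no gap). Sample `g` at `N` points (`exists_samples`), iterate `Phi`
(`exists_iterate_small`), interpolate polygons by `seg` with duration `ρ / N` per edge; chain
`g, poly x, poly (Phi x), …, const`; `Nul.of_close`, `Nul.conj`, `Nul.of_conj`. -/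
def St_WIN : Prop :=
  ∀ (X : Type) [MetricSpace X] [CompactSpace X] (r : ℝ), GeoData X r →
    ∀ (D ρ η lam L : ℝ) (x : X) (g : ℝ → X), (∀ a b : X, dist a b ≤ D) → 0 < η →
      ¬ HasShortGeodesic X ρ → MP x x ρ g → ¬ Nul x lam g → ρ + 2 * D ≤ L → L + 2 * D ≤ lam →
      ∃ h, MP x x (ρ + 2 * D) h ∧ ¬ Nul x L h ∧ Nul x (L + 4 * D + η) h

/-- Lemma B (multiplication). Induction on `m` with the extra clause
`Nul x (L + 2 ^ m * (k * w + m * s)) (S i)`. -/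
def St_CNT : Prop :=
  ∀ (X : Type) [MetricSpace X] (x : X) (s w L0 L1 : ℝ), 0 ≤ s → 0 ≤ w →
    (∀ L, L0 ≤ L → L ≤ L1 → ∃ h, MP x x s h ∧ ¬ Nul x L h ∧ Nul x (L + w) h) →
    ∀ (k m : ℕ) (L : ℝ), L0 ≤ L → 2 ^ m * s ≤ L → L + 2 ^ m * (k * w + m * s) ≤ L1 →
      ∃ S : Fin (k ^ 2 ^ m) → ℝ → X, (∀ i, MP x x (2 ^ m * s) (S i)) ∧
        ∀ i j, Eqv x x L (S i) (S j) → i = j

/-- Lemma M. A path of least duration in each class (compactness + `Eqv.of_close`). -/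
def St_MIN : Prop :=
  ∀ (X : Type) [MetricSpace X] [CompactSpace X] (r : ℝ), GeoData X r →
    ∀ (a b : X) (R R' : ℝ) (N : ℕ) (p : Fin N → ℝ → X), R < R' → (∀ i, MP a b R (p i)) →
      (∀ i j, Eqv a b R' (p i) (p j) → i = j) →
      ∃ (γ : Fin N → ℝ → X) (l : Fin N → ℝ), Function.Injective γ ∧
        ∀ i, l i ≤ R ∧ LocMin a b (l i) (γ i)

/-- Lemma C, step 1. On `[i/N, (i+1)/N]`: first follow `seg (f (i/N)) (f ((i+1)/N))`, then use the
hypothesis to return to `seg x (f ((i+1)/N))`. -/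
def St_LIFT : Prop :=
  ∀ (X : Type) [MetricSpace X] [CompactSpace X] (r : ℝ), GeoData X r →
    ∀ (x : X) (D η L : ℝ), (∀ a b : X, dist a b ≤ D) → 0 < η → D + η ≤ L →
      (∀ b p q, MP x b (D + η) p → MP x b (D + η) q → Eqv x b L p q) → Lifts x L

/-- Lemma C, step 2 (model: `exists_spur`, `exists_piece`, `exists_family` in Family.lean; clamp the
partial sums of `lam` to `[0, 1]`). -/
def St_SHORT : Prop :=
  ∀ (X : Type) [MetricSpace X] [CompactSpace X] (r : ℝ), GeoData X r →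
    ∀ (m : ℝ), SmallCover X m → ∀ (x : X) (L ε : ℝ), 0 ≤ L → 0 < ε → Lifts x L →
      ∀ W : Set X, IsClosed W → ∀ φ : W × ℝ → X, Continuous φ → Based x φ →
        ∃ ψ : W × ℝ → X, Htp (Based x) φ ψ ∧ ∀ w, Clk (fun t => ψ (w, t)) 0 1 (2 * m * (L + ε))

/-- Lemma C, step 3: `loop_contract`, then conjugate by the track of the base point. -/
def St_NUL : Prop :=
  ∀ (X : Type) [MetricSpace X] [CompactSpace X] (r : ℝ), GeoData X r →
    ∀ l : ℝ, 0 ≤ l → ¬ HasShortGeodesic X l →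
      ∀ (H : Type) [MetricSpace H] [CompactSpace H] (x : X) (ψ : H × ℝ → X), Continuous ψ →
        Based x ψ → (∀ h, Clk (fun t => ψ (h, t)) 0 1 l) → Htp (Based x) ψ fun _ => x

/-- Lemma C, step 4: glue local contractions over `K_j = {ρ_1 + … + ρ_j ≥ (j+1)/(J+1)}`. -/
def St_GLUE : Prop :=
  ∀ (X : Type) [MetricSpace X] [CompactSpace X] (r : ℝ), GeoData X r → ∀ x : X,
    (∀ W : Set X, IsClosed W → ∀ φ : W × ℝ → X, Continuous φ → Based x φ →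
      Htp (Based x) φ fun _ => x) → ∀ p, ChainSurj X p → p = x

/-! ## Part B: charts -/

abbrev V (n : ℕ) : Type := Fin n → ℝ

abbrev Mat (n : ℕ) : Type := Matrix (Fin n) (Fin n) ℝ

variable {n : ℕ}

/-- Norm given by a matrix. -/
noncomputable def nrm (G0 : Mat n) (v : V n) : ℝ := √(bil G0 v v)

section Charts

variable {M : Type} [MetricSpace M]

/-- Smooth positive coefficients which transform as a tensor. -/
structure PSm (e : M → OpenPartialHomeomorph M (V n)) (G : M → MF n) : Prop where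
  mem : ∀ p, p ∈ (e p).source
  sm : ∀ p i j, ContDiffOn ℝ ∞ (fun x => G p x i j) (e p).target
  pos : ∀ p, ∀ x ∈ (e p).target, (G p x).PosDef
  trs : ∀ p q, ∀ x ∈ (e p).target, (e p).symm x ∈ (e q).source →
    ContDiffAt ℝ ∞ (fun y => e q ((e p).symm y)) x
  trp : ∀ p q, ∀ x ∈ (e p).target, (e p).symm x ∈ (e q).source → ∀ v w,
    bil (G q (e q ((e p).symm x))) (fderiv ℝ (fun y => e q ((e p).symm y)) x v)
      (fderiv ℝ (fun y => e q ((e p).symm y)) x w) = bil (G p x) v w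

/-- The distance is at most the length of a curve in a chart. -/
def PUp (e : M → OpenPartialHomeomorph M (V n)) (G : M → MF n) : Prop :=
  ∀ (p : M) (y y' : ℝ → V n) (a b : ℝ), a ≤ b →
    (∀ t ∈ Icc a b, y t ∈ (e p).target ∧ HasDerivAt y (y' t) t) → ContinuousOn y' (Icc a b) →
    dist ((e p).symm (y a)) ((e p).symm (y b)) ≤ ∫ t in a..b, nrm (G p (y t)) (y' t)

/-- Functions with gradient at most one are `1`-Lipschitz. -/
def PLow (e : M → OpenPartialHomeomorph M (V n)) (G : M → MF n) : Prop :=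
  ∀ (p : M) (f : V n → ℝ) (O : Set (V n)) (x x' : M) (δ : ℝ), IsOpen O → O ⊆ (e p).target →
    ContDiffOn ℝ 1 f O → (∀ y ∈ O, ∀ w, |fderiv ℝ f y w| ≤ nrm (G p y) w) →
    (∀ z, dist x z < δ → z ∈ (e p).source ∧ e p z ∈ O) → dist x x' < δ →
    |f (e p x') - f (e p x)| ≤ dist x x'

/-- `Ric ≥ -K g`. -/
def PRic (e : M → OpenPartialHomeomorph M (V n)) (G : M → MF n) (K : ℝ) : Prop :=
  ∀ p, ∀ x ∈ (e p).target, ∀ v, -K * bil (G p x) v v ≤ quad (Ric (G p) x) v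

/-- The volume measure. -/
def PVol (e : M → OpenPartialHomeomorph M (V n)) (G : M → MF n) [MeasurableSpace M]
    (μ : Measure M) : Prop :=
  ∀ p, ∀ A : Set M, MeasurableSet A → A ⊆ (e p).source →
    μ A = ∫⁻ x in e p '' A, ENNReal.ofReal √(G p x).det

end Charts

/-- A smooth metric on `ℝⁿ`. -/
structure Met (G : MF n) : Prop where
  sm : ∀ i j, ContDiff ℝ ∞ fun x => G x i j
  pos : ∀ x, (G x).PosDef

/-- Charts whose coefficient matrices are smooth metrics on all of `ℝⁿ`. -/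
structure Atl (n : ℕ) (M : Type) [MetricSpace M] where
  e : M → OpenPartialHomeomorph M (V n)
  G : M → MF n
  psm : PSm e G
  up : PUp e G
  low : PLow e G
  met : ∀ p, Met (G p)

section Raw

variable (n) (M : Type) [MetricSpace M] [ChartedSpace (V n) M]
  [RiemannianBundle (fun x : M => TangentSpace 𝓘(ℝ, V n) x)]

/-- The preferred charts. -/
noncomputable def rawE (p : M) : OpenPartialHomeomorph M (V n) := chartAt (V n) p

/-- The coefficients in the preferred charts. -/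
noncomputable def rawG (p : M) : MF n := coeff (chartAt (V n) p)

end Raw

/-- `bil (coeff e x) v w = inner (chartVec e x v) (chartVec e x w)`; smoothness: `metric_in_chart`
type argument at every point of the source; h14 `Bridge`, 1301ff `Bridge`. -/
def St_RAW1 : Prop :=
  ∀ (n : ℕ) (M : Type) [MetricSpace M] [ChartedSpace (V n) M] [IsManifold 𝓘(ℝ, V n) ∞ M]
    [RiemannianBundle (fun x : M => TangentSpace 𝓘(ℝ, V n) x)]
    [IsContMDiffRiemannianBundle 𝓘(ℝ, V n) ∞ (V n) (fun x : M => TangentSpace 𝓘(ℝ, V n) x)],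
    PSm (rawE n M) (rawG n M)

/-- Models: `dist_symm_le`, `functional_le_dist` in MP_3eff7f_gt/Chart.lean. -/
def St_RAW2 : Prop :=
  ∀ (n : ℕ) (M : Type) [MetricSpace M] [ChartedSpace (V n) M] [IsManifold 𝓘(ℝ, V n) ∞ M]
    [RiemannianBundle (fun x : M => TangentSpace 𝓘(ℝ, V n) x)]
    [IsContMDiffRiemannianBundle 𝓘(ℝ, V n) ∞ (V n) (fun x : M => TangentSpace 𝓘(ℝ, V n) x)]
    [IsRiemannianManifold 𝓘(ℝ, V n) M],
    PUp (rawE n M) (rawG n M) ∧ PLow (rawE n M) (rawG n M)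

/-- Shrink the charts (`OpenPartialHomeomorph.restrOpen`), `G' = χ G + (1 - χ) 1`. -/
def St_CUT : Prop :=
  ∀ (n : ℕ) (M : Type) [MetricSpace M] (e : M → OpenPartialHomeomorph M (V n)) (G : M → MF n),
    PSm e G → PUp e G → PLow e G → ∃ A : Atl n M, (∀ K, PRic e G K → PRic A.e A.G K) ∧
      ∀ (_ : MeasurableSpace M) (μ : Measure M), PVol e G μ → PVol A.e A.G μ

/-- The metric pulled back by `y`. -/
noncomputable def pbc (G : MF n) (y : V n × ℝ → V n) (u a b : V n × ℝ) : ℝ :=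
  bil (G (y u)) (fderiv ℝ y u a) (fderiv ℝ y u b)

/-- Gram matrix of the variation fields. -/
noncomputable def gramc (G : MF n) (y : V n × ℝ → V n) (u : V n × ℝ) : Mat n :=
  Matrix.of fun i j => pbc G y u (Pi.single i 1, 0) (Pi.single j 1, 0)

/-- A smooth family of geodesics `y (v, ·)` of speed `|v|`. -/
structure GF (G : MF n) (G0 : Mat n) (y : V n × ℝ → V n) (O : Set (V n × ℝ)) : Prop where
  op : IsOpen O
  sm : ContDiffOn ℝ ∞ y O
  geo : ∀ u ∈ O, GeodEq G (fun s => y (u.1, s)) u.2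
  spd : ∀ u ∈ O, pbc G y u (0, 1) (0, 1) = bil G0 u.1 u.1

/-- The Gauss lemma. -/
def Gauss (G : MF n) (G0 : Mat n) (y : V n × ℝ → V n) (O : Set (V n × ℝ)) : Prop :=
  ∀ u ∈ O, ∀ a, pbc G y u (0, 1) (a, 0) = u.2 * bil G0 u.1 a

/-- `GeodEq.el` with `w = ∂ₐ y`, symmetry of second derivatives, `spd` differentiated along `a`. -/
def St_GAU0 : Prop :=
  ∀ (n : ℕ) (G : MF n) (G0 : Mat n) (y : V n × ℝ → V n) (O : Set (V n × ℝ)), Met G → G0.PosDef →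
    GF G G0 y O → ∀ u ∈ O, ∀ a,
      HasDerivAt (fun s => pbc G y (u.1, s) (0, 1) (a, 0)) (bil G0 u.1 a) u.2

/-- Jacobi equation. `A s` has columns `∂_j y`, `Γ k j = ∑ a, Chr k a j ẏ a`, `B = A' + Γ A`,
`B' + Γ B = -R A`, `S = Aᵀ G B` is symmetric by `Gauss` differentiated in `v`,
`G' = Γᵀ G + G Γ`. -/
def St_JAC : Prop :=
  ∀ (n : ℕ) (G : MF n) (G0 : Mat n) (y : V n × ℝ → V n) (O : Set (V n × ℝ)), Met G → G0.PosDef →
    GF G G0 y O → Gauss G G0 y O → ∀ u ∈ O, ∃ (A B R : Mat n) (S : ℝ → Mat n),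
      gramc G y u = Aᵀ * G (y u) * A ∧ S u.2 = Aᵀ * G (y u) * B ∧ (S u.2)ᵀ = S u.2 ∧
      R.trace = quad (Ric G (y u)) (fderiv ℝ y u (0, 1)) ∧
      (∀ᶠ s in 𝓝 u.2, ∀ i j, HasDerivAt (fun s => gramc G y (u.1, s) i j) (2 * S s i j) s) ∧
      ∀ i j, HasDerivAt (fun s => S s i j)
        ((Bᵀ * G (y u) * B - Aᵀ * G (y u) * R * A) i j) u.2

/-- Matrix Riccati inequality: `L' = tr (Θ⁻¹ S)`, `L'' = -tr ((Θ⁻¹ S)²) - tr R`. -/
def St_MAT : Prop :=
  ∀ (n : ℕ) (Θ S : ℝ → Mat n) (G A B R : Mat n) (t : ℝ), G.PosDef → (Θ t).det ≠ 0 →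
    Θ t = Aᵀ * G * A → S t = Aᵀ * G * B → (S t)ᵀ = S t →
    (∀ᶠ s in 𝓝 t, ∀ i j, HasDerivAt (fun s => Θ s i j) (2 * S s i j) s) →
    (∀ i j, HasDerivAt (fun s => S s i j) ((Bᵀ * G * B - Aᵀ * G * R * A) i j) t) →
    ∃ (h : ℝ → ℝ) (h' : ℝ), (∀ᶠ s in 𝓝 t, HasDerivAt (fun s => Real.log (Θ s).det / 2) (h s) s) ∧
      HasDerivAt h h' t ∧ h' + h t ^ 2 / n ≤ -R.trace

/-- Backward blow-up: `h ≤ n / t + b`. -/
def St_CMP : Prop :=
  ∀ (n : ℕ) (b : ℝ) (L : ℝ → ℝ), 0 < n → 0 ≤ b →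
    (∀ t ∈ Ioo (0 : ℝ) 1, ∃ (h : ℝ → ℝ) (h' : ℝ), (∀ᶠ s in 𝓝 t, HasDerivAt L (h s) s) ∧
      HasDerivAt h h' t ∧ h' + h t ^ 2 / n ≤ b ^ 2 / n) →
    AntitoneOn (fun t => L t - n * Real.log t - b * t) (Ioo 0 1)

/-- Second order expansion of the energy when the initial point is moved (`GeodEq.el`). -/
def St_TAY : Prop :=
  ∀ (n : ℕ) (G : MF n) (y : ℝ → V n) (a b ε : ℝ), Met G → 0 < ε →
    (∀ t ∈ Icc a b, ContDiffAt ℝ 2 y t ∧ GeodEq G y t) → ∃ C : ℝ, ∀ t₁ t₂ : ℝ, a ≤ t₁ →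
      t₁ + ε ≤ t₂ → t₂ ≤ b → ∀ Δ : V n, ‖Δ‖ ≤ 1 →
        ∫ t in t₁..t₂, bil (G (y t + ((t₂ - t) / (t₂ - t₁)) • Δ))
            (deriv y t - (1 / (t₂ - t₁)) • Δ) (deriv y t - (1 / (t₂ - t₁)) • Δ) ≤
          (∫ t in t₁..t₂, bil (G (y t)) (deriv y t) (deriv y t)) -
            2 * bil (G (y t₁)) (deriv y t₁) Δ + C * ‖Δ‖ ^ 2

/-- Local geodesic flow near `(y₀, 0)`, with values in `T`. -/
structure Flo (G : MF n) (y₀ : V n) (T : Set (V n)) (ε : ℝ) (k : (V n × V n) × ℝ → V n) :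
    Prop where
  pos : 0 < ε
  sm : ContDiff ℝ ∞ k
  zero : ∀ y w, ‖y - y₀‖ < ε → ‖w‖ < ε → k ((y, w), 0) = y
  init : ∀ y w, ‖y - y₀‖ < ε → ‖w‖ < ε → HasDerivAt (fun s => k ((y, w), s)) w 0
  tgt : ∀ y w, ‖y - y₀‖ < ε → ‖w‖ < ε → ∀ s, |s| < 5 → k ((y, w), s) ∈ T
  geo : ∀ y w, ‖y - y₀‖ < ε → ‖w‖ < ε → ∀ s, |s| < 5 → GeodEq G (fun s => k ((y, w), s)) s
  spd : ∀ y w, ‖y - y₀‖ < ε → ‖w‖ < ε → ∀ s, |s| < 5 →
    bil (G (k ((y, w), s))) (deriv (fun s => k ((y, w), s)) s)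
      (deriv (fun s => k ((y, w), s)) s) = bil (G y) w w
  /-- Affine reparametrisation: the geodesic restarted at time `s` with velocity scaled by `c`. -/
  aff : ∀ y w, ‖y - y₀‖ < ε → ‖w‖ < ε → ∀ s c t, |s| < 5 → |t| < 5 → |s + c * t| < 5 →
    ‖k ((y, w), s) - y₀‖ < ε → ‖c • deriv (fun s => k ((y, w), s)) s‖ < ε →
    k ((k ((y, w), s), c • deriv (fun s => k ((y, w), s)) s), t) = k ((y, w), s + c * t)

/-- `FLOW.smooth_flow` for the cut off spray on `V n × V n`; uniqueness for ODE. -/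
def St_FLO : Prop :=
  ∀ (n : ℕ) (G : MF n) (y₀ : V n) (T : Set (V n)), Met G → IsOpen T → y₀ ∈ T →
    ∃ ε k, Flo G y₀ T ε k

section Exp

variable {M : Type} [MetricSpace M]

/-- Local exponential map and logarithm near `p`. -/
structure Loc (A : Atl n M) (p : M) (δ : ℝ) (k : (V n × V n) × ℝ → V n) (lg : V n × V n → V n) :
    Prop where
  pos : 0 < δ
  src : ∀ z, dist p z < 2 * δ → z ∈ (A.e p).source
  sm : ContDiff ℝ ∞ k
  zero : ∀ a w, dist p a < δ → nrm (A.G p (A.e p a)) w < δ → k ((A.e p a, w), 0) = A.e p a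
  init : ∀ a w, dist p a < δ → nrm (A.G p (A.e p a)) w < δ →
    HasDerivAt (fun s => k ((A.e p a, w), s)) w 0
  tgt : ∀ a w, dist p a < δ → nrm (A.G p (A.e p a)) w < δ → ∀ s, |s| < 4 →
    k ((A.e p a, w), s) ∈ (A.e p).target
  geo : ∀ a w, dist p a < δ → nrm (A.G p (A.e p a)) w < δ → ∀ s, |s| < 4 →
    GeodEq (A.G p) (fun s => k ((A.e p a, w), s)) s
  spd : ∀ a w, dist p a < δ → nrm (A.G p (A.e p a)) w < δ → ∀ s, |s| < 4 →
    bil (A.G p (k ((A.e p a, w), s))) (deriv (fun s => k ((A.e p a, w), s)) s)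
      (deriv (fun s => k ((A.e p a, w), s)) s) = bil (A.G p (A.e p a)) w w
  iso : ∀ a w, dist p a < δ → nrm (A.G p (A.e p a)) w < δ → ∀ s s', |s| < 4 → |s'| < 4 →
    dist ((A.e p).symm (k ((A.e p a, w), s))) ((A.e p).symm (k ((A.e p a, w), s'))) =
      nrm (A.G p (A.e p a)) w * |s - s'|
  hom : ∀ a w, dist p a < δ → nrm (A.G p (A.e p a)) w < δ → ∀ c t : ℝ,
    nrm (A.G p (A.e p a)) (c • w) < δ → |t| < 4 → |c * t| < 4 →
    k ((A.e p a, c • w), t) = k ((A.e p a, w), c * t)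
  lsm : ContDiffOn ℝ ∞ lg {u | u.1 ∈ (A.e p).target ∧ u.2 ∈ (A.e p).target ∧
    dist p ((A.e p).symm u.1) < δ ∧ dist ((A.e p).symm u.1) ((A.e p).symm u.2) < δ}
  lnrm : ∀ a b, dist p a < δ → dist a b < δ →
    nrm (A.G p (A.e p a)) (lg (A.e p a, A.e p b)) = dist a b
  klg : ∀ a b, dist p a < δ → dist a b < δ →
    k ((A.e p a, lg (A.e p a, A.e p b)), 1) = A.e p b
  lgk : ∀ a w, dist p a < δ → nrm (A.G p (A.e p a)) w < δ →
    lg (A.e p a, k ((A.e p a, w), 1)) = w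

/-- From `St_FLO`, `St_GAU0`: inverse function theorem for `(y, w) ↦ (y, k ((y, w), 1))` at
`(e p, 0)`; `A.up` for `≤`; `A.low` with `f z = √(η² + |lg (y, z)|²)` for `≥`. -/
def St_LOC : Prop :=
  ∀ (n : ℕ) (M : Type) [MetricSpace M] (A : Atl n M) (p : M), ∃ δ k lg, Loc A p δ k lg

/-- The metric at `x`. -/
def Atl.G0 (A : Atl n M) (x : M) : Mat n := A.G x (A.e x x)

/-- `c` is a smooth family of geodesics on `O`, seen in the chart `p`. -/
def Valid (A : Atl n M) (G0 : Mat n) (c : V n × ℝ → M) (p : M) (O : Set (V n × ℝ)) : Prop :=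
  MapsTo c O (A.e p).source ∧ GF (A.G p) G0 (fun z => A.e p (c z)) O

/-- `c (v, t) = exp_x (t v)` for `|v| < S`, `0 ≤ t ≤ 1`. -/
structure IsExp (A : Atl n M) (x : M) (S : ℝ) (c : V n × ℝ → M) : Prop where
  val : ∀ v t, nrm (A.G0 x) v < S → t ∈ Icc (0 : ℝ) 1 → ∃ p O, (v, t) ∈ O ∧ Valid A (A.G0 x) c p O
  zero : ∀ v, nrm (A.G0 x) v < S → c (v, 0) = x
  init : ∀ v, nrm (A.G0 x) v < S → HasDerivAt (fun t => A.e x (c (v, t))) v 0
  lip : ∀ v, nrm (A.G0 x) v < S → ∀ a ∈ Icc (0 : ℝ) 1, ∀ b ∈ Icc (0 : ℝ) 1,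
    dist (c (v, a)) (c (v, b)) ≤ nrm (A.G0 x) v * |a - b|
  uniq : ∀ (γ : ℝ → M) (l : ℝ), 0 ≤ l → l < S → γ 0 = x →
    (∀ t ∈ Icc 0 l, ∃ ε > 0, ∀ a ∈ Icc 0 l, ∀ b ∈ Icc 0 l, |a - t| < ε → |b - t| < ε →
      dist (γ a) (γ b) = |a - b|) →
    ∃ v, nrm (A.G0 x) v = l ∧ ∀ t ∈ Icc (0 : ℝ) 1, c (v, t) = γ (t * l)

/-- Broken construction `z_{i+1} = exp_{z_{i-1}} (2 log z_i)`, see rg72_paper.md. -/
def St_EXP : Prop :=
  ∀ (n : ℕ) (M : Type) [MetricSpace M] [CompactSpace M] (r : ℝ), GeoData M r → ∀ A : Atl n M,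
    (∀ p, ∃ δ k lg, Loc A p δ k lg) → ∀ (x : M) (S : ℝ), ∃ c, IsExp A x S c

/-- The pulled back metric, chart free. -/
noncomputable def pb (A : Atl n M) (c : V n × ℝ → M) (u a b : V n × ℝ) : ℝ :=
  pbc (A.G (c u)) (fun z => A.e (c u) (c z)) u a b

/-- The Gram matrix, chart free. -/
noncomputable def gram (A : Atl n M) (c : V n × ℝ → M) (u : V n × ℝ) : Mat n :=
  gramc (A.G (c u)) (fun z => A.e (c u) (c z)) u

/-- From `St_GAU0` and `Valid.pb_eq`. -/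
def St_GAU : Prop :=
  ∀ (n : ℕ) (M : Type) [MetricSpace M] (A : Atl n M) (x : M) (S : ℝ) (c : V n × ℝ → M),
    IsExp A x S c → ∀ v, nrm (A.G0 x) v < S → ∀ t ∈ Icc (0 : ℝ) 1, ∀ a,
      pb A c (v, t) (0, 1) (a, 0) = t * bil (A.G0 x) v a

/-- Behaviour at `t = 0` (chart `x`, symmetry of second derivatives). -/
def St_INI : Prop :=
  ∀ (n : ℕ) (M : Type) [MetricSpace M] (A : Atl n M) (x : M) (S : ℝ) (c : V n × ℝ → M),
    IsExp A x S c → ∀ v, nrm (A.G0 x) v < S → ∀ a b,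
      Tendsto (fun t => pb A c (v, t) (a, 0) (b, 0) / t ^ 2) (𝓝[>] 0) (𝓝 (bil (A.G0 x) a b))

/-- The consequence of local minimality that is used. -/
def LM (G0 : Mat n) (c : V n × ℝ → M) (v : V n) : Prop :=
  ∃ ε > 0, ∀ t₁ t₂ : ℝ, 0 ≤ t₁ → t₁ ≤ t₂ → t₂ ≤ 1 → t₂ - t₁ < ε → ∀ᶠ w in 𝓝 v,
    t₂ * nrm G0 v ≤ t₁ * nrm G0 w + dist (c (w, t₁)) (c (v, t₂))

/-- Competitors: geodesic piece, `seg`, tail of `γ`. -/
def St_LM : Prop :=
  ∀ (n : ℕ) (M : Type) [MetricSpace M] [CompactSpace M] (r : ℝ), GeoData M r →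
    ∀ (A : Atl n M) (x : M) (S : ℝ) (c : V n × ℝ → M), IsExp A x S c →
      ∀ (y : M) (l : ℝ) (γ : ℝ → M), LocMin x y l γ → l < S →
        ∃ v, nrm (A.G0 x) v = l ∧ (∀ t ∈ Icc (0 : ℝ) 1, c (v, t) = γ (t * l)) ∧ LM (A.G0 x) c v

/-- No focusing. From `St_TAY`, `St_GAU`, `A.up`. -/
def St_CONJ : Prop :=
  ∀ (n : ℕ) (M : Type) [MetricSpace M] (A : Atl n M) (x : M) (S : ℝ) (c : V n × ℝ → M),
    IsExp A x S c → ∀ v, nrm (A.G0 x) v < S → LM (A.G0 x) c v → ∀ t ∈ Ioo (0 : ℝ) 1,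
      ∃ ε > 0, ∃ C : ℝ, ∀ s, |s - t| < ε → ∀ a, ∃ d,
        HasDerivAt (fun s => pb A c (v, s) (a, 0) (a, 0)) d s ∧
          -C * pb A c (v, s) (a, 0) (a, 0) ≤ d

/-- Bishop's estimate. From `St_GAU`, `St_INI`, `St_CONJ`, `St_JAC`, `St_MAT`, `St_CMP`. -/
def St_BISH : Prop :=
  ∀ (n : ℕ) (M : Type) [MetricSpace M] (A : Atl n M) (x : M) (S K : ℝ) (c : V n × ℝ → M),
    0 < n → 0 ≤ K → PRic A.e A.G K → IsExp A x S c → ∀ v, nrm (A.G0 x) v < S →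
      LM (A.G0 x) c v →
      (gram A c (v, 1)).det ≤ (A.G0 x).det * Real.exp (√(n * K) * nrm (A.G0 x) v) ^ 2

/-- Area formula with multiplicity (model: helper13/Parity `area_formula`). -/
def St_AREA : Prop :=
  ∀ (n : ℕ) (M : Type) [MetricSpace M] [CompactSpace M] [MeasurableSpace M] [BorelSpace M]
    (μ : Measure M) (A : Atl n M) (x : M) (S R B : ℝ) (c : V n × ℝ → M) (N : ℕ),
    PVol A.e A.G μ → IsExp A x S c → R < S → 0 ≤ B →
    (∀ y, ∃ v : Fin N → V n, Function.Injective v ∧ ∀ i, nrm (A.G0 x) (v i) ≤ R ∧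
      c (v i, 1) = y ∧ (gram A c (v i, 1)).det ≤ (A.G0 x).det * B ^ 2) →
    N * μ univ ≤ ENNReal.ofReal (B * √(A.G0 x).det) * volume {v | nrm (A.G0 x) v ≤ R}

/-- An ellipsoid is a linear image of a ball, which lies in a cube. -/
def St_BALL : Prop :=
  ∀ (n : ℕ) (G0 : Mat n) (R : ℝ), G0.PosDef → 0 ≤ R →
    ENNReal.ofReal √G0.det * volume {v | nrm G0 v ≤ R} ≤ ENNReal.ofReal ((2 * R) ^ n)

end Exp

end Pool.Agent.Lib.RG
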