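import Pool.Agent.Lib.RG.Base

/-! Backward blow-up for the Riccati inequality. -/

set_option autoImplicit false

open Set Filter Topology

namespace Pool.Agent.Lib.RG

namespace CMP

lemma bound {N : ℝ} (hN : 0 < N) (u d : ℝ → ℝ) (hd : ∀ t ∈ Ioo (0 : ℝ) 1, HasDerivAt u (d t) t)
    (hi : ∀ t ∈ Ioo (0 : ℝ) 1, 0 < u t → d t ≤ -(u t ^ 2 / N)) :
    ∀ t ∈ Ioo (0 : ℝ) 1, u t ≤ N / t := by
  intro t ht
  by_contra hlt
  rw [not_le] at hlt
  have hu : 0 < u t := (div_pos hN ht.1).trans hlt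
  set s := t - N / u t with hs
  have hs0 : 0 < s := by
    rw [div_lt_iff₀ ht.1] at hlt
    rw [hs, sub_pos, div_lt_iff₀ hu]; linarith
  have hst : s < t := sub_lt_self _ (div_pos hN hu)
  have hsub : Icc s t ⊆ Ioo 0 1 := fun r hr => ⟨hs0.trans_le hr.1, hr.2.trans_lt ht.2⟩
  have hc : ContinuousOn u (Icc s t) := fun r hr =>
    (hd r (hsub hr)).continuousAt.continuousWithinAt
  have hpos : ∀ r ∈ Icc s t, 0 < u r := by
    intro r hr
    by_contra hr0
    have hK : IsCompact (Icc s t ∩ u ⁻¹' Iic 0) :=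
      isCompact_Icc.of_isClosed_subset (hc.preimage_isClosed_of_isClosed isClosed_Icc
        isClosed_Iic) inter_subset_left
    obtain ⟨q, ⟨hq, hq0⟩, hmax⟩ := hK.exists_isGreatest ⟨r, hr, not_lt.1 hr0⟩
    have hsub' : Icc q t ⊆ Icc s t := Icc_subset_Icc_left hq.1
    have hm : AntitoneOn u (Icc q t) := by
      refine antitoneOn_of_deriv_nonpos (convex_Icc _ _) (hc.mono hsub')
        (fun z hz => (hd z (hsub (hsub' (interior_subset hz)))).differentiableAt.differentiableWithinAt)
        fun z hz => ?_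
      have hz' := hsub' (interior_subset hz)
      rw [interior_Icc] at hz
      have h1 : 0 < u z := not_le.1 fun h => absurd (hmax ⟨hz', h⟩) (not_le.2 hz.1)
      rw [(hd z (hsub hz')).deriv]
      exact (hi z (hsub hz') h1).trans (neg_nonpos.2 (by positivity))
    exact absurd ((hm ⟨le_rfl, hq.2⟩ ⟨hq.2, le_rfl⟩ hq.2).trans hq0) (not_le.2 hu)
  have hg : ∀ r ∈ Icc s t, HasDerivAt (fun r => (u r)⁻¹ - r / N) (-d r / u r ^ 2 - 1 / N) r :=
    fun r hr => ((hd r (hsub hr)).inv (hpos r hr).ne').sub ((hasDerivAt_id r).div_const N)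
  have hm : MonotoneOn (fun r => (u r)⁻¹ - r / N) (Icc s t) := by
    refine monotoneOn_of_deriv_nonneg (convex_Icc _ _)
      (fun r hr => (hg r hr).continuousAt.continuousWithinAt)
      (fun r hr => (hg r (interior_subset hr)).differentiableAt.differentiableWithinAt)
      fun r hr => ?_
    have hr' := interior_subset hr
    rw [(hg r hr').deriv, sub_nonneg, le_div_iff₀ (pow_pos (hpos r hr') 2)]
    have := hi r (hsub hr') (hpos r hr')
    rw [one_div, ← div_eq_inv_mul]
    linarith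
  have h1 : (u s)⁻¹ - s / N ≤ (u t)⁻¹ - t / N := hm ⟨le_rfl, hst.le⟩ ⟨hst.le, le_rfl⟩ hst.le
  have h2 : s / N = t / N - (u t)⁻¹ := by rw [hs]; field_simp
  have h3 := inv_pos.2 (hpos s ⟨le_rfl, hst.le⟩)
  linarith

end CMP

theorem stCMP : St_CMP := by
  intro n b L hn hb h
  have hN : (0 : ℝ) < n := by exact_mod_cast hn
  choose! H H' h1 h2 h3 using h
  have hL : ∀ t ∈ Ioo (0 : ℝ) 1, HasDerivAt L (deriv L t) t := fun t ht =>
    (h1 t ht).self_of_nhds.differentiableAt.hasDerivAt
  have he : ∀ t ∈ Ioo (0 : ℝ) 1, deriv L =ᶠ[𝓝 t] H t := fun t ht =>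
    (h1 t ht).mono fun s hs => hs.deriv
  have key := CMP.bound hN (fun t => deriv L t - b) H'
    (fun t ht => ((h2 t ht).congr_of_eventuallyEq (he t ht)).sub_const b) fun t ht hu => by
      have h4 := h3 t ht
      rw [← (he t ht).self_of_nhds] at h4
      have h5 : (deriv L t - b) ^ 2 / n ≤ deriv L t ^ 2 / n - b ^ 2 / n := by
        rw [← sub_div]
        exact div_le_div_of_nonneg_right (by nlinarith) hN.le
      linarith
  have hg : ∀ t ∈ Ioo (0 : ℝ) 1, HasDerivAt (fun t => L t - n * Real.log t - b * t)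
      (deriv L t - n * t⁻¹ - b * 1) t := fun t ht =>
    ((hL t ht).sub ((Real.hasDerivAt_log ht.1.ne').const_mul _)).sub
      ((hasDerivAt_id t).const_mul b)
  refine antitoneOn_of_deriv_nonpos (convex_Ioo _ _)
    (fun r hr => (hg r hr).continuousAt.continuousWithinAt)
    (fun r hr => (hg r (interior_subset hr)).differentiableAt.differentiableWithinAt)
    fun r hr => ?_
  have := key r (interior_subset hr)
  rw [(hg r (interior_subset hr)).deriv, ← div_eq_mul_inv]
  linarith

end Pool.Agent.Lib.RG
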