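import Pool.Agent.Lib.RG.Base

/-! Block CNT: many pairwise inequivalent short loops from a window of levels. -/

set_option autoImplicit false

namespace Pool.Agent.Lib.RG

open Pool.Agent.Lib.MP_3eff7f_gt

namespace CNT

variable {X : Type} [MetricSpace X]

/-- `N` loops of duration `r`, pairwise inequivalent at level `L`, all null at level `L'`. -/
def Many (x : X) (N : ℕ) (r L L' : ℝ) : Prop :=
  ∃ S : Fin N → ℝ → X, (∀ i, MP x x r (S i)) ∧ (∀ i, Nul x L' (S i)) ∧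
    ∀ i j, Eqv x x L (S i) (S j) → i = j

theorem base {x : X} {s w L L1 : ℝ} (hw : 0 ≤ w) (k : ℕ)
    (H : ∀ L', L ≤ L' → L' ≤ L1 → ∃ h, MP x x s h ∧ ¬ Nul x L' h ∧ Nul x (L' + w) h)
    (hL : L + k * w ≤ L1) : Many x k s L (L + k * w) := by
  have key : ∀ i : Fin k, ∃ h, MP x x s h ∧ ¬ Nul x (L + (i : ℕ) * w) h ∧
      Nul x (L + (i : ℕ) * w + w) h := by
    intro i
    have hi : ((i : ℕ) : ℝ) ≤ k := by exact_mod_cast i.2.le
    have h0 : (0 : ℝ) ≤ ((i : ℕ) : ℝ) := Nat.cast_nonneg _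
    exact H _ (by nlinarith) (by nlinarith)
  choose S hS hN hN' using key
  have lt : ∀ i j : Fin k, i < j → Eqv x x L (S i) (S j) → False := by
    intro i j hij h
    have hi : ((i : ℕ) : ℝ) + 1 ≤ (j : ℕ) := by exact_mod_cast (show (i : ℕ) + 1 ≤ j from hij)
    have h0 : (0 : ℝ) ≤ ((j : ℕ) : ℝ) := Nat.cast_nonneg _
    refine hN j ?_
    have h1 : Eqv x x (L + (j : ℕ) * w) (S j) (S i) := h.symm.mono (by nlinarith)
    have h2 : Nul x (L + (j : ℕ) * w) (S i) := (hN' i).mono (by nlinarith)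
    exact h1.trans h2
  refine ⟨S, hS, fun i => (hN' i).mono ?_, fun i j h => ?_⟩
  · have hi : ((i : ℕ) : ℝ) + 1 ≤ k := by exact_mod_cast (show (i : ℕ) + 1 ≤ k from i.2)
    nlinarith
  · rcases lt_trichotomy i j with hij | hij | hij
    · exact (lt i j hij h).elim
    · exact hij
    · exact (lt j i hij h.symm).elim

theorem step {x : X} {N : ℕ} {r T L : ℝ} (hr : 0 ≤ r) (hT : 0 ≤ T) (hL : r + r ≤ L)
    (h2 : Many x N r (L + r) (L + r + T))
    (h1 : Many x N r (L + T + 2 * r) (L + T + 2 * r + T)) :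
    Many x (N * N) (r + r) L (L + T + 2 * r + T) := by
  obtain ⟨S1, hS1, hN1, hI1⟩ := h1
  obtain ⟨S2, hS2, hN2, hI2⟩ := h2
  have hc : ∀ i j, Eqv x x (L + T + 2 * r) (cat r (S1 i) (S2 j)) (S1 i) := fun i j =>
    (Eqv.cat_nul (hS1 i) (hN2 j)).mono (by linarith)
  refine ⟨fun a => cat r (S1 (finProdFinEquiv.symm a).1) (S2 (finProdFinEquiv.symm a).2),
    fun a => (hS1 _).cat (hS2 _), fun a => ?_, fun a b h => ?_⟩
  · exact ((hc _ _).mono (by linarith)).trans (hN1 _)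
  · apply finProdFinEquiv.symm.injective
    have e1 : (finProdFinEquiv.symm a).1 = (finProdFinEquiv.symm b).1 :=
      hI1 _ _ (((hc _ _).symm.trans (h.mono (by linarith))).trans (hc _ _))
    have h' : Eqv x x L (cat r (S1 (finProdFinEquiv.symm a).1) (S2 (finProdFinEquiv.symm a).2))
        (cat r (S1 (finProdFinEquiv.symm a).1) (S2 (finProdFinEquiv.symm b).2)) := by
      have h'' := h
      simp only [← e1] at h''
      exact h''
    have e2 : (finProdFinEquiv.symm a).2 = (finProdFinEquiv.symm b).2 :=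
      hI2 _ _ ((Eqv.cancel_left (hS1 _) (hS2 _) (hS2 _) h' hL).mono (by linarith))
    exact Prod.ext e1 e2

theorem many {x : X} {s w L0 L1 : ℝ} (hs : 0 ≤ s) (hw : 0 ≤ w)
    (H : ∀ L, L0 ≤ L → L ≤ L1 → ∃ h, MP x x s h ∧ ¬ Nul x L h ∧ Nul x (L + w) h) (k m : ℕ) :
    ∀ L : ℝ, L0 ≤ L → 2 ^ m * s ≤ L → L + 2 ^ m * (k * w + m * s) ≤ L1 →
      Many x (k ^ 2 ^ m) (2 ^ m * s) L (L + 2 ^ m * (k * w + m * s)) := by
  induction m with
  | zero =>
    intro L h0 _ h1
    have := base (x := x) (s := s) (L := L) (L1 := L1) hw k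
      (fun L' h h' => H L' (h0.trans h) h') (by simpa using h1)
    simpa using this
  | succ m ih =>
    intro L h0 hsL h1
    have hr : (0 : ℝ) ≤ 2 ^ m * s := by positivity
    have hT : (0 : ℝ) ≤ 2 ^ m * (k * w + m * s) := by positivity
    have e1 : (2 : ℝ) ^ (m + 1) * s = 2 ^ m * s + 2 ^ m * s := by ring
    have e2 : L + (2 : ℝ) ^ (m + 1) * (k * w + ((m + 1 : ℕ) : ℝ) * s) =
        L + 2 ^ m * (k * w + m * s) + 2 * (2 ^ m * s) + 2 ^ m * (k * w + m * s) := by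
      push_cast
      ring
    have e3 : k ^ 2 ^ (m + 1) = k ^ 2 ^ m * k ^ 2 ^ m := by
      rw [pow_succ, mul_two, pow_add]
    rw [e2] at h1 ⊢
    rw [e1] at hsL ⊢
    rw [e3]
    exact step hr hT hsL (ih _ (by linarith) (by linarith) (by linarith))
      (ih _ (by linarith) (by linarith) (by linarith))

end CNT

theorem stCNT : St_CNT := by
  intro X _ x s w L0 L1 hs hw H k m L h0 hsL h1
  obtain ⟨S, hS, -, hI⟩ := CNT.many hs hw H k m L h0 hsL h1
  exact ⟨S, hS, hI⟩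

end Pool.Agent.Lib.RG
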