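import Pool.Agent.Lib.RG.Base

/-! Block CONJ: no focusing along a locally minimising geodesic. -/

set_option autoImplicit false

open Set Filter Topology Metric Matrix
open scoped ContDiff

namespace Pool.Agent.Lib.RG

open Pool.Agent.Lib.MP_3eff7f_gt
open Pool.Agent.Lib.MP_3eff7f_gt_h14 (MF bil bil_symm bil_eq_sum GeodEq)

namespace CONJ

variable {n : ℕ}

theorem second {ψ ψ' : ℝ → ℝ} {D : ℝ} (h0 : ψ 0 = 0) (h1 : ∀ᶠ σ in 𝓝 (0 : ℝ), 0 ≤ ψ σ)
    (h2 : ∀ᶠ σ in 𝓝 (0 : ℝ), HasDerivAt ψ (ψ' σ) σ) (h3 : HasDerivAt ψ' D 0) : 0 ≤ D := by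
  by_contra hD
  have e1 : deriv ψ =ᶠ[𝓝 0] ψ' := h2.mono fun σ h => h.deriv
  have e2 : deriv (deriv ψ) 0 = D := by rw [e1.deriv_eq, h3.deriv]
  have m1 : IsLocalMin ψ 0 := h1.mono fun σ h => by rwa [h0]
  have m2 := isLocalMax_of_deriv_deriv_neg (by rw [e2]; exact not_le.1 hD) m1.deriv_eq_zero
    h2.self_of_nhds.continuousAt
  have e3 : ψ =ᶠ[𝓝 0] fun _ => 0 := by
    filter_upwards [h1, m2] with σ a b
    exact le_antisymm (h0 ▸ b) a
  have e4 := e3.deriv.deriv_eq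
  rw [e2] at e4
  simp [e4] at hD

theorem line {F : Type} [NormedAddCommGroup F] [NormedSpace ℝ F] {y : V n × ℝ → F}
    {v a : V n} {t σ : ℝ} (hy : DifferentiableAt ℝ y (v + σ • a, t)) :
    HasDerivAt (fun s : ℝ => y (v + s • a, t)) (fderiv ℝ y (v + σ • a, t) (a, 0)) σ := by
  have h : HasDerivAt (fun s : ℝ => (v + s • a, t)) (a, 0) σ := by
    simpa using (((hasDerivAt_id σ).smul_const a).const_add v).prodMk (hasDerivAt_const σ t)
  exact hy.hasFDerivAt.comp_hasDerivAt σ h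

/-- The derivative of the metric. -/
noncomputable def DG (G : MF n) (y a u w : V n) : ℝ :=
  ∑ i, ∑ j, fderiv ℝ (fun y => G y i j) y a * u i * w j

theorem der {G : MF n} (hG : ∀ i j, ContDiff ℝ ∞ fun x => G x i j) {y u w : ℝ → V n}
    {y' u' w' : V n} {t : ℝ} (hy : HasDerivAt y y' t) (hu : HasDerivAt u u' t)
    (hw : HasDerivAt w w' t) : HasDerivAt (fun s => bil (G (y s)) (u s) (w s))
      (DG G (y t) y' (u t) (w t) + bil (G (y t)) u' (w t) + bil (G (y t)) (u t) w') t := by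
  simp only [bil_eq_sum, DG, ← Finset.sum_add_distrib]
  refine HasDerivAt.fun_sum fun i _ => HasDerivAt.fun_sum fun j _ => ?_
  have h1 := (((hG i j).differentiable (by simp) (y t)).hasFDerivAt.comp_hasDerivAt t hy)
  refine ((h1.mul (hasDerivAt_pi.1 hu i)).mul (hasDerivAt_pi.1 hw j)).congr_deriv ?_
  simp only [Function.comp_apply, Pi.mul_apply]
  ring

theorem der0 (A : Mat n) {u w : ℝ → V n} {u' w' : V n} {t : ℝ} (hu : HasDerivAt u u' t)
    (hw : HasDerivAt w w' t) : HasDerivAt (fun s => bil A (u s) (w s))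
      (bil A u' (w t) + bil A (u t) w') t := by
  simpa [DG] using der (G := fun _ => A) (fun _ _ => contDiff_const) hu hu hw

theorem DG_le (G : MF n) (y a u w : V n) :
    |DG G y a u w| ≤ (∑ i, ∑ j, ‖fderiv ℝ (fun y => G y i j) y‖) * (‖a‖ * ‖u‖ * ‖w‖) := by
  rw [DG, Finset.sum_mul]
  refine (Finset.abs_sum_le_sum_abs _ _).trans (Finset.sum_le_sum fun i _ => ?_)
  rw [Finset.sum_mul]
  refine (Finset.abs_sum_le_sum_abs _ _).trans (Finset.sum_le_sum fun j _ => ?_)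
  rw [abs_mul, abs_mul, ← mul_assoc, ← mul_assoc]
  exact mul_le_mul (mul_le_mul ((fderiv ℝ (fun y => G y i j) y).le_opNorm a) (norm_le_pi_norm u i)
    (abs_nonneg _) (by positivity)) (norm_le_pi_norm w j) (abs_nonneg _) (by positivity)

variable {M : Type} [MetricSpace M]

/-- The energy bound for the distance. -/
theorem dist_le (A : Atl n M) (p : M) {y : ℝ → V n} {Δ : V n} {s b κ : ℝ} (hs : s < b)
    (hd : ∀ τ ∈ Icc s b, DifferentiableAt ℝ y τ) (c1 : ContinuousOn (deriv y) (Icc s b))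
    (hΔ : ∀ τ ∈ Icc s b, ∀ l ∈ Icc (0 : ℝ) 1, y τ + l • Δ ∈ (A.e p).target) (hκ : 0 ≤ κ) :
    2 * κ * dist ((A.e p).symm (y s + Δ)) ((A.e p).symm (y b)) ≤
      (∫ t in s..b, bil (A.G p (y t + ((b - t) / (b - s)) • Δ))
        (deriv y t - (1 / (b - s)) • Δ) (deriv y t - (1 / (b - s)) • Δ)) + (b - s) * κ ^ 2 := by
  have hb := sub_pos.2 hs
  have c2 : ContinuousOn (fun t => deriv y t - (1 / (b - s)) • Δ) (Icc s b) :=
    c1.sub continuousOn_const
  have c3 : ContinuousOn (fun t => y t + ((b - t) / (b - s)) • Δ) (Icc s b) :=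
    ContinuousOn.add (fun τ hτ => (hd τ hτ).continuousAt.continuousWithinAt) (by fun_prop)
  have c4 : ContinuousOn (fun t => bil (A.G p (y t + ((b - t) / (b - s)) • Δ))
      (deriv y t - (1 / (b - s)) • Δ) (deriv y t - (1 / (b - s)) • Δ)) (Icc s b) := by
    have := (A.met p).continuous_bil.comp_continuousOn (c3.prodMk (c2.prodMk c2))
    simpa only [Function.comp_def] using this
  have h1 := A.up p (fun t => y t + ((b - t) / (b - s)) • Δ)
    (fun t => deriv y t - (1 / (b - s)) • Δ) s b hs.le (fun τ hτ => ⟨hΔ τ hτ _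
      ⟨div_nonneg (sub_nonneg.2 hτ.2) hb.le, (div_le_one hb).2 (by linarith [hτ.1])⟩, by
        have h2 := (hd τ hτ).hasDerivAt.add
          ((((hasDerivAt_id τ).const_sub b).div_const (b - s)).smul_const Δ)
        rwa [neg_div, neg_smul, ← sub_eq_add_neg] at h2⟩) c2
  simp only [div_self hb.ne', one_smul, sub_self, zero_div, zero_smul, add_zero] at h1
  have i1 := c4.intervalIntegrable_of_Icc (μ := MeasureTheory.volume) hs.le
  have i2 := c4.sqrt.intervalIntegrable_of_Icc (μ := MeasureTheory.volume) hs.le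
  refine (mul_le_mul_of_nonneg_left h1 (by positivity)).trans ?_
  rw [← intervalIntegral.integral_const_mul, ← smul_eq_mul (b - s),
    ← intervalIntegral.integral_const, ← intervalIntegral.integral_add i1 intervalIntegrable_const]
  refine intervalIntegral.integral_mono_on hs.le (i2.const_mul _) (i1.add intervalIntegrable_const)
    fun t _ => ?_
  rw [← nrm_sq ((A.met p).pos _)]
  generalize nrm (A.G p (y t + ((b - t) / (b - s)) • Δ)) (deriv y t - (1 / (b - s)) • Δ) = r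
  nlinarith [sq_nonneg (r - κ)]

end CONJ

open CONJ in
theorem stCONJ (hT : St_TAY) (hG : St_GAU) : St_CONJ := by
  intro n M _ A x S c hc v hv ⟨ε₀, hε₀, hL⟩ t ht
  obtain ⟨p, O, hu, hV⟩ := hc.val v t hv (Ioo_subset_Icc_self ht)
  have hP := A.G0_pos x
  have hg : ∀ w, nrm (A.G0 x) w < S → ∀ s ∈ Icc (0 : ℝ) 1, (w, s) ∈ O → ∀ a,
      pbc (A.G p) (fun z => A.e p (c z)) (w, s) (0, 1) (a, 0) = s * bil (A.G0 x) w a :=
    fun w hw s hs h a => (hV.pb_eq h _ _).symm.trans (hG n M A x S c hc w hw s hs a)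
  have hpb : ∀ u ∈ O, ∀ a b, pb A c u a b = pbc (A.G p) (fun z => A.e p (c z)) u a b :=
    fun u hu => hV.pb_eq hu
  have hinv : ∀ u ∈ O, (A.e p).symm ((fun z => A.e p (c z)) u) = c u :=
    fun u hu => (A.e p).left_inv (hV.1 hu)
  have htg : ∀ u ∈ O, (fun z => A.e p (c z)) u ∈ (A.e p).target :=
    fun u hu => (A.e p).map_source (hV.1 hu)
  have hF := hV.2
  unfold pbc at hg hpb
  generalize (fun z => A.e p (c z)) = Y at hg hpb hinv htg hF
  generalize A.G0 x = G0 at hg hP hF hv hL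
  have hm := A.met p
  obtain ⟨η₁, hη₁, hO₁⟩ := Metric.eventually_nhds_iff.1
    ((show ContinuousAt (fun τ : ℝ => (v, τ)) t by fun_prop).eventually (hF.op.mem_nhds hu))
  obtain ⟨η, hη, e1, e2, e3, e4⟩ : ∃ η > 0, 3 * η ≤ η₁ ∧ 3 * η ≤ ε₀ ∧ η ≤ t ∧ t + 2 * η ≤ 1 := by
    refine ⟨min (min (η₁ / 3) (ε₀ / 3)) (min t ((1 - t) / 2)), ?_, ?_, ?_, ?_, ?_⟩
    · have := ht.1
      have := sub_pos.2 ht.2
      positivity
    · linarith [(min_le_left _ (min t ((1 - t) / 2))).trans (min_le_left (η₁ / 3) (ε₀ / 3))]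
    · linarith [(min_le_left _ (min t ((1 - t) / 2))).trans (min_le_right (η₁ / 3) (ε₀ / 3))]
    · exact (min_le_right _ _).trans (min_le_left _ _)
    · linarith [(min_le_right (min (η₁ / 3) (ε₀ / 3)) _).trans (min_le_right t ((1 - t) / 2))]
  have hO : ∀ τ ∈ Icc (t - η) (t + 2 * η), (v, τ) ∈ O := fun τ hτ =>
    hO₁ (by rw [Real.dist_eq, abs_lt]; constructor <;> linarith [hτ.1, hτ.2])
  have sm : ∀ z ∈ O, ContDiffAt ℝ ∞ Y z := fun z hz => hF.contDiffAt hz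
  have sm' : ∀ z ∈ O, ContDiffAt ℝ ∞ (fderiv ℝ Y) z := fun z hz => (sm z hz).fderiv_right (by simp)
  have hd : ∀ τ, (v, τ) ∈ O → HasDerivAt (fun τ => Y (v, τ)) (fderiv ℝ Y (v, τ) (0, 1)) τ :=
    fun τ hτ => hasDerivAt_time ((sm _ hτ).differentiableAt (by simp))
  have two : (2 : WithTop ℕ∞) ≤ ∞ := WithTop.coe_le_coe.2 (le_top : (2 : ℕ∞) ≤ ⊤)
  obtain ⟨C, hC⟩ := hT n (A.G p) (fun τ => Y (v, τ)) (t - η) (t + 2 * η) η hm hη fun τ hτ =>
    ⟨ContDiffAt.comp τ (f := fun τ : ℝ => (v, τ)) ((sm _ (hO τ hτ)).of_le two) (by fun_prop),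
      hF.geo _ (hO τ hτ)⟩
  have cy : ContinuousOn (fun τ => Y (v, τ)) (Icc (t - η) (t + 2 * η)) :=
    fun τ hτ => (hd τ (hO τ hτ)).continuousAt.continuousWithinAt
  have cT : ContinuousOn (fun τ => fderiv ℝ Y (v, τ) (0, 1)) (Icc (t - η) (t + 2 * η)) :=
    fun τ hτ => ((ContinuousAt.comp (f := fun τ : ℝ => (v, τ)) (sm' _ (hO τ hτ)).continuousAt
      (by fun_prop)).clm_apply continuousAt_const).continuousWithinAt
  have hK := isCompact_Icc.image_of_continuousOn cy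
  obtain ⟨δ, hδ, hth⟩ := hK.exists_thickening_subset_open (A.e p).open_target (by
    rintro _ ⟨τ, hτ, rfl⟩
    exact htg _ (hO τ hτ))
  obtain ⟨k, hk, k', -, hk'⟩ := hm.exists_bounds hK
  obtain ⟨B, hB⟩ := isCompact_Icc.exists_bound_of_continuousOn
    (f := fun τ => (∑ i, ∑ j, ‖fderiv ℝ (fun y => A.G p y i j) (Y (v, τ))‖) *
      ‖fderiv ℝ Y (v, τ) (0, 1)‖) (s := Icc (t - η) (t + 2 * η))
    ((continuousOn_finsetSum _ fun i _ => continuousOn_finsetSum _ fun j _ =>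
      (((hm.sm i j).continuous_fderiv (by simp)).comp_continuousOn cy).norm).mul cT.norm)
  refine ⟨η, hη, (3 * B + 2 * |C|) / k ^ 2, fun s hs a => ?_⟩
  rw [abs_lt] at hs
  have hs1 : s ∈ Icc (t - η) (t + 2 * η) := ⟨by linarith, by linarith⟩
  have hsO := hO s hs1
  have hnb : ∀ w : V n, ‖w‖ ^ 2 ≤ bil (A.G p (Y (v, s))) w w / k ^ 2 := fun w => by
    rw [le_div_iff₀ (by positivity), ← nrm_sq (hm.pos _), ← mul_pow, mul_comm]
    exact pow_le_pow_left₀ (by positivity) (hk' _ ⟨s, hs1, rfl⟩ w).1 2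
  have dQ := (sm' _ hsO).differentiableAt (by simp)
  have sym : fderiv ℝ (fderiv ℝ Y) (v, s) (a, 0) (0, 1) =
      fderiv ℝ (fderiv ℝ Y) (v, s) (0, 1) (a, 0) :=
    (sm _ hsO).isSymmSndFDerivAt (by simpa using two) _ _
  have d1 : HasDerivAt (fun τ => fderiv ℝ Y (v, τ) (a, 0))
      (fderiv ℝ (fderiv ℝ Y) (v, s) (0, 1) (a, 0)) s := by
    simpa using (hasDerivAt_time dQ).clm_apply (hasDerivAt_const s ((a, 0) : V n × ℝ))
  refine ⟨_, (der hm.sm (hd s hsO) d1 d1).congr_of_eventuallyEq ?_, ?_⟩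
  · filter_upwards [(show ContinuousAt (fun τ : ℝ => (v, τ)) s by fun_prop).eventually
      (hF.op.mem_nhds hsO)] with τ hτ
    exact hpb _ hτ _ _
  rw [hpb _ hsO]
  have cl : ContinuousAt (fun σ : ℝ => v + σ • a) 0 := by fun_prop
  have ev1 : ∀ᶠ σ : ℝ in 𝓝 0, (v + σ • a, s) ∈ O :=
    (cl.prodMk continuousAt_const).eventually (hF.op.mem_nhds (by simpa using hsO))
  have ev2 : ∀ᶠ σ : ℝ in 𝓝 0, nrm G0 (v + σ • a) < S :=
    cl.eventually ((isOpen_nrm_lt G0 S).mem_nhds (by simpa using hv))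
  have l1 := hasDerivAt_dir ((sm _ hsO).differentiableAt (by simp)) a
  have l2 : HasDerivAt (fun σ : ℝ => fderiv ℝ Y (v + σ • a, s) (0, 1))
      (fderiv ℝ (fderiv ℝ Y) (v, s) (0, 1) (a, 0)) 0 := by
    simpa [sym] using (hasDerivAt_dir dQ a).clm_apply (hasDerivAt_const (0 : ℝ) ((0, 1) : V n × ℝ))
  have l3 : HasDerivAt (fun σ : ℝ => fderiv ℝ Y (v + σ • a, s) (a, 0))
      (fderiv ℝ (fderiv ℝ Y) (v, s) (a, 0) (a, 0)) 0 := by
    simpa using (hasDerivAt_dir dQ a).clm_apply (hasDerivAt_const (0 : ℝ) ((a, 0) : V n × ℝ))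
  have key := second
    (ψ := fun σ => s * (bil G0 (v + σ • a) (v + σ • a) - bil G0 v v) -
      2 * bil (A.G p (Y (v, s))) (fderiv ℝ Y (v, s) (0, 1)) (Y (v + σ • a, s) - Y (v, s)) +
      |C| / k ^ 2 * bil (A.G p (Y (v, s))) (Y (v + σ • a, s) - Y (v, s))
        (Y (v + σ • a, s) - Y (v, s)))
    (by simp) ?_ ?_
    ((((der hm.sm l1 l2 l3).const_mul 2).fun_sub ((der0 (A.G p (Y (v, s)))
      (hasDerivAt_const (0 : ℝ) (fderiv ℝ Y (v, s) (0, 1))) l3).const_mul 2)).fun_add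
      (((der0 (A.G p (Y (v, s))) (l1.sub_const (Y (v, s))) l3).const_mul 2).const_mul
        (|C| / k ^ 2)))
  · simp only [zero_smul, add_zero, sub_self, map_zero, _root_.zero_apply,
      zero_add] at key
    have b0 := (le_abs_self _).trans (hB s hs1)
    have b1 := DG_le (A.G p) (Y (v, s)) (fderiv ℝ Y (v, s) (a, 0)) (fderiv ℝ Y (v, s) (0, 1))
      (fderiv ℝ Y (v, s) (a, 0))
    have b2 := DG_le (A.G p) (Y (v, s)) (fderiv ℝ Y (v, s) (0, 1)) (fderiv ℝ Y (v, s) (a, 0))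
      (fderiv ℝ Y (v, s) (a, 0))
    have b3 : 0 ≤ B := le_trans (by positivity) b0
    have b4 := mul_le_mul_of_nonneg_left (hnb (fderiv ℝ Y (v, s) (a, 0))) b3
    have b6 := mul_le_mul_of_nonneg_right b0 (sq_nonneg ‖fderiv ℝ Y (v, s) (a, 0)‖)
    rw [bil_symm (hm.pos _) (fderiv ℝ Y (v, s) (a, 0))
      (fderiv ℝ (fderiv ℝ Y) (v, s) (0, 1) (a, 0))]
    rw [abs_le] at b1 b2
    generalize bil (A.G p (Y (v, s))) (fderiv ℝ Y (v, s) (a, 0)) (fderiv ℝ Y (v, s) (a, 0)) = f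
      at key b4 ⊢
    have e : -((3 * B + 2 * |C|) / k ^ 2) * f =
        -(3 * (B * (f / k ^ 2))) - |C| / k ^ 2 * (2 * f) := by ring
    rw [e]
    linarith [b1.2, b2.1]
  · have hb : s < t + 2 * η := by linarith
    have ev3 : ∀ᶠ σ : ℝ in 𝓝 0, ‖Y (v + σ • a, s) - Y (v, s)‖ < min δ 1 :=
      (l1.sub_const (Y (v, s))).continuousAt.norm.eventually (gt_mem_nhds (by simpa using hδ))
    have ev4 := (show Tendsto (fun σ : ℝ => v + σ • a) (𝓝 0) (𝓝 v) by
      simpa using cl.tendsto).eventually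
        (hL s (t + 2 * η) (by linarith) hb.le e4 (by linarith))
    filter_upwards [ev1, ev3, ev4] with σ h1 h3 h4
    have h7 : (A.e p).symm (Y (v, s) + (Y (v + σ • a, s) - Y (v, s))) = c (v + σ • a, s) := by
      rw [add_sub_cancel]
      exact hinv _ h1
    generalize Y (v + σ • a, s) - Y (v, s) = Δ at h3 h7 ⊢
    have sub : Icc s (t + 2 * η) ⊆ Icc (t - η) (t + 2 * η) := Icc_subset_Icc_left hs1.1
    have h5 := dist_le A p (y := fun τ => Y (v, τ)) (Δ := Δ) hb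
      (fun τ hτ => (hd τ (hO τ (sub hτ))).differentiableAt)
      ((cT.mono sub).congr fun τ hτ => (hd τ (hO τ (sub hτ))).deriv) (fun τ hτ l hl =>
      hth (mem_thickening_iff.2 ⟨_, ⟨τ, sub hτ, rfl⟩, by
        rw [dist_eq_norm, add_sub_cancel_left, norm_smul, Real.norm_of_nonneg hl.1]
        nlinarith [norm_nonneg Δ, hl.2, lt_min_iff.1 h3]⟩)) (nrm_nonneg G0 v)
    have h6 := hC s (t + 2 * η) hs1.1 (by linarith) le_rfl Δ (lt_min_iff.1 h3).2.le
    have h12 : ∫ τ in s..t + 2 * η, bil (A.G p (Y (v, τ))) (deriv (fun τ => Y (v, τ)) τ)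
        (deriv (fun τ => Y (v, τ)) τ) = (t + 2 * η - s) * bil G0 v v := by
      rw [← smul_eq_mul (t + 2 * η - s), ← intervalIntegral.integral_const]
      refine intervalIntegral.integral_congr fun τ hτ => ?_
      rw [uIcc_of_le hb.le] at hτ
      simp only [(hd τ (hO τ (sub hτ))).deriv]
      exact hF.spd _ (hO τ (sub hτ))
    rw [h12, (hd s hsO).deriv] at h6
    rw [h7, hinv _ (hO _ ⟨by linarith, le_rfl⟩)] at h5
    have h8 := h5.trans (add_le_add_left h6 _)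
    have h9 : C * ‖Δ‖ ^ 2 ≤ |C| / k ^ 2 * bil (A.G p (Y (v, s))) Δ Δ :=
      (mul_le_mul (le_abs_self C) (hnb Δ) (sq_nonneg _) (abs_nonneg C)).trans_eq (by ring)
    have h10 := mul_le_mul_of_nonneg_left h4 (nrm_nonneg G0 v)
    have h11 : 0 ≤ s * (nrm G0 (v + σ • a) - nrm G0 v) ^ 2 :=
      mul_nonneg (by linarith) (sq_nonneg _)
    rw [← nrm_sq hP] at h8
    rw [← nrm_sq hP, ← nrm_sq hP]
    linarith
  · filter_upwards [ev1, ev2] with σ h1 h2
    have m1 := (line ((sm _ h1).differentiableAt (by simp))).sub_const (Y (v, s))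
    have m2 : HasDerivAt (fun σ : ℝ => v + σ • a) a σ := by
      simpa using ((hasDerivAt_id σ).smul_const a).const_add v
    refine (((((der0 G0 m2 m2).sub_const (bil G0 v v)).const_mul s).fun_sub ((der0
      (A.G p (Y (v, s))) (hasDerivAt_const σ (fderiv ℝ Y (v, s) (0, 1))) m1).const_mul 2)).fun_add
      ((der0 (A.G p (Y (v, s))) m1 m1).const_mul (|C| / k ^ 2))).congr_deriv ?_
    rw [hg _ h2 s ⟨by linarith, by linarith⟩ h1 a, bil_symm hP a (v + σ • a),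
      bil_symm (hm.pos _) (fderiv ℝ Y (v + σ • a, s) (a, 0)) (Y (v + σ • a, s) - Y (v, s)),
      map_zero, _root_.zero_apply]
    ring

end Pool.Agent.Lib.RG
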