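import Pool.Agent.Lib.RG.Base

/-! Block CUT: shrink the charts and extend the coefficients to all of `ℝⁿ`. -/

set_option autoImplicit false

open Set Filter Topology Metric MeasureTheory Matrix
open scoped ContDiff ENNReal

namespace Pool.Agent.Lib.RG

open Pool.Agent.Lib.MP_3eff7f_gt
open Pool.Agent.Lib.MP_3eff7f_gt_h14 (pd Chr chartVec GeodEq MF bil bil_apply bil_symm bil_single
  bil_eq_sum)

namespace CUT

variable {n : ℕ}

theorem pd_congr {f g : V n → ℝ} {x : V n} (h : f =ᶠ[𝓝 x] g) (i : Fin n) :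
    pd i f x = pd i g x := by
  unfold pd
  rw [h.fderiv_eq]

theorem chr_congr {G G' : MF n} {x : V n} (h : G =ᶠ[𝓝 x] G') (k i j : Fin n) :
    Chr G k i j x = Chr G' k i j x := by
  have e : ∀ a b : Fin n, (fun y => G y a b) =ᶠ[𝓝 x] fun y => G' y a b := fun a b => by
    filter_upwards [h] with y hy
    rw [hy]
  unfold Chr
  rw [h.eq_of_nhds]
  refine congrArg _ (Finset.sum_congr rfl fun l _ => ?_)
  rw [pd_congr (e j l), pd_congr (e i l), pd_congr (e i j)]

theorem chr_eventually {G G' : MF n} {x : V n} (h : G =ᶠ[𝓝 x] G') (k i j : Fin n) :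
    Chr G k i j =ᶠ[𝓝 x] Chr G' k i j := by
  filter_upwards [h.eventually_nhds] with y hy
  exact chr_congr hy k i j

theorem ric_congr {G G' : MF n} {x : V n} (h : G =ᶠ[𝓝 x] G') : Ric G x = Ric G' x := by
  funext j k
  unfold Ric
  refine Finset.sum_congr rfl fun i _ => ?_
  rw [pd_congr (chr_eventually h i j k), pd_congr (chr_eventually h i i k)]
  refine congrArg _ (Finset.sum_congr rfl fun p _ => ?_)
  rw [chr_congr h i i p, chr_congr h p j k, chr_congr h i j p, chr_congr h p i k]

theorem exists_ext (G : MF n) (T : Set (V n)) (hT : IsOpen T) (y₀ : V n) (hy : y₀ ∈ T)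
    (sm : ∀ i j, ContDiffOn ℝ ∞ (fun x => G x i j) T) (pos : ∀ x ∈ T, (G x).PosDef) :
    ∃ (U : Set (V n)) (G' : MF n), IsOpen U ∧ y₀ ∈ U ∧ Met G' ∧ ∀ x ∈ U, G' x = G x := by
  obtain ⟨r, hr, hb⟩ := Metric.nhds_basis_closedBall.mem_iff.1 (hT.mem_nhds hy)
  let χ : ContDiffBump y₀ := ⟨r / 2, r, by positivity, by linarith⟩
  have hts : tsupport χ ⊆ T := by
    rw [χ.tsupport_eq]
    exact hb
  refine ⟨ball y₀ (r / 2), fun x => χ x • G x + (1 - χ x) • (1 : Mat n), isOpen_ball,
    mem_ball_self (by positivity), ⟨fun i j => ?_, fun x => ?_⟩, fun x hx => ?_⟩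
  · have h1 : ContDiff ℝ ∞ fun x => χ x * G x i j := by
      rw [contDiff_iff_contDiffAt]
      intro x
      by_cases hx : x ∈ T
      · exact χ.contDiffAt.mul ((sm i j).contDiffAt (hT.mem_nhds hx))
      · have h0 : (χ : V n → ℝ) =ᶠ[𝓝 x] 0 :=
          notMem_tsupport_iff_eventuallyEq.1 fun h => hx (hts h)
        refine (contDiffAt_const (c := (0 : ℝ))).congr_of_eventuallyEq ?_
        filter_upwards [h0] with y hy
        simp [hy]
    have h2 : ContDiff ℝ ∞ fun x => (1 - χ x) * (1 : Mat n) i j :=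
      (contDiff_const.sub χ.contDiff).mul contDiff_const
    exact h1.add h2
  · rcases (χ.nonneg (x := x)).eq_or_lt with h | h
    · simp only [← h, zero_smul, sub_zero, one_smul, zero_add]
      exact Matrix.PosDef.one
    · have hx : x ∈ T := hts (subset_tsupport _ h.ne')
      exact ((pos x hx).smul h).add_posSemidef
        (Matrix.PosSemidef.one.smul (sub_nonneg.2 χ.le_one))
  · have : χ x = 1 := χ.one_of_mem_closedBall (ball_subset_closedBall hx)
    simp [this]

end CUT

open CUT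

theorem stCUT : St_CUT := by
  intro n M _ e G hs hu hl
  choose U G' hU hy hM hG using fun p => exists_ext (G p) (e p).target (e p).open_target (e p p)
    ((e p).map_source (hs.mem p)) (hs.sm p) (hs.pos p)
  let e' : M → OpenPartialHomeomorph M (V n) := fun p => ((e p).symm.restrOpen (U p) (hU p)).symm
  have hev : ∀ p, ∀ x ∈ U p, G' p =ᶠ[𝓝 x] G p := fun p x hx => by
    filter_upwards [(hU p).mem_nhds hx] with y hy using hG p y hy
  refine ⟨⟨e', G', ⟨fun p => ⟨hs.mem p, hy p⟩, fun p i j => ((hM p).sm i j).contDiffOn,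
    fun p x _ => (hM p).pos x, fun p q x hx hq => hs.trs p q x hx.1 hq.1,
    fun p q x hx hq v w => ?_⟩, fun p y y' a b hab hy hc' => ?_,
    fun p f O x x' δ hO hOt hf hd hz hx => ?_, hM⟩, fun K hK p x hx v => ?_,
    fun _ μ hμ p A hA hAs => ?_⟩
  · have h1 := hs.trp p q x hx.1 hq.1 v w
    rw [← hG p x hx.2, ← hG q (e q ((e p).symm x)) hq.2] at h1
    exact h1
  · refine (hu p y y' a b hab (fun t ht => ⟨(hy t ht).1.1, (hy t ht).2⟩) hc').trans (le_of_eq ?_)
    refine intervalIntegral.integral_congr fun t ht => ?_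
    rw [uIcc_of_le hab] at ht
    show nrm (G p (y t)) (y' t) = nrm (G' p (y t)) (y' t)
    rw [hG p _ (hy t ht).1.2]
  · refine hl p f O x x' δ hO (fun y hy => (hOt hy).1) hf (fun y hy w => ?_)
      (fun z h => ⟨(hz z h).1.1, (hz z h).2⟩) hx
    rw [← hG p y (hOt hy).2]
    exact hd y hy w
  · have h1 := hK p x hx.1 v
    rw [← hG p x hx.2, ← ric_congr (hev p x hx.2)] at h1
    exact h1
  · rw [hμ p A hA fun z hz => (hAs hz).1]
    have hsub : e p '' A ⊆ U p := by
      rintro _ ⟨z, hz, rfl⟩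
      exact (hAs hz).2
    refine lintegral_congr_ae ?_
    filter_upwards [ae_restrict_of_ae_restrict_of_subset hsub
      (ae_restrict_mem (hU p).measurableSet)] with x hx
    show ENNReal.ofReal √(G p x).det = ENNReal.ofReal √(G' p x).det
    rw [hG p x hx]

end Pool.Agent.Lib.RG
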