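import Pool.Agent.Lib.RG.Base

/-! Block LM: a locally shortest path is a radial geodesic with the property `LM`. -/

set_option autoImplicit false

open Set Filter Topology Metric

namespace Pool.Agent.Lib.RG

open Pool.Agent.Lib.MP_3eff7f_gt

namespace LMb

variable {X : Type} [MetricSpace X]

/-- The competitor: a first piece `P`, a segment, and the tail of `γ`. -/
theorem comp {r : ℝ} (G : GeoData X r) {x y a : X} {l ε α β κ : ℝ} {γ P : ℝ → X}
    (hγ : MP x y l γ) (hmin : ∀ l' q, MP x y l' q → (∀ t, dist (q t) (γ t) < ε) → l ≤ l')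
    (hP : MP x a α P) (hκ : ∀ s, s ≤ α → dist (P s) (γ s) ≤ κ) (hβ : β ≤ l)
    (hs : κ + 2 * dist a (γ β) + |β - α| < ε) : β ≤ α + dist a (γ β) := by
  set d := dist a (γ β) with hd
  have hd0 : 0 ≤ d := dist_nonneg
  have hσ : MP a (γ β) d (seg a (γ β)) := MP.of_seg G le_rfl
  have hT := hγ.tail hβ
  have hq := hP.cat (hσ.cat hT)
  have hκa : dist a (γ α) ≤ κ := by
    have := hκ α le_rfl
    rwa [hP.last] at this
  have hκ0 : 0 ≤ κ := dist_nonneg.trans hκa
  have hab := abs_nonneg (β - α)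
  have := hmin _ _ hq fun t => by
    rcases le_total t α with h1 | h1
    · rw [cat_of_le h1]
      linarith [hκ t h1]
    rw [cat_of_ge (hP.join (hσ.cat hT)) h1]
    rcases le_total (t - α) d with h2 | h2
    · rw [cat_of_le h2]
      have e1 := hσ.lip (t - α) 0
      rw [hσ.zero, sub_zero, abs_of_nonneg (by linarith)] at e1
      have e2 := hγ.lip α t
      rw [abs_of_nonpos (by linarith)] at e2
      linarith [dist_triangle4 (seg a (γ β) (t - α)) a (γ α) (γ t)]
    · rw [cat_of_ge (hσ.join hT) h2, max_eq_left (by linarith)]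
      refine (hγ.lip _ _).trans_lt ?_
      have e : β + (t - α - d) - t = (β - α) - d := by ring
      rw [e]
      have := abs_sub (β - α) d
      rw [abs_of_nonneg hd0] at this
      linarith
  linarith

/-- A locally shortest path realises small distances. -/
theorem loc_iso {r : ℝ} (G : GeoData X r) {x y : X} {l ε : ℝ} {γ : ℝ → X}
    (hγ : MP x y l γ) (hmin : ∀ l' q, MP x y l' q → (∀ t, dist (q t) (γ t) < ε) → l ≤ l')
    {a b : ℝ} (ha : 0 ≤ a) (hab : a ≤ b) (hb : b ≤ l) (hs : 3 * (b - a) < ε) :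
    dist (γ a) (γ b) = b - a := by
  have h1 := hγ.lip a b
  rw [abs_of_nonpos (by linarith)] at h1
  have h2 := comp G hγ hmin (hγ.init ha) (κ := 0) (fun s hs => by simp [min_eq_left hs]) hb
    (by rw [abs_of_nonneg (by linarith)]; linarith)
  linarith

end LMb

theorem stLM : St_LM := by
  intro n M _ _ r G A x S c hc y l γ hL hlS
  obtain ⟨hγ, ε, hε, hmin⟩ := hL
  have hl0 := hγ.nn
  obtain ⟨v, hv, hcv⟩ := hc.uniq γ l hl0 hlS hγ.zero fun t _ => by
    refine ⟨ε / 6, by positivity, fun a ha b hb h1 h2 => ?_⟩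
    have h1' := abs_lt.1 h1
    have h2' := abs_lt.1 h2
    rcases le_total a b with h | h
    · rw [LMb.loc_iso G hγ hmin ha.1 h hb.2 (by linarith), abs_of_nonpos (by linarith)]
      ring
    · rw [dist_comm, LMb.loc_iso G hγ hmin hb.1 h ha.2 (by linarith),
        abs_of_nonneg (by linarith)]
  refine ⟨v, hv, hcv, ?_⟩
  rcases hl0.eq_or_lt with h0 | hl
  · refine ⟨1, one_pos, fun t₁ t₂ h1 _ _ _ => Eventually.of_forall fun w => ?_⟩
    rw [hv, ← h0, mul_zero]
    exact add_nonneg (mul_nonneg h1 (nrm_nonneg _ _)) dist_nonneg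
  have hvS : nrm (A.G0 x) v < S := hv ▸ hlS
  have hcn := (continuous_nrm (A.G0 x)).continuousAt (x := v)
  have ev1 : ∀ᶠ w in 𝓝 v, nrm (A.G0 x) w < S := hcn.eventually (gt_mem_nhds hvS)
  have ev2 : ∀ᶠ w in 𝓝 v, 0 < nrm (A.G0 x) w := hcn.eventually (lt_mem_nhds (hv ▸ hl))
  have ev3 : ∀ᶠ w in 𝓝 v, |nrm (A.G0 x) w - l| < ε / 10 := by
    have := Metric.tendsto_nhds.1 hcn (ε / 10) (by positivity)
    simpa only [Real.dist_eq, hv] using this
  have ev4 : ∀ᶠ w in 𝓝 v, ∀ τ ∈ Icc (0 : ℝ) 1, dist (c (w, τ)) (c (v, τ)) < ε / 10 := by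
    refine isCompact_Icc.eventually_forall_of_forall_eventually fun τ hτ => ?_
    have k1 : ContinuousAt c (v, τ) := hc.continuousAt hvS hτ
    have k2 : ContinuousAt (fun z : V n × ℝ => c (v, z.2)) (v, τ) :=
      ContinuousAt.comp (f := fun z : V n × ℝ => (v, z.2)) k1 (by fun_prop)
    have k3 := k1.dist k2
    exact k3.eventually (gt_mem_nhds (by simpa using (by positivity : 0 < ε / 10)))
  refine ⟨ε / 10 / l, by positivity, fun t₁ t₂ h1 h12 h2 hs => ?_⟩
  filter_upwards [ev1, ev2, ev3, ev4] with w w1 w2 w3 w4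
  set N := nrm (A.G0 x) w with hN
  have ht1 : t₁ ∈ Icc (0 : ℝ) 1 := ⟨h1, h12.trans h2⟩
  have ht2 : t₂ ∈ Icc (0 : ℝ) 1 := ⟨h1.trans h12, h2⟩
  have hs' : (t₂ - t₁) * l < ε / 10 := (lt_div_iff₀ hl).1 hs
  have hs0 : 0 ≤ (t₂ - t₁) * l := mul_nonneg (by linarith) hl0
  have cl : ∀ s : ℝ, max 0 (min (s / N) t₁) ∈ Icc (0 : ℝ) 1 := fun s =>
    ⟨le_max_left _ _, max_le zero_le_one ((min_le_right _ _).trans ht1.2)⟩
  have hP : MP x (c (w, t₁)) (t₁ * N) fun s => c (w, max 0 (min (s / N) t₁)) := by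
    refine ⟨mul_nonneg h1 w2.le, fun s t => (hc.lip w w1 _ (cl s) _ (cl t)).trans ?_,
      fun t ht => ?_, fun t ht => ?_⟩
    · have e1 : |max 0 (min (s / N) t₁) - max 0 (min (t / N) t₁)| ≤ |s / N - t / N| := by
        have k1 := abs_max_sub_max_le_abs (min (s / N) t₁) (min (t / N) t₁) 0
        have k2 := abs_min_sub_min_le_max (s / N) t₁ (t / N) t₁
        rw [max_comm 0, max_comm 0]
        refine k1.trans (k2.trans ?_)
        simp
      refine (mul_le_mul_of_nonneg_left e1 w2.le).trans_eq ?_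
      rw [← sub_div, abs_div, abs_of_pos w2]
      field_simp
    · have : min (t / N) t₁ ≤ 0 :=
        (min_le_left _ _).trans (div_nonpos_of_nonpos_of_nonneg ht w2.le)
      rw [max_eq_left this, hc.zero w w1]
    · have : t₁ ≤ t / N := (le_div_iff₀ w2).2 ht
      rw [min_eq_right this, max_eq_right h1]
  have hκ : ∀ s, s ≤ t₁ * N → dist (c (w, max 0 (min (s / N) t₁))) (γ s) ≤ ε / 5 := by
    intro s hs1
    rcases le_total s 0 with h | h
    · rw [hP.left s h, hγ.left s h, dist_self]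
      positivity
    have k0 : 0 ≤ s / N := div_nonneg h w2.le
    have k1 : s / N ≤ t₁ := (div_le_iff₀ w2).2 hs1
    have k2 : s / N ∈ Icc (0 : ℝ) 1 := ⟨k0, k1.trans ht1.2⟩
    rw [min_eq_left k1, max_eq_right k0]
    have k3 := w4 _ k2
    rw [hcv _ k2] at k3
    have k4 := hγ.lip (s / N * l) s
    have k5 : s / N * l - s = -(s / N * (N - l)) := by field_simp; ring
    rw [k5, abs_neg, abs_mul, abs_of_nonneg k0] at k4
    have k6 : s / N * |N - l| ≤ |N - l| := mul_le_of_le_one_left (abs_nonneg _) k2.2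
    linarith [dist_triangle (c (w, s / N)) (γ (s / N * l)) (γ s)]
  have hd : dist (c (w, t₁)) (γ (t₂ * l)) ≤ ε / 5 := by
    have k3 := w4 _ ht1
    rw [hcv _ ht1] at k3
    have k4 := hγ.lip (t₁ * l) (t₂ * l)
    rw [abs_of_nonpos (by linarith)] at k4
    linarith [dist_triangle (c (w, t₁)) (γ (t₁ * l)) (γ (t₂ * l))]
  have hb : |t₂ * l - t₁ * N| < ε / 5 := by
    have k5 : t₂ * l - t₁ * N = (t₂ - t₁) * l - t₁ * (N - l) := by ring
    have k6 : t₁ * |N - l| ≤ |N - l| := mul_le_of_le_one_left (abs_nonneg _) ht1.2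
    have k7 := abs_sub ((t₂ - t₁) * l) (t₁ * (N - l))
    rw [abs_of_nonneg hs0, abs_mul, abs_of_nonneg h1] at k7
    rw [k5]
    linarith
  have := LMb.comp G hγ hmin hP hκ (β := t₂ * l) (mul_le_of_le_one_left hl0 h2) (by linarith)
  rw [hv, hcv _ ht2]
  exact this

end Pool.Agent.Lib.RG
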