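import Pool.Agent.Lib.RG.Base

/-! Block MIN: a path of least duration in each class. -/

set_option autoImplicit false

open Set Filter Topology Metric

namespace Pool.Agent.Lib.RG

open Pool.Agent.Lib.MP_3eff7f_gt

namespace MIN

variable {X : Type} [MetricSpace X]

theorem mp_iff {a b : X} {l : ℝ} {q : ℝ → X} : MP a b l q ↔ 0 ≤ l ∧
    (∀ s t, dist (q s) (q t) ≤ |s - t|) ∧ (∀ t, t ≤ 0 → q t = a) ∧
      ∀ t, dist (q t) b ≤ max (l - t) 0 := by
  constructor
  · intro h
    refine ⟨h.nn, h.lip, h.left, fun t => ?_⟩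
    rcases le_total l t with ht | ht
    · rw [h.right t ht, dist_self]
      exact le_max_right _ _
    · have := h.lip t l
      rw [h.last, abs_of_nonpos (by linarith)] at this
      exact this.trans ((by linarith : -(t - l) ≤ l - t).trans (le_max_left _ _))
  · rintro ⟨h0, h1, h2, h3⟩
    refine ⟨h0, h1, h2, fun t ht => dist_le_zero.1 ?_⟩
    have := h3 t
    rwa [max_eq_right (by linarith)] at this

theorem closed_mp (a b : X) : IsClosed {z : ℝ × (ℝ → X) | MP a b z.1 z.2} := by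
  simp only [mp_iff, setOf_and, setOf_forall]
  refine (isClosed_le continuous_const continuous_fst).inter (IsClosed.inter
    (isClosed_iInter fun s => isClosed_iInter fun t => isClosed_le (by fun_prop) continuous_const)
    (IsClosed.inter (isClosed_iInter fun t => isClosed_iInter fun _ =>
      isClosed_eq (by fun_prop) continuous_const)
      (isClosed_iInter fun t => isClosed_le (by fun_prop) (by fun_prop))))

theorem unif {q : ℝ → X} (hq : ∀ s t, dist (q s) (q t) ≤ |s - t|) {ε : ℝ} (hε : 0 < ε) (R : ℝ) :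
    ∀ᶠ z : ℝ → X in 𝓝 q, ∀ t ∈ Icc 0 R,
      (∀ s t, dist (z s) (z t) ≤ |s - t|) → dist (z t) (q t) ≤ ε := by
  refine isCompact_Icc.eventually_forall_of_forall_eventually fun t0 _ => ?_
  have h1 : ∀ᶠ z : (ℝ → X) × ℝ in 𝓝 (q, t0), dist (z.1 t0) (q t0) < ε / 3 :=
    (isOpen_lt (f := fun z : (ℝ → X) × ℝ => dist (z.1 t0) (q t0)) (by fun_prop)
      continuous_const).mem_nhds (by simpa using hε)
  have h2 : ∀ᶠ z : (ℝ → X) × ℝ in 𝓝 (q, t0), |z.2 - t0| < ε / 3 :=
    (isOpen_lt (f := fun z : (ℝ → X) × ℝ => |z.2 - t0|) (by fun_prop)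
      continuous_const).mem_nhds (by simpa using hε)
  filter_upwards [h1, h2] with z hz1 hz2 hz
  have e1 := hz z.2 t0
  have e2 := hq t0 z.2
  rw [abs_sub_comm] at e2
  linarith [dist_triangle4 (z.1 z.2) (z.1 t0) (q t0) (q z.2)]

theorem exists_min [CompactSpace X] {r : ℝ} (G : GeoData X r) {a b : X} {R R' : ℝ} (hR : R < R')
    {p : ℝ → X} (hp : MP a b R p) :
    ∃ (γ : ℝ → X) (l : ℝ), Eqv a b R' p γ ∧ l ≤ R ∧ LocMin a b l γ := by
  obtain ⟨ε, hε, hεr, hεR⟩ : ∃ ε : ℝ, 0 < ε ∧ ε < r ∧ R + 2 * ε ≤ R' :=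
    ⟨min (r / 2) ((R' - R) / 2), lt_min (by linarith [G.pos]) (by linarith),
      (min_le_left _ _).trans_lt (by linarith [G.pos]),
      by linarith [min_le_right (r / 2) ((R' - R) / 2)]⟩
  let C : Set (ℝ × (ℝ → X)) := {z | z.1 ≤ R ∧ MP a b z.1 z.2 ∧ Eqv a b R' p z.2}
  have hK : IsClosed {z : ℝ × (ℝ → X) | z.1 ≤ R ∧ MP a b z.1 z.2} :=
    (isClosed_le continuous_fst continuous_const).inter (closed_mp a b)
  have hC : IsClosed C := by
    refine isClosed_of_closure_subset fun z hz => ?_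
    have hzK := (closure_minimal (fun w (hw : w ∈ C) => (⟨hw.1, hw.2.1⟩ : _ ∧ _)) hK) hz
    have hev := (continuous_snd.tendsto z).eventually (unif hzK.2.lip hε R)
    obtain ⟨w, hw, hw'⟩ := ((mem_closure_iff_frequently.1 hz).and_eventually hev).exists
    have h1 := hw.2.1.mono hw.1
    have h2 := hzK.2.mono hzK.1
    refine ⟨hzK.1, hzK.2, hw.2.2.trans ((Eqv.of_close G h1 h2 hεr fun t => ?_).mono hεR)⟩
    rcases le_total t 0 with h0 | h0
    · rw [h1.left t h0, h2.left t h0, dist_self]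
      exact hε.le
    rcases le_total R t with h3 | h3
    · rw [h1.right t h3, h2.right t h3, dist_self]
      exact hε.le
    · exact hw' t ⟨h0, h3⟩ h1.lip
  have hcp : IsCompact C := ((isCompact_Icc (a := 0) (b := R)).prod isCompact_univ).of_isClosed_subset
    hC fun z hz => ⟨⟨hz.2.1.nn, hz.1⟩, mem_univ _⟩
  obtain ⟨z, hz, hmin⟩ := hcp.exists_isMinOn ⟨(R, p), le_rfl, hp, Eqv.refl (hp.mono hR.le)⟩
    continuous_fst.continuousOn
  refine ⟨z.2, z.1, hz.2.2, hz.1, hz.2.1, ε, hε, fun l' q hq hd => ?_⟩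
  rcases le_total z.1 l' with h | h
  · exact h
  · have h1 := Eqv.of_close G (hq.mono h) hz.2.1 hεr fun t => (hd t).le
    exact isMinOn_iff.1 hmin (l', q) ⟨h.trans hz.1, hq,
      hz.2.2.trans (h1.symm.mono (by linarith [hz.1]))⟩

end MIN

theorem stMIN : St_MIN := by
  intro X _ _ r G a b R R' N p hR hp hinj
  choose γ l h1 h2 h3 using fun i => MIN.exists_min G hR (hp i)
  refine ⟨γ, l, fun i j hij => hinj i j ((h1 i).trans ?_), fun i => ⟨h2 i, h3 i⟩⟩
  rw [hij]
  exact (h1 j).symm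

end Pool.Agent.Lib.RG
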