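import Pool.Agent.Lib.RG.ASM2
import Pool.Agent.Lib.RG.MIN
import Pool.Agent.Lib.RG.LM

/-! The curvature-free dichotomy, with the depth of the local minima. -/

set_option autoImplicit false

open Set Filter Topology Metric

namespace Pool.Agent.Lib.RG

open Pool.Agent.Lib.MP_3eff7f_gt

theorem deep (hWIN : St_WIN) (hLIFT : St_LIFT) (hSHORT : St_SHORT) (hNUL : St_NUL)
    (hGLUE : St_GLUE) {X : Type} [MetricSpace X] [CompactSpace X] {r : ℝ} (G : GeoData X r)
    {d : ℝ} (hd1 : 1 ≤ d) (hcov : SmallCover X d) {x p : X} (hp : p ≠ x) (hch : ChainSurj X p)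
    {D Λ : ℝ} (hD : ∀ a b : X, dist a b ≤ D) (hΛ : 0 ≤ Λ) (k m : ℕ) (hm : 1 ≤ m)
    (hno : ¬ HasShortGeodesic X (2 * d * (Λ + 5 * m * (k + 5) * D))) (y : X) :
    ∃ (γ : Fin (k ^ m) → ℝ → X) (l : Fin (k ^ m) → ℝ),
      (∀ i, l i ≤ (5 * m + 1) * D ∧ LocMin x y (l i) (γ i)) ∧
      ∀ i i', Eqv x y ((5 * m + 2) * D + Λ) (γ i) (γ i') → i = i' := by
  have hd : 0 ≤ d := by linarith
  have hD0 : 0 < D := (dist_pos.2 hp).trans_le (hD p x)
  set j : ℝ := (m : ℝ) with hj
  have hj1 : 1 ≤ j := by rw [hj]; exact_mod_cast hm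
  have hk : (0 : ℝ) ≤ k := Nat.cast_nonneg k
  have hjD : D ≤ j * D := le_mul_of_one_le_left hD0.le hj1
  have hjk : 0 ≤ j * k * D := by positivity
  set lam : ℝ := Λ + 5 * j * (k + 3) * D + 5 * D with hlam
  have hlam' : lam = Λ + 5 * (j * k * D) + 15 * (j * D) + 5 * D := by
    rw [hlam]; ring
  have hE : 5 * j * (k + 5) * D = 5 * (j * k * D) + 25 * (j * D) := by ring
  have hT : lam + (D + D / 4) + D / 4 ≤ Λ + 5 * j * (k + 5) * D := by
    rw [hE, hlam']
    linarith
  have hH : ¬ ∀ b p q, MP x b (D + D / 4) p → MP x b (D + D / 4) q →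
      Eqv x b (lam + (D + D / 4)) p q := fun H => by
    have hL := hLIFT X r G x D (D / 4) _ hD (by positivity) (by linarith) H
    refine hp (hGLUE X r G x (fun W hW φ hφ hb => ?_) p hch)
    obtain ⟨ψ, h1, h2⟩ := hSHORT X r G d hcov x _ (D / 4) (by linarith) (by positivity) hL W hW φ
      hφ hb
    have : CompactSpace W := isCompact_iff_compactSpace.1 hW.isCompact
    refine h1.trans (hNUL X r G _ (by positivity) (fun h => hno (h.mono ?_)) W x ψ
      h1.continuous_right h1.prop_right h2)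
    exact mul_le_mul_of_nonneg_left hT (by positivity)
  push Not at hH
  obtain ⟨b, p, q, hp, hq, hpq⟩ := hH
  have hg := hp.cat hq.rev
  have hng : ¬ Nul x lam (cat (D + D / 4) p (rev (D + D / 4) q)) := fun h =>
    hpq (Eqv.of_nul hp hq h (by linarith))
  have hno' : ¬ HasShortGeodesic X (D + D / 4 + (D + D / 4)) := fun h => hno (h.mono (by
    have h1 := mul_le_mul_of_nonneg_right hd1
      (show 0 ≤ Λ + 5 * j * (k + 5) * D by positivity)
    linarith))
  have hexp : j * (k * (5 * D) + 2 * (5 * D)) = 5 * (j * k * D) + 10 * (j * D) := by ring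
  obtain ⟨S, hS, hinj⟩ := stCNT2 X x (5 * D) (5 * D) (D + D / 4 + (D + D / 4) + 2 * D)
    (lam - 2 * D) (by positivity) (by positivity) (fun L h0 h1 => by
      obtain ⟨h, a1, a2, a3⟩ := hWIN X r G D _ D lam L x _ hD hD0 hno' hg hng h0 (by linarith)
      exact ⟨h, a1.mono (by linarith), a2, a3.mono (by linarith)⟩) k m
    (5 * (j * D) + 3 * D + Λ) (by linarith) (by rw [← hj]; linarith)
    (by rw [← hj, hexp]; linarith)
  rw [← hj] at hS
  have hσ := MP.of_seg G (hD x y)
  have hP : ∀ i, MP x y ((5 * j + 1) * D) (cat (j * (5 * D)) (S i) (seg x y)) := fun i =>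
    ((hS i).cat hσ).mono (by linarith)
  choose γ l h1 h2 h3 using fun i =>
    MIN.exists_min G (show (5 * j + 1) * D < (5 * j + 2) * D + Λ by linarith) (hP i)
  refine ⟨γ, l, fun i => ⟨h2 i, h3 i⟩, fun i i' h => hinj i i' ?_⟩
  exact (Eqv.cancel_right (hS i) (hS i') hσ (((h1 i).trans h).trans (h1 i').symm)
    (by linarith)).mono (by linarith)

end Pool.Agent.Lib.RG
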