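import Pool.Agent.Lib.MP_3eff7f_gt_h14.Defs

set_option autoImplicit false

namespace Pool.Agent.Lib.RG

open scoped ContDiff Manifold
open MeasureTheory Bundle
open Pool.Agent.Lib.MP_3eff7f_gt_h14 (pd Chr chartVec)

variable {n : ℕ}

/-- Ricci tensor `Rⱼₖ = ∂ᵢ Γⁱⱼₖ - ∂ⱼ Γⁱᵢₖ + Γⁱᵢₚ Γᵖⱼₖ - Γⁱⱼₚ Γᵖᵢₖ` of a metric given in
coordinates. -/
noncomputable def Ric (G : (Fin n → ℝ) → Matrix (Fin n) (Fin n) ℝ) (x : Fin n → ℝ)
    (j k : Fin n) : ℝ :=
  ∑ i, (pd i (Chr G i j k) x - pd j (Chr G i i k) x +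
    ∑ p, (Chr G i i p x * Chr G p j k x - Chr G i j p x * Chr G p i k x))

/-- The value `Aⱼₖ vʲ vᵏ` of a quadratic form. -/
def quad (A : Fin n → Fin n → ℝ) (v : Fin n → ℝ) : ℝ := ∑ j, ∑ k, A j k * v j * v k

section Generic

variable {E : Type} [NormedAddCommGroup E] [NormedSpace ℝ E] {M : Type} [TopologicalSpace M]
  [ChartedSpace E M] [RiemannianBundle (fun x : M => TangentSpace 𝓘(ℝ, E) x)]

/-- The Riemannian inner product of the tangent vectors with components `v`, `w` in the chart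
`e`, at the point with coordinates `x`. -/
noncomputable def ipc (e : OpenPartialHomeomorph M E) (x v w : E) : ℝ :=
  inner ℝ (chartVec e x v) (chartVec e x w)

end Generic

variable {M : Type} [TopologicalSpace M] [ChartedSpace (Fin n → ℝ) M]
  [RiemannianBundle (fun x : M => TangentSpace 𝓘(ℝ, Fin n → ℝ) x)]

/-- The matrix `gᵢⱼ(x)` of the metric in the chart `e`. -/
noncomputable def coeff (e : OpenPartialHomeomorph M (Fin n → ℝ)) (x : Fin n → ℝ) :
    Matrix (Fin n) (Fin n) ℝ :=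
  Matrix.of fun i j => ipc e x (Pi.single i 1) (Pi.single j 1)

variable (n M)

/-- `Ric ≥ c g`, in every chart of the atlas. -/
def RicciGe (c : ℝ) : Prop :=
  ∀ e ∈ atlas (Fin n → ℝ) M, ∀ x ∈ e.target, ∀ v : Fin n → ℝ,
    c * quad (coeff e x) v ≤ quad (Ric (coeff e) x) v

/-- `μ` is the Riemannian volume measure: in every chart it is `√(det gᵢⱼ) dx`. -/
def IsVolume [MeasurableSpace M] (μ : Measure M) : Prop :=
  ∀ e ∈ atlas (Fin n → ℝ) M, ∀ A : Set M, MeasurableSet A → A ⊆ e.source →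
    μ A = ∫⁻ x in e '' A, ENNReal.ofReal √(coeff e x).det

end Pool.Agent.Lib.RG
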