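import Pool.Agent.Lib.RG.Base

/-! Block EXP: the exponential map as a smooth family of geodesics. -/

set_option autoImplicit false

open Set Filter Topology Metric
open scoped ContDiff

namespace Pool.Agent.Lib.RG

open Pool.Agent.Lib.MP_3eff7f_gt
open Pool.Agent.Lib.MP_3eff7f_gt_h14 (GeodEq MF bil)

namespace EXP

variable {n : ℕ} {M : Type} [MetricSpace M]

/-- Isometric with speed `d` on `[0, T]`. -/
def Iso (γ : ℝ → M) (d T : ℝ) : Prop :=
  ∀ s ∈ Icc 0 T, ∀ s' ∈ Icc 0 T, dist (γ s) (γ s') = d * |s - s'|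

theorem geod_congr {G : MF n} {x y : ℝ → V n} {t : ℝ} (h : GeodEq G x t) (e : y =ᶠ[𝓝 t] x) :
    GeodEq G y t := by
  intro k
  have e1 : ∀ i, (fun s => y s i) =ᶠ[𝓝 t] fun s => x s i := fun i =>
    e.mono fun s hs => congrFun hs i
  simp only [(e1 _).deriv_eq, (e1 k).deriv.deriv_eq, e.eq_of_nhds]
  exact h k

variable {A : Atl n M} {r : ℝ} {p : M} {δ : ℝ} {k : (V n × V n) × ℝ → V n}
  {lg : V n × V n → V n}

theorem chr (G : GeoData M r) (h : Loc A p δ k lg) {γ : ℝ → M} {d T : ℝ} (hT : 1 ≤ T)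
    (hT3 : T ≤ 3) (hγ : Iso γ d T) (hp : dist p (γ 0) < δ) (hd : 4 * d < δ) (hr : 4 * d < r)
    {s : ℝ} (hs : s ∈ Icc 0 T) :
    γ s = (A.e p).symm (k ((A.e p (γ 0), lg (A.e p (γ 0), A.e p (γ 1))), s)) := by
  have hT0 : 0 < T := by linarith
  have h0 : (0 : ℝ) ∈ Icc 0 T := ⟨le_rfl, hT0.le⟩
  have hTT : T ∈ Icc 0 T := ⟨hT0.le, le_rfl⟩
  have haz : dist (γ 0) (γ T) = d * T := by
    rw [hγ 0 h0 T hTT, zero_sub, abs_neg, abs_of_pos hT0]
  have hd0 : 0 ≤ d := nonneg_of_mul_nonneg_left (haz ▸ dist_nonneg) hT0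
  have hdT : d * T ≤ 4 * d := by nlinarith
  set w := lg (A.e p (γ 0), A.e p (γ T)) with hw
  have hwn : nrm (A.G p (A.e p (γ 0))) w = d * T := (h.lnrm _ _ hp (by linarith)).trans haz
  have hwδ : nrm (A.G p (A.e p (γ 0))) w < δ := by linarith
  have hk1 : k ((A.e p (γ 0), w), 1) = A.e p (γ T) := h.klg _ _ hp (by linarith)
  have s0 : γ 0 ∈ (A.e p).source := h.src _ (by linarith [h.pos])
  have sT : γ T ∈ (A.e p).source := h.src _ (by linarith [dist_triangle p (γ 0) (γ T)])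
  have key : ∀ s ∈ Icc 0 T, γ s = (A.e p).symm (k ((A.e p (γ 0), w), s / T)) := fun s hs => by
    have h1 : 0 ≤ s / T := div_nonneg hs.1 hT0.le
    have h2 : s / T ≤ 1 := (div_le_one hT0).2 hs.2
    have h4 : |s / T| < 4 := by rw [abs_of_nonneg h1]; linarith
    have e1 := h.iso _ w hp hwδ 0 (s / T) (by simp) h4
    have e2 := h.iso _ w hp hwδ (s / T) 1 h4 (by simp)
    rw [h.zero _ w hp hwδ, (A.e p).left_inv s0, hwn, zero_sub, abs_neg, abs_of_nonneg h1] at e1
    rw [hk1, (A.e p).left_inv sT, hwn, abs_of_nonpos (by linarith)] at e2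
    have e3 : d * T * (s / T) = d * s := by field_simp
    rw [G.eq_seg (u := γ 0) (v := γ T) (τ := d * s) (by linarith) (e1.trans e3).le
      (by rw [e2, haz]; nlinarith)]
    refine G.eq_seg (by linarith) ?_ ?_
    · rw [hγ 0 h0 s hs, zero_sub, abs_neg, abs_of_nonneg hs.1]
    · rw [hγ s hs T hTT, haz, abs_of_nonpos (by linarith [hs.2])]
      nlinarith
  have hT1 : 0 < T⁻¹ := inv_pos.2 hT0
  have hT2 : T⁻¹ ≤ 1 := inv_le_one_of_one_le₀ hT
  have hsm : nrm (A.G p (A.e p (γ 0))) (T⁻¹ • w) < δ := by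
    rw [nrm_smul, abs_of_pos hT1, hwn]
    nlinarith [mul_nonneg hd0 hT0.le]
  have hom : ∀ s ∈ Icc 0 T, k ((A.e p (γ 0), T⁻¹ • w), s) = k ((A.e p (γ 0), w), s / T) :=
    fun s hs => by
      rw [h.hom _ w hp hwδ T⁻¹ s hsm (by rw [abs_of_nonneg hs.1]; linarith [hs.2])
        (by rw [abs_of_nonneg (mul_nonneg hT1.le hs.1)]; nlinarith [hs.1, hs.2]), div_eq_inv_mul]
  have h1 : (1 : ℝ) ∈ Icc 0 T := ⟨zero_le_one, hT⟩
  have e : lg (A.e p (γ 0), A.e p (γ 1)) = T⁻¹ • w := by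
    rw [key 1 h1, ← hom 1 h1, (A.e p).right_inv (h.tgt _ _ hp hsm 1 (by simp)), h.lgk _ _ hp hsm]
  rw [e, hom s hs]
  exact key s hs

theorem valid_of (h : Loc A p δ k lg) {G0 : Mat n} {B : Set (V n)} (hB : IsOpen B) {J : Set ℝ}
    (hJ : IsOpen J) {α : V n → M} {om : V n → V n} {τ i : ℝ} (hτ : 0 < τ)
    (hα : ContDiffOn ℝ ∞ (fun v => A.e p (α v)) B) (hom : ContDiffOn ℝ ∞ om B)
    (h1 : ∀ v ∈ B, dist p (α v) < δ) (h2 : ∀ v ∈ B, nrm (A.G p (A.e p (α v))) (om v) < δ)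
    (h3 : ∀ v ∈ B, bil (A.G p (A.e p (α v))) (om v) (om v) = τ ^ 2 * bil G0 v v)
    (h4 : ∀ t ∈ J, |-i + τ⁻¹ * t| < 4) {F : V n × ℝ → M}
    (hF : ∀ v ∈ B, ∀ t ∈ J, F (v, t) = (A.e p).symm (k ((A.e p (α v), om v), -i + τ⁻¹ * t))) :
    Valid A G0 F p (B ×ˢ J) := by
  have ht : ∀ u ∈ B ×ˢ J, k ((A.e p (α u.1), om u.1), -i + τ⁻¹ * u.2) ∈ (A.e p).target :=
    fun u hu => h.tgt _ _ (h1 _ hu.1) (h2 _ hu.1) _ (h4 _ hu.2)
  have he : ∀ u ∈ B ×ˢ J, A.e p (F u) = k ((A.e p (α u.1), om u.1), -i + τ⁻¹ * u.2) :=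
    fun u hu => by rw [show F u = _ from hF _ hu.1 _ hu.2, (A.e p).right_inv (ht u hu)]
  have ho := hB.prod hJ
  have hsm : ContDiffOn ℝ ∞ (fun u => A.e p (F u)) (B ×ˢ J) := by
    refine ContDiffOn.congr ?_ he
    exact h.sm.comp_contDiffOn (((hα.comp contDiffOn_fst fun u hu => hu.1).prodMk
      (hom.comp contDiffOn_fst fun u hu => hu.1)).prodMk (by fun_prop))
  have hev : ∀ u ∈ B ×ˢ J, (fun s => A.e p (F (u.1, s))) =ᶠ[𝓝 u.2]
      fun s => k ((A.e p (α u.1), om u.1), -i + τ⁻¹ * s) := fun u hu => by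
    filter_upwards [hJ.mem_nhds hu.2] with s hs using he (u.1, s) ⟨hu.1, hs⟩
  have hk : ∀ z, ContDiff ℝ ∞ fun s : ℝ => k (z, s) := fun z => h.sm.comp (by fun_prop)
  refine ⟨fun u hu => ?_, ho, hsm, fun u hu => ?_, fun u hu => ?_⟩
  · rw [show F u = _ from hF _ hu.1 _ hu.2]
    exact (A.e p).map_target (ht u hu)
  · exact geod_congr (geodEq_affine (x := fun s => k ((A.e p (α u.1), om u.1), s))
      ((hk _).contDiffAt.of_le MP_3eff7f_gt_h14.two_le_inf)
      (h.geo _ _ (h1 _ hu.1) (h2 _ hu.1) _ (h4 _ hu.2))) (hev u hu)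
  · have d1 := hasDerivAt_time (y := fun u => A.e p (F u)) (v := u.1) (t := u.2)
      ((hsm.contDiffAt (ho.mem_nhds hu)).differentiableAt (by simp))
    have hl : HasDerivAt (fun s : ℝ => -i + τ⁻¹ * s) τ⁻¹ u.2 := by
      simpa using ((hasDerivAt_id u.2).const_mul τ⁻¹).const_add (-i)
    have d2 := (((hk (A.e p (α u.1), om u.1)).differentiable (by simp)
      (-i + τ⁻¹ * u.2)).hasDerivAt.scomp u.2 hl).congr_of_eventuallyEq (hev u hu)
    unfold pbc
    rw [show fderiv ℝ (fun u => A.e p (F u)) u (0, 1) = _ from d1.unique d2]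
    simp only [map_smul, _root_.smul_apply, smul_eq_mul, he u hu]
    rw [h.spd _ _ (h1 _ hu.1) (h2 _ hu.1) _ (h4 _ hu.2), h3 _ hu.1]
    field_simp

theorem valid_congr {G0 : Mat n} {F c : V n × ℝ → M} {O : Set (V n × ℝ)} (h : Valid A G0 F p O)
    (e : ∀ u ∈ O, c u = F u) : Valid A G0 c p O := by
  have ev : ∀ u ∈ O, (fun z => A.e p (c z)) =ᶠ[𝓝 u] fun z => A.e p (F z) := fun u hu => by
    filter_upwards [h.2.op.mem_nhds hu] with z hz
    rw [e z hz]
  refine ⟨fun u hu => e u hu ▸ h.1 hu, h.2.op, h.2.sm.congr fun u hu => by rw [e u hu],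
    fun u hu => geod_congr (h.2.geo u hu) ?_, fun u hu => ?_⟩
  · exact (show Tendsto (fun s => (u.1, s)) (𝓝 u.2) (𝓝 u) from
      (Continuous.prodMk_right u.1).continuousAt).eventually (ev u hu)
  · unfold pbc
    rw [(ev u hu).fderiv_eq]
    simp only [e u hu]
    exact h.2.spd u hu

theorem lip_of_loc {f : ℝ → M} {L τ : ℝ} (hτ : 0 < τ)
    (h : ∀ a b, 0 ≤ a → a ≤ b → b ≤ a + τ → dist (f a) (f b) ≤ L * (b - a)) {a b : ℝ}
    (ha : 0 ≤ a) (hab : a ≤ b) : dist (f a) (f b) ≤ L * (b - a) := by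
  have key : ∀ N : ℕ, ∀ b, a ≤ b → b ≤ a + N * τ → dist (f a) (f b) ≤ L * (b - a) := by
    intro N
    induction N with
    | zero => exact fun b h1 h2 => h a b ha h1 (by simp at h2; linarith)
    | succ N ih =>
      intro b h1 h2
      have hN : 0 ≤ N * τ := by positivity
      rcases le_total b (a + N * τ) with h3 | h3
      · exact ih b h1 h3
      · have e1 := ih (a + N * τ) (by linarith) le_rfl
        have e2 := h (a + N * τ) b (by linarith) h3 (by push_cast at h2; linarith)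
        linarith [dist_triangle (f a) (f (a + N * τ)) (f b)]
  obtain ⟨N, hN⟩ := exists_nat_ge ((b - a) / τ)
  exact key N b hab (by rw [div_le_iff₀ hτ] at hN; linarith)

end EXP

open EXP

theorem stEXP : St_EXP := by
  intro n M _ _ r G A hloc x S
  choose δ k lg hL using hloc
  obtain ⟨δ0, hδ0, hr, hx, hP⟩ : ∃ δ0 > 0, 4 * δ0 ≤ r ∧ 4 * δ0 ≤ δ x ∧
      ∀ a, ∃ p, dist p a < δ p ∧ 4 * δ0 ≤ δ p := by
    obtain ⟨t, ht⟩ := isCompact_univ.elim_finite_subcover (fun p : M => ball p (δ p))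
      (fun p => isOpen_ball) fun p _ => mem_iUnion.2 ⟨p, mem_ball_self (hL p).pos⟩
    have h4 : ∀ b : ℝ, 0 < b → ∀ᶠ s in 𝓝[>] (0 : ℝ), 4 * s ≤ b := fun b hb => by
      filter_upwards [Ioo_mem_nhdsGT (show 0 < b / 4 by positivity)] with s hs
      linarith [hs.2]
    obtain ⟨s, h1, h2, h3, h5⟩ := ((h4 r G.pos).and ((h4 _ (hL x).pos).and
      (((eventually_all_finset t).2 fun p _ => h4 _ (hL p).pos).and
        self_mem_nhdsWithin))).exists
    refine ⟨s, h5, h1, h2, fun a => ?_⟩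
    obtain ⟨p, hp, ha⟩ := mem_iUnion₂.1 (ht (mem_univ a))
    exact ⟨p, mem_ball'.1 ha, h3 p hp⟩
  choose P hP1 hP2 using hP
  let Ψ : M → M → ℝ → M := fun a b s =>
    (A.e (P a)).symm (k (P a) ((A.e (P a) a, lg (P a) (A.e (P a) a, A.e (P a) b)), s))
  have uq : ∀ (γ : ℝ → M) (d T : ℝ), 1 ≤ T → T ≤ 3 → Iso γ d T → d < δ0 → ∀ s ∈ Icc 0 T,
      γ s = Ψ (γ 0) (γ 1) s := fun γ d T h1 h2 h3 h4 s hs =>
    chr G (hL _) h1 h2 h3 (hP1 _) (by linarith [hP2 (γ 0)]) (by linarith) hs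
  have hΨ : ∀ a b, dist a b < δ0 → Ψ a b 0 = a ∧ Ψ a b 1 = b ∧ Iso (Ψ a b) (dist a b) 3 := by
    intro a b hab
    have h := hL (P a)
    have h1 := hP1 a
    have h2 : dist a b < δ (P a) := by linarith [hP2 a]
    have h3 := h.lnrm a b h1 h2
    refine ⟨?_, ?_, fun s hs s' hs' => ?_⟩
    · simp only [Ψ]
      rw [h.zero _ _ h1 (h3 ▸ h2), (A.e _).left_inv (h.src _ (by linarith [h.pos]))]
    · simp only [Ψ]
      rw [h.klg _ _ h1 h2, (A.e _).left_inv (h.src _ (by linarith [dist_triangle (P a) a b]))]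
    · rw [← h3]
      exact h.iso _ _ h1 (h3 ▸ h2) s s' (by rw [abs_of_nonneg hs.1]; linarith [hs.2])
        (by rw [abs_of_nonneg hs'.1]; linarith [hs'.2])
  set τ := δ0 / (|S| + 1) with hτd
  have hτ : 0 < τ := by positivity
  set N := nrm (A.G0 x) with hN
  have hN0 : ∀ v, 0 ≤ N v := nrm_nonneg _
  have hτN : ∀ v, N v < S → τ * N v < δ0 := fun v hv => by
    rw [hτd, div_mul_eq_mul_div, div_lt_iff₀ (by positivity)]
    have := le_abs_self S
    gcongr
    linarith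
  have hxx : dist x x < δ x := by simpa using (hL x).pos
  have hsm : ∀ v, nrm (A.G x (A.e x x)) (τ • v) = τ * N v := fun v => by
    rw [nrm_smul, abs_of_pos hτ]; rfl
  have hsm' : ∀ v, N v < S → nrm (A.G x (A.e x x)) (τ • v) < δ x := fun v hv => by
    rw [hsm]; linarith [hτN v hv]
  obtain ⟨C, C0, Cs⟩ : ∃ C : ℕ → V n → ℝ → M,
      (∀ v s, C 0 v s = (A.e x).symm (k x ((A.e x x, τ • v), s))) ∧
      ∀ i v, C (i + 1) v = Ψ (C i v 1) (C i v 2) :=
    ⟨fun i => Nat.rec (fun v s => (A.e x).symm (k x ((A.e x x, τ • v), s)))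
      (fun _ f v => Ψ (f v 1) (f v 2)) i, fun _ _ => rfl, fun _ _ => rfl⟩
  have d12 : ∀ {γ : ℝ → M} {d : ℝ}, Iso γ d 3 → dist (γ 1) (γ 2) = d := fun h => by
    rw [h 1 (by norm_num) 2 (by norm_num)]
    norm_num
  have hC : ∀ v, N v < S → ∀ i, Iso (C i v) (τ * N v) 3 := fun v hv i => by
    induction i with
    | zero =>
      intro s hs s' hs'
      rw [← hsm, C0, C0]
      exact (hL x).iso _ _ hxx (hsm' v hv) s s' (by rw [abs_of_nonneg hs.1]; linarith [hs.2])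
        (by rw [abs_of_nonneg hs'.1]; linarith [hs'.2])
    | succ i ih =>
      rw [Cs, ← d12 ih]
      exact (hΨ _ _ (by rw [d12 ih]; exact hτN v hv)).2.2
  have hcons : ∀ v, N v < S → ∀ i, ∀ s ∈ Icc (0 : ℝ) 2, C (i + 1) v s = C i v (s + 1) :=
    fun v hv i s hs => by
      have := uq (fun s => C i v (s + 1)) (τ * N v) 2 (by norm_num) (by norm_num)
        (fun a ha b hb => by
          rw [hC v hv i _ ⟨by linarith [ha.1], by linarith [ha.2]⟩ _
            ⟨by linarith [hb.1], by linarith [hb.2]⟩, add_sub_add_right_eq_sub])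
        (hτN v hv) s hs
      rw [this, Cs, zero_add, one_add_one_eq_two]
  let c : V n × ℝ → M := fun u => C ⌊τ⁻¹ * u.2⌋₊ u.1 (-⌊τ⁻¹ * u.2⌋₊ + τ⁻¹ * u.2)
  have hc : ∀ v, N v < S → ∀ (i : ℕ) t, -i + τ⁻¹ * t ∈ Icc (0 : ℝ) 2 →
      c (v, t) = C i v (-i + τ⁻¹ * t) := fun v hv i t ht => by
    have hi : (0 : ℝ) ≤ i := Nat.cast_nonneg i
    have h0 : 0 ≤ τ⁻¹ * t := by linarith [ht.1]
    have h1 : i ≤ ⌊τ⁻¹ * t⌋₊ := Nat.le_floor (by linarith [ht.1])
    have h2 : ⌊τ⁻¹ * t⌋₊ ≤ i + 2 := Nat.floor_le_of_le (by push_cast; linarith [ht.2])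
    have h3 := Nat.floor_le h0
    have h4 := Nat.lt_floor_add_one (τ⁻¹ * t)
    simp only [c]
    obtain e | e | e : ⌊τ⁻¹ * t⌋₊ = i ∨ ⌊τ⁻¹ * t⌋₊ = i + 1 ∨ ⌊τ⁻¹ * t⌋₊ = i + 1 + 1 := by omega
    · rw [e]
    · rw [e] at h3 h4 ⊢
      push_cast at h3 h4 ⊢
      rw [hcons v hv i (-(i + 1) + τ⁻¹ * t) ⟨by linarith, by linarith⟩]
      congr 1
      ring
    · rw [e] at h3 h4 ⊢
      push_cast at h3 h4 ⊢
      rw [hcons v hv (i + 1) (-(i + 1 + 1) + τ⁻¹ * t) ⟨by linarith, by linarith⟩,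
        hcons v hv i (-(i + 1 + 1) + τ⁻¹ * t + 1) ⟨by linarith, by linarith [ht.2]⟩]
      congr 1
      ring
  have hc0 : ∀ v, N v < S → ∀ t, τ⁻¹ * t ≤ 2 →
      c (v, t) = (A.e x).symm (k x ((A.e x x, τ • v), τ⁻¹ * t)) := fun v hv t ht => by
    rcases le_total 0 (τ⁻¹ * t) with h | h
    · rw [hc v hv 0 t ⟨by simpa using h, by simpa using ht⟩, C0]
      simp
    · simp only [c, Nat.floor_of_nonpos h, C0]
      simp
  have hB := isOpen_nrm_lt (A.G0 x) S
  have hJ : ∀ a b i : ℝ, IsOpen {t : ℝ | -i + τ⁻¹ * t ∈ Ioo a b} := fun a b i =>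
    isOpen_Ioo.preimage (by fun_prop)
  have v0 : ∀ (F : V n × ℝ → M) (b : ℝ), (∀ v, N v < S → ∀ t, τ⁻¹ * t < b →
      F (v, t) = (A.e x).symm (k x ((A.e x x, τ • v), τ⁻¹ * t))) → b ≤ 3 →
      Valid A (A.G0 x) F x ({v | N v < S} ×ˢ {t : ℝ | -0 + τ⁻¹ * t ∈ Ioo (-1) b}) :=
    fun F b hF hb => valid_of (hL x) hB (hJ (-1) b 0) (i := 0) (α := fun _ => x) (om := fun v => τ • v) hτ
      contDiffOn_const (by fun_prop) (fun _ _ => hxx) (fun v hv => hsm' v hv)
      (fun v _ => by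
        simp only [map_smul, _root_.smul_apply, smul_eq_mul, Atl.G0]
        ring)
      (fun t ht => abs_lt.2 ⟨by linarith [ht.1], by linarith [ht.2]⟩)
      fun v hv t ht => by
        rw [hF v hv t (by linarith [ht.2]), neg_zero, zero_add]
  have hval : ∀ (i : ℕ) v t, N v < S → -i + τ⁻¹ * t ∈ Ioo (0 : ℝ) 3 →
      ∃ p O, (v, t) ∈ O ∧ Valid A (A.G0 x) (fun u => C i u.1 (-i + τ⁻¹ * u.2)) p O := by
    intro i
    induction i with
    | zero =>
      intro v t hv ht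
      refine ⟨x, _, ?_, v0 _ 3 (fun v _ t _ => by simp [C0]) le_rfl⟩
      push_cast at ht
      exact ⟨hv, by linarith [ht.1], ht.2⟩
    | succ i ih =>
      intro v₀ t hv₀ ht
      have hs : ∀ (s : ℝ), s ∈ Ioo (0 : ℝ) 3 → ∀ v, N v < S → ContinuousAt (fun v => C i v s) v ∧
          ∀ q, C i v s ∈ (A.e q).source → ContDiffAt ℝ ∞ (fun v => A.e q (C i v s)) v := by
        intro s hs v hv
        have e : -i + τ⁻¹ * (τ * (i + s)) = s := by field_simp; ring
        obtain ⟨p, O, hO, hV⟩ := ih v (τ * (i + s)) hv (by rwa [e])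
        have hm : ContDiffAt ℝ ∞ (fun v : V n => (v, τ * (i + s))) v := by fun_prop
        refine ⟨?_, fun q hq => ?_⟩
        · simpa only [Function.comp_def, e] using
            ContinuousAt.comp (f := fun v : V n => (v, τ * (i + s))) (hV.continuousAt hO)
              hm.continuousAt
        · simpa only [Function.comp_def, e] using
            ContDiffAt.comp v (f := fun v : V n => (v, τ * (i + s)))
              (hV.contDiffAt hO (q := q) (by simpa only [e] using hq)) hm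
      have h1 := hs 1 (by norm_num)
      have h2 := hs 2 (by norm_num)
      set p := P (C i v₀ 1) with hp
      have hp2 : 4 * δ0 ≤ δ p := hP2 _
      have h := hL p
      have hBo : IsOpen {v | N v < S ∧ dist p (C i v 1) < δ p} := by
        rw [isOpen_iff_mem_nhds]
        exact fun v hv => inter_mem (hB.mem_nhds hv.1)
          ((continuousAt_const.dist (h1 v hv.1).1).eventually_lt continuousAt_const hv.2)
      have hd : ∀ v, N v < S → dist (C i v 1) (C i v 2) < δ p := fun v hv => by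
        rw [d12 (hC v hv i)]
        linarith [hτN v hv]
      have s1 : ∀ v, N v < S ∧ dist p (C i v 1) < δ p → C i v 1 ∈ (A.e p).source :=
        fun v hv => h.src _ (by linarith [hv.2, h.pos])
      have s2 : ∀ v, N v < S ∧ dist p (C i v 1) < δ p → C i v 2 ∈ (A.e p).source :=
        fun v hv => h.src _ (by linarith [hv.2, hd v hv.1, dist_triangle p (C i v 1) (C i v 2)])
      have a1 : ContDiffOn ℝ ∞ (fun v => A.e p (C i v 1))
          {v | N v < S ∧ dist p (C i v 1) < δ p} :=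
        fun v hv => ((h1 v hv.1).2 p (s1 v hv)).contDiffWithinAt
      have a2 : ContDiffOn ℝ ∞ (fun v => A.e p (C i v 2))
          {v | N v < S ∧ dist p (C i v 1) < δ p} :=
        fun v hv => ((h2 v hv.1).2 p (s2 v hv)).contDiffWithinAt
      refine ⟨p, _, mk_mem_prod (show v₀ ∈ {v | N v < S ∧ dist p (C i v 1) < δ p} from
        ⟨hv₀, hP1 _⟩) ht, valid_of h hBo (hJ 0 3 (i + 1 : ℕ)) (i := (i + 1 : ℕ)) (α := fun v => C i v 1)
        (om := fun v => lg p (A.e p (C i v 1), A.e p (C i v 2))) hτ a1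
        (h.lsm.comp (a1.prodMk a2) fun v hv => ?_) (fun v hv => hv.2)
        (fun v hv => by rw [h.lnrm _ _ hv.2 (hd v hv.1)]; exact hd v hv.1) (fun v hv => ?_)
        (fun t ht => abs_lt.2 ⟨by linarith [ht.1], by linarith [ht.2]⟩) fun v hv t ht => ?_⟩
      · refine ⟨(A.e p).map_source (s1 v hv), (A.e p).map_source (s2 v hv), ?_, ?_⟩
        · rw [(A.e p).left_inv (s1 v hv)]
          exact hv.2
        · rw [(A.e p).left_inv (s1 v hv), (A.e p).left_inv (s2 v hv)]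
          exact hd v hv.1
      · rw [← nrm_sq ((A.met p).pos _), h.lnrm _ _ hv.2 (hd v hv.1), d12 (hC v hv.1 i), mul_pow,
          hN, nrm_sq (A.G0_pos x)]
      · have e0 := hcons v hv.1 i 0 (by norm_num)
        have e1 := hcons v hv.1 i 1 (by norm_num)
        rw [zero_add] at e0
        rw [one_add_one_eq_two] at e1
        have := chr G h (by norm_num) le_rfl (hC v hv.1 (i + 1)) (e0 ▸ hv.2)
          (by linarith [hτN v hv.1]) (by linarith [hτN v hv.1]) (Ioo_subset_Icc_self ht)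
        rwa [e0, e1] at this
  have hiso : ∀ v, N v < S → ∀ a b, 0 ≤ a → a ≤ b → b ≤ a + τ →
      dist (c (v, a)) (c (v, b)) = N v * (b - a) := fun v hv a b ha hab hb => by
    have h0 : 0 ≤ τ⁻¹ * a := by positivity
    have h3 := Nat.floor_le h0
    have h4 := Nat.lt_floor_add_one (τ⁻¹ * a)
    have h5 : τ⁻¹ * a ≤ τ⁻¹ * b := by gcongr
    have h6 : τ⁻¹ * b ≤ τ⁻¹ * a + 1 := by
      rw [← inv_mul_cancel₀ hτ.ne', ← mul_add]
      gcongr
    rw [hc v hv ⌊τ⁻¹ * a⌋₊ a ⟨by linarith, by linarith⟩, hc v hv ⌊τ⁻¹ * a⌋₊ b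
      ⟨by linarith, by linarith⟩, hC v hv _ _ ⟨by linarith, by linarith⟩ _
      ⟨by linarith, by linarith⟩, abs_of_nonpos (by linarith)]
    field_simp
    ring
  have hzero : ∀ v, N v < S → c (v, 0) = x := fun v hv => by
    rw [hc0 v hv 0 (by simp), mul_zero, (hL x).zero _ _ hxx (hsm' v hv),
      (A.e x).left_inv (A.psm.mem x)]
  have hlip : ∀ v, N v < S → ∀ a b, 0 ≤ a → a ≤ b → dist (c (v, a)) (c (v, b)) ≤ N v * (b - a) :=
    fun v hv a b ha hab => lip_of_loc (f := fun t => c (v, t)) hτ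
      (fun a b h1 h2 h3 => (hiso v hv a b h1 h2 h3).le) ha hab
  refine ⟨c, fun v t hv ht => ?_, hzero, fun v hv => ?_, fun v hv a ha b hb => ?_, ?_⟩
  · have h0 : 0 ≤ τ⁻¹ * t := mul_nonneg (inv_pos.2 hτ).le ht.1
    rcases lt_or_ge (τ⁻¹ * t) 1 with h | h
    · exact ⟨x, _, mk_mem_prod hv (show -0 + τ⁻¹ * t ∈ Ioo (-1 : ℝ) 2 from
        ⟨by linarith, by linarith⟩), v0 c 2 (fun v hv t ht => hc0 v hv t ht.le) (by norm_num)⟩
    · have h3 := Nat.floor_le (show 0 ≤ τ⁻¹ * t - 1 / 2 by linarith)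
      have h4 := Nat.lt_floor_add_one (τ⁻¹ * t - 1 / 2)
      set i := ⌊τ⁻¹ * t - 1 / 2⌋₊
      obtain ⟨p, O, hO, hV⟩ := hval i v t hv ⟨by linarith, by linarith⟩
      refine ⟨p, O ∩ {v | N v < S} ×ˢ {t : ℝ | -i + τ⁻¹ * t ∈ Ioo 0 2},
        ⟨hO, hv, by linarith, by linarith⟩, valid_congr
          (hV.mono (hV.2.op.inter (hB.prod (hJ _ _ _))) inter_subset_left) fun u hu => ?_⟩
      exact hc u.1 hu.2.1 i u.2 (Ioo_subset_Icc_self hu.2.2)
  · have hl : HasDerivAt (fun s : ℝ => τ⁻¹ * s) τ⁻¹ 0 := by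
      simpa using (hasDerivAt_id (0 : ℝ)).const_mul τ⁻¹
    have h1 := (show HasDerivAt (fun s => k x ((A.e x x, τ • v), s)) (τ • v) (τ⁻¹ * 0) by
      rw [mul_zero]; exact (hL x).init _ _ hxx (hsm' v hv)).scomp 0 hl
    rw [smul_smul, inv_mul_cancel₀ hτ.ne', one_smul] at h1
    refine h1.congr_of_eventuallyEq ?_
    filter_upwards [(hJ (-1) 2 0).mem_nhds (show (0 : ℝ) ∈ _ by simp)] with s hs
    simp only [neg_zero, zero_add] at hs
    rw [hc0 v hv s hs.2.le, (A.e x).right_inv ((hL x).tgt _ _ hxx (hsm' v hv) _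
      (abs_lt.2 ⟨by linarith [hs.1], by linarith [hs.2]⟩))]
    rfl
  · rcases le_total a b with h | h
    · rw [abs_sub_comm, abs_of_nonneg (sub_nonneg.2 h)]
      exact hlip v hv a b ha.1 h
    · rw [dist_comm, abs_of_nonneg (sub_nonneg.2 h)]
      exact hlip v hv b a hb.1 h
  · intro γ l hl0 hlS hγ0 hγ
    rcases hl0.eq_or_lt with rfl | hl
    · have hv : N 0 = 0 := nrm_zero _
      refine ⟨0, hv, fun t ht => ?_⟩
      have := hlip 0 (by rwa [hv]) 0 t le_rfl ht.1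
      rw [hv, zero_mul, hzero 0 (by rwa [hv])] at this
      rw [mul_zero, hγ0, dist_le_zero.1 this]
    obtain ⟨ε, hε, hiγ⟩ : ∃ ε > 0, ∀ a ∈ Icc 0 l, ∀ b ∈ Icc 0 l, |a - b| < ε →
        dist (γ a) (γ b) = |a - b| := by
      choose! e he hγe using hγ
      obtain ⟨ε, hε, h⟩ := lebesgue_number_lemma_of_metric (isCompact_Icc (a := 0) (b := l))
        (c := fun t : Icc 0 l => ball (t : ℝ) (e t)) (fun _ => isOpen_ball)
        fun t ht => mem_iUnion.2 ⟨⟨t, ht⟩, mem_ball_self (he t ht)⟩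
      refine ⟨ε, hε, fun a ha b hb hab => ?_⟩
      obtain ⟨t, ht⟩ := h b hb
      exact hγe t t.2 a ha b hb (ht hab) (ht (mem_ball_self hε))
    obtain ⟨K, hK⟩ := exists_nat_gt (max (2 * l / ε) (max (2 / τ) (l / δ0)))
    have hK0 : (0 : ℝ) < K := lt_of_le_of_lt (le_max_of_le_left (by positivity)) hK
    set h : ℝ := 1 / K with hh
    have h0 : 0 < h := by positivity
    have hKh : K * h = 1 := by rw [hh]; field_simp
    have h1 : 2 * (h * l) < ε := by
      have := (div_lt_iff₀ hε).1 ((le_max_left _ _).trans_lt hK)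
      nlinarith
    have h2 : 2 * h ≤ τ := by
      have := (div_lt_iff₀ hτ).1 (((le_max_left _ _).trans (le_max_right _ _)).trans_lt hK)
      nlinarith
    have h3 : h * l < δ0 := by
      have := (div_lt_iff₀ hδ0).1 (((le_max_right _ _).trans (le_max_right _ _)).trans_lt hK)
      nlinarith
    have hhl : 0 < h * l := by positivity
    have iγ : ∀ a T : ℝ, 0 ≤ a → T ≤ 2 → (a + T) * h ≤ 1 →
        Iso (fun s => γ ((a + s) * h * l)) (h * l) T := fun a T ha hT haT s hs s' hs' => by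
      have e : |(a + s) * h * l - (a + s') * h * l| = h * l * |s - s'| := by
        rw [show (a + s) * h * l - (a + s') * h * l = h * l * (s - s') by ring, abs_mul,
          abs_of_pos hhl]
      have m : ∀ s ∈ Icc 0 T, (a + s) * h * l ∈ Icc 0 l := fun s hs =>
        ⟨by have := hs.1; positivity, by
          have : (a + s) * h ≤ 1 := by nlinarith [hs.2]
          nlinarith⟩
      have : |s - s'| ≤ 2 := abs_le.2 ⟨by linarith [hs.1, hs'.2], by linarith [hs.2, hs'.1]⟩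
      rw [hiγ _ (m s hs) _ (m s' hs') (by rw [e]; nlinarith), e]
    have hK1 : (1 : ℝ) ≤ K := by exact_mod_cast Nat.cast_pos.1 hK0
    have i0 := iγ 0 1 le_rfl (by norm_num) (by nlinarith)
    have b0 := fun s hs => chr G (hL x) le_rfl (by norm_num) i0 (by simpa [hγ0] using hxx)
      (by linarith) (by linarith) (s := s) hs
    have d0 := i0 0 (by norm_num) 1 (by norm_num)
    simp only [zero_add, add_zero, zero_mul, one_mul, hγ0] at b0 d0
    set w := lg x (A.e x x, A.e x (γ (h * l))) with hw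
    have hwn : nrm (A.G x (A.e x x)) w = h * l := by
      rw [(hL x).lnrm _ _ hxx (by rw [d0]; norm_num; linarith), d0]
      norm_num
    have hv : N (h⁻¹ • w) = l := by
      rw [hN, nrm_smul, abs_of_pos (inv_pos.2 h0), Atl.G0, hwn]
      field_simp
    have hvS : N (h⁻¹ • w) < S := by rwa [hv]
    have key : ∀ m : ℕ, ((m : ℝ) + 1) * h ≤ 1 → ∀ s ∈ Icc (0 : ℝ) (m + 1),
        c (h⁻¹ • w, s * h) = γ (s * h * l) := by
      intro m
      induction m with
      | zero =>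
        intro _ s hs
        simp only [Nat.cast_zero, zero_add] at hs
        have a1 : 0 ≤ τ⁻¹ * (s * h) := by have := hs.1; positivity
        have a2 : τ⁻¹ * (s * h) ≤ 1 := by
          rw [inv_mul_le_iff₀ hτ]
          nlinarith [hs.2]
        have a3 : τ * h⁻¹ * (τ⁻¹ * (s * h)) = s := by field_simp
        rw [hc0 _ hvS _ (by linarith), b0 s hs, smul_smul, (hL x).hom _ _ hxx (by linarith) _ _
          (by rw [← smul_smul]; exact hsm' _ hvS) (by rw [abs_of_nonneg a1]; linarith)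
          (by rw [a3, abs_of_nonneg hs.1]; linarith [hs.2]), a3]
      | succ m ih =>
        intro hm s hs
        push_cast at hm hs
        have hm0 : (0 : ℝ) ≤ m := Nat.cast_nonneg m
        have ih' := ih (by nlinarith)
        rcases le_total s (m + 1) with a | a
        · exact ih' s ⟨hs.1, a⟩
        have i1 := iγ m 2 hm0 le_rfl (by linarith)
        have i2 : Iso (fun s => c (h⁻¹ • w, (m + s) * h)) (h * l) 2 := by
          have : ∀ s ∈ Icc (0 : ℝ) 2, ∀ s' ∈ Icc (0 : ℝ) 2, s ≤ s' →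
              dist (c (h⁻¹ • w, (m + s) * h)) (c (h⁻¹ • w, (m + s') * h)) = h * l * (s' - s) :=
            fun s hs s' hs' hss => by
              rw [hiso _ hvS _ _ (by have := hs.1; positivity) (by gcongr)
                (by nlinarith [hs.1, hs'.2]), hv]
              ring
          intro s hs s' hs'
          rcases le_total s s' with b | b
          · rw [this s hs s' hs' b, abs_sub_comm, abs_of_nonneg (sub_nonneg.2 b)]
          · rw [dist_comm, this s' hs' s hs b, abs_of_nonneg (sub_nonneg.2 b)]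
        have hs' : s - m ∈ Icc (0 : ℝ) 2 := ⟨by linarith, by linarith [hs.2]⟩
        have e1 := uq _ _ 2 (by norm_num) (by norm_num) i1 h3 _ hs'
        have e2 := uq _ _ 2 (by norm_num) (by norm_num) i2 h3 _ hs'
        simp only [add_sub_cancel] at e1 e2
        rw [e1, e2, ih' (m + 0) ⟨by linarith, by linarith⟩, ih' (m + 1) ⟨by linarith, le_rfl⟩]
    refine ⟨h⁻¹ • w, hv, fun t ht => ?_⟩
    obtain ⟨m, rfl⟩ := Nat.exists_eq_succ_of_ne_zero (Nat.cast_pos.1 hK0).ne'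
    push_cast at hKh hK0
    have := key m hKh.le (t * (m + 1)) ⟨mul_nonneg ht.1 hK0.le, by nlinarith [ht.2]⟩
    rwa [mul_assoc t, hKh, mul_one] at this

end Pool.Agent.Lib.RG
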