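import Pool.Agent.Lib.RG.Base
import Pool.Agent.Lib.MP_f62ea7_gt.FLOW

/-! Block FLO: the local geodesic flow of a smooth metric on a coordinate space. -/

set_option autoImplicit false

open Set Filter Topology Metric Matrix
open scoped ContDiff NNReal

namespace Pool.Agent.Lib.RG

open Pool.Agent.Lib.MP_3eff7f_gt_h14 (pd Chr GeodEq MF bil)

namespace FLO

variable {n : ℕ}

theorem contDiff_det {F : Type} [NormedAddCommGroup F] [NormedSpace ℝ F] {A : F → Mat n}
    (hA : ∀ i j, ContDiff ℝ ∞ fun x => A x i j) : ContDiff ℝ ∞ fun x => (A x).det := by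
  simp only [Matrix.det_apply']
  exact ContDiff.sum fun σ _ => contDiff_const.mul (contDiff_prod fun i _ => hA _ _)

theorem contDiff_inv {G : MF n} (hG : Met G) (k l : Fin n) :
    ContDiff ℝ ∞ fun x => (G x)⁻¹ k l := by
  have e : (fun x => (G x)⁻¹ k l) =
      fun x => ((G x).det)⁻¹ * ((G x).updateRow l (Pi.single k 1)).det := by
    funext x
    rw [Matrix.inv_def, Matrix.smul_apply, Matrix.adjugate_apply, Ring.inverse_eq_inv', smul_eq_mul]
  rw [e]
  refine ((contDiff_det hG.sm).inv fun x => (hG.pos x).det_pos.ne').mul (contDiff_det fun i j => ?_)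
  simp only [Matrix.updateRow_apply]
  split_ifs
  · exact contDiff_const
  · exact hG.sm i j

theorem contDiff_pd {f : V n → ℝ} (hf : ContDiff ℝ ∞ f) (i : Fin n) : ContDiff ℝ ∞ (pd i f) :=
  (hf.fderiv_right (m := ∞) (by simp)).clm_apply contDiff_const

theorem contDiff_Chr {G : MF n} (hG : Met G) (k i j : Fin n) : ContDiff ℝ ∞ (Chr G k i j) := by
  unfold Chr
  exact contDiff_const.mul (ContDiff.sum fun l _ => (contDiff_inv hG k l).mul
    (((contDiff_pd (hG.sm j l) i).add (contDiff_pd (hG.sm i l) j)).sub (contDiff_pd (hG.sm i j) l)))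

/-- The geodesic spray. -/
noncomputable def spr (G : MF n) (p : V n × V n) : V n × V n :=
  (p.2, fun k => -∑ i, ∑ j, Chr G k i j p.1 * p.2 i * p.2 j)

theorem contDiff_spr {G : MF n} (hG : Met G) : ContDiff ℝ ∞ (spr G) := by
  refine contDiff_snd.prodMk (contDiff_pi.2 fun k => ?_)
  refine (ContDiff.sum fun i _ => ContDiff.sum fun j _ => ?_).neg
  exact (((contDiff_Chr hG k i j).comp contDiff_fst).mul (contDiff_pi.1 contDiff_snd i)).mul
    (contDiff_pi.1 contDiff_snd j)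

theorem spr_zero (G : MF n) (y : V n) : spr G (y, 0) = 0 := by
  ext k <;> simp [spr]

theorem spr_smul (G : MF n) (p : V n × V n) (c : ℝ) :
    spr G (p.1, c • p.2) = (c • (spr G p).1, c • c • (spr G p).2) := by
  ext k
  · rfl
  · simp only [spr, Pi.smul_apply, smul_eq_mul, mul_neg, Finset.mul_sum]
    congr 1
    exact Finset.sum_congr rfl fun i _ => Finset.sum_congr rfl fun j _ => by ring

/-- Uniqueness for a smooth autonomous ODE. -/
theorem uniq {E : Type} [NormedAddCommGroup E] [NormedSpace ℝ E] [ProperSpace E] {S : E → E}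
    (hS : ContDiff ℝ ∞ S) {f g : ℝ → E} {t : ℝ}
    (hf : ∀ τ ∈ uIcc 0 t, HasDerivAt f (S (f τ)) τ)
    (hg : ∀ τ ∈ uIcc 0 t, HasDerivAt g (S (g τ)) τ) (h0 : f 0 = g 0) : f t = g t := by
  have cf : ContinuousOn f (uIcc 0 t) := fun τ hτ => (hf τ hτ).continuousAt.continuousWithinAt
  have cg : ContinuousOn g (uIcc 0 t) := fun τ hτ => (hg τ hτ).continuousAt.continuousWithinAt
  obtain ⟨R, hR⟩ := ((isCompact_uIcc.image_of_continuousOn cf).union
    (isCompact_uIcc.image_of_continuousOn cg)).isBounded.subset_closedBall (0 : E)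
  obtain ⟨K, hK⟩ := (hS.contDiffOn (s := closedBall (0 : E) R)).exists_lipschitzOnWith (by simp)
    (convex_closedBall _ _) (isCompact_closedBall _ _)
  have mf : ∀ τ ∈ uIcc 0 t, f τ ∈ closedBall (0 : E) R := fun τ hτ =>
    hR (Or.inl (mem_image_of_mem _ hτ))
  have mg : ∀ τ ∈ uIcc 0 t, g τ ∈ closedBall (0 : E) R := fun τ hτ =>
    hR (Or.inr (mem_image_of_mem _ hτ))
  rcases le_total 0 t with h | h
  · rw [uIcc_of_le h] at hf hg cf cg mf mg
    exact ODE_solution_unique_of_mem_Icc_right (v := fun _ => S) (s := fun _ => closedBall 0 R)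
      (K := K) (fun _ _ => hK) cf (fun τ hτ => (hf τ (Ico_subset_Icc_self hτ)).hasDerivWithinAt)
      (fun τ hτ => mf τ (Ico_subset_Icc_self hτ)) cg
      (fun τ hτ => (hg τ (Ico_subset_Icc_self hτ)).hasDerivWithinAt)
      (fun τ hτ => mg τ (Ico_subset_Icc_self hτ)) h0 (right_mem_Icc.2 h)
  · rw [uIcc_of_ge h] at hf hg cf cg mf mg
    exact ODE_solution_unique_of_mem_Icc_left (v := fun _ => S) (s := fun _ => closedBall 0 R)
      (K := K) (fun _ _ => hK) cf (fun τ hτ => (hf τ (Ioc_subset_Icc_self hτ)).hasDerivWithinAt)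
      (fun τ hτ => mf τ (Ioc_subset_Icc_self hτ)) cg
      (fun τ hτ => (hg τ (Ioc_subset_Icc_self hτ)).hasDerivWithinAt)
      (fun τ hτ => mg τ (Ioc_subset_Icc_self hτ)) h0 (left_mem_Icc.2 h)

/-- A smooth family of curves which solve the ODE near a zero of the field. -/
theorem local_flow {E : Type} [NormedAddCommGroup E] [NormedSpace ℝ E] [FiniteDimensional ℝ E]
    {S : E → E} (hS : ContDiff ℝ ∞ S) {p₀ : E} (h0 : S p₀ = 0) {U : Set E} (hU : IsOpen U)
    (hp : p₀ ∈ U) : ∃ ε > 0, ∃ Φ : ℝ → E → E, ContDiff ℝ ∞ (fun q : ℝ × E => Φ q.1 q.2) ∧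
      (∀ p, Φ 0 p = p) ∧ ∀ p, dist p p₀ < ε → ∀ s, |s| < 5 →
        Φ s p ∈ U ∧ HasDerivAt (fun τ => Φ τ p) (S (Φ s p)) s := by
  have : CompleteSpace E := FiniteDimensional.complete ℝ E
  let χ : ContDiffBump p₀ := ⟨1, 2, one_pos, one_lt_two⟩
  have hZ : ContDiff ℝ ∞ fun p => χ p • S p := χ.contDiff.smul hS
  have hs : HasCompactSupport fun p => χ p • S p := χ.hasCompactSupport.smul_right
  obtain ⟨K, hK⟩ := hZ.lipschitzWith_of_hasCompactSupport hs (by simp)
  obtain ⟨L, hL⟩ := hs.exists_bound_of_continuous hZ.continuous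
  obtain ⟨Φ, hsm, hz, -, hd, hu⟩ := MP_f62ea7_gt.FLOW.smooth_flow hZ hK
    (L := ⟨L, (norm_nonneg _).trans (hL 0)⟩) hL
  have hfix : ∀ s, Φ s p₀ = p₀ := fun s =>
    (hu (fun _ => p₀) (fun t => by simpa [h0] using hasDerivAt_const t p₀) s).symm
  have hev : ∀ᶠ p in 𝓝 p₀, ∀ s ∈ Icc (-5 : ℝ) 5, Φ s p ∈ U ∩ ball p₀ 1 := by
    refine isCompact_Icc.eventually_forall_of_forall_eventually fun s _ => ?_
    have hc : Continuous fun z : E × ℝ => Φ z.2 z.1 := hsm.continuous.comp continuous_swap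
    refine hc.continuousAt.eventually_mem ((hU.inter isOpen_ball).mem_nhds ?_)
    change Φ s p₀ ∈ _
    rw [hfix]
    exact ⟨hp, mem_ball_self one_pos⟩
  obtain ⟨ε, hε, hb⟩ := Metric.eventually_nhds_iff.1 hev
  refine ⟨ε, hε, Φ, hsm, hz, fun p hp s hs => ?_⟩
  have h1 := hb hp s ⟨(abs_lt.1 hs).1.le, (abs_lt.1 hs).2.le⟩
  refine ⟨h1.1, ?_⟩
  have h2 := hd p s
  rwa [χ.one_of_mem_closedBall (ball_subset_closedBall h1.2), one_smul] at h2

end FLO

open FLO in
theorem stFLO : St_FLO := by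
  intro n G y₀ T hG hT hy
  obtain ⟨ε, hε, Φ, hsm, hz, hd⟩ := local_flow (contDiff_spr hG) (spr_zero G y₀)
    (U := Prod.fst ⁻¹' T) (hT.preimage continuous_fst) hy
  have hdist : ∀ y w : V n, ‖y - y₀‖ < ε → ‖w‖ < ε → dist (y, w) (y₀, (0 : V n)) < ε :=
    fun y w h1 h2 => by
      rw [Prod.dist_eq, dist_eq_norm, dist_zero_right]
      exact max_lt h1 h2
  have hk : ContDiff ℝ ∞ fun z : (V n × V n) × ℝ => (Φ z.2 z.1).1 :=
    (hsm.comp (contDiff_snd.prodMk contDiff_fst)).fst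
  have hc : ∀ p : V n × V n, ContDiff ℝ ∞ fun s : ℝ => (Φ s p).1 := fun p =>
    hk.comp (contDiff_const.prodMk contDiff_id)
  have d1 : ∀ p, dist p (y₀, (0 : V n)) < ε → ∀ s, |s| < 5 →
      HasDerivAt (fun τ => (Φ τ p).1) (Φ s p).2 s := fun p hp s hs => (hd p hp s hs).2.fst
  have d2 : ∀ p, dist p (y₀, (0 : V n)) < ε → ∀ s, |s| < 5 →
      HasDerivAt (fun τ => (Φ τ p).2) (spr G (Φ s p)).2 s := fun p hp s hs => (hd p hp s hs).2.snd
  have op : IsOpen {s : ℝ | |s| < 5} := isOpen_lt continuous_abs continuous_const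
  have geo : ∀ p, dist p (y₀, (0 : V n)) < ε → ∀ s, |s| < 5 →
      GeodEq G (fun τ => (Φ τ p).1) s := fun p hp s hs k => by
    have e1 : ∀ i, (deriv fun τ => (Φ τ p).1 i) =ᶠ[𝓝 s] fun τ => (Φ τ p).2 i := fun i => by
      filter_upwards [op.mem_nhds hs] with τ hτ
      exact (hasDerivAt_pi.1 (d1 p hp τ hτ) i).deriv
    rw [(e1 k).deriv_eq, (hasDerivAt_pi.1 (d2 p hp s hs) k).deriv]
    simp only [(e1 _).eq_of_nhds]
    simp [spr]
  refine ⟨ε, fun z => (Φ z.2 z.1).1, hε, hk, fun y w _ _ => ?_, fun y w h1 h2 => ?_,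
    fun y w h1 h2 s hs => (hd _ (hdist y w h1 h2) s hs).1,
    fun y w h1 h2 s hs => geo _ (hdist y w h1 h2) s hs, fun y w h1 h2 s hs => ?_,
    fun y w h1 h2 s c t hs ht hst h3 h4 => ?_⟩
  · change (Φ 0 (y, w)).1 = y
    rw [hz]
  · have := d1 _ (hdist y w h1 h2) 0 (by norm_num)
    rwa [hz] at this
  · have hp := hdist y w h1 h2
    have en : ∀ τ ∈ Ioo (-5 : ℝ) 5, HasDerivAt (fun τ => bil (G (Φ τ (y, w)).1)
        (deriv (fun τ => (Φ τ (y, w)).1) τ) (deriv (fun τ => (Φ τ (y, w)).1) τ)) 0 τ :=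
      fun τ hτ => (geo _ hp τ (abs_lt.2 hτ)).energy hG.sm hG.pos
        ((hc _).contDiffAt.of_le MP_3eff7f_gt_h14.two_le_inf)
    have := isOpen_Ioo.is_const_of_deriv_eq_zero isPreconnected_Ioo
      (fun τ hτ => (en τ hτ).differentiableAt.differentiableWithinAt)
      (fun τ hτ => (en τ hτ).deriv) (show s ∈ Ioo (-5 : ℝ) 5 from abs_lt.1 hs)
      (show (0 : ℝ) ∈ Ioo (-5 : ℝ) 5 by norm_num)
    refine this.trans ?_
    rw [(d1 _ hp 0 (by norm_num)).deriv, hz]
  · have hp := hdist y w h1 h2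
    change (Φ t ((Φ s (y, w)).1, c • deriv (fun τ => (Φ τ (y, w)).1) s)).1 =
      (Φ (s + c * t) (y, w)).1
    change ‖c • deriv (fun τ => (Φ τ (y, w)).1) s‖ < ε at h4
    rw [(d1 _ hp s hs).deriv] at h4 ⊢
    have hq := hdist _ _ h3 h4
    have m1 : ∀ τ ∈ uIcc 0 t, |τ| < 5 := fun τ hτ => by
      have := abs_lt.1 ht
      rw [abs_lt]
      rcases mem_uIcc.1 hτ with h | h <;> constructor <;> linarith [h.1, h.2]
    have m2 : ∀ τ ∈ uIcc 0 t, |s + c * τ| < 5 := fun τ hτ => by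
      have a1 := abs_lt.1 hs
      have a2 := abs_lt.1 hst
      rw [abs_lt]
      rcases mem_uIcc.1 hτ with h | h <;> rcases le_total 0 c with h' | h' <;> constructor <;>
        nlinarith [h.1, h.2]
    have hl : ∀ τ, HasDerivAt (fun τ => s + c * τ) c τ := fun τ => by
      simpa using ((hasDerivAt_id τ).const_mul c).const_add s
    have key := uniq (contDiff_spr hG) (f := fun τ => Φ τ ((Φ s (y, w)).1, c • (Φ s (y, w)).2))
      (g := fun τ => ((Φ (s + c * τ) (y, w)).1, c • (Φ (s + c * τ) (y, w)).2)) (t := t)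
      (fun τ hτ => (hd _ hq τ (m1 τ hτ)).2) (fun τ hτ => by
        rw [spr_smul]
        exact ((d1 _ hp _ (m2 τ hτ)).scomp τ (hl τ)).prodMk
          (((d2 _ hp _ (m2 τ hτ)).scomp τ (hl τ)).const_smul c)) (by simp [hz])
    rw [key]

end Pool.Agent.Lib.RG
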