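import Pool.Agent.Lib.RG.Base

/-! Block GAU: the Gauss lemma for the chart free exponential map. -/

set_option autoImplicit false

open Set Filter Topology Metric Matrix
open scoped ContDiff

namespace Pool.Agent.Lib.RG

open Pool.Agent.Lib.MP_3eff7f_gt
open Pool.Agent.Lib.MP_3eff7f_gt_h14 (MF bil)

namespace GAU

variable {n : ℕ} {M : Type} [MetricSpace M] {A : Atl n M} {x : M} {S : ℝ} {c : V n × ℝ → M}

theorem deriv_pb (h : St_GAU0) (hc : IsExp A x S c) {v : V n} (hv : nrm (A.G0 x) v < S) {t : ℝ}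
    (ht : t ∈ Icc (0 : ℝ) 1) (a : V n) :
    HasDerivAt (fun s => pb A c (v, s) (0, 1) (a, 0)) (bil (A.G0 x) v a) t := by
  obtain ⟨p, O, hu, hV⟩ := hc.val v t hv ht
  have h1 := h n _ _ _ O (A.met p) (A.G0_pos x) hV.2 (v, t) hu a
  refine h1.congr_of_eventuallyEq ?_
  have hcont : ContinuousAt (fun s : ℝ => (v, s)) t := by fun_prop
  filter_upwards [hcont.eventually (hV.2.op.mem_nhds hu)] with s hs
  exact hV.pb_eq hs _ _

theorem pb_zero (hc : IsExp A x S c) {v : V n} (hv : nrm (A.G0 x) v < S) (a : V n) :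
    pb A c (v, 0) (0, 1) (a, 0) = 0 := by
  obtain ⟨p, O, hu, hV⟩ := hc.val v 0 hv ⟨le_rfl, zero_le_one⟩
  rw [hV.pb_eq hu]
  have hd := hasDerivAt_dir ((hV.2.contDiffAt hu).differentiableAt (by simp)) a
  have hcont : ContinuousAt (fun s : ℝ => v + s • a) 0 := by fun_prop
  have hev : ∀ᶠ s : ℝ in 𝓝 0, nrm (A.G0 x) (v + s • a) < S :=
    hcont.eventually ((isOpen_nrm_lt (A.G0 x) S).mem_nhds (by simpa using hv))
  have hk : HasDerivAt (fun s : ℝ => A.e p (c (v + s • a, 0))) 0 0 := by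
    refine (hasDerivAt_const (0 : ℝ) (A.e p x)).congr_of_eventuallyEq ?_
    filter_upwards [hev] with s hs
    rw [hc.zero _ hs]
  have e := hd.unique hk
  unfold pbc
  rw [e, map_zero]

end GAU

theorem stGAU (h : St_GAU0) : St_GAU := by
  intro n M _ A x S c hc v hv t ht a
  have hd : ∀ s ∈ Icc (0 : ℝ) 1, HasDerivAt
      (fun s => pb A c (v, s) (0, 1) (a, 0) - s * bil (A.G0 x) v a) 0 s := fun s hs => by
    have := (GAU.deriv_pb h hc hv hs a).sub ((hasDerivAt_id s).mul_const (bil (A.G0 x) v a))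
    rw [one_mul, sub_self] at this
    exact this
  have := constant_of_has_deriv_right_zero (fun s hs => (hd s hs).continuousAt.continuousWithinAt)
    (fun s hs => (hd s (Ico_subset_Icc_self hs)).hasDerivWithinAt) t ht
  simp only [GAU.pb_zero hc hv, zero_mul, sub_zero] at this
  exact sub_eq_zero.1 this

end Pool.Agent.Lib.RG
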