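import Pool.Agent.Lib.RG.Base

/-! Block GAU0: the infinitesimal Gauss lemma. -/

set_option autoImplicit false

open Set Filter Topology Matrix
open scoped ContDiff

namespace Pool.Agent.Lib.RG

open Pool.Agent.Lib.MP_3eff7f_gt
open Pool.Agent.Lib.MP_3eff7f_gt_h14 (pd Chr chartVec GeodEq MF bil bil_apply bil_symm bil_single
  bil_eq_sum fderiv_quad fderiv_eq_sum)

namespace GAU0

variable {n : ℕ}

/-- The derivative of the energy along a curve of vectors. -/
theorem hasDerivAt_quad {G : MF n} (hG : Met G) {x z : ℝ → V n} {x' z' : V n} {t : ℝ}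
    (hx : HasDerivAt x x' t) (hz : HasDerivAt z z' t) :
    HasDerivAt (fun s => bil (G (x s)) (z s) (z s))
      (fderiv ℝ (fun y => bil (G y) (z t) (z t)) (x t) x' + 2 * bil (G (x t)) (z t) z') t := by
  have h1 : ∀ i j, HasDerivAt (fun s => G (x s) i j)
      (∑ l, x' l * pd l (fun y => G y i j) (x t)) t := fun i j => by
    have := (((hG.sm i j).differentiable (by simp)) (x t)).hasFDerivAt.comp_hasDerivAt t hx
    rw [fderiv_eq_sum] at this
    exact this
  have h2 : HasDerivAt (fun s => bil (G (x s)) (z s) (z s))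
      (fderiv ℝ (fun y => bil (G y) (z t) (z t)) (x t) x' + bil (G (x t)) z' (z t) +
        bil (G (x t)) (z t) z') t := by
    simp only [bil_eq_sum (G (x _))]
    refine (HasDerivAt.fun_sum fun i (_ : i ∈ Finset.univ) =>
      HasDerivAt.fun_sum fun j (_ : j ∈ Finset.univ) =>
      ((h1 i j).mul (hasDerivAt_pi.1 hz i)).mul (hasDerivAt_pi.1 hz j)).congr_deriv (Eq.symm ?_)
    rw [fderiv_quad hG.sm]
    simp only [Pi.mul_apply, add_mul, Finset.sum_add_distrib]
    congr 2
    simp only [Finset.mul_sum, Finset.sum_mul]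
    rw [Finset.sum_comm]
    refine Finset.sum_congr rfl fun i _ => ?_
    rw [Finset.sum_comm]
    exact Finset.sum_congr rfl fun j _ => Finset.sum_congr rfl fun l _ => by ring
  refine h2.congr_deriv ?_
  rw [bil_symm (hG.pos _) z']
  ring

end GAU0

theorem stGAU0 : St_GAU0 := by
  rintro n G G0 y O hG h0 h ⟨v, t⟩ hu a
  have hy := h.contDiffAt hu
  have hd : ContDiffAt ℝ ∞ (fderiv ℝ y) (v, t) := hy.fderiv_right (by simp)
  have hd1 := hd.differentiableAt (by simp)
  have hy1 := hy.differentiableAt (by simp)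
  have hO := h.op.mem_nhds hu
  have two : (2 : WithTop ℕ∞) ≤ ∞ := WithTop.coe_le_coe.2 (le_top : (2 : ℕ∞) ≤ ⊤)
  have hx : ContDiffAt ℝ 2 (fun s => y (v, s)) t :=
    (hy.of_le two).comp t (contDiffAt_const.prodMk contDiffAt_id)
  have hw : HasDerivAt (fun s => fderiv ℝ y (v, s) (a, 0))
      (fderiv ℝ (fderiv ℝ y) (v, t) (0, 1) (a, 0)) t := by
    simpa using (hasDerivAt_time hd1).clm_apply (hasDerivAt_const t (a, (0 : ℝ)))
  have hz : HasDerivAt (fun s : ℝ => fderiv ℝ y (v + s • a, t) (0, 1))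
      (fderiv ℝ (fderiv ℝ y) (v, t) (a, 0) (0, 1)) 0 := by
    simpa using (hasDerivAt_dir hd1 a).clm_apply (hasDerivAt_const (0 : ℝ) ((0 : V n), (1 : ℝ)))
  have hs := (hy.isSymmSndFDerivAt (by simpa using two)).eq (a, 0) (0, 1)
  have h1 := (h.geo _ hu).el hG.sm hG.pos hx hw
  have h2 := GAU0.hasDerivAt_quad hG (hasDerivAt_dir hy1 a) hz
  have hl : HasDerivAt (fun s : ℝ => v + s • a) a 0 := by
    simpa using ((hasDerivAt_id (0 : ℝ)).smul_const a).const_add v
  have h3 : HasDerivAt (fun s : ℝ => bil G0 (v + s • a) (v + s • a)) (2 * bil G0 v a) 0 := by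
    have := (((bil G0).hasFDerivAt.comp_hasDerivAt 0 hl).clm_apply hl)
    simp only [Function.comp_apply, zero_smul, add_zero] at this
    rwa [bil_symm h0 a, ← two_mul] at this
  have hc : ContinuousAt (fun s : ℝ => (v + s • a, t)) 0 := by fun_prop
  have h4 := h2.unique (h3.congr_of_eventuallyEq (by
    filter_upwards [hc.eventually (show ∀ᶠ z in 𝓝 (v + (0 : ℝ) • a, t), z ∈ O by simpa using hO)]
      with s hs using h.spd _ hs))
  have hc' : ContinuousAt (fun s : ℝ => (v, s)) t := by fun_prop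
  have e : ∀ᶠ s in 𝓝 t, deriv (fun s => y (v, s)) s = fderiv ℝ y (v, s) (0, 1) := by
    filter_upwards [hc'.eventually hO] with s hs
    exact (hasDerivAt_time ((h.contDiffAt hs).differentiableAt (by simp))).deriv
  refine (h1.congr_of_eventuallyEq ?_).congr_deriv ?_
  · filter_upwards [e] with s hs
    rw [hs]
    rfl
  · simp only [zero_smul, add_zero] at h4
    rw [e.self_of_nhds, ← hs]
    linarith

end Pool.Agent.Lib.RG
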