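import Pool.Agent.Lib.RG.Base

/-! Block INI: behaviour of the pulled back metric at `t = 0`. -/

set_option autoImplicit false

open Set Filter Topology
open scoped ContDiff

namespace Pool.Agent.Lib.RG

open Pool.Agent.Lib.MP_3eff7f_gt_h14 (bil)

namespace INI

variable {n : ℕ}

theorem slope {y : V n × ℝ → V n} {v y0 : V n} (hy : ContDiffAt ℝ ∞ y (v, 0))
    (h0 : ∀ᶠ w in 𝓝 v, y (w, 0) = y0)
    (h1 : ∀ᶠ w in 𝓝 v, HasDerivAt (fun t => y (w, t)) w 0) (a : V n) :
    Tendsto (fun t : ℝ => t⁻¹ • fderiv ℝ y (v, t) (a, 0)) (𝓝[>] 0) (𝓝 a) := by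
  have hy2 : ContDiffAt ℝ 2 y (v, 0) := hy.of_le (show ((2 : ℕ∞) : WithTop ℕ∞) ≤ ∞ by exact_mod_cast le_top)
  have hD : DifferentiableAt ℝ (fderiv ℝ y) (v, 0) :=
    (hy2.fderiv_right (m := 1) (by norm_num)).differentiableAt (by simp)
  have hs := hy2.isSymmSndFDerivAt (by simp)
  have hl : Tendsto (fun s : ℝ => v + s • a) (𝓝 0) (𝓝 v) := by
    have : Continuous fun s : ℝ => v + s • a := by fun_prop
    simpa using this.tendsto 0
  have hl' : Tendsto (fun s : ℝ => (v + s • a, (0 : ℝ))) (𝓝 0) (𝓝 (v, 0)) :=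
    hl.prodMk_nhds tendsto_const_nhds
  have g0 : fderiv ℝ y (v, 0) (a, 0) = 0 := by
    refine (hasDerivAt_dir (hy.differentiableAt (by simp)) a).unique ?_
    refine (hasDerivAt_const (0 : ℝ) y0).congr_of_eventuallyEq ?_
    exact hl.eventually h0
  have e1 : HasDerivAt (fun s : ℝ => fderiv ℝ y (v + s • a, 0) (0, 1))
      (fderiv ℝ (fderiv ℝ y) (v, 0) (a, 0) (0, 1)) 0 := by
    simpa using (hasDerivAt_dir hD a).clm_apply (hasDerivAt_const (0 : ℝ) ((0, 1) : V n × ℝ))
  have e2 : HasDerivAt (fun s : ℝ => fderiv ℝ y (v + s • a, 0) (0, 1)) a 0 := by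
    have : HasDerivAt (fun s : ℝ => v + s • a) a 0 := by
      simpa using ((hasDerivAt_id (0 : ℝ)).smul_const a).const_add v
    refine this.congr_of_eventuallyEq ?_
    filter_upwards [hl.eventually h1, hl'.eventually
      (hy2.eventually (by simp))] with s hs1 hs2
    exact (hasDerivAt_time (hs2.differentiableAt (by simp))).unique hs1
  have e3 : HasDerivAt (fun t : ℝ => fderiv ℝ y (v, t) (a, 0)) a 0 := by
    have := (hasDerivAt_time hD).clm_apply (hasDerivAt_const (0 : ℝ) ((a, 0) : V n × ℝ))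
    rw [hs.eq, e1.unique e2] at this
    simpa using this
  have := (hasDerivAt_iff_tendsto_slope_zero.1 e3).mono_left
    (nhdsWithin_mono (0 : ℝ) (show Ioi (0 : ℝ) ⊆ {0}ᶜ from fun t ht => ne_of_gt ht))
  simpa [g0] using this

end INI

theorem stINI : St_INI := by
  intro n M _ A x S c h v hv a b
  obtain ⟨p, O, hu, hV⟩ := h.val v 0 hv (by simp)
  have hx : c (v, 0) ∈ (A.e x).source := by rw [h.zero v hv]; exact A.psm.mem x
  have hy := hV.contDiffAt hu hx
  have ho : ∀ᶠ w in 𝓝 v, nrm (A.G0 x) w < S := (isOpen_nrm_lt _ S).mem_nhds hv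
  have hs := INI.slope (y0 := A.e x x) hy (ho.mono fun w hw => by simp only [h.zero w hw])
    (ho.mono h.init)
  have hl : Tendsto (fun t : ℝ => (v, t)) (𝓝[>] 0) (𝓝 (v, 0)) :=
    (tendsto_const_nhds.prodMk_nhds tendsto_id).mono_left nhdsWithin_le_nhds
  have hc : Tendsto (fun t : ℝ => A.e x (c (v, t))) (𝓝[>] 0) (𝓝 (A.e x x)) := by
    have := hy.continuousAt.tendsto.comp hl
    simpa only [h.zero v hv, Function.comp_def] using this
  have := ((A.met x).continuous_bil.tendsto (A.e x x, a, b)).comp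
    (hc.prodMk_nhds ((hs a).prodMk_nhds (hs b)))
  refine this.congr' ?_
  filter_upwards [hl.eventually (hV.2.op.mem_nhds hu), hl.eventually (hV.eventually_mem hu hx)]
    with t h1 h2
  rw [hV.pb_eq h1, ← hV.pbc_eq h1 h2]
  simp only [Function.comp, pbc, map_smul, _root_.smul_apply, smul_eq_mul]
  ring

end Pool.Agent.Lib.RG
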