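import Pool.Agent.Lib.RG.Base

/-! Block JAC: the Jacobi equation along a family of geodesics, in coordinates. -/

set_option autoImplicit false

open Set Filter Topology Metric MeasureTheory Matrix
open scoped ContDiff ENNReal

namespace Pool.Agent.Lib.RG

open Pool.Agent.Lib.MP_3eff7f_gt
open Pool.Agent.Lib.MP_3eff7f_gt_h14 (pd Chr chartVec GeodEq MF bil bil_apply bil_symm bil_single
  bil_eq_sum fderiv_eq_sum)

namespace JAC

variable {n : ℕ}

theorem contDiff_det {A : V n → Mat n} (hA : ∀ i j, ContDiff ℝ ∞ fun x => A x i j) :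
    ContDiff ℝ ∞ fun x => (A x).det := by
  simp only [Matrix.det_apply']
  exact ContDiff.sum fun σ _ => contDiff_const.mul (contDiff_prod fun i _ => hA _ _)

theorem contDiff_inv {G : MF n} (hG : Met G) (k l : Fin n) :
    ContDiff ℝ ∞ fun x => (G x)⁻¹ k l := by
  have e : (fun x => (G x)⁻¹ k l) =
      fun x => ((G x).det)⁻¹ * ((G x).updateRow l (Pi.single k 1)).det := by
    funext x
    rw [Matrix.inv_def, Matrix.smul_apply, Ring.inverse_eq_inv', adjugate_apply, smul_eq_mul]
  rw [e]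
  refine ((contDiff_det hG.sm).inv fun x => (hG.pos x).det_pos.ne').mul (contDiff_det fun i j => ?_)
  by_cases h : i = l
  · subst h
    simp only [updateRow_self]
    exact contDiff_const
  · simp only [updateRow_ne h]
    exact hG.sm i j

theorem contDiff_pd {f : V n → ℝ} (hf : ContDiff ℝ ∞ f) (i : Fin n) : ContDiff ℝ ∞ (pd i f) := by
  have h : ContDiff ℝ ∞ (fderiv ℝ f) := hf.fderiv_right (by simp)
  exact h.clm_apply contDiff_const

theorem contDiff_Chr {G : MF n} (hG : Met G) (k i j : Fin n) : ContDiff ℝ ∞ (Chr G k i j) := by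
  unfold Chr
  exact contDiff_const.mul (ContDiff.sum fun l _ => (contDiff_inv hG k l).mul
    (((contDiff_pd (hG.sm _ _) _).add (contDiff_pd (hG.sm _ _) _)).sub (contDiff_pd (hG.sm _ _) _)))

theorem G_symm {G : MF n} (hG : Met G) (x : V n) (i j : Fin n) : G x i j = G x j i := by
  rw [← bil_single (G x), bil_symm (hG.pos _), bil_single]

theorem pd_symm {G : MF n} (hG : Met G) (x : V n) (l i j : Fin n) :
    pd l (fun y => G y i j) x = pd l (fun y => G y j i) x := by
  simp only [G_symm hG _ i j]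

theorem Chr_symm {G : MF n} (hG : Met G) (k i j : Fin n) (x : V n) :
    Chr G k i j x = Chr G k j i x := by
  unfold Chr
  congr 1
  refine Finset.sum_congr rfl fun l _ => ?_
  rw [pd_symm hG x l i j]
  ring

theorem lower {G : MF n} (hG : Met G) (x : V n) (j p q : Fin n) :
    ∑ k, G x k j * Chr G k p q x = 1 / 2 * (pd p (fun y => G y q j) x +
      pd q (fun y => G y p j) x - pd j (fun y => G y p q) x) := by
  have hu : IsUnit (G x).det := (hG.pos _).det_pos.ne'.isUnit
  have hδ : ∀ j l, ∑ k, G x j k * (G x)⁻¹ k l = if j = l then 1 else 0 := fun j l => by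
    rw [← mul_apply, mul_nonsing_inv _ hu, one_apply]
  calc ∑ k, G x k j * Chr G k p q x
      = 1 / 2 * ∑ l, (∑ k, G x j k * (G x)⁻¹ k l) * (pd p (fun y => G y q l) x +
          pd q (fun y => G y p l) x - pd l (fun y => G y p q) x) := by
        simp only [Chr, Finset.mul_sum, Finset.sum_mul]
        rw [Finset.sum_comm]
        exact Finset.sum_congr rfl fun l _ => Finset.sum_congr rfl fun k _ => by
          rw [G_symm hG x k j]; ring
    _ = _ := by simp [hδ]

/-- A bilinear form with variable coefficients. -/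
def tri (f : Fin n → Fin n → V n → ℝ) (x X W : V n) : ℝ := ∑ p, ∑ q, f p q x * X p * W q

/-- Its derivative in the base point. -/
noncomputable def dtri (f : Fin n → Fin n → V n → ℝ) (x Z X W : V n) : ℝ :=
  ∑ p, ∑ q, (∑ l, pd l (f p q) x * Z l) * X p * W q

/-- The Christoffel map. -/
noncomputable def Gam (G : MF n) (x X W : V n) : V n := fun k => tri (Chr G k) x X W

/-- The derivative of the Christoffel map. -/
noncomputable def dGam (G : MF n) (x Z X W : V n) : V n := fun k => dtri (Chr G k) x Z X W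

/-- The curvature operator. -/
noncomputable def Rm (G : MF n) (x X Y W : V n) : V n :=
  dGam G x X Y W - dGam G x Y X W + (Gam G x X (Gam G x Y W) - Gam G x Y (Gam G x X W))

theorem Gam_add (G : MF n) (x X W W' : V n) :
    Gam G x X (W + W') = Gam G x X W + Gam G x X W' := by
  funext k
  simp only [Gam, tri, Pi.add_apply, mul_add, Finset.sum_add_distrib]

theorem Gam_zero (G : MF n) (x X : V n) : Gam G x X 0 = 0 := by
  funext k
  simp [Gam, tri]

theorem Gam_symm {G : MF n} (hG : Met G) (x X W : V n) : Gam G x X W = Gam G x W X := by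
  funext k
  simp only [Gam, tri]
  rw [Finset.sum_comm]
  exact Finset.sum_congr rfl fun p _ => Finset.sum_congr rfl fun q _ => by
    rw [Chr_symm hG k q p]; ring

theorem bil_Gam {G : MF n} (hG : Met G) (x Z X W : V n) :
    bil (G x) (Gam G x Z X) W = ∑ l, ∑ i, ∑ j, 1 / 2 * (pd l (fun y => G y i j) x +
      pd i (fun y => G y l j) x - pd j (fun y => G y l i) x) * Z l * X i * W j := by
  rw [bil_eq_sum]
  simp only [Gam, tri, ← lower hG, Finset.mul_sum, Finset.sum_mul]
  rw [Finset.sum_comm]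
  have : ∀ j : Fin n, ∑ k, ∑ l, ∑ i, G x k j * (Chr G k l i x * Z l * X i) * W j =
      ∑ l, ∑ i, ∑ k, G x k j * Chr G k l i x * Z l * X i * W j := fun j => by
    rw [Finset.sum_comm]
    refine Finset.sum_congr rfl fun l _ => ?_
    rw [Finset.sum_comm]
    exact Finset.sum_congr rfl fun i _ => Finset.sum_congr rfl fun k _ => by ring
  simp only [this]
  rw [Finset.sum_comm]
  refine Finset.sum_congr rfl fun l _ => ?_
  rw [Finset.sum_comm]

/-- The connection is metric. -/
theorem compat {G : MF n} (hG : Met G) (x Z X W : V n) :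
    dtri (fun p q y => G y p q) x Z X W =
      bil (G x) (Gam G x Z X) W + bil (G x) X (Gam G x Z W) := by
  rw [bil_symm (hG.pos x) X, bil_Gam hG, bil_Gam hG, ← Finset.sum_add_distrib]
  simp only [dtri, Finset.sum_mul]
  have : ∀ p : Fin n, ∑ q, ∑ l, pd l (fun y => G y p q) x * Z l * X p * W q =
      ∑ l, ∑ q, pd l (fun y => G y p q) x * Z l * X p * W q := fun p => Finset.sum_comm
  simp only [this]
  rw [Finset.sum_comm]
  refine Finset.sum_congr rfl fun l _ => ?_
  rw [Finset.sum_comm (f := fun i j => 1 / 2 * (pd l (fun y => G y i j) x +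
      pd i (fun y => G y l j) x - pd j (fun y => G y l i) x) * Z l * W i * X j),
    ← Finset.sum_add_distrib]
  refine Finset.sum_congr rfl fun i _ => ?_
  rw [← Finset.sum_add_distrib]
  refine Finset.sum_congr rfl fun j _ => ?_
  rw [pd_symm hG x l j i]
  ring

/-- The matrix of `X ↦ Rm (X, Y) Y`. -/
noncomputable def Rmat (G : MF n) (x Y : V n) : Mat n := Matrix.of fun k i =>
  ∑ j, ∑ q, (pd i (Chr G k j q) x - pd j (Chr G k i q) x +
    ∑ p, (Chr G k i p x * Chr G p j q x - Chr G k j p x * Chr G p i q x)) * Y j * Y q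

theorem trace_Rmat (G : MF n) (x Y : V n) : (Rmat G x Y).trace = quad (Ric G x) Y := by
  simp only [Matrix.trace, Matrix.diag, Rmat, Matrix.of_apply, quad, Ric, Finset.sum_mul]
  rw [Finset.sum_comm]
  refine Finset.sum_congr rfl fun j _ => ?_
  rw [Finset.sum_comm]

theorem Rmat_mulVec (G : MF n) (x X Y : V n) : Rmat G x Y *ᵥ X = Rm G x X Y Y := by
  funext k
  have h1 : dGam G x X Y Y k = ∑ i, (∑ j, ∑ q, pd i (Chr G k j q) x * Y j * Y q) * X i := by
    simp only [dGam, dtri, Finset.sum_mul]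
    have : ∀ j : Fin n, ∑ q, ∑ l, pd l (Chr G k j q) x * X l * Y j * Y q =
        ∑ l, ∑ q, pd l (Chr G k j q) x * X l * Y j * Y q := fun p => Finset.sum_comm
    simp only [this]
    rw [Finset.sum_comm]
    exact Finset.sum_congr rfl fun i _ => Finset.sum_congr rfl fun j _ =>
      Finset.sum_congr rfl fun q _ => by ring
  have h2 : dGam G x Y X Y k = ∑ i, (∑ j, ∑ q, pd j (Chr G k i q) x * Y j * Y q) * X i := by
    simp only [dGam, dtri, Finset.sum_mul]
    refine Finset.sum_congr rfl fun i _ => ?_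
    rw [Finset.sum_comm]
    exact Finset.sum_congr rfl fun j _ => Finset.sum_congr rfl fun q _ => by ring
  have h3 : Gam G x X (Gam G x Y Y) k =
      ∑ i, (∑ j, ∑ q, (∑ p, Chr G k i p x * Chr G p j q x) * Y j * Y q) * X i := by
    simp only [Gam, tri, Finset.sum_mul, Finset.mul_sum]
    refine Finset.sum_congr rfl fun i _ => ?_
    rw [Finset.sum_comm]
    refine Finset.sum_congr rfl fun j _ => ?_
    rw [Finset.sum_comm]
    exact Finset.sum_congr rfl fun q _ => Finset.sum_congr rfl fun p _ => by ring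
  have h4 : Gam G x Y (Gam G x X Y) k =
      ∑ i, (∑ j, ∑ q, (∑ p, Chr G k j p x * Chr G p i q x) * Y j * Y q) * X i := by
    simp only [Gam, tri, Finset.sum_mul, Finset.mul_sum]
    have : ∀ j : Fin n, ∑ p, ∑ i, ∑ q, Chr G k j p x * Y j * (Chr G p i q x * X i * Y q) =
        ∑ i, ∑ q, ∑ p, Chr G k j p x * Chr G p i q x * Y j * Y q * X i := fun j => by
      rw [Finset.sum_comm]
      refine Finset.sum_congr rfl fun i _ => ?_
      rw [Finset.sum_comm]
      exact Finset.sum_congr rfl fun q _ => Finset.sum_congr rfl fun p _ => by ring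
    simp only [this]
    rw [Finset.sum_comm]
  simp only [Rm, Pi.add_apply, Pi.sub_apply, h1, h2, h3, h4, mulVec, dotProduct, Rmat,
    Matrix.of_apply, ← Finset.sum_sub_distrib, ← Finset.sum_add_distrib]
  refine Finset.sum_congr rfl fun i _ => ?_
  simp only [add_mul, sub_mul, Finset.sum_add_distrib, Finset.sum_sub_distrib]

theorem Rm_anti (G : MF n) (x X Y W : V n) : Rm G x X Y W = -Rm G x Y X W := by
  unfold Rm
  abel

section Calc

variable {E : Type} [NormedAddCommGroup E] [NormedSpace ℝ E] {y X W : E → V n} {z : E}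

theorem contDiffAt_D {F : Type} [NormedAddCommGroup F] [NormedSpace ℝ F] {f : E → F}
    (hf : ContDiffAt ℝ ∞ f z) (a : E) : ContDiffAt ℝ ∞ (fun z => fderiv ℝ f z a) z := by
  have h : ContDiffAt ℝ ∞ (fderiv ℝ f) z := hf.fderiv_right (by simp)
  exact h.clm_apply contDiffAt_const

theorem D_comm {F : Type} [NormedAddCommGroup F] [NormedSpace ℝ F] {f : E → F}
    (hf : ContDiffAt ℝ ∞ f z) (a b : E) :
    fderiv ℝ (fun z => fderiv ℝ f z b) z a = fderiv ℝ (fun z => fderiv ℝ f z a) z b := by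
  have h : ContDiffAt ℝ ∞ (fderiv ℝ f) z := hf.fderiv_right (by simp)
  have hd := h.differentiableAt (by simp)
  have e : ∀ a b, fderiv ℝ (fun z => fderiv ℝ f z b) z a = fderiv ℝ (fderiv ℝ f) z a b :=
    fun a b => by
      rw [fderiv_clm_apply hd (differentiableAt_const _)]
      simp
  rw [e, e]
  have h2 : ContDiffAt ℝ ((2 : ℕ∞) : WithTop ℕ∞) f z := hf.of_le (by exact_mod_cast le_top)
  exact (h2.isSymmSndFDerivAt (by simp)).eq a b

theorem hasFDerivAt_tri {f : Fin n → Fin n → V n → ℝ} (hf : ∀ p q, ContDiff ℝ ∞ (f p q))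
    (hy : DifferentiableAt ℝ y z) (hX : DifferentiableAt ℝ X z) (hW : DifferentiableAt ℝ W z)
    (a : E) :
    fderiv ℝ (fun z => tri f (y z) (X z) (W z)) z a =
      dtri f (y z) (fderiv ℝ y z a) (X z) (W z) + tri f (y z) (fderiv ℝ X z a) (W z) +
        tri f (y z) (X z) (fderiv ℝ W z a) := by
  have h := HasFDerivAt.fun_sum fun p (_ : p ∈ Finset.univ) =>
    HasFDerivAt.fun_sum fun q (_ : q ∈ Finset.univ) =>
      (((((hf p q).differentiable (by simp)) (y z)).hasFDerivAt.comp z hy.hasFDerivAt).mul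
        (hasFDerivAt_pi'.1 hX.hasFDerivAt p)).mul (hasFDerivAt_pi'.1 hW.hasFDerivAt q)
  have e := h.fderiv
  simp only [Pi.mul_apply, Function.comp_apply] at e
  unfold tri dtri
  rw [e]
  simp only [_root_.sum_apply, ← Finset.sum_add_distrib]
  refine Finset.sum_congr rfl fun p _ => Finset.sum_congr rfl fun q _ => ?_
  simp only [_root_.add_apply, _root_.smul_apply,
    ContinuousLinearMap.comp_apply, ContinuousLinearMap.proj_apply, smul_eq_mul]
  rw [fderiv_eq_sum (fderiv ℝ (f p q) (y z))]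
  simp only [smul_eq_mul, pd]
  have : ∑ b, fderiv ℝ y z a b * fderiv ℝ (f p q) (y z) (Pi.single b 1) =
      ∑ b, fderiv ℝ (f p q) (y z) (Pi.single b 1) * fderiv ℝ y z a b :=
    Finset.sum_congr rfl fun b _ => mul_comm _ _
  rw [this]
  ring

theorem contDiffAt_Gam {G : MF n} (hG : Met G) (hy : ContDiffAt ℝ ∞ y z)
    (hX : ContDiffAt ℝ ∞ X z) (hW : ContDiffAt ℝ ∞ W z) :
    ContDiffAt ℝ ∞ (fun z => Gam G (y z) (X z) (W z)) z := by
  refine contDiffAt_pi.2 fun k => ?_
  simp only [Gam, tri]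
  exact ContDiffAt.sum fun p _ => ContDiffAt.sum fun q _ =>
    (((contDiff_Chr hG k p q).contDiffAt.comp z hy).mul (contDiffAt_pi.1 hX p)).mul
      (contDiffAt_pi.1 hW q)

theorem fderiv_Gam {G : MF n} (hG : Met G) (hy : ContDiffAt ℝ ∞ y z)
    (hX : ContDiffAt ℝ ∞ X z) (hW : ContDiffAt ℝ ∞ W z) (a : E) :
    fderiv ℝ (fun z => Gam G (y z) (X z) (W z)) z a =
      dGam G (y z) (fderiv ℝ y z a) (X z) (W z) + Gam G (y z) (fderiv ℝ X z a) (W z) +
        Gam G (y z) (X z) (fderiv ℝ W z a) := by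
  funext k
  have hd := (contDiffAt_Gam hG hy hX hW).differentiableAt (by simp)
  have e := (hasFDerivAt_pi'.1 hd.hasFDerivAt k).fderiv
  have e2 := hasFDerivAt_tri (contDiff_Chr hG k) (hy.differentiableAt (by simp))
    (hX.differentiableAt (by simp)) (hW.differentiableAt (by simp)) a
  have e3 : fderiv ℝ (fun z => Gam G (y z) (X z) (W z) k) z a =
      fderiv ℝ (fun z => Gam G (y z) (X z) (W z)) z a k := by
    rw [e]
    rfl
  rw [← e3]
  exact e2

/-- Covariant derivative of a field along `y`. -/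
noncomputable def cov (G : MF n) (y : E → V n) (a : E) (W : E → V n) (z : E) : V n :=
  fderiv ℝ W z a + Gam G (y z) (fderiv ℝ y z a) (W z)

theorem contDiffAt_cov {G : MF n} (hG : Met G) (hy : ContDiffAt ℝ ∞ y z)
    (hW : ContDiffAt ℝ ∞ W z) (a : E) : ContDiffAt ℝ ∞ (cov G y a W) z :=
  (contDiffAt_D hW a).add (contDiffAt_Gam hG hy (contDiffAt_D hy a) hW)

theorem cov_congr {G : MF n} {W' : E → V n} (h : W =ᶠ[𝓝 z] W') (a : E) :
    cov G y a W z = cov G y a W' z := by
  unfold cov
  rw [h.fderiv_eq, h.eq_of_nhds]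

theorem cov_zero (G : MF n) (a : E) : cov G y a (fun _ => 0) z = 0 := by
  simp [cov, Gam_zero]

theorem fderiv_bil {G : MF n} (hG : Met G) (hy : ContDiffAt ℝ ∞ y z)
    (hX : ContDiffAt ℝ ∞ X z) (hW : ContDiffAt ℝ ∞ W z) (a : E) :
    fderiv ℝ (fun z => bil (G (y z)) (X z) (W z)) z a =
      bil (G (y z)) (cov G y a X z) (W z) + bil (G (y z)) (X z) (cov G y a W z) := by
  have e := hasFDerivAt_tri (f := fun p q y => G y p q) hG.sm (hy.differentiableAt (by simp))
    (hX.differentiableAt (by simp)) (hW.differentiableAt (by simp)) a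
  have e2 : ∀ x X W, tri (fun p q y => G y p q) x X W = bil (G x) X W := fun x X W =>
    (bil_eq_sum _ _ _).symm
  simp only [e2, compat hG] at e
  rw [e]
  simp only [cov, map_add, _root_.add_apply]
  ring

/-- No torsion. -/
theorem cov_comm {G : MF n} (hG : Met G) (hy : ContDiffAt ℝ ∞ y z) (a b : E) :
    cov G y a (fun z => fderiv ℝ y z b) z = cov G y b (fun z => fderiv ℝ y z a) z := by
  unfold cov
  rw [D_comm hy a b, Gam_symm hG]

/-- Curvature. -/
theorem cov_cov {G : MF n} (hG : Met G) (hy : ContDiffAt ℝ ∞ y z) (hW : ContDiffAt ℝ ∞ W z)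
    (a b : E) :
    cov G y a (cov G y b W) z = cov G y b (cov G y a W) z +
      Rm G (y z) (fderiv ℝ y z a) (fderiv ℝ y z b) (W z) := by
  have e : ∀ a b, cov G y a (cov G y b W) z =
      fderiv ℝ (fun z => fderiv ℝ W z b) z a +
      (dGam G (y z) (fderiv ℝ y z a) (fderiv ℝ y z b) (W z) +
        Gam G (y z) (fderiv ℝ (fun z => fderiv ℝ y z b) z a) (W z) +
        Gam G (y z) (fderiv ℝ y z b) (fderiv ℝ W z a)) +
      (Gam G (y z) (fderiv ℝ y z a) (fderiv ℝ W z b) +
        Gam G (y z) (fderiv ℝ y z a) (Gam G (y z) (fderiv ℝ y z b) (W z))) := fun a b => by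
    rw [← fderiv_Gam hG hy (contDiffAt_D hy b) hW a, ← Gam_add]
    have h1 := (contDiffAt_D hW b).differentiableAt (by simp)
    have h2 := (contDiffAt_Gam hG hy (contDiffAt_D hy b) hW).differentiableAt (by simp)
    have h3 := fderiv_fun_add h1 h2
    have h4 : cov G y b W = fun z => fderiv ℝ W z b + Gam G (y z) (fderiv ℝ y z b) (W z) := rfl
    rw [cov, h4, h3]
    rfl
  rw [e a b, e b a, D_comm hW a b, D_comm hy a b]
  unfold Rm
  abel

end Calc

variable {G : MF n} {G0 : Mat n} {y : V n × ℝ → V n} {O : Set (V n × ℝ)}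

/-- The geodesic equation in covariant form. -/
theorem geo (h : GF G G0 y O) {u : V n × ℝ} (hu : u ∈ O) :
    cov G y (0, 1) (fun z => fderiv ℝ y z (0, 1)) u = 0 := by
  obtain ⟨v, t⟩ := u
  have hc : ContinuousAt (fun s : ℝ => (v, s)) t := by fun_prop
  have hev : ∀ᶠ s in 𝓝 t, (v, s) ∈ O := hc.eventually (h.op.mem_nhds hu)
  have e1 : ∀ k, (deriv fun s => y (v, s) k) =ᶠ[𝓝 t] fun s => fderiv ℝ y (v, s) (0, 1) k :=
    fun k => by
      filter_upwards [hev] with s hs
      exact (hasDerivAt_pi.1 (hasDerivAt_time ((h.contDiffAt hs).differentiableAt (by simp))) k).deriv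
  have e2 : ∀ k, deriv (deriv fun s => y (v, s) k) t =
      fderiv ℝ (fun z => fderiv ℝ y z (0, 1)) (v, t) (0, 1) k := fun k => by
    rw [(e1 k).deriv_eq]
    exact (hasDerivAt_pi.1 (hasDerivAt_time
      ((contDiffAt_D (h.contDiffAt hu) (0, 1)).differentiableAt (by simp))) k).deriv
  funext k
  have := h.geo _ hu k
  simp only [e2, (e1 _).eq_of_nhds] at this
  exact this

theorem mul_entry (g : Mat n) (a b : Fin n → V n) (i j : Fin n) :
    ((Matrix.of fun k j => a j k : Mat n)ᵀ * g * (Matrix.of fun k j => b j k : Mat n)) i j =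
      bil g (a i) (b j) := by
  rw [bil_eq_sum]
  simp only [Matrix.mul_apply, transpose_apply, Matrix.of_apply, Finset.sum_mul]
  rw [Finset.sum_comm]
  exact Finset.sum_congr rfl fun p _ => Finset.sum_congr rfl fun q _ => by ring

end JAC

open JAC in
theorem stJAC : St_JAC := by
  intro n G G0 y O hG hG0 h hgau u hu
  let a : Fin n → V n × ℝ → V n := fun j z => fderiv ℝ y z (Pi.single j 1, 0)
  let Y : V n × ℝ → V n := fun z => fderiv ℝ y z (0, 1)
  let b : Fin n → V n × ℝ → V n := fun j => cov G y (0, 1) (a j)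
  have ha : ∀ z ∈ O, ∀ j, ContDiffAt ℝ ∞ (a j) z := fun z hz j => contDiffAt_D (h.contDiffAt hz) _
  have hY : ∀ z ∈ O, ContDiffAt ℝ ∞ Y z := fun z hz => contDiffAt_D (h.contDiffAt hz) _
  have hb : ∀ z ∈ O, ∀ j, ContDiffAt ℝ ∞ (b j) z := fun z hz j =>
    contDiffAt_cov hG (h.contDiffAt hz) (ha z hz j) _
  have hb' : ∀ z ∈ O, ∀ j, b j z = cov G y (Pi.single j 1, 0) Y z := fun z hz j =>
    cov_comm hG (h.contDiffAt hz) _ _
  -- symmetry from the Gauss lemma
  have hsym : ∀ z ∈ O, ∀ i j, bil (G (y z)) (b i z) (a j z) = bil (G (y z)) (b j z) (a i z) := by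
    intro z hz
    have key : ∀ i j, bil (G (y z)) (b i z) (a j z) +
        bil (G (y z)) (Y z) (cov G y (Pi.single i 1, 0) (a j) z) = z.2 * G0 i j := fun i j => by
      rw [hb' z hz i, ← fderiv_bil hG (h.contDiffAt hz) (hY z hz) (ha z hz j)]
      have e : (fun z => bil (G (y z)) (Y z) (a j z)) =ᶠ[𝓝 z]
          fun z => z.2 * bil G0 z.1 (Pi.single j 1) := by
        filter_upwards [h.op.mem_nhds hz] with w hw using hgau w hw _
      rw [e.fderiv_eq]
      have h1 : HasFDerivAt (fun z : V n × ℝ => z.2 * bil G0 z.1 (Pi.single j 1)) _ z :=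
        hasFDerivAt_snd.mul (((bil G0).flip (Pi.single j 1)).hasFDerivAt.comp z hasFDerivAt_fst)
      rw [h1.fderiv]
      simp [bil_single]
    intro i j
    have h1 := key i j
    have h2 := key j i
    have h3 : cov G y (Pi.single i 1, 0) (a j) z = cov G y (Pi.single j 1, 0) (a i) z :=
      cov_comm hG (h.contDiffAt hz) _ _
    have h4 : G0 i j = G0 j i := by rw [← bil_single G0, bil_symm hG0, bil_single]
    rw [h3, h4] at h1
    linarith
  -- the Jacobi equation
  have hjac : ∀ j, cov G y (0, 1) (b j) u = -(Rmat G (y u) (Y u) *ᵥ a j u) := fun j => by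
    have e1 : b j =ᶠ[𝓝 u] cov G y (Pi.single j 1, 0) Y := by
      filter_upwards [h.op.mem_nhds hu] with w hw using hb' w hw j
    have e2 : cov G y (0, 1) Y =ᶠ[𝓝 u] fun _ => 0 := by
      filter_upwards [h.op.mem_nhds hu] with w hw using geo h hw
    rw [cov_congr e1, cov_cov hG (h.contDiffAt hu) (hY u hu), cov_congr e2, cov_zero, zero_add,
      Rmat_mulVec, Rm_anti]
  obtain ⟨v, t⟩ := u
  have hc : ContinuousAt (fun s : ℝ => (v, s)) t := by fun_prop
  have hev : ∀ᶠ s in 𝓝 t, (v, s) ∈ O := hc.eventually (h.op.mem_nhds hu)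
  refine ⟨Matrix.of fun k j => a j (v, t) k, Matrix.of fun k j => b j (v, t) k,
    Rmat G (y (v, t)) (Y (v, t)),
    fun s => Matrix.of fun i j => bil (G (y (v, s))) (a i (v, s)) (b j (v, s)), ?_, ?_, ?_,
    trace_Rmat _ _ _, ?_, fun i j => ?_⟩
  · ext i j
    exact (mul_entry _ (fun j => a j (v, t)) (fun j => a j (v, t)) i j).symm
  · ext i j
    exact (mul_entry _ (fun j => a j (v, t)) (fun j => b j (v, t)) i j).symm
  · ext i j
    simp only [transpose_apply, Matrix.of_apply]
    rw [bil_symm (hG.pos _), hsym _ hu, bil_symm (hG.pos _)]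
  · filter_upwards [hev] with s hs i j
    have h1 := hasDerivAt_time ((hG.contDiffAt_bil (m := ⊤) (h.contDiffAt hs) (ha _ hs i)
      (ha _ hs j)).differentiableAt (by simp))
    rw [fderiv_bil hG (h.contDiffAt hs) (ha _ hs i) (ha _ hs j)] at h1
    refine h1.congr_deriv ?_
    have h2 := hsym _ hs i j
    rw [bil_symm (hG.pos _) (b j _)] at h2
    simp only [Matrix.of_apply]
    linarith
  · have h1 := hasDerivAt_time ((hG.contDiffAt_bil (m := ⊤) (h.contDiffAt hu) (ha _ hu i)
      (hb _ hu j)).differentiableAt (by simp))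
    rw [fderiv_bil hG (h.contDiffAt hu) (ha _ hu i) (hb _ hu j), hjac] at h1
    refine h1.congr_deriv ?_
    have e : Rmat G (y (v, t)) (Y (v, t)) * (Matrix.of fun k j => a j (v, t) k : Mat n) =
        Matrix.of fun k j => (Rmat G (y (v, t)) (Y (v, t)) *ᵥ a j (v, t)) k := rfl
    rw [Matrix.sub_apply, Matrix.mul_assoc _ (Rmat _ _ _), e,
      mul_entry _ (fun j => b j (v, t)) (fun j => b j (v, t)),
      mul_entry _ (fun j => a j (v, t)) (fun j => Rmat G (y (v, t)) (Y (v, t)) *ᵥ a j (v, t)),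
      map_neg, sub_eq_add_neg]

end Pool.Agent.Lib.RG
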