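import Pool.Agent.Lib.RG.Blue

/-! Block LIFT: lifting a curve to a family of paths of bounded duration. -/

set_option autoImplicit false

open Set Filter Topology Metric

namespace Pool.Agent.Lib.RG

open Pool.Agent.Lib.MP_3eff7f_gt

namespace LIFT

variable {X : Type} [MetricSpace X]

/-- Gluing two families at the parameter `k`. -/
theorem glue {A B : ℝ → ℝ → X} (k : ℝ) (hA : Continuous fun z : ℝ × ℝ => A z.1 z.2)
    (hB : Continuous fun z : ℝ × ℝ => B z.1 z.2) (h : A k = B 0) :
    Continuous fun z : ℝ × ℝ => (if z.1 ≤ k then A z.1 else B (z.1 - k)) z.2 := by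
  have e : (fun z : ℝ × ℝ => (if z.1 ≤ k then A z.1 else B (z.1 - k)) z.2) =
      fun z : ℝ × ℝ => if z.1 ≤ k then A z.1 z.2 else B (z.1 - k) z.2 := by
    funext z
    split_ifs <;> rfl
  rw [e]
  refine Continuous.if_le hA (hB.comp (f := fun z : ℝ × ℝ => (z.1 - k, z.2)) (by fun_prop))
    continuous_fst continuous_const fun z hz => ?_
  rw [hz, sub_self, h]

/-- One step: from the segment to `a` to the segment to a nearby point `b`. -/
theorem step {r : ℝ} (G : GeoData X r) (x : X) {D η L : ℝ} (hD : ∀ a b : X, dist a b ≤ D)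
    (hL : D + η ≤ L) (hE : ∀ b p q, MP x b (D + η) p → MP x b (D + η) q → Eqv x b L p q)
    {a b : X} (hab : dist a b ≤ η) :
    ∃ B : ℝ → ℝ → X, Continuous (fun z : ℝ × ℝ => B z.1 z.2) ∧ B 0 = seg x a ∧ B 1 = seg x b ∧
      ∀ s, MP x (B s L) L (B s) ∧ dist (B s L) a ≤ dist a b := by
  have hη : 0 ≤ η := dist_nonneg.trans hab
  have hxa : MP x a D (seg x a) := MP.of_seg G (hD x a)
  have hxb : MP x b D (seg x b) := MP.of_seg G (hD x b)
  have hs : MP a b (dist a b) (seg a b) := MP.of_seg G le_rfl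
  obtain ⟨H, hHc, hH0, hH1, hHP⟩ := (hE b _ _ ((hxa.cat hs).mono (by linarith))
    (hxb.mono (by linarith))).exists_fam
  let σ : ℝ → ℝ := fun s => max 0 (min (2 * s) 1) * dist a b
  have σ0 : ∀ s, 0 ≤ σ s := fun s => mul_nonneg (le_max_left _ _) dist_nonneg
  have σ1 : ∀ s, σ s ≤ dist a b := fun s =>
    mul_le_of_le_one_left dist_nonneg (max_le zero_le_one (min_le_right _ _))
  let P : ℝ → ℝ → X := fun s => cat D (seg x a) fun t => seg a b (min t (σ s))
  have hPM : ∀ s, MP x (seg a b (σ s)) L (P s) := fun s =>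
    (hxa.cat (hs.init (σ0 s))).mono (by linarith [σ1 s])
  have hcs := hs.continuous
  have hPc : Continuous fun z : ℝ × ℝ => P z.1 z.2 :=
    continuous_cat (Z := ℝ × ℝ) (p := fun _ => seg x a)
      (q := fun z t => seg a b (min t (σ z.1))) continuous_const
      (hxa.continuous.comp continuous_snd) (by fun_prop) continuous_snd
      fun z => hxa.join (hs.init (σ0 z.1))
  have hP0 : P 0 = seg x a := by
    have e : (fun t => seg a b (min t (σ 0))) = fun _ => a := funext fun t =>
      hs.left _ ((min_le_right _ _).trans (by simp [σ]))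
    simp only [P, e]
    exact cat_const hxa
  have hP1 : P (1 / 2) = H (2 * 0) := by
    have e : (fun t => seg a b (min t (σ (1 / 2)))) = seg a b := funext fun t => by
      have e1 : σ (1 / 2) = dist a b := by simp [σ]
      rw [e1]
      rcases le_total t (dist a b) with h | h
      · rw [min_eq_left h]
      · rw [min_eq_right h, hs.last, hs.right t h]
    simp only [P, e]
    rw [hH0 _ (by norm_num)]
  refine ⟨fun s => if s ≤ 1 / 2 then P s else H (2 * (s - 1 / 2)),
    glue (B := fun s => H (2 * s)) (1 / 2) hPc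
      (hHc.comp (f := fun z : ℝ × ℝ => (2 * z.1, z.2)) (by fun_prop)) hP1, ?_, ?_, fun s => ?_⟩
  · simp only [show (0 : ℝ) ≤ 1 / 2 by norm_num, if_true, hP0]
  · simp only [show ¬ (1 : ℝ) ≤ 1 / 2 by norm_num, if_false]
    exact hH1 _ (by norm_num)
  · by_cases h : s ≤ 1 / 2
    · simp only [h, if_true]
      rw [(hPM s).last]
      refine ⟨hPM s, ?_⟩
      have := hs.lip (σ s) 0
      rw [hs.zero, sub_zero, abs_of_nonneg (σ0 s)] at this
      exact this.trans (σ1 s)
    · simp only [h, if_false]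
      rw [(hHP _).last]
      exact ⟨hHP _, (dist_comm b a).le⟩

end LIFT

theorem stLIFT : St_LIFT := by
  intro X _ _ r G x D η L hD hη hL hE f hf ε hε
  have hε' : 0 < min η (ε / 2) := lt_min hη (half_pos hε)
  obtain ⟨δ, hδ, hu⟩ := Metric.uniformContinuousOn_iff.1
    (isCompact_Icc.uniformContinuousOn_of_continuous (s := Icc (0 : ℝ) 1) hf.continuousOn) _ hε'
  obtain ⟨N, hN⟩ := exists_nat_one_div_lt hδ
  set n : ℝ := (N : ℝ) + 1 with hn
  have hn0 : 0 < n := by positivity
  have close : ∀ s t : ℝ, s ∈ Icc 0 n → t ∈ Icc 0 n → |s - t| ≤ 1 →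
      dist (f (s / n)) (f (t / n)) < min η (ε / 2) := fun s t hs ht h => by
    refine hu _ ⟨div_nonneg hs.1 hn0.le, (div_le_one hn0).2 hs.2⟩ _
      ⟨div_nonneg ht.1 hn0.le, (div_le_one hn0).2 ht.2⟩ ?_
    rw [Real.dist_eq, ← sub_div, abs_div, abs_of_pos hn0]
    exact (div_le_div_of_nonneg_right h hn0.le).trans_lt hN
  have key : ∀ k : ℕ, (k : ℝ) ≤ n → ∃ A : ℝ → ℝ → X,
      Continuous (fun z : ℝ × ℝ => A z.1 z.2) ∧ A k = seg x (f (k / n)) ∧
        ∀ s ∈ Icc (0 : ℝ) k, MP x (A s L) L (A s) ∧ dist (A s L) (f (s / n)) < ε := by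
    intro k
    induction k with
    | zero =>
      intro _
      have h0 : MP x (f (0 / n)) L (seg x (f (0 / n))) :=
        (MP.of_seg G (hD _ _)).mono (by linarith)
      refine ⟨fun _ => seg x (f (0 / n)), h0.continuous.comp continuous_snd, by simp,
        fun s hs => ?_⟩
      have : s = 0 := le_antisymm (by simpa using hs.2) hs.1
      subst this
      beta_reduce
      rw [h0.last, dist_self]
      exact ⟨h0, hε⟩
    | succ k ih =>
      intro hk
      push_cast at hk ⊢
      have hk0 : (0 : ℝ) ≤ k := Nat.cast_nonneg k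
      obtain ⟨A, hAc, hAk, hA⟩ := ih (by linarith)
      have hc := close k (k + 1) ⟨hk0, by linarith⟩ ⟨by linarith, hk⟩ (by simp)
      obtain ⟨B, hBc, hB0, hB1, hB⟩ := LIFT.step G x hD hL hE (hc.le.trans (min_le_left _ _))
      refine ⟨fun s => if s ≤ k then A s else B (s - k),
        LIFT.glue k hAc hBc (hAk.trans hB0.symm), ?_, fun s hs => ?_⟩
      · simp only [show ¬ (k : ℝ) + 1 ≤ k by linarith, if_false, add_sub_cancel_left, hB1]
      · by_cases h : s ≤ k
        · simp only [h, if_true]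
          exact hA s ⟨hs.1, h⟩
        · simp only [h, if_false]
          refine ⟨(hB _).1, ?_⟩
          have h1 := (hB (s - k)).2
          have h2 := close k s ⟨hk0, by linarith⟩ ⟨hs.1, by linarith [hs.2]⟩
            (by rw [abs_sub_comm, abs_of_nonneg (by linarith)]; linarith [hs.2])
          have h3 := min_le_right η (ε / 2)
          linarith [dist_triangle (B (s - k) L) (f (k / n)) (f (s / n))]
  obtain ⟨A, hAc, -, hA⟩ := key (N + 1) (by push_cast; exact le_rfl)
  refine ⟨fun τ => A (τ * n), hAc.comp (f := fun z : ℝ × ℝ => (z.1 * n, z.2)) (by fun_prop),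
    fun τ hτ => ?_⟩
  have := hA (τ * n) ⟨mul_nonneg hτ.1 hn0.le, by
    push_cast
    exact mul_le_of_le_one_left hn0.le hτ.2⟩
  rwa [mul_div_cancel_right₀ _ hn0.ne'] at this

end Pool.Agent.Lib.RG
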