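import Pool.Agent.Lib.RG.Base

/-! Local exponential map and logarithm. -/

set_option autoImplicit false

open Set Filter Topology Metric MeasureTheory Matrix
open scoped ContDiff ENNReal

namespace Pool.Agent.Lib.RG

open Pool.Agent.Lib.MP_3eff7f_gt
open Pool.Agent.Lib.MP_3eff7f_gt_h14 (pd Chr chartVec GeodEq MF bil bil_apply bil_symm)

namespace LOC

theorem exists_equiv {F : Type} [NormedAddCommGroup F] [NormedSpace ℝ F] [FiniteDimensional ℝ F]
    {L : F →L[ℝ] F} (h : Function.Injective L) : ∃ e : F ≃L[ℝ] F, (e : F →L[ℝ] F) = L :=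
  ⟨(LinearEquiv.ofInjectiveEndo (L : F →ₗ[ℝ] F) h).toContinuousLinearEquiv, by ext; rfl⟩

/-- The inverse function theorem with a smooth inverse on the whole target. -/
theorem ift {F : Type} [NormedAddCommGroup F] [NormedSpace ℝ F] [FiniteDimensional ℝ F]
    {Φ : F → F} (hΦ : ContDiff ℝ ∞ Φ) {a : F} (ha : Function.Injective (fderiv ℝ Φ a))
    {W : Set F} (hW : IsOpen W) (haW : a ∈ W) : ∃ h : OpenPartialHomeomorph F F, ⇑h = Φ ∧
      a ∈ h.source ∧ h.source ⊆ W ∧ ContDiffOn ℝ ∞ h.symm h.target := by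
  have := FiniteDimensional.complete ℝ F
  have hd : ∀ u, HasFDerivAt Φ (fderiv ℝ Φ u) u := fun u =>
    (hΦ.differentiable (by simp) u).hasFDerivAt
  obtain ⟨e, he⟩ := exists_equiv ha
  have ho : IsOpen (W ∩ {u | Function.Injective (fderiv ℝ Φ u)}) := hW.inter
    (ContinuousLinearMap.isOpen_injective.preimage (hΦ.continuous_fderiv (by simp)))
  let h := (hΦ.contDiffAt.toOpenPartialHomeomorph Φ (he ▸ hd a) (by simp)).restrOpen _ ho
  have hs : h.source ⊆ W ∩ {u | Function.Injective (fderiv ℝ Φ u)} := inter_subset_right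
  refine ⟨h, rfl, ⟨hΦ.contDiffAt.mem_toOpenPartialHomeomorph_source _ _, haW, ha⟩,
    fun u hu => (hs hu).1, fun u hu => ?_⟩
  obtain ⟨e', he'⟩ := exists_equiv (hs (h.map_target hu)).2
  exact (h.contDiffAt_symm hu (f₀' := e') (he' ▸ hd _) hΦ.contDiffAt).contDiffWithinAt

variable {n : ℕ} {G : MF n} {y₀ : V n} {T : Set (V n)} {ε : ℝ} {k : (V n × V n) × ℝ → V n}

theorem sm_v (h : Flo G y₀ T ε k) (y : V n) :
    ContDiff ℝ ∞ fun u : V n × ℝ => k ((y, u.1), u.2) := h.sm.comp (by fun_prop)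

theorem sm_t (h : Flo G y₀ T ε k) (y w : V n) : ContDiff ℝ ∞ fun s : ℝ => k ((y, w), s) :=
  h.sm.comp (by fun_prop)

theorem hom (h : Flo G y₀ T ε k) {y w : V n} (hy : ‖y - y₀‖ < ε) (hw : ‖w‖ < ε) {c t : ℝ}
    (hc : ‖c • w‖ < ε) (ht : |t| < 5) (hct : |c * t| < 5) :
    k ((y, c • w), t) = k ((y, w), c * t) := by
  have := h.aff y w hy hw 0 c t (by simp) ht (by simpa using hct)
  rw [h.zero y w hy hw, (h.init y w hy hw).deriv, zero_add] at this
  exact this hy hc

theorem k_zero (h : Flo G y₀ T ε k) {y : V n} (hy : ‖y - y₀‖ < ε) : k ((y, 0), 1) = y := by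
  have h0 : ‖(0 : V n)‖ < ε := by simpa using h.pos
  have := hom h hy h0 (c := 0) (t := 1) (by simpa using h.pos) (by norm_num) (by norm_num)
  rwa [zero_smul, zero_mul, h.zero y 0 hy h0] at this

theorem gf (h : Flo G y₀ T ε k) {y : V n} (hy : ‖y - y₀‖ < ε) :
    GF G (G y) (fun u => k ((y, u.1), u.2)) {u | ‖u.1‖ < ε ∧ |u.2| < 5} := by
  refine ⟨IsOpen.and (isOpen_lt (by fun_prop) continuous_const)
    (isOpen_lt (by fun_prop) continuous_const), (sm_v h y).contDiffOn,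
    fun u hu => h.geo y u.1 hy hu.1 u.2 hu.2, fun u hu => ?_⟩
  have := (hasDerivAt_time (v := u.1) (t := u.2) ((sm_v h y).differentiable (by simp) _)).deriv
  unfold pbc
  rw [← this]
  exact h.spd y u.1 hy hu.1 u.2 hu.2

theorem gauss (hG : St_GAU0) (hM : Met G) (h : Flo G y₀ T ε k) {y v : V n} (hy : ‖y - y₀‖ < ε)
    (hv : ‖v‖ < ε) (a : V n) :
    pbc G (fun u => k ((y, u.1), u.2)) (v, 1) (0, 1) (a, 0) = bil (G y) v a := by
  have h1 : ∀ s ∈ Icc (0 : ℝ) 1, HasDerivAt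
      (fun s => pbc G (fun u => k ((y, u.1), u.2)) (v, s) (0, 1) (a, 0)) (bil (G y) v a) s :=
    fun s hs => hG n G _ _ _ hM (hM.pos y) (gf h hy) (v, s)
      ⟨hv, by rw [abs_lt]; constructor <;> linarith [hs.1, hs.2]⟩ a
  obtain ⟨c, -, hc⟩ := exists_hasDerivAt_eq_slope _ (fun _ => bil (G y) v a) zero_lt_one
    (fun s hs => (h1 s hs).continuousAt.continuousWithinAt) fun s hs => h1 s (Ioo_subset_Icc_self hs)
  have h2 : fderiv ℝ (fun u : V n × ℝ => k ((y, u.1), u.2)) (v, 0) (a, 0) = 0 := by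
    refine (hasDerivAt_dir ((sm_v h y).differentiable (by simp) _) a).unique
      ((hasDerivAt_const 0 y).congr_of_eventuallyEq ?_)
    have : ∀ᶠ s : ℝ in 𝓝 0, ‖v + s • a‖ < ε :=
      ContinuousAt.eventually_lt (by fun_prop) continuousAt_const (by simpa using hv)
    filter_upwards [this] with s hs using h.zero y _ hy hs
  have h3 : pbc G (fun u => k ((y, u.1), u.2)) (v, 0) (0, 1) (a, 0) = 0 := by
    unfold pbc; rw [h2, map_zero]
  rw [hc, h3]; ring

/-- The end point map. -/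
def Phi (k : (V n × V n) × ℝ → V n) (u : V n × V n) : V n × V n := (u.1, k (u, 1))

theorem phi_sm (h : Flo G y₀ T ε k) : ContDiff ℝ ∞ (Phi k) :=
  contDiff_fst.prodMk (h.sm.comp (by fun_prop))

theorem phi_inj (h : Flo G y₀ T ε k) : Function.Injective (fderiv ℝ (Phi k) (y₀, 0)) := by
  have hd := ((phi_sm h).differentiable (by simp) (y₀, 0)).hasFDerivAt
  have h0 : ‖y₀ - y₀‖ < ε := by simpa using h.pos
  have h1 : ∀ w : V n, ‖w‖ < ε → fderiv ℝ (Phi k) (y₀, 0) (0, w) = (0, w) := fun w hw => by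
    have h2 : HasDerivAt (fun c : ℝ => (y₀, c • w)) (0, w) 0 := by
      simpa using (hasDerivAt_const (0 : ℝ) y₀).prodMk ((hasDerivAt_id (0 : ℝ)).smul_const w)
    refine ((show HasFDerivAt (Phi k) _ (y₀, (0 : ℝ) • w) by simpa using hd).comp_hasDerivAt 0
      h2).unique (((hasDerivAt_const 0 y₀).prodMk (h.init y₀ w h0 hw)).congr_of_eventuallyEq ?_)
    have a1 : ∀ᶠ c : ℝ in 𝓝 0, ‖c • w‖ < ε :=
      ContinuousAt.eventually_lt (by fun_prop) continuousAt_const (by simpa using h.pos)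
    have a2 : ∀ᶠ c : ℝ in 𝓝 0, |c * 1| < 5 :=
      ContinuousAt.eventually_lt (by fun_prop) continuousAt_const (by simp)
    filter_upwards [a1, a2] with c b1 b2
    simp only [Function.comp, Phi, hom h h0 hw b1 (t := 1) (by norm_num) b2, mul_one]
  refine (injective_iff_map_eq_zero _).2 fun ⟨a, b⟩ hab => ?_
  have h3 : a = 0 := by
    have := (hd.fst.unique (hasFDerivAt_fst (𝕜 := ℝ) (p := (y₀, (0 : V n)))))
    have h4 := congrArg (fun L => L (a, b)) this
    simpa [hab] using h4.symm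
  subst h3
  obtain ⟨c, hc, hcb⟩ : ∃ c : ℝ, 0 < c ∧ ‖c • b‖ < ε := by
    have a1 : ∀ᶠ c : ℝ in 𝓝 0, ‖c • b‖ < ε :=
      ContinuousAt.eventually_lt (by fun_prop) continuousAt_const (by simpa using h.pos)
    obtain ⟨c, h1, h2⟩ := ((a1.filter_mono nhdsWithin_le_nhds).and
      (self_mem_nhdsWithin (s := Ioi (0 : ℝ)))).exists
    exact ⟨c, h2, h1⟩
  have h5 := h1 _ hcb
  rw [show ((0 : V n), c • b) = c • ((0 : V n), b) by simp, map_smul, hab, smul_zero] at h5
  exact (smul_eq_zero.1 h5.symm).resolve_left hc.ne'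

variable {M : Type} [MetricSpace M] {A : Atl n M} {p : M}

theorem upper (h : Flo (A.G p) y₀ (A.e p).target ε k) {y w : V n} (hy : ‖y - y₀‖ < ε)
    (hw : ‖w‖ < ε) {s s' : ℝ} (hs : |s| < 5) (hs' : |s'| < 5) :
    dist ((A.e p).symm (k ((y, w), s))) ((A.e p).symm (k ((y, w), s'))) ≤
      nrm (A.G p y) w * |s - s'| := by
  wlog hle : s ≤ s' generalizing s s'
  · rw [dist_comm, abs_sub_comm]; exact this hs' hs (le_of_not_ge hle)
  have h5 : ∀ t ∈ Icc s s', |t| < 5 := fun t ht => by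
    rw [abs_lt] at *; constructor <;> linarith [ht.1, ht.2]
  refine (A.up p (fun s => k ((y, w), s)) (deriv fun s => k ((y, w), s)) s s' hle
    (fun t ht => ⟨h.tgt y w hy hw t (h5 t ht),
      ((sm_t h y w).differentiable (by simp) t).hasDerivAt⟩)
    ((sm_t h y w).continuous_deriv (by simp)).continuousOn).trans_eq ?_
  refine (intervalIntegral.integral_congr (g := fun _ => nrm (A.G p y) w) fun t ht =>
    congrArg Real.sqrt (h.spd y w hy hw t (h5 t (by rwa [uIcc_of_le hle] at ht)))).trans ?_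
  rw [intervalIntegral.integral_const, abs_sub_comm, abs_of_nonneg (sub_nonneg.2 hle), smul_eq_mul,
    mul_comm]

theorem lower (hG : St_GAU0) (h : Flo (A.G p) y₀ (A.e p).target ε k)
    (φ : OpenPartialHomeomorph (V n × V n) (V n × V n)) (hφ : ⇑φ = Phi k)
    (hW : φ.source ⊆ {u | ‖u.1 - y₀‖ < ε ∧ ‖u.2‖ < ε}) (hs : ContDiffOn ℝ ∞ φ.symm φ.target)
    {a b : M} {ρ : ℝ} (h0 : (A.e p a, 0) ∈ φ.source)
    (hz : ∀ z, dist a z < ρ → z ∈ (A.e p).source ∧ (A.e p a, A.e p z) ∈ φ.target)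
    (hb : dist a b < ρ) :
    nrm (A.G p (A.e p a)) (φ.symm (A.e p a, A.e p b)).2 ≤ dist a b := by
  set y := A.e p a
  have hM := A.met p
  have hy : ‖y - y₀‖ < ε := (hW h0).1
  let l : V n → V n := fun z => (φ.symm (y, z)).2
  have hO : IsOpen {z | (y, z) ∈ φ.target} := φ.open_target.preimage (by fun_prop)
  have hl : ∀ z, (y, z) ∈ φ.target → ContDiffAt ℝ ∞ l z := fun z hz =>
    ((hs.contDiffAt (φ.open_target.mem_nhds hz)).comp z (f := fun z => (y, z)) (by fun_prop)).snd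
  have hk : ∀ z, (y, z) ∈ φ.target → k ((y, l z), 1) = z := fun z hz => by
    have h1 := φ.right_inv hz
    rw [hφ] at h1
    have h2 : (φ.symm (y, z)).1 = y := congrArg Prod.fst h1
    have h3 : k (φ.symm (y, z), 1) = z := congrArg Prod.snd h1
    rwa [← Prod.mk.eta (p := φ.symm (y, z)), h2] at h3
  have hl0 : l y = 0 := by
    have h1 := φ.left_inv h0
    rw [hφ, Phi, k_zero h hy] at h1
    exact congrArg Prod.snd h1
  refine le_of_forall_pos_le_add fun η hη => ?_
  let g : V n → ℝ := fun z => η ^ 2 + bil (A.G p y) (l z) (l z)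
  have hg : ∀ z, 0 < g z := fun z => add_pos_of_pos_of_nonneg (pow_pos hη 2)
    (bil_nonneg (hM.pos y) _)
  have hn : ∀ z, nrm (A.G p y) (l z) ≤ √(g z) := fun z =>
    Real.sqrt_le_sqrt (le_add_of_nonneg_left (sq_nonneg η))
  have key := A.low p (fun z => √(g z)) ({z | (y, z) ∈ φ.target} ∩ (A.e p).target) a b ρ
    (hO.inter (A.e p).open_target) inter_subset_right (fun z hz => ?_) (fun z hz ξ => ?_)
    (fun z hz' => ⟨(hz z hz').1, (hz z hz').2, (A.e p).map_source (hz z hz').1⟩) hb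
  · have h1 : √(g y) = η := by simp [g, hl0, hη.le]
    have h2 := hn (A.e p b)
    have h3 := le_abs_self (√(g (A.e p b)) - √(g y))
    simp only [l] at h2
    linarith
  · exact ((contDiffAt_const.add (hM.contDiffAt_bil (m := 1) contDiffAt_const
      ((hl z hz.1).of_le (by simp)) ((hl z hz.1).of_le (by simp)))).sqrt
        (hg z).ne').contDiffWithinAt
  · have d1 := ((hl z hz.1).differentiableAt (by simp)).hasFDerivAt
    have hv : ‖l z‖ < ε := (hW (φ.map_target hz.1)).2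
    have d2 := ((sm_v h y).differentiable (by simp) (l z, 1)).hasFDerivAt
    have d3 : fderiv ℝ (fun u : V n × ℝ => k ((y, u.1), u.2)) (l z, 1) (fderiv ℝ l z ξ, 0) = ξ := by
      have := (d2.comp z (d1.prodMk (hasFDerivAt_const (1 : ℝ) z))).unique
        ((hasFDerivAt_id z).congr_of_eventuallyEq (by
          filter_upwards [hO.mem_nhds hz.1] with z hz using hk z hz))
      simpa using congrArg (fun L => L ξ) this
    have d4 := gauss hG hM h hy hv (fderiv ℝ l z ξ)
    have d5 := (gf h hy).spd (l z, 1) ⟨hv, by norm_num⟩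
    unfold pbc at d4 d5
    simp only [d3, hk z hz.1] at d4 d5
    have d6 := abs_bil_le (hM.pos z)
      (fderiv ℝ (fun u : V n × ℝ => k ((y, u.1), u.2)) (l z, 1) (0, 1)) ξ
    rw [d4, nrm, d5] at d6
    have d7 := ((((bil (A.G p y)).hasFDerivAt.comp z d1).clm_apply d1).const_add (η ^ 2)).sqrt
      (hg z).ne'
    have d8 : fderiv ℝ (fun z => √(g z)) z ξ = bil (A.G p y) (l z) (fderiv ℝ l z ξ) / √(g z) := by
      have := Real.sqrt_pos.2 (hg z)
      rw [show fderiv ℝ (fun z => √(g z)) z = _ from d7.fderiv]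
      simp [bil_symm (hM.pos y) (fderiv ℝ l z ξ), g]
      field_simp
      ring
    rw [d8, abs_div, abs_of_nonneg (Real.sqrt_nonneg _), div_le_iff₀ (Real.sqrt_pos.2 (hg z)),
      mul_comm]
    exact d6.trans (mul_le_mul_of_nonneg_right (hn z) (nrm_nonneg _ _))

end LOC

open LOC in
theorem stLOC (hF : St_FLO) (hG : St_GAU0) : St_LOC := by
  intro n M _ A p
  have hp := A.psm.mem p
  obtain ⟨ε, k, h⟩ := hF n (A.G p) (A.e p p) _ (A.met p) (A.e p).open_target
    ((A.e p).map_source hp)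
  have hε := h.pos
  obtain ⟨φ, hφ, h0, hW, hs⟩ := ift (phi_sm h) (phi_inj h)
    (W := {u | ‖u.1 - A.e p p‖ < ε ∧ ‖u.2‖ < ε}) (IsOpen.and (isOpen_lt (by fun_prop)
      continuous_const) (isOpen_lt (by fun_prop) continuous_const)) ⟨by simpa, by simpa⟩
  obtain ⟨r, hr, P3⟩ : ∃ r > 0, ∀ y w : V n, ‖y - A.e p p‖ < r → ‖w‖ < r → (y, w) ∈ φ.source := by
    obtain ⟨r, hr, h1⟩ := Metric.mem_nhds_iff.1 (φ.open_source.mem_nhds h0)
    exact ⟨r, hr, fun y w a b => h1 (by simp [dist_eq_norm, a, b])⟩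
  obtain ⟨c, hc, C, -, hb⟩ := (A.met p).exists_bounds (isCompact_closedBall (A.e p p) r)
  have hce := (A.e p).continuousAt hp
  obtain ⟨r₁, hr₁, P1⟩ : ∃ r₁ > 0, ∀ a, dist p a < r₁ →
      a ∈ (A.e p).source ∧ ‖A.e p a - A.e p p‖ < r := by
    obtain ⟨r₁, h1, h2⟩ := Metric.eventually_nhds_iff.1
      (Filter.Eventually.and ((A.e p).open_source.mem_nhds hp) (hce.eventually (ball_mem_nhds _ hr)))
    exact ⟨r₁, h1, fun a ha => ⟨(h2 (dist_comm p a ▸ ha)).1, by
      simpa [dist_eq_norm] using (h2 (dist_comm p a ▸ ha)).2⟩⟩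
  obtain ⟨r₂, hr₂, P2⟩ : ∃ r₂ > 0, ∀ a b, dist p a < r₂ → dist p b < r₂ →
      (A.e p a, A.e p b) ∈ φ.target := by
    have h1 : (A.e p p, A.e p p) ∈ φ.target := by
      have := φ.map_source h0
      rwa [hφ, LOC.Phi, k_zero h (by simpa)] at this
    obtain ⟨r₂, h2, h3⟩ := Metric.eventually_nhds_iff.1
      ((hce.prodMap' hce).eventually (φ.open_target.mem_nhds h1))
    exact ⟨r₂, h2, fun a b ha hb => h3 (y := (a, b)) (by
      simp [Prod.dist_eq, dist_comm a, dist_comm b, ha, hb])⟩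
  obtain ⟨δ, hδ, e1, e2, e3⟩ : ∃ δ > 0, 16 * δ ≤ r₁ ∧ 16 * δ ≤ r₂ ∧ 8 * δ ≤ c * r :=
    ⟨min (min r₁ r₂) (c * r) / 16, by positivity, by
      linarith [min_le_left (min r₁ r₂) (c * r), min_le_left r₁ r₂], by
      linarith [min_le_left (min r₁ r₂) (c * r), min_le_right r₁ r₂], by
      linarith [min_le_right (min r₁ r₂) (c * r), mul_pos hc hr]⟩
  have Q1 : ∀ a w, dist p a < 8 * δ → nrm (A.G p (A.e p a)) w < 8 * δ →
      (A.e p a, w) ∈ φ.source := fun a w ha hw => by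
    have h1 := (P1 a (by linarith)).2
    exact P3 _ _ h1 (lt_of_mul_lt_mul_left ((hb _ (by simpa [dist_eq_norm] using h1.le) w).1.trans_lt
      (hw.trans_le e3)) hc.le)
  have Q2 : ∀ a b, dist p a < 8 * δ → dist a b < 8 * δ →
      b ∈ (A.e p).source ∧ (A.e p a, A.e p b) ∈ φ.target := fun a b ha hb => by
    have := dist_triangle p a b
    exact ⟨(P1 b (by linarith)).1, P2 a b (by linarith) (by linarith)⟩
  have Q3 : ∀ a w, dist p a < 8 * δ → nrm (A.G p (A.e p a)) w < 8 * δ →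
      (φ.symm (A.e p a, k ((A.e p a, w), 1))).2 = w := fun a w ha hw => by
    have := φ.left_inv (Q1 a w ha hw)
    rw [hφ] at this
    exact congrArg Prod.snd this
  have Q4 : ∀ a w, dist p a < 8 * δ → nrm (A.G p (A.e p a)) w < 8 * δ →
      dist a ((A.e p).symm (k ((A.e p a, w), 1))) = nrm (A.G p (A.e p a)) w := fun a w ha hw => by
    obtain ⟨h1, h2⟩ := hW (Q1 a w ha hw)
    have h3 := upper h h1 h2 (s := 0) (s' := 1) (by norm_num) (by norm_num)
    rw [h.zero _ _ h1 h2, (A.e p).left_inv (P1 a (by linarith)).1] at h3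
    have h4 := lower hG h φ hφ hW hs (Q1 a 0 ha (by rw [nrm_zero]; linarith))
      (fun z => Q2 a z ha) (h3.trans_lt (by simpa using hw))
    rw [(A.e p).right_inv (h.tgt _ _ h1 h2 1 (by norm_num)), Q3 a w ha hw] at h4
    exact le_antisymm (by simpa using h3) h4
  have Q5 : ∀ a b, dist p a < δ → dist a b < δ →
      k ((A.e p a, (φ.symm (A.e p a, A.e p b)).2), 1) = A.e p b := fun a b ha hb => by
    have h1 := φ.right_inv (Q2 a b (by linarith) (by linarith)).2
    rw [hφ] at h1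
    have h2 : (φ.symm (A.e p a, A.e p b)).1 = A.e p a := congrArg Prod.fst h1
    have h3 : k (φ.symm (A.e p a, A.e p b), 1) = A.e p b := congrArg Prod.snd h1
    rwa [← Prod.mk.eta (p := φ.symm (A.e p a, A.e p b)), h2] at h3
  have Q0 : ∀ a w, dist p a < δ → nrm (A.G p (A.e p a)) w < δ →
      ‖A.e p a - A.e p p‖ < ε ∧ ‖w‖ < ε := fun a w ha hw =>
    hW (Q1 a w (by linarith) (by linarith))
  refine ⟨δ, k, fun u => (φ.symm u).2, hδ, fun z hz => (P1 z (by linarith)).1, h.sm,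
    fun a w ha hw => h.zero _ _ (Q0 a w ha hw).1 (Q0 a w ha hw).2,
    fun a w ha hw => h.init _ _ (Q0 a w ha hw).1 (Q0 a w ha hw).2,
    fun a w ha hw s hs => h.tgt _ _ (Q0 a w ha hw).1 (Q0 a w ha hw).2 s (by linarith),
    fun a w ha hw s hs => h.geo _ _ (Q0 a w ha hw).1 (Q0 a w ha hw).2 s (by linarith),
    fun a w ha hw s hs => h.spd _ _ (Q0 a w ha hw).1 (Q0 a w ha hw).2 s (by linarith),
    fun a w ha hw s s' hs hs' => ?_, fun a w ha hw c t hc ht hct =>
      hom h (Q0 a w ha hw).1 (Q0 a w ha hw).2 (Q0 a _ ha hc).2 (by linarith) (by linarith),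
    ContDiffOn.snd (hs.mono fun u ⟨a1, a2, a3, a4⟩ => ?_), fun a b ha hb => ?_, Q5,
    fun a w ha hw => Q3 a w (by linarith) (by linarith)⟩
  · obtain ⟨h1, h2⟩ := Q0 a w ha hw
    have h3 := upper h h1 h2 (s := 0) (s' := s) (by norm_num) (by linarith)
    rw [h.zero _ _ h1 h2, (A.e p).left_inv (P1 a (by linarith)).1, zero_sub, abs_neg] at h3
    have hn := nrm_nonneg (A.G p (A.e p a)) w
    have h4 : dist p ((A.e p).symm (k ((A.e p a, w), s))) < 8 * δ := by
      have := dist_triangle p a ((A.e p).symm (k ((A.e p a, w), s)))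
      nlinarith [abs_nonneg s]
    have h5 := (A.e p).right_inv (h.tgt _ _ h1 h2 s (by linarith))
    have h6 : nrm (A.G p (k ((A.e p a, w), s)))
        ((s' - s) • deriv (fun s => k ((A.e p a, w), s)) s) =
        nrm (A.G p (A.e p a)) w * |s - s'| := by
      rw [nrm_smul, mul_comm, abs_sub_comm, nrm, h.spd _ _ h1 h2 s (by linarith), nrm]
    have h7 : nrm (A.G p (A.e p a)) w * |s - s'| < 8 * δ := by
      have := abs_sub s s'
      nlinarith [abs_nonneg (s - s')]
    have h8 := Q4 _ ((s' - s) • deriv (fun s => k ((A.e p a, w), s)) s) h4 (by rwa [h5, h6])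
    have h9 := hW (Q1 _ ((s' - s) • deriv (fun s => k ((A.e p a, w), s)) s) h4 (by rwa [h5, h6]))
    rw [h5] at h8 h9
    rw [h.aff _ _ h1 h2 s (s' - s) 1 (by linarith) (by norm_num) (by
      rw [mul_one, add_sub_cancel]; linarith) h9.1 h9.2, mul_one, add_sub_cancel, h6] at h8
    exact h8
  · have := (Q2 _ _ (a3.trans (by linarith)) (a4.trans (by linarith))).2
    rwa [(A.e p).right_inv a1, (A.e p).right_inv a2] at this
  · have h1 := lower hG h φ hφ hW hs (Q1 a 0 (by linarith) (by rw [nrm_zero]; linarith))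
      (fun z => Q2 a z (by linarith)) (b := b) (by linarith)
    have h2 := Q4 a _ (by linarith) (h1.trans_lt (by linarith))
    rw [Q5 a b ha hb, (A.e p).left_inv (Q2 a b (by linarith) (by linarith)).1] at h2
    exact h2.symm

end Pool.Agent.Lib.RG
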