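import Pool.Agent.Lib.RG.Base

/-! Block MAT: the matrix Riccati inequality. -/

set_option autoImplicit false

open Set Filter Topology Matrix

namespace Pool.Agent.Lib.RG

namespace MAT

variable {n : ℕ}

theorem det_updateCol_eq (M : Mat n) (i : Fin n) (b : Fin n → ℝ) :
    (M.updateCol i b).det = ∑ σ : Equiv.Perm (Fin n),
      ((Equiv.Perm.sign σ : ℤ) : ℝ) * ((∏ j ∈ Finset.univ.erase i, M (σ j) j) * b (σ i)) := by
  rw [det_apply']
  refine Finset.sum_congr rfl fun σ _ => ?_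
  congr 1
  rw [← Finset.prod_erase_mul _ _ (Finset.mem_univ i), updateCol_self]
  congr 1
  refine Finset.prod_congr rfl fun j hj => ?_
  rw [updateCol_ne (Finset.ne_of_mem_erase hj)]

/-- Jacobi's formula. -/
theorem hasDerivAt_det {Θ : ℝ → Mat n} {D : Mat n} {t : ℝ}
    (h : ∀ i j, HasDerivAt (fun s => Θ s i j) (D i j) t) :
    HasDerivAt (fun s => (Θ s).det) ((adjugate (Θ t) * D).trace) t := by
  have h1 : HasDerivAt (fun s => ∑ σ : Equiv.Perm (Fin n),
      ((Equiv.Perm.sign σ : ℤ) : ℝ) * ∏ i, Θ s (σ i) i)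
      (∑ σ : Equiv.Perm (Fin n), ((Equiv.Perm.sign σ : ℤ) : ℝ) *
        ∑ i, (∏ j ∈ Finset.univ.erase i, Θ t (σ j) j) • D (σ i) i) t :=
    HasDerivAt.fun_sum fun σ _ =>
      (HasDerivAt.fun_finsetProd (f := fun i s => Θ s (σ i) i) fun i _ => h (σ i) i).const_mul _
  have e1 : (fun s => (Θ s).det) = fun s => ∑ σ : Equiv.Perm (Fin n),
      ((Equiv.Perm.sign σ : ℤ) : ℝ) * ∏ i, Θ s (σ i) i := funext fun s => det_apply' _
  rw [e1]
  refine h1.congr_deriv ?_
  have e2 : (adjugate (Θ t) * D).trace = ∑ i, ((Θ t).updateCol i fun k => D k i).det := by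
    refine Finset.sum_congr rfl fun i _ => ?_
    rw [← cramer_apply, cramer_eq_adjugate_mulVec]
    rfl
  rw [e2]
  simp only [det_updateCol_eq, Finset.mul_sum, smul_eq_mul]
  exact Finset.sum_comm

theorem hasDerivAt_mul {P Q : ℝ → Mat n} {P' Q' : Mat n} {t : ℝ}
    (hP : ∀ i j, HasDerivAt (fun s => P s i j) (P' i j) t)
    (hQ : ∀ i j, HasDerivAt (fun s => Q s i j) (Q' i j) t) (i j : Fin n) :
    HasDerivAt (fun s => (P s * Q s) i j) ((P' * Q t + P t * Q') i j) t := by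
  have h1 : HasDerivAt (fun s => ∑ k, P s i k * Q s k j)
      (∑ k, (P' i k * Q t k j + P t i k * Q' k j)) t :=
    HasDerivAt.fun_sum fun k _ => (hP i k).mul (hQ k j)
  refine h1.congr_deriv ?_
  rw [Matrix.add_apply, mul_apply, mul_apply, Finset.sum_add_distrib]

theorem hasDerivAt_inv' {Θ : ℝ → Mat n} {D : Mat n} {t : ℝ}
    (h : ∀ i j, HasDerivAt (fun s => Θ s i j) (D i j) t) (h0 : (Θ t).det ≠ 0) (i j : Fin n) :
    HasDerivAt (fun s => (Θ s)⁻¹ i j) ((-((Θ t)⁻¹ * D * (Θ t)⁻¹)) i j) t := by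
  have hd := hasDerivAt_det h
  have hadj : ∀ i j, DifferentiableAt ℝ (fun s => adjugate (Θ s) i j) t := by
    intro i j
    have h2 : ∀ a b, HasDerivAt (fun s => ((Θ s).updateRow j (Pi.single i 1)) a b)
        ((D.updateRow j 0) a b) t := by
      intro a b
      by_cases ha : a = j
      · subst ha
        simp only [updateRow_self]
        exact hasDerivAt_const _ _
      · simp only [updateRow_ne ha]
        exact h a b
    have h3 := (hasDerivAt_det h2).differentiableAt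
    simpa only [adjugate_apply] using h3
  have hinv : ∀ i j, DifferentiableAt ℝ (fun s => (Θ s)⁻¹ i j) t := by
    intro i j
    have h3 := (hd.differentiableAt.inv h0).mul (hadj i j)
    refine h3.congr_of_eventuallyEq (Eventually.of_forall fun s => ?_)
    simp [Matrix.inv_def, Ring.inverse_eq_inv']
  set P' : Mat n := Matrix.of fun i j => deriv (fun s => (Θ s)⁻¹ i j) t with hP'
  have hP : ∀ i j, HasDerivAt (fun s => (Θ s)⁻¹ i j) (P' i j) t := fun i j => (hinv i j).hasDerivAt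
  have hev : ∀ᶠ s in 𝓝 t, (Θ s).det ≠ 0 := hd.continuousAt.eventually_ne h0
  have hz : P' * Θ t + (Θ t)⁻¹ * D = 0 := by
    ext a b
    have h4 := hasDerivAt_mul hP h a b
    have h5 : HasDerivAt (fun s => ((Θ s)⁻¹ * Θ s) a b) 0 t := by
      refine (hasDerivAt_const t ((1 : Mat n) a b)).congr_of_eventuallyEq ?_
      filter_upwards [hev] with s hs
      rw [nonsing_inv_mul _ (Ne.isUnit hs)]
    exact h4.unique h5
  have e : P' = -((Θ t)⁻¹ * D * (Θ t)⁻¹) := by
    have h6 : P' * Θ t = -((Θ t)⁻¹ * D) := eq_neg_of_add_eq_zero_left hz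
    rw [← neg_mul, ← h6, Matrix.mul_assoc, mul_nonsing_inv _ (Ne.isUnit h0), Matrix.mul_one]
  rw [← e]
  exact hP i j

theorem trace_sq_symm {Y : Mat n} (hY : Yᵀ = Y) : Y.trace ^ 2 / n ≤ (Y * Y).trace := by
  have h1 : (Y * Y).trace = ∑ i, ∑ j, Y i j ^ 2 := by
    refine Finset.sum_congr rfl fun i _ => ?_
    change (Y * Y) i i = _
    rw [mul_apply]
    refine Finset.sum_congr rfl fun j _ => ?_
    have : Y j i = Y i j := by
      conv_lhs => rw [← hY]
      rfl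
    rw [this, sq]
  have h2 : ∑ i, Y i i ^ 2 ≤ ∑ i, ∑ j, Y i j ^ 2 := Finset.sum_le_sum fun i _ =>
    Finset.single_le_sum (f := fun j => Y i j ^ 2) (fun j _ => sq_nonneg _) (Finset.mem_univ i)
  have h3 : Y.trace ^ 2 ≤ n * ∑ i, Y i i ^ 2 := by
    have := sq_sum_le_card_mul_sum_sq (s := Finset.univ) (f := fun i => Y i i)
    rwa [Finset.card_univ, Fintype.card_fin] at this
  have h4 : 0 ≤ ∑ i, Y i i ^ 2 := Finset.sum_nonneg fun i _ => sq_nonneg _
  rw [h1]
  rcases Nat.eq_zero_or_pos n with h0 | h0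
  · have : (n : ℝ) = 0 := by exact_mod_cast h0
    rw [this, div_zero]
    exact h4.trans h2
  · have : (0 : ℝ) < n := by exact_mod_cast h0
    rw [div_le_iff₀ this]
    nlinarith

open scoped MatrixOrder in
theorem exists_fac {G : Mat n} (hG : G.PosDef) : ∃ L : Mat n, G = Lᵀ * L := by
  obtain ⟨B, hB⟩ := CStarAlgebra.nonneg_iff_eq_star_mul_self.mp hG.posSemidef.nonneg
  exact ⟨B, by rw [hB, star_eq_conjTranspose, conjTranspose_eq_transpose_of_trivial]⟩

theorem trace_sq {C S : Mat n} (hC : C.det ≠ 0) (hS : Sᵀ = S) :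
    ((Cᵀ * C)⁻¹ * S).trace ^ 2 / n ≤ ((Cᵀ * C)⁻¹ * S * ((Cᵀ * C)⁻¹ * S)).trace := by
  have u : IsUnit C.det := Ne.isUnit hC
  have hY : (C⁻¹ᵀ * S * C⁻¹)ᵀ = C⁻¹ᵀ * S * C⁻¹ := by
    rw [transpose_mul, transpose_mul, transpose_transpose, hS, Matrix.mul_assoc]
  have e : (Cᵀ * C)⁻¹ = C⁻¹ * C⁻¹ᵀ := by rw [Matrix.mul_inv_rev, transpose_nonsing_inv]
  have e1 : ((Cᵀ * C)⁻¹ * S).trace = (C⁻¹ᵀ * S * C⁻¹).trace := by
    rw [e, Matrix.mul_assoc, trace_mul_comm]
  have e2 : ((Cᵀ * C)⁻¹ * S * ((Cᵀ * C)⁻¹ * S)).trace =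
      (C⁻¹ᵀ * S * C⁻¹ * (C⁻¹ᵀ * S * C⁻¹)).trace := by
    rw [e, Matrix.mul_assoc C⁻¹, Matrix.mul_assoc C⁻¹, trace_mul_comm]
    simp only [Matrix.mul_assoc]
  rw [e1, e2]
  exact trace_sq_symm hY

end MAT

open MAT in
theorem stMAT : St_MAT := by
  intro n Θ S G A B R t hG h0 hΘ hS hsym hd hS'
  have hdt := hd.self_of_nhds
  have hD : ∀ s, (∀ i j, HasDerivAt (fun s => Θ s i j) (2 * S s i j) s) →
      ∀ i j, HasDerivAt (fun s => Θ s i j) (((2 : ℝ) • S s) i j) s := fun s h i j => h i j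
  have hev : ∀ᶠ s in 𝓝 t, (Θ s).det ≠ 0 :=
    (hasDerivAt_det (hD t hdt)).continuousAt.eventually_ne h0
  have hm := hasDerivAt_mul (hasDerivAt_inv' (hD t hdt) h0) hS'
  refine ⟨fun s => ((Θ s)⁻¹ * S s).trace, _, ?_,
    HasDerivAt.fun_sum (u := Finset.univ) fun i _ => hm i i, ?_⟩
  · filter_upwards [hd, hev] with s h1 h2
    refine (((hasDerivAt_det (hD s h1)).log h2).div_const 2).congr_deriv ?_
    rw [Matrix.inv_def, Ring.inverse_eq_inv', Matrix.mul_smul, Matrix.smul_mul, trace_smul,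
      trace_smul, smul_eq_mul, smul_eq_mul]
    field_simp
  · obtain ⟨L, hL⟩ := exists_fac hG
    have hGt : Gᵀ = G := by rw [hL, transpose_mul, transpose_transpose]
    have hC : Θ t = (L * A)ᵀ * (L * A) := by
      rw [hΘ, hL, transpose_mul]
      simp only [Matrix.mul_assoc]
    have hC0 : (L * A).det ≠ 0 := by
      intro h
      rw [hC, det_mul, h, mul_zero] at h0
      exact h0 rfl
    have hA : IsUnit A.det := by
      refine Ne.isUnit fun h => hC0 ?_
      rw [det_mul, h, mul_zero]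
    have u : IsUnit (Θ t).det := Ne.isUnit h0
    have key := trace_sq hC0 hsym
    rw [← hC] at key
    have hX : (Θ t)⁻¹ * S t = A⁻¹ * B := by
      have : S t = Θ t * (A⁻¹ * B) := by
        rw [hS, hΘ, Matrix.mul_assoc (Aᵀ * G), ← Matrix.mul_assoc A, mul_nonsing_inv _ hA,
          Matrix.one_mul]
      rw [this, ← Matrix.mul_assoc, nonsing_inv_mul _ u, Matrix.one_mul]
    have h1 : Bᵀ * G * B = S t * ((Θ t)⁻¹ * S t) := by
      have : S t = Bᵀ * G * A := by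
        rw [← hsym, hS, transpose_mul, transpose_mul, transpose_transpose, hGt, Matrix.mul_assoc]
      rw [hX]
      conv_rhs => rw [this]
      rw [Matrix.mul_assoc (Bᵀ * G), ← Matrix.mul_assoc A, mul_nonsing_inv _ hA, Matrix.one_mul]
    have h2 : ((Θ t)⁻¹ * (Aᵀ * G * R * A)).trace = R.trace := by
      have : Aᵀ * G * R * A = Θ t * (A⁻¹ * R * A) := by
        rw [hΘ, Matrix.mul_assoc (Aᵀ * G) A, ← Matrix.mul_assoc A, ← Matrix.mul_assoc A,
          mul_nonsing_inv _ hA, Matrix.one_mul, Matrix.mul_assoc (Aᵀ * G)]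
      rw [this, ← Matrix.mul_assoc, nonsing_inv_mul _ u, Matrix.one_mul, trace_mul_comm,
        ← Matrix.mul_assoc, mul_nonsing_inv _ hA, Matrix.one_mul]
    have h3 : (-((Θ t)⁻¹ * ((2 : ℝ) • S t) * (Θ t)⁻¹) * S t +
        (Θ t)⁻¹ * (Bᵀ * G * B - Aᵀ * G * R * A)).trace =
        -((Θ t)⁻¹ * S t * ((Θ t)⁻¹ * S t)).trace - R.trace := by
      rw [Matrix.mul_sub, trace_add, trace_sub, h2, h1, Matrix.neg_mul, trace_neg, Matrix.mul_smul,
        Matrix.smul_mul, Matrix.smul_mul, trace_smul, smul_eq_mul]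
      simp only [Matrix.mul_assoc]
      ring
    change (-((Θ t)⁻¹ * ((2 : ℝ) • S t) * (Θ t)⁻¹) * S t +
        (Θ t)⁻¹ * (Bᵀ * G * B - Aᵀ * G * R * A)).trace + ((Θ t)⁻¹ * S t).trace ^ 2 / n ≤ _
    rw [h3]
    linarith

end Pool.Agent.Lib.RG
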