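import Pool.Agent.Lib.RG.Base
import Pool.Agent.Lib.MP_3eff7f_gt.Chart

set_option autoImplicit false

open Set Filter Topology Metric Bundle Matrix
open scoped ContDiff Manifold

namespace Pool.Agent.Lib.RG

open Pool.Agent.Lib.MP_3eff7f_gt
open Pool.Agent.Lib.MP_3eff7f_gt_h14 (chartVec MF bil bil_apply bil_eq_sum chartVec_eq triv_symm
  contDiffAt_tr contMDiffAt_atlas_symm)

namespace RAW1

variable {n : ℕ} {M : Type} [MetricSpace M] [ChartedSpace (V n) M]
  [RiemannianBundle (fun x : M => TangentSpace 𝓘(ℝ, V n) x)]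

/-- The inner product at `q`, on untyped vectors. -/
noncomputable def ipt (q : M) (v w : V n) : ℝ :=
  inner ℝ (show TangentSpace 𝓘(ℝ, V n) q from v) (show TangentSpace 𝓘(ℝ, V n) q from w)

theorem ipc_eq (e : OpenPartialHomeomorph M (V n)) (x v w : V n) :
    ipc e x v w = ipt (e.symm x) (chartVec e x v) (chartVec e x w) := rfl

theorem chartVec_sum (e : OpenPartialHomeomorph M (V n)) (x v : V n) :
    chartVec e x v = ∑ i, v i • chartVec e x (Pi.single i 1) := by
  have h : ∀ L : V n →L[ℝ] TangentSpace 𝓘(ℝ, V n) (e.symm x),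
      L v = ∑ i, v i • L (Pi.single i 1) := fun L => by
    conv_lhs => rw [pi_eq_sum_univ' v]
    simp only [map_sum, map_smul]
  exact h (mfderiv 𝓘(ℝ, V n) 𝓘(ℝ, V n) e.symm x)

theorem bil_coeff (e : OpenPartialHomeomorph M (V n)) (x v w : V n) :
    bil (coeff e x) v w = ipc e x v w := by
  rw [bil_eq_sum]
  unfold ipc
  rw [chartVec_sum e x v, chartVec_sum e x w, sum_inner]
  refine Finset.sum_congr rfl fun i _ => ?_
  rw [inner_sum]
  refine Finset.sum_congr rfl fun j _ => ?_
  rw [real_inner_smul_left, real_inner_smul_right]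
  simp only [coeff, of_apply, ipc]
  ring

variable [IsManifold 𝓘(ℝ, V n) ∞ M]

set_option backward.isDefEq.respectTransparency false in
theorem coeff_pos {e : OpenPartialHomeomorph M (V n)} (he : e ∈ atlas (V n) M) {x : V n}
    (hx : x ∈ e.target) : (coeff e x).PosDef := by
  refine Matrix.PosDef.of_dotProduct_mulVec_pos ?_ fun v hv => ?_
  · ext i j
    simp only [conjTranspose_apply, coeff, of_apply, ipc, star_trivial]
    exact real_inner_comm _ _
  · have h := bil_coeff e x v v
    rw [bil_apply] at h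
    rw [star_trivial, h]
    refine real_inner_self_pos.2 fun h0 => hv ?_
    have hi := (mdifferentiable_of_mem_atlas (I := 𝓘(ℝ, V n)) he).symm.mfderiv_injective
      (x := x) hx
    exact hi (h0.trans (map_zero _).symm)

theorem ipc_tr {e e' : OpenPartialHomeomorph M (V n)} (he : e ∈ atlas (V n) M)
    (he' : e' ∈ atlas (V n) M) {x : V n} (hx : x ∈ e.target) (hq : e.symm x ∈ e'.source)
    (v w : V n) :
    ipc e' (e' (e.symm x)) (fderiv ℝ (fun y => e' (e.symm y)) x v)
      (fderiv ℝ (fun y => e' (e.symm y)) x w) = ipc e x v w := by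
  have hl := e'.left_inv hq
  have hx' := e'.map_source hq
  have h1 := (contDiffAt_tr he he' hx hq).differentiableAt (by simp)
  have h2 := (contDiffAt_tr he' (chart_mem_atlas (V n) (e.symm x)) hx'
    (by rw [hl]; exact mem_chart_source _ _)).differentiableAt (by simp)
  have e2 : (fun y => chartAt (V n) (e.symm x) (e.symm y)) =ᶠ[𝓝 x]
      (fun y => chartAt (V n) (e.symm x) (e'.symm y)) ∘ fun y => e' (e.symm y) := by
    filter_upwards [(e.continuousAt_symm hx).eventually (e'.open_source.mem_nhds hq)] with s hs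
    simp only [Function.comp_apply, e'.left_inv hs]
  have e3 : ∀ u, fderiv ℝ (fun y => chartAt (V n) (e.symm x) (e'.symm y)) (e' (e.symm x))
      (fderiv ℝ (fun y => e' (e.symm y)) x u) =
      fderiv ℝ (fun y => chartAt (V n) (e.symm x) (e.symm y)) x u := fun u => by
    rw [e2.fderiv_eq, fderiv_comp x h2 h1]
    rfl
  rw [ipc_eq, ipc_eq, chartVec_eq he' hx', chartVec_eq he' hx', chartVec_eq he hx,
    chartVec_eq he hx, hl, e3, e3]

set_option backward.isDefEq.respectTransparency false in
theorem ipc_smooth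
    [IsContMDiffRiemannianBundle 𝓘(ℝ, V n) ∞ (V n) (fun x : M => TangentSpace 𝓘(ℝ, V n) x)]
    {e : OpenPartialHomeomorph M (V n)} (he : e ∈ atlas (V n) M) {x : V n} (hx : x ∈ e.target)
    (v w : V n) : ContDiffAt ℝ ∞ (fun y => ipc e y v w) x := by
  obtain ⟨g, hg, hv⟩ := metric_in_chart (E := V n) (e.symm x)
  have hc := chart_mem_atlas (V n) (e.symm x)
  have h1 : ContDiffAt ℝ ∞ (fun y => g (e.symm y)) x :=
    contMDiffAt_iff_contDiffAt.1 (hg.comp x (contMDiffAt_atlas_symm he hx))
  have h2 : ContDiffAt ℝ ∞ (fderiv ℝ fun y => chartAt (V n) (e.symm x) (e.symm y)) x :=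
    (contDiffAt_tr he hc hx (mem_chart_source _ _)).fderiv_right (by simp)
  have h3 := (h1.clm_apply (h2.clm_apply (contDiffAt_const (c := v)))).clm_apply
    (h2.clm_apply (contDiffAt_const (c := w)))
  refine h3.congr_of_eventuallyEq ?_
  filter_upwards [e.open_target.mem_nhds hx, (e.continuousAt_symm hx).eventually
    (chart_source_mem_nhds (V n) (e.symm x))] with y hy hs0
  have hs : e.symm y ∈ (chartAt (V n) (e.symm x)).source := hs0
  have hb : e.symm y ∈ (trivializationAt (V n) (TangentSpace 𝓘(ℝ, V n)) (e.symm x)).baseSet := by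
    simpa using hs
  have hl := (chartAt (V n) (e.symm x)).left_inv hs
  have hx' := (chartAt (V n) (e.symm x)).map_source hs
  rw [← ipc_tr he hc hy hs, hv _ hs, Trivialization.symmL_apply _ hb,
    Trivialization.symmL_apply _ hb, triv_symm hs, triv_symm hs, ipc_eq, chartVec_eq hc hx',
    chartVec_eq hc hx', hl]
  rfl

end RAW1

theorem stRAW1 : St_RAW1 := by
  intro n M _ _ _ _ _
  refine ⟨fun p => mem_chart_source _ p, fun p i j x hx => ?_,
    fun p x hx => RAW1.coeff_pos (chart_mem_atlas _ p) hx,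
    fun p q x hx hq => contDiffAt_tr (chart_mem_atlas _ p) (chart_mem_atlas _ q) hx hq,
    fun p q x hx hq v w => ?_⟩
  · exact (RAW1.ipc_smooth (chart_mem_atlas _ p) hx _ _).contDiffWithinAt
  · unfold rawG
    rw [RAW1.bil_coeff, RAW1.bil_coeff]
    exact RAW1.ipc_tr (chart_mem_atlas _ p) (chart_mem_atlas _ q) hx hq v w

end Pool.Agent.Lib.RG
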