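import Pool.Agent.Lib.RG.Base

/-! Block RAW2: the distance of a Riemannian manifold seen in the preferred charts. -/

set_option autoImplicit false

open Set Filter Topology Metric MeasureTheory Bundle Manifold
open scoped ContDiff Manifold ENNReal

namespace Pool.Agent.Lib.RG

open Pool.Agent.Lib.MP_3eff7f_gt_h14 (chartVec bil bil_eq_sum fderiv_eq_sum contMDiffAt_atlas
  contMDiffAt_atlas_symm)

namespace RAW2

variable {n : ℕ} {M : Type} [MetricSpace M] [ChartedSpace (V n) M]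
  [RiemannianBundle (fun x : M => TangentSpace 𝓘(ℝ, V n) x)]

omit [RiemannianBundle (fun x : M => TangentSpace 𝓘(ℝ, V n) x)] in
theorem chartVec_sum (e : OpenPartialHomeomorph M (V n)) (x v : V n) :
    chartVec e x v = ∑ i, v i • chartVec e x (Pi.single i 1) := by
  let L : V n →ₗ[ℝ] TangentSpace 𝓘(ℝ, V n) (e.symm x) :=
    (mfderiv 𝓘(ℝ, V n) 𝓘(ℝ, V n) e.symm x).toLinearMap
  change L v = ∑ i, v i • L (Pi.single i 1)
  conv_lhs => rw [pi_eq_sum_univ' v]
  simp

theorem bil_coeff (e : OpenPartialHomeomorph M (V n)) (x v : V n) :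
    bil (coeff e x) v v = inner ℝ (chartVec e x v) (chartVec e x v) := by
  rw [bil_eq_sum, chartVec_sum e x v, sum_inner]
  refine Finset.sum_congr rfl fun i _ => ?_
  rw [inner_sum]
  refine Finset.sum_congr rfl fun j _ => ?_
  rw [real_inner_smul_left, real_inner_smul_right]
  simp only [coeff, ipc, Matrix.of_apply]
  ring

theorem nrm_coeff (e : OpenPartialHomeomorph M (V n)) (x v : V n) :
    nrm (coeff e x) v = ‖chartVec e x v‖ := by
  unfold nrm
  rw [bil_coeff, real_inner_self_eq_norm_sq, Real.sqrt_sq (norm_nonneg _)]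

variable [IsManifold 𝓘(ℝ, V n) ∞ M]

set_option backward.isDefEq.respectTransparency false in
/-- The length of a curve given in a chart. -/
theorem length_chart {e : OpenPartialHomeomorph M (V n)} (he : e ∈ atlas (V n) M)
    {y y' : ℝ → V n} {a b : ℝ} (h : ∀ t ∈ Ioo a b, y t ∈ e.target ∧ HasDerivAt y (y' t) t) :
    pathELength 𝓘(ℝ, V n) (e.symm ∘ y) a b =
      ∫⁻ t in Ioo a b, ENNReal.ofReal (nrm (coeff e (y t)) (y' t)) := by
  rw [pathELength_eq_lintegral_mfderiv_Ioo]
  refine setLIntegral_congr_fun measurableSet_Ioo fun t ht => ?_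
  obtain ⟨h1, h2⟩ := h t ht
  have d1 : MDifferentiableAt 𝓘(ℝ, V n) 𝓘(ℝ, V n) e.symm (y t) :=
    (contMDiffAt_atlas_symm he h1).mdifferentiableAt (by simp)
  have d2 : MDifferentiableAt 𝓘(ℝ, ℝ) 𝓘(ℝ, V n) y t :=
    mdifferentiableAt_iff_differentiableAt.2 h2.differentiableAt
  have e2 : mfderiv 𝓘(ℝ, ℝ) 𝓘(ℝ, V n) y t 1 = y' t := by
    rw [mfderiv_eq_fderiv, ← h2.deriv]
    rfl
  have e1 : mfderiv 𝓘(ℝ, ℝ) 𝓘(ℝ, V n) (e.symm ∘ y) t 1 = chartVec e (y t) (y' t) := by
    rw [mfderiv_comp t d1 d2]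
    exact congrArg (mfderiv 𝓘(ℝ, V n) 𝓘(ℝ, V n) e.symm (y t)) e2
  beta_reduce
  rw [e1, nrm_coeff, ofReal_norm]

theorem up [IsRiemannianManifold 𝓘(ℝ, V n) M] (hs : PSm (rawE n M) (rawG n M)) :
    PUp (rawE n M) (rawG n M) := by
  intro p y y' a b hab hy hc
  rcases hab.eq_or_lt with rfl | hlt
  · simp
  have he : rawE n M p ∈ atlas (V n) M := chart_mem_atlas _ p
  have hu := uniqueDiffOn_Icc hlt
  have hy1 : ContDiffOn ℝ 1 y (Icc a b) := by
    rw [contDiffOn_one_iff_derivWithin hu]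
    refine ⟨fun t ht => (hy t ht).2.differentiableAt.differentiableWithinAt, hc.congr ?_⟩
    intro t ht
    exact (hy t ht).2.hasDerivWithinAt.derivWithin (hu t ht)
  have hγ : ContMDiffOn 𝓘(ℝ, ℝ) 𝓘(ℝ, V n) 1 ((rawE n M p).symm ∘ y) (Icc a b) := by
    intro t ht
    exact ((contMDiffAt_atlas_symm he (hy t ht).1).of_le (by simp)).comp_contMDiffWithinAt t
      (contMDiffOn_iff_contDiffOn.2 hy1 t ht)
  have h1 := riemannianEDist_le_pathELength hγ rfl rfl hab
  rw [length_chart he (y' := y') fun t ht => hy t (Ioo_subset_Icc_self ht),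
    ← IsRiemannianManifold.out, edist_dist] at h1
  have hcont : ContinuousOn (fun t => nrm (rawG n M p (y t)) (y' t)) (Icc a b) := by
    refine ContinuousOn.sqrt ?_
    simp only [bil_eq_sum]
    refine continuousOn_finsetSum _ fun i _ => continuousOn_finsetSum _ fun j _ => ?_
    exact (((hs.sm p i j).continuousOn.comp hy1.continuousOn fun t ht => (hy t ht).1).mul
      ((continuous_apply i).comp_continuousOn hc)).mul ((continuous_apply j).comp_continuousOn hc)
  have hint : IntegrableOn (fun t => nrm (rawG n M p (y t)) (y' t)) (Ioo a b) :=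
    (hcont.integrableOn_Icc).mono_set Ioo_subset_Icc_self
  have h2 := ofReal_integral_eq_lintegral_ofReal hint
    (Eventually.of_forall fun t => nrm_nonneg _ _)
  rw [intervalIntegral.integral_of_le hab, integral_Ioc_eq_integral_Ioo]
  refine (ENNReal.ofReal_le_ofReal_iff (integral_nonneg fun t => nrm_nonneg _ _)).1 ?_
  rw [h2]
  exact h1

theorem low [IsRiemannianManifold 𝓘(ℝ, V n) M] : PLow (rawE n M) (rawG n M) := by
  intro p f O x x' δ hO hOt hf hb hsrc hδ
  have he : rawE n M p ∈ atlas (V n) M := chart_mem_atlas _ p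
  have key : ∀ c, dist x x' < c → c ≤ δ → |f (rawE n M p x') - f (rawE n M p x)| ≤ c := by
    intro c hc hcδ
    have hc0 : 0 < c := dist_nonneg.trans_lt hc
    have hlt : riemannianEDist 𝓘(ℝ, V n) x x' < ENNReal.ofReal c := by
      rw [← IsRiemannianManifold.out, edist_dist]
      exact (ENNReal.ofReal_lt_ofReal_iff hc0).2 hc
    obtain ⟨γ, hγ0, hγ1, hγs, hγl⟩ := exists_lt_of_riemannianEDist_lt hlt
    have hin : ∀ t ∈ Icc (0 : ℝ) 1, dist x (γ t) < δ := by
      intro t ht
      have e1 : edist x (γ t) ≤ pathELength 𝓘(ℝ, V n) γ 0 t := by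
        rw [IsRiemannianManifold.out (I := 𝓘(ℝ, V n))]
        exact riemannianEDist_le_pathELength (hγs.mono (Icc_subset_Icc le_rfl ht.2)) hγ0 rfl ht.1
      have e2 := (e1.trans (pathELength_mono le_rfl ht.2)).trans_lt hγl
      rw [edist_dist, ENNReal.ofReal_lt_ofReal_iff hc0] at e2
      linarith
    set y : ℝ → V n := rawE n M p ∘ γ with hydef
    have hy : ContDiffOn ℝ 1 y (Icc 0 1) := by
      rw [← contMDiffOn_iff_contDiffOn]
      intro t ht
      exact ((contMDiffAt_atlas he (hsrc _ (hin t ht)).1).of_le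
        (by simp)).comp_contMDiffWithinAt t (hγs t ht)
    have hyO : ∀ t ∈ Icc (0 : ℝ) 1, y t ∈ O := fun t ht => (hsrc _ (hin t ht)).2
    have hyd : ∀ t ∈ Ioo (0 : ℝ) 1, HasDerivAt y (deriv y t) t := fun t ht =>
      (((hy t (Ioo_subset_Icc_self ht)).contDiffAt (Icc_mem_nhds ht.1 ht.2)).differentiableAt
        one_ne_zero).hasDerivAt
    have hF : ContDiffOn ℝ 1 (f ∘ y) (Icc 0 1) := hf.comp hy hyO
    have e1 := enorm_sub_le_lintegral_deriv_of_contDiffOn_Icc hF zero_le_one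
    have e2 : pathELength 𝓘(ℝ, V n) γ 0 1 =
        pathELength 𝓘(ℝ, V n) ((rawE n M p).symm ∘ y) 0 1 :=
      pathELength_congr fun t ht => ((rawE n M p).left_inv (hsrc _ (hin t ht)).1).symm
    rw [e2, length_chart he (y' := deriv y) fun t ht =>
      ⟨hOt (hyO t (Ioo_subset_Icc_self ht)), hyd t ht⟩] at hγl
    rw [← restrict_Ioo_eq_restrict_Icc] at e1
    have e3 : ∫⁻ t in Ioo (0 : ℝ) 1, ‖deriv (f ∘ y) t‖ₑ ≤
        ∫⁻ t in Ioo (0 : ℝ) 1, ENNReal.ofReal (nrm (coeff (rawE n M p) (y t)) (deriv y t)) := by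
      refine setLIntegral_mono' measurableSet_Ioo fun t ht => ?_
      have hO' := hyO t (Ioo_subset_Icc_self ht)
      have hfd : DifferentiableAt ℝ f (y t) :=
        (hf.contDiffAt (hO.mem_nhds hO')).differentiableAt one_ne_zero
      rw [(hfd.hasFDerivAt.comp_hasDerivAt t (hyd t ht)).deriv, ← ofReal_norm]
      exact ENNReal.ofReal_le_ofReal (hb _ hO' _)
    have e4 := (e1.trans e3).trans hγl.le
    rw [← ofReal_norm, ENNReal.ofReal_le_ofReal_iff hc0.le] at e4
    simpa [hydef, hγ0, hγ1] using e4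
  refine le_of_forall_gt_imp_ge_of_dense fun c hc => ?_
  exact (key (min c δ) (lt_min hc hδ) (min_le_right _ _)).trans (min_le_left _ _)

end RAW2

theorem stRAW2 (h : St_RAW1) : St_RAW2 := fun n M _ _ _ _ _ _ =>
  ⟨RAW2.up (h n M), RAW2.low⟩

end Pool.Agent.Lib.RG
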