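import Pool.Agent.Lib.RG.Base

set_option autoImplicit false

open Set Filter Topology Metric MeasureTheory Matrix
open scoped ContDiff

namespace Pool.Agent.Lib.RG

open Pool.Agent.Lib.MP_3eff7f_gt_h14 (GeodEq MF bil bil_symm)

namespace TAY

/-- Uniform second order Taylor bound on a ball. -/
theorem taylor {E : Type} [NormedAddCommGroup E] [NormedSpace ℝ E] [ProperSpace E] {f : E → ℝ}
    (hf : ContDiff ℝ 2 f) (R : ℝ) : ∃ L : ℝ, 0 ≤ L ∧ ∀ z h : E, ‖z‖ ≤ R → ‖h‖ ≤ R →
      f (z + h) ≤ f z + fderiv ℝ f z h + L * ‖h‖ ^ 2 := by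
  have h1 : ContDiff ℝ 1 (fderiv ℝ f) := hf.fderiv_right (by norm_num)
  obtain ⟨L, hL⟩ := LocallyLipschitzOn.exists_lipschitzOnWith_of_compact
    (isCompact_closedBall (0 : E) (2 * R)) h1.locallyLipschitz.locallyLipschitzOn
  refine ⟨L, L.2, fun z h hz hh => ?_⟩
  have hR : 0 ≤ R := (norm_nonneg _).trans hz
  have hb : ∀ x ∈ closedBall z ‖h‖, ‖fderiv ℝ f x - fderiv ℝ f z‖ ≤ L * ‖h‖ := fun x hx => by
    have hx' : ‖x - z‖ ≤ ‖h‖ := mem_closedBall_iff_norm.1 hx
    have hx2 : ‖x‖ ≤ 2 * R := by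
      have := norm_add_le (x - z) z
      rw [sub_add_cancel] at this
      linarith
    have := hL.norm_sub_le (mem_closedBall_zero_iff.2 hx2)
      (mem_closedBall_zero_iff.2 (show ‖z‖ ≤ 2 * R by linarith))
    exact this.trans (mul_le_mul_of_nonneg_left hx' L.2)
  have h2 := (convex_closedBall z ‖h‖).norm_image_sub_le_of_norm_fderiv_le'
    (fun x _ => hf.differentiable (by norm_num) x) hb (mem_closedBall_self (norm_nonneg _))
    (show z + h ∈ closedBall z ‖h‖ by simp)
  rw [add_sub_cancel_left] at h2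
  have h3 := (le_abs_self _).trans ((Real.norm_eq_abs _).symm.le.trans h2)
  nlinarith

variable {n : ℕ}

/-- The energy density. -/
noncomputable def En (G : MF n) (z : V n × V n) : ℝ := bil (G z.1) z.2 z.2

theorem contDiff_En {G : MF n} (hG : Met G) : ContDiff ℝ 2 (En G) :=
  contDiff_iff_contDiffAt.2 fun _ =>
    hG.contDiffAt_bil (m := 2) contDiffAt_fst contDiffAt_snd contDiffAt_snd

theorem fderiv_En {G : MF n} (hG : Met G) (y v w w' : V n) :
    fderiv ℝ (En G) (y, v) (w, w') =
      fderiv ℝ (fun y => bil (G y) v v) y w + 2 * bil (G y) v w' := by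
  have hD := ((contDiff_En hG).differentiable (by norm_num) (y, v)).hasFDerivAt
  have h1 : HasFDerivAt (fun y => bil (G y) v v)
      ((fderiv ℝ (En G) (y, v)).comp (ContinuousLinearMap.inl ℝ (V n) (V n))) y :=
    HasFDerivAt.comp (f := fun y => (y, v)) (g := En G) y hD (hasFDerivAt_prodMk_left y v)
  have h2 : HasFDerivAt (fun v => bil (G y) v v)
      ((fderiv ℝ (En G) (y, v)).comp (ContinuousLinearMap.inr ℝ (V n) (V n))) v :=
    HasFDerivAt.comp (f := fun v => (y, v)) (g := En G) v hD (hasFDerivAt_prodMk_right y v)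
  have h3 := (bil (G y)).hasFDerivAt.clm_apply (hasFDerivAt_id v)
  have h4 := congrArg (fun T => T w') (h2.unique h3)
  have e : ((w, w') : V n × V n) = (w, 0) + (0, w') := by simp
  rw [e, map_add, h1.fderiv]
  simp only [ContinuousLinearMap.comp_apply, ContinuousLinearMap.inr_apply,
    ContinuousLinearMap.add_apply, ContinuousLinearMap.flip_apply, id,
    ContinuousLinearMap.id_apply] at h4
  rw [h4, bil_symm (hG.pos y) w' v]
  simp only [ContinuousLinearMap.comp_apply, ContinuousLinearMap.inl_apply]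
  ring

end TAY

open TAY in
theorem stTAY : St_TAY := by
  intro n G y a b ε hG hε hy
  have hc : ContinuousOn (fun t => ((y t, deriv y t) : V n × V n)) (Icc a b) := fun t ht =>
    ((hy t ht).1.continuousAt.prodMk
      (MP_3eff7f_gt_h14.hasDerivAt_deriv_of_two (hy t ht).1).continuousAt).continuousWithinAt
  obtain ⟨R0, hR0⟩ := isCompact_Icc.exists_bound_of_continuousOn hc
  set m : ℝ := max 1 (1 / ε) with hm
  have hm1 : 1 ≤ m := le_max_left _ _
  have hm2 : 1 / ε ≤ m := le_max_right _ _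
  obtain ⟨L, hL0, hL⟩ := taylor (contDiff_En hG) (max R0 m)
  refine ⟨L * m ^ 2 * (b - a), fun t₁ t₂ h1 h12 h2 Δ hΔ => ?_⟩
  have hlt : 0 < t₂ - t₁ := by linarith
  have hle : t₁ ≤ t₂ := by linarith
  have hsub : Icc t₁ t₂ ⊆ Icc a b := Icc_subset_Icc h1 h2
  have hc' := hc.mono hsub
  set w : ℝ → V n := fun t => ((t₂ - t) / (t₂ - t₁)) • Δ with hw
  set w' : V n := -((1 / (t₂ - t₁)) • Δ) with hw'
  have hwd : ∀ t, HasDerivAt w w' t := fun t => by
    have h := (((hasDerivAt_id t).const_sub t₂).div_const (t₂ - t₁)).smul_const Δ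
    have e : (-1 / (t₂ - t₁)) • Δ = w' := by rw [hw', neg_div, neg_smul]
    rw [← e]
    exact h
  have hwc : Continuous w := continuous_iff_continuousAt.2 fun t => (hwd t).continuousAt
  have hh : ∀ t ∈ Icc t₁ t₂, ‖((w t, w') : V n × V n)‖ ≤ m * ‖Δ‖ := fun t ht => by
    rw [Prod.norm_mk, max_le_iff]
    constructor
    · rw [hw]
      simp only [norm_smul, Real.norm_eq_abs]
      refine mul_le_mul_of_nonneg_right ?_ (norm_nonneg _)
      rw [abs_of_nonneg (div_nonneg (by linarith [ht.2]) hlt.le)]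
      exact ((div_le_one hlt).2 (by linarith [ht.1])).trans hm1
    · rw [hw', norm_neg, norm_smul, Real.norm_eq_abs]
      refine mul_le_mul_of_nonneg_right ?_ (norm_nonneg _)
      rw [abs_of_pos (one_div_pos.2 hlt)]
      exact (one_div_le_one_div_of_le hε (by linarith)).trans hm2
  have hpt : ∀ t ∈ Icc t₁ t₂, En G ((y t, deriv y t) + (w t, w')) ≤
      En G (y t, deriv y t) + fderiv ℝ (En G) (y t, deriv y t) (w t, w') +
        L * m ^ 2 * ‖Δ‖ ^ 2 := fun t ht => by
    have h3 := hh t ht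
    have h4 : m * ‖Δ‖ ≤ m := mul_le_of_le_one_right (by linarith) hΔ
    refine (hL _ _ ((hR0 t (hsub ht)).trans (le_max_left _ _))
      ((h3.trans h4).trans (le_max_right _ _))).trans ?_
    have h5 : ‖((w t, w') : V n × V n)‖ ^ 2 ≤ (m * ‖Δ‖) ^ 2 :=
      pow_le_pow_left₀ (norm_nonneg _) h3 2
    have h6 := mul_le_mul_of_nonneg_left h5 hL0
    nlinarith
  have hE := (contDiff_En hG).continuous
  have hDc : Continuous (fderiv ℝ (En G)) := (contDiff_En hG).continuous_fderiv (by norm_num)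
  have hww : Continuous fun t => ((w t, w') : V n × V n) := hwc.prodMk continuous_const
  have i1 : IntervalIntegrable (fun t => En G ((y t, deriv y t) + (w t, w'))) volume t₁ t₂ :=
    (hE.comp_continuousOn (hc'.add hww.continuousOn)).intervalIntegrable_of_Icc hle
  have i2 : IntervalIntegrable (fun t => En G (y t, deriv y t)) volume t₁ t₂ :=
    (hE.comp_continuousOn hc').intervalIntegrable_of_Icc hle
  have i3 : IntervalIntegrable (fun t => fderiv ℝ (En G) (y t, deriv y t) (w t, w'))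
      volume t₁ t₂ :=
    ((hDc.comp_continuousOn hc').clm_apply hww.continuousOn).intervalIntegrable_of_Icc hle
  have hftc : ∫ t in t₁..t₂, fderiv ℝ (En G) (y t, deriv y t) (w t, w') =
      2 * bil (G (y t₂)) (deriv y t₂) (w t₂) - 2 * bil (G (y t₁)) (deriv y t₁) (w t₁) := by
    refine intervalIntegral.integral_eq_sub_of_hasDerivAt
      (f := fun s => 2 * bil (G (y s)) (deriv y s) (w s)) (fun t ht => ?_) i3
    rw [uIcc_of_le hle] at ht
    have h := ((hy t (hsub ht)).2.el hG.sm hG.pos (hy t (hsub ht)).1 (hwd t)).const_mul 2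
    rw [fderiv_En hG]
    refine h.congr_deriv ?_
    ring
  have w1 : w t₁ = Δ := by rw [hw]; simp only [div_self hlt.ne', one_smul]
  have w2 : w t₂ = 0 := by rw [hw]; simp only [sub_self, zero_div, zero_smul]
  rw [w1, w2, map_zero] at hftc
  have hmono := intervalIntegral.integral_mono_on hle i1 ((i2.add i3).add intervalIntegrable_const)
    hpt
  rw [intervalIntegral.integral_add (i2.add i3) intervalIntegrable_const,
    intervalIntegral.integral_add i2 i3, hftc, intervalIntegral.integral_const, smul_eq_mul] at hmono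
  have e1 : (fun t => bil (G (y t + ((t₂ - t) / (t₂ - t₁)) • Δ))
      (deriv y t - (1 / (t₂ - t₁)) • Δ) (deriv y t - (1 / (t₂ - t₁)) • Δ)) =
      fun t => En G ((y t, deriv y t) + (w t, w')) := by
    funext t
    simp only [En, Prod.mk_add_mk, hw, hw', sub_eq_add_neg]
  have h7 : (t₂ - t₁) * (L * m ^ 2 * ‖Δ‖ ^ 2) ≤ (b - a) * (L * m ^ 2 * ‖Δ‖ ^ 2) :=
    mul_le_mul_of_nonneg_right (by linarith) (by positivity)
  rw [e1]
  have e2 : ∫ t in t₁..t₂, En G (y t, deriv y t) =
      ∫ t in t₁..t₂, bil (G (y t)) (deriv y t) (deriv y t) := rfl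
  rw [e2] at hmono
  linarith

end Pool.Agent.Lib.RG
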