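import Pool.Agent.Lib.RG.Base

/-! Lemma A of the paper (no gap). -/

set_option autoImplicit false

open Set Filter Topology Metric

namespace Pool.Agent.Lib.RG

open Pool.Agent.Lib.MP_3eff7f_gt

namespace WIN

variable {X : Type} [MetricSpace X]

/-- A polygon through given points, with duration `a` per edge. -/
theorem exists_poly {r : ℝ} (G : GeoData X r) {a : ℝ} (ha : 0 ≤ a) (y : ℤ → X)
    (hy : ∀ i, dist (y i) (y (i + 1)) ≤ a) (n : ℕ) :
    ∃ P : ℝ → X, MP (y 0) (y n) (n * a) P ∧ ∀ i : ℕ, i ≤ n → P (i * a) = y i := by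
  induction n with
  | zero =>
    refine ⟨fun _ => y 0, by simpa using MP.const (y 0) le_rfl, fun i hi => ?_⟩
    obtain rfl : i = 0 := by omega
    simp
  | succ n ih =>
    obtain ⟨P, hP, hv⟩ := ih
    have hs : MP (y n) (y (n + 1)) a (seg (y n) (y (n + 1))) := MP.of_seg G (hy n)
    have hc := hP.cat hs
    have e : ((n + 1 : ℕ) : ℝ) * a = n * a + a := by push_cast; ring
    refine ⟨cat (n * a) P (seg (y n) (y (n + 1))), ?_, fun i hi => ?_⟩
    · rw [e]
      exact_mod_cast hc
    · rcases Nat.lt_succ_iff_lt_or_eq.1 (Nat.lt_succ_of_le hi) with h | rfl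
      · have h' : i ≤ n := by omega
        have h2 : (i : ℝ) * a ≤ n * a := mul_le_mul_of_nonneg_right (by exact_mod_cast h') ha
        rw [cat_of_le h2, hv i h']
      · rw [e, hc.last]
        push_cast
        rfl

/-- Paths that are close at the sample times are uniformly close. -/
theorem close {a δ : ℝ} (ha : 0 < a) {N : ℕ} {b c d e : X} {P Q : ℝ → X}
    (hP : MP b c (N * a) P) (hQ : MP d e (N * a) Q)
    (h : ∀ i : ℕ, i ≤ N → dist (P (i * a)) (Q (i * a)) ≤ δ) (t : ℝ) :
    dist (P t) (Q t) ≤ δ + 2 * a := by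
  rcases le_total t 0 with h0 | h0
  · have := h 0 (Nat.zero_le _)
    simp only [Nat.cast_zero, zero_mul, hP.zero, hQ.zero] at this
    rw [hP.left t h0, hQ.left t h0]
    linarith
  rcases le_total ((N : ℝ) * a) t with h1 | h1
  · have := h N le_rfl
    rw [hP.last, hQ.last] at this
    rw [hP.right t h1, hQ.right t h1]
    linarith
  have hq : 0 ≤ t / a := div_nonneg h0 ha.le
  have f1 : (⌊t / a⌋₊ : ℝ) ≤ t / a := Nat.floor_le hq
  have f2 : t / a < ⌊t / a⌋₊ + 1 := Nat.lt_floor_add_one _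
  have f3 : ⌊t / a⌋₊ ≤ N := by
    have : t / a ≤ N := by rwa [div_le_iff₀ ha]
    exact Nat.floor_le_of_le this
  rw [le_div_iff₀ ha] at f1
  rw [div_lt_iff₀ ha] at f2
  have g1 := hP.lip t (⌊t / a⌋₊ * a)
  have g2 := hQ.lip (⌊t / a⌋₊ * a) t
  rw [abs_of_nonneg (by linarith)] at g1
  rw [abs_of_nonpos (by linarith)] at g2
  have g3 := dist_triangle4 (P t) (P (⌊t / a⌋₊ * a)) (Q (⌊t / a⌋₊ * a)) (Q t)
  have g4 := h _ f3
  linarith

/-- Sampling a loop. -/
theorem exists_sample {x : X} {a : ℝ} (ha : 0 ≤ a) {N : ℕ} (hN : 0 < N) {g : ℝ → X}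
    (hg : MP x x (N * a) g) :
    ∃ y ∈ XS (id : X → X) N a, ∀ i : ℕ, i ≤ N → y i = g (i * a) := by
  have hN' : (0 : ℤ) < N := by exact_mod_cast hN
  refine ⟨fun i => g (((i % N : ℤ) : ℝ) * a), ⟨fun i => by simp, fun i => ?_⟩, fun i hi => ?_⟩
  · have h0 := Int.emod_nonneg i hN'.ne'
    have h1 := Int.emod_lt_of_pos i hN'
    have h2 := Int.emod_add_mul_ediv i N
    by_cases h : i % N + 1 < N
    · have e : (i + 1) / N = i / N ∧ (i + 1) % N = i % N + 1 := by
        rw [Int.ediv_emod_unique hN']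
        exact ⟨by linarith, by linarith, h⟩
      simp only [e.2]
      refine (hg.lip _ _).trans_eq ?_
      push_cast
      rw [abs_of_nonpos (by linarith)]
      ring
    · have h3 : i % N + 1 = N := by omega
      have e : (i + 1) / N = i / N + 1 ∧ (i + 1) % N = 0 := by
        rw [Int.ediv_emod_unique hN']
        exact ⟨by linarith, le_rfl, hN'⟩
      simp only [e.2]
      have e2 : g (((0 : ℤ) : ℝ) * a) = g (N * a) := by
        rw [hg.last]
        simpa using hg.zero
      rw [e2]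
      refine (hg.lip _ _).trans_eq ?_
      have h4 : ((i % N : ℤ) : ℝ) = N - 1 := by
        have : i % N = N - 1 := by omega
        rw [this]
        push_cast
        ring
      rw [h4, abs_of_nonpos (by linarith)]
      ring
  · rcases hi.lt_or_eq with h | rfl
    · have : ((i : ℤ) % N) = i := Int.emod_eq_of_lt (by omega) (by exact_mod_cast h)
      simp only [this]
      norm_cast
    · simp only [Int.emod_self]
      rw [hg.last]
      simpa using hg.zero

theorem dist_le_of_En {N : ℕ} {y : ℤ → X} {s : ℝ} (hs : 0 ≤ s) (h : En N y < s ^ 2) (i : ℕ)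
    (hi : i ≤ N) : dist (y 0) (y i) ≤ i * s := by
  induction i with
  | zero => simp
  | succ i ih =>
    have h1 := ih (by omega)
    have h2 : dist (y i) (y (i + 1)) ^ 2 ≤ En N y :=
      Finset.single_le_sum (f := fun j : ℕ => dist (y j) (y (j + 1)) ^ 2)
        (fun _ _ => sq_nonneg _) (Finset.mem_range.2 (by omega))
    have h3 : dist (y i) (y (i + 1)) ≤ s := abs_le_of_sq_le_sq' (h2.trans h.le) hs |>.2
    have h4 := dist_triangle (y 0) (y i) (y (i + 1))
    push_cast
    linarith

/-- Some loop of duration `ρ` becomes null-homotopic in the window `[L, L + η]`. -/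
theorem window [CompactSpace X] {r : ℝ} (G : GeoData X r) {ρ η L : ℝ} {x : X} {g : ℝ → X}
    (hη : 0 < η) (hno : ¬ HasShortGeodesic X ρ) (hg : MP x x ρ g) (hN : ¬ Nul x L g)
    (hL : ρ ≤ L) : ∃ (b : X) (c : ℝ → X), MP b b ρ c ∧ ¬ Nul b L c ∧ Nul b (L + η) c := by
  have hr := G.pos
  have hρ0 := hg.nn
  rcases hρ0.eq_or_lt with h0 | hρ
  · exfalso
    apply hN
    have : g = fun _ => x := by
      funext t
      rcases le_total t 0 with ht | ht
      · exact hg.left t ht
      · exact hg.right t (by linarith)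
    rw [this]
    exact Nul.const x (by linarith)
  by_contra hcon
  have hm : 0 < min (η / 6) (r / 6) := lt_min (by linarith) (by linarith)
  obtain ⟨N, hNgt⟩ := exists_nat_gt (ρ / min (η / 6) (r / 6))
  have hNr : (0 : ℝ) < N := (div_pos hρ hm).trans hNgt
  have hN0 : 0 < N := by exact_mod_cast hNr
  obtain ⟨a, ha, rfl⟩ : ∃ a : ℝ, a < min (η / 6) (r / 6) ∧ ρ = N * a := by
    refine ⟨ρ / N, ?_, by field_simp⟩
    rw [div_lt_iff₀ hm] at hNgt
    rw [div_lt_iff₀ hNr]
    linarith
  have ha0 : 0 < a := by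
    by_contra h
    have := mul_nonneg hNr.le (neg_nonneg.2 (le_of_not_gt h))
    linarith
  have haη : 6 * a ≤ η := by linarith [min_le_left (η / 6) (r / 6)]
  have har : 6 * a ≤ r := by linarith [min_le_right (η / 6) (r / 6)]
  have pass : ∀ (b : X) (c : ℝ → X) (b' : X) (c' : ℝ → X), MP b b (N * a) c → MP b' b' (N * a) c' →
      (∀ i : ℕ, i ≤ N → dist (c (i * a)) (c' (i * a)) ≤ a) → ¬ Nul b L c → ¬ Nul b' L c' := by
    intro b c b' c' hc hc' hd hn hn'
    refine hcon ⟨b, c, hc, hn, ?_⟩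
    exact (Nul.of_close G hc hc' (ε := a + 2 * a) (by linarith) (close ha0 hc hc' hd) hn' hL).mono
      (by linarith)
  obtain ⟨y, hy, hyv⟩ := exists_sample ha0.le hN0 hg
  have hmem : ∀ k, Phi^[k] y ∈ XS (id : X → X) N a :=
    G.iterate_mem isometry_id (by linarith) hy
  have hpoly : ∀ k, ∃ P : ℝ → X, MP (Phi^[k] y 0) (Phi^[k] y 0) (N * a) P ∧
      ∀ i : ℕ, i ≤ N → P (i * a) = Phi^[k] y i := by
    intro k
    obtain ⟨P, hP, hv⟩ := exists_poly G ha0.le _ (hmem k).2 N
    have := (hmem k).1 0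
    rw [zero_add, id] at this
    rw [this] at hP
    exact ⟨P, hP, hv⟩
  choose P hP hv using hpoly
  have hall : ∀ k, ¬ Nul (Phi^[k] y 0) L (P k) := by
    intro k
    induction k with
    | zero =>
      refine pass _ _ _ _ hg (hP 0) (fun i hi => ?_) hN
      rw [hv 0 i hi, Function.iterate_zero_apply, hyv i hi, dist_self]
      exact ha0.le
    | succ k ih =>
      refine pass _ _ _ _ (hP k) (hP (k + 1)) (fun i hi => ?_) ih
      rw [hv k i hi, hv (k + 1) i hi, Function.iterate_succ_apply']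
      have h1 := G.dist_left_mid (Phi^[k] y i) (Phi^[k] y (i + 1))
      have h2 := (hmem k).2 i
      show dist _ (mid _ _) ≤ a
      linarith
  obtain ⟨K, hK⟩ := G.exists_iterate_small hρ.le hno hN0 (a := a) (by linarith)
    (η := (a / N) ^ 2) (by positivity)
  have hlen : Len N y ≤ N * a := by
    unfold Len
    calc ∑ i ∈ Finset.range N, dist (y i) (y (i + 1)) ≤ ∑ _i ∈ Finset.range N, a :=
          Finset.sum_le_sum fun i _ => hy.2 i
      _ = N * a := by simp
  have hE := hK y hy hlen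
  refine pass _ _ _ _ (hP K) (MP.const (Phi^[K] y 0) hρ.le) (fun i hi => ?_) (hall K)
    (Nul.const _ (by linarith))
  rw [hv K i hi, dist_comm]
  refine (dist_le_of_En (by positivity) hE i hi).trans ?_
  have : (i : ℝ) ≤ N := by exact_mod_cast hi
  calc (i : ℝ) * (a / N) ≤ N * (a / N) := mul_le_mul_of_nonneg_right this (by positivity)
    _ = a := by field_simp

end WIN

theorem stWIN : St_WIN := by
  intro X _ _ r G D ρ η lam L x g hD hη hno hg hN h1 h2
  have hD0 : 0 ≤ D := dist_nonneg.trans (hD x x)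
  obtain ⟨b, c, hc, hn, hn'⟩ := WIN.window G (L := L + 2 * D) hη hno hg
    (fun h => hN (h.mono h2)) (by linarith)
  have hs : MP x b D (seg x b) := MP.of_seg G (hD x b)
  refine ⟨cat D (seg x b) (cat ρ c (rev D (seg x b))), (hs.cat (hc.cat hs.rev)).mono (by linarith),
    fun h => hn ((Nul.of_conj hs hc h (by linarith)).mono (by linarith)),
    (Nul.conj hs hc hn' (by linarith)).mono (by linarith)⟩

end Pool.Agent.Lib.RG
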