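import Pool.Agent.Lib.RG.ASM2
import Pool.Agent.Lib.RG.AREA
import Pool.Agent.Lib.RG.BALL
import Pool.Agent.Lib.RG.BISH
import Pool.Agent.Lib.RG.BNUL
import Pool.Agent.Lib.RG.CMP
import Pool.Agent.Lib.RG.CONJ
import Pool.Agent.Lib.RG.CUT
import Pool.Agent.Lib.RG.EXP
import Pool.Agent.Lib.RG.FLO
import Pool.Agent.Lib.RG.GAU
import Pool.Agent.Lib.RG.GAU0
import Pool.Agent.Lib.RG.INI
import Pool.Agent.Lib.RG.JAC
import Pool.Agent.Lib.RG.LIFT
import Pool.Agent.Lib.RG.LM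
import Pool.Agent.Lib.RG.LOC
import Pool.Agent.Lib.RG.MAT
import Pool.Agent.Lib.RG.MIN
import Pool.Agent.Lib.RG.RAW1
import Pool.Agent.Lib.RG.RAW2
import Pool.Agent.Lib.RG.TAY
import Pool.Agent.Lib.RG.WIN

/-! The analytic blocks put together. -/

set_option autoImplicit false

namespace Pool.Agent.Lib.RG

theorem finLOC : St_LOC := stLOC stFLO stGAU0

theorem finBISH : St_BISH :=
  stBISH (stGAU stGAU0) stINI (stCONJ stTAY (stGAU stGAU0)) stJAC stMAT stCMP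

end Pool.Agent.Lib.RG
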