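import Pool.Agent.Lib.RG.Base

/-! Block GLUE: local contractions glue to a contraction. -/

set_option autoImplicit false

open Set Filter Topology Metric

namespace Pool.Agent.Lib.RG

open Pool.Agent.Lib.MP_3eff7f_gt

namespace GLUE

variable {X : Type} [MetricSpace X]

/-- Families of paths from the parameter to `x`. -/
def Ends (x : X) {W : Set X} (φ : W × ℝ → X) : Prop :=
  ∀ (w : W) (t : ℝ), (t ≤ 0 → φ (w, t) = w) ∧ (1 ≤ t → φ (w, t) = x)

/-- `K` can be contracted to `x` inside `X`. -/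
def Contr (x : X) (K : Set X) : Prop :=
  ∃ F : X × ℝ → X, ContinuousOn F (K ×ˢ univ) ∧
    ∀ y ∈ K, ∀ t : ℝ, (t ≤ 0 → F (y, t) = y) ∧ (1 ≤ t → F (y, t) = x)

theorem contOn_dite {K : Set X} [∀ y, Decidable (y ∈ K)] (F : K × ℝ → X) (hF : Continuous F) (d : X × ℝ → X) :
    ContinuousOn (fun z : X × ℝ => if h : z.1 ∈ K then F (⟨z.1, h⟩, z.2) else d z)
      (K ×ˢ univ) := by
  rw [continuousOn_iff_continuous_domRestrict]
  have h1 : Continuous fun z : (K ×ˢ (univ : Set ℝ) : Set (X × ℝ)) =>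
      F (⟨z.1.1, z.2.1⟩, z.1.2) :=
    hF.comp (((continuous_fst.comp continuous_subtype_val).subtype_mk _).prodMk
      (continuous_snd.comp continuous_subtype_val))
  refine h1.congr fun z => ?_
  have hz : z.1.1 ∈ K := z.2.1
  show _ = if h : z.1.1 ∈ K then F (⟨z.1.1, h⟩, z.1.2) else d z.1
  rw [dif_pos hz]

theorem Contr.of_sub {x : X} {K : Set X} (F : K × ℝ → X) (hF : Continuous F) (hE : Ends x F) :
    Contr x K := by
  classical
  refine ⟨_, contOn_dite F hF fun _ => x, fun y hy t => ?_⟩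
  simp only [dif_pos hy]
  exact hE ⟨y, hy⟩ t

theorem cont_sub {K W : Set X} {F : X × ℝ → X} (hF : ContinuousOn F (K ×ˢ univ)) (hW : W ⊆ K) :
    Continuous fun z : W × ℝ => F (z.1, z.2) :=
  hF.comp_continuous (f := fun z : W × ℝ => ((z.1 : X), z.2)) (by fun_prop)
    fun z => ⟨hW z.1.2, mem_univ _⟩

/-- Two families of paths to `x` are homotopic. -/
theorem htp_ends {x : X} {W : Set X}
    (hH : ∀ φ : W × ℝ → X, Continuous φ → Based x φ → Htp (Based x) φ fun _ => x)
    {a b : W × ℝ → X} (ha : Continuous a) (hb : Continuous b) (Ea : Ends x a) (Eb : Ends x b) :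
    Htp (Ends x) a b := by
  let e : W × ℝ → X := fun z => if z.2 ≤ 0 then a (z.1, -z.2) else b z
  have he : Continuous e := by
    refine Continuous.if_le (f := fun z : W × ℝ => z.2) (g := fun _ => 0) ?_ hb continuous_snd
      continuous_const ?_
    · exact ha.comp (f := fun z : W × ℝ => (z.1, -z.2)) (by fun_prop)
    · rintro ⟨w, t⟩ hz
      simp only at hz
      subst hz
      rw [(Ea w _).1 (by simp), (Eb w _).1 le_rfl]
  have e_le : ∀ w t, t ≤ 0 → e (w, t) = a (w, -t) := fun w t h => if_pos h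
  have e_ge : ∀ w t, 0 ≤ t → e (w, t) = b (w, t) := fun w t h => by
    rcases h.eq_or_lt with rfl | h
    · rw [e_le w 0 le_rfl, (Ea w _).1 (by simp), (Eb w _).1 le_rfl]
    · exact if_neg (not_le.2 h)
  have e0 : ∀ w, e (w, 0) = w := fun w => by rw [e_ge w 0 le_rfl, (Eb w _).1 le_rfl]
  have e1 : ∀ w t, 1 ≤ t → e (w, t) = x := fun w t h => by
    rw [e_ge w t (by linarith), (Eb w _).2 h]
  obtain ⟨H, hc, h0, h1, hP⟩ := hH (fun z => e (z.1, 2 * z.2 - 1))
    (he.comp (f := fun z : W × ℝ => (z.1, 2 * z.2 - 1)) (by fun_prop)) (by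
      rintro w t (h | h)
      · show e (w, 2 * t - 1) = x
        rw [e_le w _ (by linarith), (Ea w _).2 (by linarith)]
      · exact e1 w _ (by linarith))
  -- first step: speed up
  have s1 : Htp (Ends x) a fun z => a (z.1, 2 * z.2) := by
    refine ⟨fun s z => a (z.1, (1 + s) * z.2),
      ha.comp (f := fun p : ℝ × W × ℝ => (p.2.1, (1 + p.1) * p.2.2)) (by fun_prop), ?_, ?_,
      fun s hs w t => ⟨fun h => (Ea w _).1 ?_, fun h => (Ea w _).2 ?_⟩⟩
    · funext z
      simp
    · funext z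
      norm_num
    · nlinarith [hs.1]
    · nlinarith [hs.1]
  -- second step: insert the loop
  have s2 : Htp (Ends x) (fun z => e (z.1, max (-2 * max z.2 0) (4 * z.2 - 3)))
      fun z => a (z.1, 2 * z.2) := by
    let cl : ℝ → ℝ := fun s => max 0 (min s 1)
    have hcl : ∀ s, cl s ∈ Icc (0 : ℝ) 1 := fun s =>
      ⟨le_max_left _ _, max_le zero_le_one (min_le_right _ _)⟩
    refine ⟨fun s z => if z.2 ≤ 1 / 2 then a (z.1, 2 * z.2) else H (cl s) (z.1, 2 * z.2 - 1),
      ?_, ?_, ?_, fun s hs w t => ⟨fun h => ?_, fun h => ?_⟩⟩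
    · refine Continuous.if_le (f := fun p : ℝ × W × ℝ => p.2.2) (g := fun _ => 1 / 2) ?_ ?_
        (by fun_prop) continuous_const ?_
      · exact ha.comp (f := fun p : ℝ × W × ℝ => (p.2.1, 2 * p.2.2)) (by fun_prop)
      · exact hc.comp (f := fun p : ℝ × W × ℝ => (cl p.1, p.2.1, 2 * p.2.2 - 1)) (by fun_prop)
      · rintro ⟨s, w, t⟩ hz
        simp only at hz ⊢
        rw [(Ea w _).2 (by linarith), hP _ (hcl s) w _ (Or.inl (by linarith))]
    · funext ⟨w, t⟩
      have c0 : cl 0 = 0 := by simp [cl]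
      simp only [c0, h0]
      split_ifs with h
      · rcases le_total t 0 with h' | h'
        · rw [max_eq_right h', mul_zero, max_eq_left (by linarith), e0, (Ea w _).1 (by linarith)]
        · rw [max_eq_left h', max_eq_left (by linarith), e_le w _ (by linarith)]
          congr 2
          ring
      · rw [max_eq_left (by linarith : (0 : ℝ) ≤ t), max_eq_right (by linarith)]
        congr 2
        ring
    · funext ⟨w, t⟩
      have c1 : cl 1 = 1 := by simp [cl]
      simp only [c1, h1]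
      split_ifs with h
      · rfl
      · rw [(Ea w _).2 (by linarith)]
    · simp only
      rw [if_pos (by linarith), (Ea w _).1 (by linarith)]
    · simp only
      rw [if_neg (by linarith), hP _ (hcl s) w _ (Or.inr (by linarith))]
  -- third step: cancel the spur
  have s3 : Htp (Ends x) (fun z => e (z.1, max (-2 * max z.2 0) (4 * z.2 - 3))) b := by
    refine ⟨fun s z => e (z.1, (1 - s) * max (-2 * max z.2 0) (4 * z.2 - 3) + s * max z.2 0),
      he.comp (f := fun p : ℝ × W × ℝ => (p.2.1,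
        (1 - p.1) * max (-2 * max p.2.2 0) (4 * p.2.2 - 3) + p.1 * max p.2.2 0)) (by fun_prop),
      ?_, ?_, fun s hs w t => ⟨fun h => ?_, fun h => ?_⟩⟩
    · funext z
      simp
    · funext ⟨w, t⟩
      simp only [sub_self, zero_mul, one_mul, zero_add]
      rw [e_ge w _ (le_max_right _ _)]
      rcases le_total t 0 with h' | h'
      · rw [max_eq_right h', (Eb w _).1 le_rfl, (Eb w _).1 h']
      · rw [max_eq_left h']
    · simp only
      rw [max_eq_right h, mul_zero, max_eq_left (by linarith), mul_zero, mul_zero, add_zero, e0]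
    · simp only
      rw [max_eq_left (by linarith : (0 : ℝ) ≤ t), max_eq_right (by linarith)]
      exact e1 w _ (by nlinarith [hs.1, hs.2])
  exact (s1.trans s2.symm).trans s3

/-- Gluing two contractions. -/
theorem Contr.glue {x : X}
    (hH : ∀ W : Set X, IsClosed W → ∀ φ : W × ℝ → X, Continuous φ → Based x φ →
      Htp (Based x) φ fun _ => x)
    {f g : X → ℝ} (hf : Continuous f) (hg : Continuous g) (ha : Contr x {y | f y ≤ 1})
    (hb : Contr x {y | g y ≤ 1}) : Contr x {y | 2 * min (f y) (g y) ≤ 1} := by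
  classical
  obtain ⟨a, ha, Ea⟩ := ha
  obtain ⟨b, hb, Eb⟩ := hb
  let W : Set X := {y | 1 / 2 ≤ f y ∧ f y ≤ 1 ∧ g y ≤ 1 / 2}
  have hW : IsClosed W := (isClosed_le continuous_const hf).inter
    ((isClosed_le hf continuous_const).inter (isClosed_le hg continuous_const))
  have hWa : W ⊆ {y | f y ≤ 1} := fun y hy => hy.2.1
  have hWb : W ⊆ {y | g y ≤ 1} := fun y hy => by
    have := hy.2.2
    show g y ≤ 1
    linarith
  obtain ⟨H, hc, h0, h1, hP⟩ := htp_ends (hH W hW) (cont_sub ha hWa) (cont_sub hb hWb)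
    (fun w t => Ea w (hWa w.2) t) fun w t => Eb w (hWb w.2) t
  let m : X × ℝ → X := fun z =>
    if h : z.1 ∈ W then H (2 * f z.1 - 1) (⟨z.1, h⟩, z.2) else b z
  have hm : ContinuousOn m (W ×ˢ univ) :=
    contOn_dite (fun z : W × ℝ => H (2 * f z.1 - 1) z)
      (hc.comp (f := fun z : W × ℝ => (2 * f z.1 - 1, z)) (by fun_prop)) b
  let F : X × ℝ → X := fun z => if f z.1 ≤ 1 / 2 then a z else m z
  have F1 : ∀ z : X × ℝ, f z.1 ≤ 1 / 2 → F z = a z := fun z hz => if_pos hz
  have F2 : ∀ z : X × ℝ, z.1 ∈ W → F z = m z := fun z hz => by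
    by_cases h : f z.1 ≤ 1 / 2
    · have e : 2 * f z.1 - 1 = 0 := by linarith [hz.1]
      rw [F1 z h]
      simp only [m, dif_pos hz, e, h0]
    · exact if_neg h
  have F3 : ∀ z : X × ℝ, 1 ≤ f z.1 → F z = b z := fun z hz => by
    have : F z = m z := if_neg (by linarith)
    rw [this]
    by_cases h : z.1 ∈ W
    · have e : 2 * f z.1 - 1 = 1 := by linarith [h.2.1]
      simp only [m, dif_pos h, e, h1]
    · exact dif_neg h
  have hcov : ∀ y, 2 * min (f y) (g y) ≤ 1 →
      f y ≤ 1 / 2 ∨ y ∈ W ∨ (1 ≤ f y ∧ g y ≤ 1 / 2) := fun y hy => by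
    rcases le_total (f y) (1 / 2) with h | h
    · exact Or.inl h
    · rcases le_total (f y) (g y) with h' | h'
      · rw [min_eq_left h'] at hy
        exact Or.inl (by linarith)
      · rw [min_eq_right h'] at hy
        rcases le_total (f y) 1 with h2 | h2
        · exact Or.inr (Or.inl ⟨h, h2, by linarith⟩)
        · exact Or.inr (Or.inr ⟨h2, by linarith⟩)
  refine ⟨F, ?_, fun y hy t => ?_⟩
  · have c1 : ContinuousOn F ({y | f y ≤ 1 / 2} ×ˢ univ) :=
      (ha.mono (prod_mono (fun y hy => by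
        have : f y ≤ 1 / 2 := hy
        show f y ≤ 1
        linarith) subset_rfl)).congr fun z hz => F1 z hz.1
    have c2 : ContinuousOn F (W ×ˢ univ) := hm.congr fun z hz => F2 z hz.1
    have c3 : ContinuousOn F ({y | 1 ≤ f y ∧ g y ≤ 1 / 2} ×ˢ univ) :=
      (hb.mono (prod_mono (fun y hy => by
        have := hy.2
        show g y ≤ 1
        linarith) subset_rfl)).congr fun z hz => F3 z hz.1.1
    have k1 : IsClosed ({y | f y ≤ 1 / 2} ×ˢ (univ : Set ℝ)) :=
      (isClosed_le hf continuous_const).prod isClosed_univ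
    have k2 : IsClosed (W ×ˢ (univ : Set ℝ)) := hW.prod isClosed_univ
    have k3 : IsClosed ({y | 1 ≤ f y ∧ g y ≤ 1 / 2} ×ˢ (univ : Set ℝ)) :=
      ((isClosed_le continuous_const hf).inter (isClosed_le hg continuous_const)).prod
        isClosed_univ
    refine (c1.union_of_isClosed (c2.union_of_isClosed c3 k2 k3) k1 (k2.union k3)).mono ?_
    intro z hz
    rcases hcov z.1 hz.1 with h | h | h
    · exact Or.inl ⟨h, mem_univ _⟩
    · exact Or.inr (Or.inl ⟨h, mem_univ _⟩)
    · exact Or.inr (Or.inr ⟨h, mem_univ _⟩)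
  · rcases hcov y hy with h | h | h
    · rw [F1 (y, t) h]
      exact Ea y (by show f y ≤ 1; linarith) t
    · rw [F2 (y, t) h]
      simp only [m, dif_pos h]
      exact hP _ ⟨by linarith [h.1], by linarith [h.2.1]⟩ ⟨y, h⟩ t
    · rw [F3 (y, t) h.1]
      exact Eb y (by show g y ≤ 1; linarith [h.2]) t

/-- Small balls are contractible. -/
theorem contr_ball [CompactSpace X] {r : ℝ} (G : GeoData X r) (x c : X) {K : Set X}
    (hK : ∀ y ∈ K, dist y c < r) : Contr x K := by
  refine Contr.of_sub (fun z : K × ℝ =>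
    if z.2 ≤ 1 / 2 then seg (z.1 : X) c (2 * z.2 * dist (z.1 : X) c)
    else seg c x ((2 * z.2 - 1) * dist c x)) ?_ fun w t => ⟨fun h => ?_, fun h => ?_⟩
  · refine Continuous.if_le (f := fun z : K × ℝ => z.2) (g := fun _ => 1 / 2) ?_ ?_
      continuous_snd continuous_const ?_
    · exact G.continuousOn_seg.comp_continuous
        (f := fun z : K × ℝ => ((z.1 : X), c, 2 * z.2 * dist (z.1 : X) c)) (by fun_prop)
        fun z => hK _ z.1.2
    · exact (MP.of_seg G (a := c) (b := x) le_rfl).continuous.comp (by fun_prop)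
    · rintro ⟨w, t⟩ hz
      simp only at hz ⊢
      subst hz
      rw [(G.seg_spec _ _).2.2 _ (by norm_num), (G.seg_spec _ _).2.1 _ (by norm_num)]
  · simp only
    rw [if_pos (by linarith)]
    exact (G.seg_spec _ _).2.1 _ (by nlinarith [dist_nonneg (x := (w : X)) (y := c)])
  · simp only
    rw [if_neg (by linarith)]
    exact (G.seg_spec _ _).2.2 _ (by nlinarith [dist_nonneg (x := c) (y := x)])

theorem contr_univ [CompactSpace X] {r : ℝ} (G : GeoData X r) (x : X)
    (hH : ∀ W : Set X, IsClosed W → ∀ φ : W × ℝ → X, Continuous φ → Based x φ →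
      Htp (Based x) φ fun _ => x) : Contr x univ := by
  have hr := G.pos
  have key : ∃ f : X → ℝ, Continuous f ∧ (∀ y ∈ (univ : Set X), f y ≤ 0) ∧
      Contr x {y | f y ≤ 1} := by
    refine isCompact_univ.induction_on
      (p := fun S => ∃ f : X → ℝ, Continuous f ∧ (∀ y ∈ S, f y ≤ 0) ∧ Contr x {y | f y ≤ 1})
      ?_ ?_ ?_ ?_
    · refine ⟨fun _ => 2, continuous_const, fun y hy => absurd hy (notMem_empty y),
        contr_ball G x x fun y hy => ?_⟩
      have : (2 : ℝ) ≤ 1 := hy
      linarith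
    · rintro s t hst ⟨f, hf, h1, h2⟩
      exact ⟨f, hf, fun y hy => h1 y (hst hy), h2⟩
    · rintro s t ⟨f, hf, h1, h2⟩ ⟨g, hg, h3, h4⟩
      refine ⟨fun y => 2 * min (f y) (g y), by fun_prop, ?_, h2.glue hH hf hg h4⟩
      rintro y (hy | hy)
      · linarith [min_le_left (f y) (g y), h1 y hy]
      · linarith [min_le_right (f y) (g y), h3 y hy]
    · intro c _
      refine ⟨ball c (r / 4), mem_nhdsWithin_of_mem_nhds (ball_mem_nhds c (by linarith)),
        fun y => dist y c * (4 / r) - 1, by fun_prop, fun y hy => ?_,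
        contr_ball G x c fun y hy => ?_⟩
      · have h : dist y c < r / 4 := hy
        have : dist y c * (4 / r) ≤ r / 4 * (4 / r) := by gcongr
        have e : r / 4 * (4 / r) = 1 := by field_simp
        linarith
      · have h : dist y c * (4 / r) - 1 ≤ 1 := hy
        by_contra h'
        have : r * (4 / r) ≤ dist y c * (4 / r) := by gcongr; exact not_lt.1 h'
        have e : r * (4 / r) = 4 := by field_simp
        linarith
  obtain ⟨f, -, h1, F, hF, hE⟩ := key
  have hall : ∀ y, y ∈ {y | f y ≤ 1} := fun y => by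
    have := h1 y (mem_univ _)
    show f y ≤ 1
    linarith
  exact ⟨F, hF.mono fun z _ => ⟨hall _, mem_univ _⟩, fun y _ => hE y (hall y)⟩

end GLUE

theorem stGLUE : St_GLUE := by
  intro X _ _ r G x hH p hp
  obtain ⟨ε, hε, hp⟩ := hp
  obtain ⟨F, hF, hE⟩ := GLUE.contr_univ G x hH
  rw [univ_prod_univ, continuousOn_univ] at hF
  have hK : IsCompact ((univ : Set X) ×ˢ Icc (0 : ℝ) 1) := isCompact_univ.prod isCompact_Icc
  obtain ⟨δ, hδ, hu⟩ := Metric.uniformContinuousOn_iff.1
    (hK.uniformContinuousOn_of_continuous hF.continuousOn) ε hε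
  obtain ⟨N, hN⟩ := exists_nat_one_div_lt hδ
  have hN0 : (0 : ℝ) < N + 1 := by positivity
  have hmem : ∀ k : ℕ, min ((k : ℝ) / (N + 1)) 1 ∈ Icc (0 : ℝ) 1 := fun k =>
    ⟨le_min (by positivity) zero_le_one, min_le_right _ _⟩
  obtain ⟨y, hy⟩ := hp (fun k y => F (y, min ((k : ℝ) / (N + 1)) 1))
    (fun k => hF.comp (f := fun y : X => (y, min ((k : ℝ) / (N + 1)) 1)) (by fun_prop))
    (fun y => (hE y (mem_univ _) _).1 (by simp)) (fun k y => by
      refine hu _ ⟨mem_univ _, hmem k⟩ _ ⟨mem_univ _, hmem (k + 1)⟩ ?_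
      rw [Prod.dist_eq, dist_self, max_eq_right dist_nonneg, Real.dist_eq]
      refine (abs_min_sub_min_le_max _ _ _ _).trans_lt ?_
      have e : (k : ℝ) / (N + 1) - ((k + 1 : ℕ) : ℝ) / (N + 1) = -(1 / (N + 1)) := by
        push_cast
        ring
      rw [e, abs_neg, sub_self, abs_zero, abs_of_pos (by positivity),
        max_eq_left (by positivity)]
      exact hN) (N + 1)
  rw [← hy]
  refine (hE y (mem_univ _) _).2 (le_min ?_ le_rfl)
  push_cast
  rw [div_self hN0.ne']

end Pool.Agent.Lib.RG
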