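import Pool.Agent.Lib.RG.Base

/-! Block SHORT: a family of loops is homotopic to a family of short loops. -/

set_option autoImplicit false

open Set Filter Topology Metric

namespace Pool.Agent.Lib.RG

open Pool.Agent.Lib.MP_3eff7f_gt

namespace SHORT

variable {X : Type} [MetricSpace X] {W : Type} [TopologicalSpace W]

noncomputable def cl (t : ℝ) : ℝ := max 0 (min t 1)

@[fun_prop] theorem continuous_cl : Continuous cl := by
  unfold cl
  fun_prop

theorem cl_mem (t : ℝ) : cl t ∈ Icc (0 : ℝ) 1 :=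
  ⟨le_max_left _ _, max_le zero_le_one (min_le_right _ _)⟩

theorem cl_le {t : ℝ} (h : t ≤ 0) : cl t = 0 := max_eq_left ((min_le_left _ _).trans h)

theorem cl_ge {t : ℝ} (h : 1 ≤ t) : cl t = 1 := by
  rw [cl, min_eq_right h, max_eq_right zero_le_one]

theorem cl_mid {t : ℝ} (h0 : 0 ≤ t) (h1 : t ≤ 1) : cl t = t := by
  rw [cl, min_eq_left h1, max_eq_right h0]

omit [MetricSpace X] [TopologicalSpace W] in
theorem based_cl {x : X} {φ : W × ℝ → X} (h : Based x φ) (w : W) (t : ℝ) :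
    φ (w, cl t) = φ (w, t) := by
  rcases le_total t 0 with h0 | h0
  · rw [cl_le h0, h w 0 (Or.inl le_rfl), h w t (Or.inl h0)]
  rcases le_total 1 t with h1 | h1
  · rw [cl_ge h1, h w 1 (Or.inr le_rfl), h w t (Or.inr h1)]
  · rw [cl_mid h0 h1]

theorem spur [CompactSpace X] {r : ℝ} (G : GeoData X r) {x : X} {L e δ : ℝ} (he : 0 ≤ e)
    (hδ : 0 < δ) {d μ : W → ℝ} (hd : Continuous d) (hμ : Continuous μ)
    (hμd : ∀ w, μ w ≠ 0 → d w < δ) {φ : W × ℝ → X} (hφ : Continuous φ) {A : ℝ → ℝ → X}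
    (hA : Continuous fun z : ℝ × ℝ => A z.1 z.2) (hAM : ∀ τ, MP x (A τ L) L (A τ))
    (hcl : ∀ w τ, d w < 2 * δ → dist (φ (w, τ)) (A τ L) ≤ e ∧ dist (φ (w, τ)) (A τ L) < r) :
    ∃ F : W → ℝ → ℝ → X, Continuous (fun p : W × ℝ × ℝ => F p.1 p.2.1 p.2.2) ∧
      (∀ w τ s t, dist (F w τ s) (F w τ t) ≤ |s - t|) ∧
      (∀ w τ t, t ≤ 0 → F w τ t = φ (w, τ)) ∧ ∀ w τ, μ w = 1 → F w τ (L + e) = x := by
  let κ : W → ℝ → ℝ → X := fun w τ => cat e (seg (φ (w, τ)) (A τ L)) (rev L (A τ))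
  have hκ0 : ∀ w τ t, t ≤ 0 → κ w τ t = φ (w, τ) := fun w τ t ht => by
    simp only [κ]
    rw [cat_of_le (ht.trans he)]
    exact (G.seg_spec _ _).2.1 t ht
  have hκ : ∀ w τ, d w < 2 * δ → MP (φ (w, τ)) x (e + L) (κ w τ) := fun w τ h =>
    (MP.of_seg G (hcl w τ h).1).cat (hAM τ).rev
  refine ⟨fun w τ t => κ w τ (min t (μ w * (L + e))), ?_, fun w τ s t => ?_,
    fun w τ t ht => hκ0 _ _ _ ((min_le_left _ _).trans ht), fun w τ hw => ?_⟩
  · rw [continuous_iff_continuousAt]
    intro p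
    by_cases hp : d p.1 < 2 * δ
    · have hO : IsOpen {p : W × ℝ × ℝ | d p.1 < 2 * δ} := isOpen_lt (by fun_prop) continuous_const
      refine ContinuousOn.continuousAt ?_ (hO.mem_nhds hp)
      rw [continuousOn_iff_continuous_domRestrict]
      refine continuous_cat (Z := {p : W × ℝ × ℝ | d p.1 < 2 * δ}) (l := fun _ => e)
        (p := fun z => seg (φ (z.1.1, z.1.2.1)) (A z.1.2.1 L)) (q := fun z => rev L (A z.1.2.1))
        (t := fun z => min z.1.2.2 (μ z.1.1 * (L + e))) continuous_const ?_ ?_ (by fun_prop) ?_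
      · have h1 : Continuous fun z : {p : W × ℝ × ℝ | d p.1 < 2 * δ} × ℝ =>
            ((φ (z.1.1.1, z.1.1.2.1), A z.1.1.2.1 L, z.2) : X × X × ℝ) :=
          (by fun_prop : Continuous fun z : {p : W × ℝ × ℝ | d p.1 < 2 * δ} × ℝ =>
            φ (z.1.1.1, z.1.1.2.1)).prodMk
            ((hA.comp (f := fun z : {p : W × ℝ × ℝ | d p.1 < 2 * δ} × ℝ => (z.1.1.2.1, L))
              (by fun_prop)).prodMk continuous_snd)
        exact G.continuousOn_seg.comp_continuous h1 fun z => (hcl _ _ z.1.2).2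
      · exact hA.comp (f := fun z : {p : W × ℝ × ℝ | d p.1 < 2 * δ} × ℝ => (z.1.1.2.1, L - z.2))
          (by fun_prop)
      · exact fun z => (MP.of_seg G (hcl _ _ z.2).1).join (hAM _).rev
    · have hO : IsOpen {p : W × ℝ × ℝ | δ < d p.1} := isOpen_lt continuous_const (by fun_prop)
      have hmem : p ∈ {p : W × ℝ × ℝ | δ < d p.1} := by
        show δ < d p.1
        linarith
      refine (by fun_prop : Continuous fun p : W × ℝ × ℝ => φ (p.1, p.2.1)).continuousAt.congr ?_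
      filter_upwards [hO.mem_nhds hmem] with p' hp'
      have : μ p'.1 = 0 := by
        by_contra h
        exact absurd (hμd _ h) (not_lt.2 (le_of_lt hp'))
      rw [hκ0]
      rw [this, zero_mul]
      exact min_le_right _ _
  · by_cases hw : μ w = 0
    · simp only [hw, zero_mul]
      rw [hκ0 _ _ _ (min_le_right _ _), hκ0 _ _ _ (min_le_right _ _), dist_self]
      exact abs_nonneg _
    · refine ((hκ w τ (by linarith [hμd w hw])).lip _ _).trans ?_
      simpa using abs_min_sub_min_le_max s (μ w * (L + e)) t (μ w * (L + e))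
  · simp only [hw, one_mul, min_self]
    exact (hκ w τ (by linarith [hμd w (by rw [hw]; exact one_ne_zero)])).right _ (by linarith)

theorem clk_lip {γ : ℝ → X} (h : ∀ s t, dist (γ s) (γ t) ≤ |s - t|) (a b : ℝ) :
    Clk γ a b (b - a) :=
  ⟨id, le_rfl, fun s t _ hst _ => (h s t).trans_eq (by rw [abs_sub_comm, abs_of_nonneg (by linarith)]; rfl)⟩

theorem clk_piece {x : X} {F : ℝ → ℝ → X} (hl : ∀ τ s t, dist (F τ s) (F τ t) ≤ |s - t|)
    {a lam c : ℝ} (hc : 0 ≤ c) (hx : lam ≠ 0 → ∀ τ, F τ c = x) :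
    Clk (fun t => F (a + lam * cl (3 * t - 1)) (c * min (cl (3 * t)) (cl (3 - 3 * t)))) 0 1
      (2 * c) := by
  have h1 : Clk (fun t => F (a + lam * cl (3 * t - 1)) (c * min (cl (3 * t)) (cl (3 - 3 * t))))
      0 (1 / 3) (c - 0) := by
    refine ((clk_lip (hl a) 0 c).comp_mono (σ := fun t => c * (3 * t)) (by norm_num)
      (fun s t _ h _ => by nlinarith) (by simp) (by norm_num)).congr fun t h0 h1 => ?_
    rw [cl_le (by linarith), cl_mid (by linarith) (by linarith), cl_ge (by linarith),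
      min_eq_left (by linarith), mul_zero, add_zero]
  have h2 : Clk (fun t => F (a + lam * cl (3 * t - 1)) (c * min (cl (3 * t)) (cl (3 - 3 * t))))
      (1 / 3) (2 / 3) 0 := by
    refine Clk.of_const fun s t h0 h1 h2 => ?_
    rw [cl_ge (t := 3 * s) (by linarith), cl_ge (t := 3 - 3 * s) (by linarith),
      cl_ge (t := 3 * t) (by linarith), cl_ge (t := 3 - 3 * t) (by linarith), min_self, mul_one]
    by_cases h : lam = 0
    · simp [h]
    · rw [hx h, hx h]
  have h3 : Clk (fun t => F (a + lam * cl (3 * t - 1)) (c * min (cl (3 * t)) (cl (3 - 3 * t))))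
      (2 / 3) 1 (c - 0) := by
    refine ((clk_lip (hl (a + lam)) 0 c).comp_anti (σ := fun t => c * (3 - 3 * t)) (by norm_num)
      (fun s t _ h _ => by nlinarith) (by simp) (by norm_num)).congr fun t h0 h1 => ?_
    rw [cl_ge (t := 3 * t - 1) (by linarith), cl_ge (t := 3 * t) (by linarith),
      cl_mid (by linarith) (by linarith), min_eq_right (by linarith), mul_one]
  exact ((h1.trans (by norm_num) (by norm_num) h2).trans (by norm_num) (by norm_num) h3).mono
    (by linarith)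

theorem family {ι : Type} {x : X} {φ : W × ℝ → X} (hφ : Continuous φ) {μ lam : ι → W → ℝ}
    (hμ : ∀ j, Continuous (μ j)) (hlam : ∀ j, Continuous (lam j)) (hμ0 : ∀ j w, 0 ≤ μ j w)
    (hlm : ∀ j w, lam j w ≠ 0 → μ j w = 1) {c : ℝ} (hc : 0 ≤ c)
    (hF : ∀ j, ∃ F : W → ℝ → ℝ → X, Continuous (fun p : W × ℝ × ℝ => F p.1 p.2.1 p.2.2) ∧
      (∀ w τ s t, dist (F w τ s) (F w τ t) ≤ |s - t|) ∧
      (∀ w τ t, t ≤ 0 → F w τ t = φ (w, τ)) ∧ ∀ w τ, μ j w = 1 → F w τ c = x) (S : Finset ι) :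
    ∃ (Γ : ℝ → W × ℝ → X) (T : W × ℝ → ℝ), Continuous (fun p : ℝ × W × ℝ => Γ p.1 p.2) ∧
      Continuous T ∧ (∀ s w t, t ≤ 0 → Γ s (w, t) = φ (w, 0)) ∧
      (∀ s w t, 1 ≤ t → Γ s (w, t) = φ (w, ∑ j ∈ S, lam j w)) ∧
      (∀ p, Γ 0 p = φ (p.1, T p)) ∧ (∀ w t, t ≤ 0 → T (w, t) = 0) ∧
      (∀ w t, 1 ≤ t → T (w, t) = ∑ j ∈ S, lam j w) ∧
      ∀ w, Clk (fun t => Γ 1 (w, t)) 0 1 (2 * c * ∑ j ∈ S, μ j w) := by
  classical
  induction S using Finset.induction_on with
  | empty =>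
    exact ⟨fun _ p => φ (p.1, 0), fun _ => 0, by fun_prop, continuous_const, fun _ _ _ _ => rfl,
      fun _ _ _ _ => by simp, fun _ => rfl, fun _ _ _ => rfl, fun _ _ _ => by simp,
      fun w => (Clk.of_const fun _ _ _ _ _ => rfl).mono (by simp)⟩
  | insert j S hj ih =>
    obtain ⟨Γ, T, hΓ, hT, g0, g1, gT, t0, t1, gc⟩ := ih
    obtain ⟨F, hFc, hFl, hF0, hFx⟩ := hF j
    have hμj := hμ j
    have hlj := hlam j
    let τ : W × ℝ → ℝ := fun p => ∑ i ∈ S, lam i p.1 + lam j p.1 * cl (3 * p.2 - 1)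
    have hτ : Continuous τ := by
      have := continuous_cl
      simp only [τ]
      fun_prop
    let P : ℝ → W × ℝ → X := fun s p =>
      F p.1 (τ p) (s * (μ j p.1 * c * min (cl (3 * p.2)) (cl (3 - 3 * p.2))))
    have hP : Continuous fun p : ℝ × W × ℝ => P p.1 p.2 :=
      hFc.comp (f := fun p : ℝ × W × ℝ => (p.2.1, τ p.2,
        p.1 * (μ j p.2.1 * c * min (cl (3 * p.2.2)) (cl (3 - 3 * p.2.2))))) (by fun_prop)
    have τ0 : ∀ w t, t ≤ 0 → τ (w, t) = ∑ i ∈ S, lam i w := fun w t h => by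
      simp only [τ]
      rw [cl_le (by linarith), mul_zero, add_zero]
    have τ1 : ∀ w t, 1 ≤ t → τ (w, t) = ∑ i ∈ insert j S, lam i w := fun w t h => by
      simp only [τ]
      rw [cl_ge (by linarith), mul_one, Finset.sum_insert hj, add_comm]
    have P0 : ∀ s w t, t ≤ 0 → P s (w, t) = φ (w, ∑ i ∈ S, lam i w) := fun s w t h => by
      simp only [P]
      rw [τ0 w t h, cl_le (t := 3 * t) (by linarith), min_eq_left (cl_mem _).1, hF0 _ _ _ (by simp)]
    have P1 : ∀ s w t, 1 ≤ t → P s (w, t) = φ (w, ∑ i ∈ insert j S, lam i w) := fun s w t h => by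
      simp only [P]
      rw [τ1 w t h, cl_le (t := 3 - 3 * t) (by linarith), min_eq_right (cl_mem _).1,
        hF0 _ _ _ (by simp)]
    refine ⟨fun s p => if p.2 ≤ 1 / 2 then Γ s (p.1, 2 * p.2) else P s (p.1, 2 * p.2 - 1),
      fun p => if p.2 ≤ 1 / 2 then T (p.1, 2 * p.2) else τ (p.1, 2 * p.2 - 1), ?_, ?_,
      fun s w t h => ?_, fun s w t h => ?_, fun p => ?_, fun w t h => ?_, fun w t h => ?_,
      fun w => ?_⟩
    · refine Continuous.if_le (f := fun p : ℝ × W × ℝ => p.2.2) (g := fun _ => 1 / 2)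
        (hΓ.comp (f := fun p : ℝ × W × ℝ => (p.1, p.2.1, 2 * p.2.2)) (by fun_prop))
        (hP.comp (f := fun p : ℝ × W × ℝ => (p.1, p.2.1, 2 * p.2.2 - 1)) (by fun_prop))
        (by fun_prop) continuous_const fun p hp => ?_
      rw [g1 _ _ _ (by linarith), P0 _ _ _ (by linarith)]
    · refine Continuous.if_le (f := fun p : W × ℝ => p.2) (g := fun _ => 1 / 2) (by fun_prop)
        (by fun_prop) (by fun_prop) continuous_const fun p hp => ?_
      rw [t1 _ _ (by linarith), τ0 _ _ (by linarith)]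
    · exact (if_pos (by linarith)).trans (g0 _ _ _ (by linarith))
    · exact (if_neg (not_le.2 (by linarith))).trans (P1 _ _ _ (by linarith))
    · dsimp only
      split_ifs
      · exact gT _
      · simp only [P]
        rw [hF0 _ _ _ (by simp)]
    · exact (if_pos (by linarith)).trans (t0 _ _ (by linarith))
    · exact (if_neg (not_le.2 (by linarith))).trans (τ1 _ _ (by linarith))
    · have h1 := (gc w).comp_mono (a' := 0) (b' := 1 / 2) (σ := fun t => 2 * t) (by norm_num)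
        (fun s t _ h _ => by linarith) (by norm_num) (by norm_num)
      have h2 := (clk_piece (x := x) (hFl w) (a := ∑ i ∈ S, lam i w) (lam := lam j w)
        (mul_nonneg (hμ0 j w) hc) (fun h τ => by
          rw [hlm j w h, one_mul, hFx w τ (hlm j w h)])).comp_mono (a' := 1 / 2) (b' := 1)
        (σ := fun t => 2 * t - 1) (by norm_num) (fun s t _ h _ => by linarith) (by norm_num)
        (by norm_num)
      refine (Clk.trans (b := 1 / 2) (by norm_num) (by norm_num) (h1.congr fun t _ h => if_pos h)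
        (h2.congr fun t h _ => ?_)).mono (by rw [Finset.sum_insert hj]; linarith)
      have e : P 1 (w, 2 * t - 1) = F w (∑ i ∈ S, lam i w + lam j w * cl (3 * (2 * t - 1) - 1))
          (μ j w * c * min (cl (3 * (2 * t - 1))) (cl (3 - 3 * (2 * t - 1)))) := by
        simp only [P, τ, one_mul]
      rw [← e]
      split_ifs with h'
      · rw [g1 _ _ _ (by linarith), P0 _ _ _ (by linarith)]
      · rfl

end SHORT

open SHORT in
theorem stSHORT : St_SHORT := by
  intro X _ _ r G m hcov x L ε hL hε hlift W hW φ hφ hb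
  have : CompactSpace W := isCompact_iff_compactSpace.1 hW.isCompact
  obtain ⟨η, hη, hηε, hηr⟩ : ∃ η > 0, 2 * η ≤ ε ∧ 2 * η ≤ r :=
    ⟨min (ε / 2) (r / 2), lt_min (by linarith) (by linarith [G.pos]),
      by linarith [min_le_left (ε / 2) (r / 2)], by linarith [min_le_right (ε / 2) (r / 2)]⟩
  obtain ⟨δ, hδ, hu⟩ := Metric.uniformContinuousOn_iff.1
    ((isCompact_univ.prod (isCompact_Icc (a := (0 : ℝ)) (b := 1))).uniformContinuousOn_of_continuous
      hφ.continuousOn) η hη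
  have hu' : ∀ (w w' : W) (t : ℝ), dist w w' < δ → dist (φ (w, t)) (φ (w', t)) < η :=
    fun w w' t h => by
      rw [← based_cl hb w, ← based_cl hb w']
      exact hu _ ⟨trivial, cl_mem t⟩ _ ⟨trivial, cl_mem t⟩ (by simpa [Prod.dist_eq, hδ] using h)
  obtain ⟨ι, _, q, μ, lam, hμc, hlc, hμ0, hlm, hμq, hl1, hμm⟩ := hcov (δ / 4) (by linarith)
  obtain ⟨Γ, T, hΓ, hT, g0, g1, gT, t0, t1, gc⟩ := family (x := x) hφ
    (μ := fun j (w : W) => μ j w) (lam := fun j (w : W) => lam j w)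
    (fun j => (hμc j).comp continuous_subtype_val) (fun j => (hlc j).comp continuous_subtype_val)
    (fun j w => hμ0 j w) (fun j w => hlm j w) (c := L + ε) (by linarith) (fun j => by
      by_cases hj : ∃ w0 : W, dist (w0 : X) (q j) < 2 * (δ / 4)
      · obtain ⟨w0, hw0⟩ := hj
        obtain ⟨A, hA, hAM⟩ := hlift (fun t => φ (w0, t)) (by fun_prop) η hη
        refine spur G hε.le (δ := δ / 4) (by linarith) (d := fun w : W => dist (w : X) (q j))
          (by fun_prop) ((hμc j).comp continuous_subtype_val) (fun w => hμq j w) hφ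
          (A := fun τ => A (cl τ))
          (hA.comp (f := fun z : ℝ × ℝ => (cl z.1, z.2)) (by fun_prop))
          (fun τ => (hAM _ (cl_mem τ)).1) fun w τ hw => ?_
        have h1 := (hAM _ (cl_mem τ)).2
        simp only [based_cl hb] at h1
        have h2 := hu' w w0 τ (by
          have := dist_triangle_right (w : X) w0 (q j)
          rw [Subtype.dist_eq]
          linarith)
        have h3 := dist_triangle_right (φ (w, τ)) (A (cl τ) L) (φ (w0, τ))
        constructor <;> linarith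
      · refine ⟨fun w τ _ => φ (w, τ), by fun_prop, fun _ _ _ _ => by simp, fun _ _ _ _ => rfl,
          fun w τ hw => absurd ⟨w, ?_⟩ hj⟩
        linarith [hμq j w (by rw [hw]; exact one_ne_zero)]) Finset.univ
  refine ⟨Γ 1, Htp.trans (g := Γ 0) ⟨fun u p => φ (p.1, (1 - u) * p.2 + u * T p), by fun_prop,
    by simp, by funext p; simp [gT], fun u hu w t ht => hb _ _ ?_⟩
    ⟨Γ, hΓ, rfl, rfl, fun s _ w t ht => ?_⟩, fun w => (gc w).mono ?_⟩
  · rcases ht with ht | ht
    · left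
      rw [t0 w t ht]
      nlinarith [hu.1, hu.2]
    · right
      rw [t1 w t ht, hl1]
      nlinarith [hu.1, hu.2]
  · rcases ht with ht | ht
    · rw [g0 s w t ht, hb w 0 (Or.inl le_rfl)]
    · rw [g1 s w t ht, hl1, hb w 1 (Or.inr le_rfl)]
  · nlinarith [hμm w]

end Pool.Agent.Lib.RG
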